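import Pool.Agent.Lib.MP_cbe5a6_an.Tab
import Pool.Agent.Lib.MP_cbe5a6_an.ChkS
import Pool.Agent.Lib.MP_cbe5a6_an.ChkM

/-! The two approximate solutions satisfy the residual bounds. -/

set_option autoImplicit false

namespace Pool.Agent.Lib.MP_cbe5a6_an

open Set

noncomputable def DD : ℝ := ((2 ^ 320 : ℕ) : ℝ)

lemma DD_pos : 0 < DD := by unfold DD; positivity

lemma le_DD (k a b : ℕ) (h : k * 10 ^ b ≤ a * 2 ^ 320) : (k : ℝ) ≤ (a / 10 ^ b) * DD := by
  have h1 := (Nat.cast_le (α := ℝ)).2 h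
  rw [Nat.cast_mul, Nat.cast_mul, Nat.cast_pow 10, Nat.cast_ofNat] at h1
  rw [DD, div_mul_eq_mul_div, le_div_iff₀ (by positivity)]
  exact h1

lemma ev_head (l : List ℤ) (a : ℤ) (h : l.head? = some a) (s : ℝ) :
    ev l s = a + s * ev l.tail s := by
  cases l with
  | nil => simp at h
  | cons b l => simp at h; simp [h]

theorem appS : App 1 qS cS (vA dAs dps DD) (vA1 dAs dps DD) (vA2 dAs dps DD)
    (lp rs0 qs0 DD) (lp rs1 qs1 DD) (lp rs2 qs2 DD) (1 / 10 ^ 15) (1 / 10 ^ 13) (1 / 10 ^ 11) := by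
  refine app_of_lists 1 DD DD_pos qS cS [-8, -14, 3] [-2, 1] [-7, 2] dAs dps rs0 qs0 rs1 qs1 rs2 qs2
    _ _ _ ?_ ?_ ?_ ?_ (by decide +kernel) (by decide +kernel) (by decide +kernel)
    (by decide +kernel) (by decide +kernel) (by decide +kernel) (by decide +kernel)
    (by decide +kernel) ?_ ?_ ?_
  · intro s; simp only [qS, ev_cons, ev_nil]; push_cast; ring
  · intro s; simp only [cS, ev_cons, ev_nil]; push_cast; ring
  · intro s; simp only [qS, ev_cons, ev_nil]; push_cast; ring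
  · intro s
    rw [ev_head dAs ((2 ^ 320 : ℕ) : ℤ) (by decide +kernel) s, Int.cast_natCast, one_mul, DD]
  · intro s hs h0
    refine lp_bound _ _ _ _ es0 DD_pos ?_ s (bs0 s hs h0)
    simpa using le_DD es0 1 15 (by decide +kernel)
  · intro s hs h0
    refine lp_bound _ _ _ _ es1 DD_pos ?_ s (bs1 s hs h0)
    simpa using le_DD es1 1 13 (by decide +kernel)
  · intro s hs h0
    refine lp_bound _ _ _ _ es2 DD_pos ?_ s (bs2 s hs h0)
    simpa using le_DD es2 1 11 (by decide +kernel)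

theorem appM : App (-1) qM cM (vA dAm dpm DD) (vA1 dAm dpm DD) (vA2 dAm dpm DD)
    (lp rm0 qm0 DD) (lp rm1 qm1 DD) (lp rm2 qm2 DD) (4 / 10 ^ 12) (2 / 10 ^ 10) (1 / 10 ^ 8) := by
  refine app_of_lists (-1) DD DD_pos qM cM [-8, -38, 6] [-30, 6] [-31, 5] dAm dpm rm0 qm0 rm1 qm1
    rm2 qm2 _ _ _ ?_ ?_ ?_ ?_ (by decide +kernel) (by decide +kernel) (by decide +kernel)
    (by decide +kernel) (by decide +kernel) (by decide +kernel) (by decide +kernel)
    (by decide +kernel) ?_ ?_ ?_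
  · intro s; simp only [qM, ev_cons, ev_nil]; push_cast; ring
  · intro s; simp only [cM, ev_cons, ev_nil]; push_cast; ring
  · intro s; simp only [qM, ev_cons, ev_nil]; push_cast; ring
  · intro s
    rw [ev_head dAm (-((2 ^ 320 : ℕ) : ℤ)) (by decide +kernel) s, Int.cast_neg, Int.cast_natCast,
      neg_one_mul, DD]
  · intro s hs h0
    refine lp_bound _ _ _ _ em0 DD_pos ?_ s (bm0 s hs h0)
    simpa using le_DD em0 4 12 (by decide +kernel)
  · intro s hs h0
    refine lp_bound _ _ _ _ em1 DD_pos ?_ s (bm1 s hs h0)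
    simpa using le_DD em1 2 10 (by decide +kernel)
  · intro s hs h0
    refine lp_bound _ _ _ _ em2 DD_pos ?_ s (bm2 s hs h0)
    simpa using le_DD em2 1 8 (by decide +kernel)

theorem appT (s : ℝ) (hs : s ∈ Ioo (0 : ℝ) 8) :
    |2 * (s + 1) ^ 2 * vA dAm dpm DD s - (s - 2) * vA dAs dps DD s
      - s * (s - 8) * vA1 dAs dps DD s| ≤ 1 / 10 ^ 13 := by
  rw [til_eq _ _ _ _ _ _ hs.1.ne', (by decide +kernel : tilr dAs dAm = rt),
    (by decide +kernel : tilq dAs dps dpm = qt)]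
  refine lp_bound _ _ _ _ et DD_pos ?_ s (bt s hs.1 hs.2)
  simpa using le_DD et 1 13 (by decide +kernel)

end Pool.Agent.Lib.MP_cbe5a6_an
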