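import Mathlib

/-! The density of a threefold convolution of measures on the unit circle. -/

set_option autoImplicit false

namespace Pool.Agent.Lib.MP_cbe5a6_an

open MeasureTheory

/-- `F` is the density, with respect to planar Lebesgue measure, of the signed measure
`g σ * g σ * g σ`, where `σ = δ(|x|^2 - 1)` is one half of arc length on the unit circle. -/
def IsDens (g : Circle → ℝ) (F : ℂ → ℝ) : Prop :=
  Integrable F ∧ ∀ A : Set ℂ, MeasurableSet A → ∫ y in A, F y =
    (1 / 2) ^ 3 * ∫ t in {t : Fin 3 → ℝ | (∀ j, t j ∈ Set.Icc 0 (2 * Real.pi)) ∧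
      ∑ j, (Circle.exp (t j) : ℂ) ∈ A}, ∏ j, g (Circle.exp (t j))

end Pool.Agent.Lib.MP_cbe5a6_an
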