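import Pool.Agent.Lib.MP_cbe5a6_an.Main
import Pool.Agent.Lib.MP_cbe5a6_an.BkDefs

/-! From the mollified form to the form written with densities. -/

set_option autoImplicit false

namespace Pool.Agent.Lib.MP_cbe5a6_an.Bk

open MeasureTheory Set Filter Topology ConvAux

noncomputable section

def Y (x : Fin 3 → ℝ) : ℂ := yy (x 0) (x 1) (x 2)

lemma Y_meas : Measurable Y := yy3_continuous.measurable

lemma base : ∃ G : ℂ → ℝ, MemLp G 2 ∧ Integrable G ∧ (∀ y, 3 < ‖y‖ → G y = 0) ∧
    nu3.map Y = volume.withDensity fun y => ENNReal.ofReal (G y) := by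
  obtain ⟨σ, J, m, hS⟩ := stmtSol
  obtain ⟨c, hc, hL⟩ := stmtLaw σ J m hS
  have hN : Nice (gS σ) :=
    nice_of σ 1 (by simpa only [one_mul] using hS.cσ) (fun _ => 1) continuous_const
  have hm : MeasurableSet (Metric.closedBall (0 : ℂ) 3) := Metric.isClosed_closedBall.measurableSet
  have h2 : MemLp (fun w : ℂ => c * σ (Complex.normSq w - 1)) 2
      (volume.restrict (Metric.closedBall (0 : ℂ) 3)) := by
    have h := (((memLp_two_iff_integrable_sq_norm hN.meas).2 hN.sq).re).const_mul c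
    simpa [gS] using h
  have h3 := (integrable_indicator_iff hm).2 (h2.integrable one_le_two)
  have h4 : ∀ᵐ w : ℂ, 0 ≤ (Metric.closedBall (0 : ℂ) 3).indicator
      (fun w : ℂ => c * σ (Complex.normSq w - 1)) w := by
    have hs : ∀ r : ℝ, ∀ᵐ w : ℂ, w ∉ Metric.sphere (0 : ℂ) r := fun r =>
      measure_eq_zero_iff_ae_notMem.1 (Measure.addHaar_sphere _ _ _)
    filter_upwards [hs 0, hs 1, hs 3] with w h0 h1 h3
    refine indicator_apply_nonneg fun hw => (mul_pos hc (hS.pos _ ?_ ?_)).le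
    all_goals
      rw [mem_sphere_zero_iff_norm] at h0 h1 h3
      rw [mem_closedBall_zero_iff] at hw
      rw [Complex.normSq_eq_norm_sq]
      have h5 := lt_of_le_of_ne (norm_nonneg w) (Ne.symm h0)
      have h6 := lt_of_le_of_ne hw h3
    · constructor <;> nlinarith
    · exact fun h => h1 (by nlinarith)
  refine ⟨_, (memLp_indicator_iff_restrict hm).2 h2, h3,
    fun y hy => indicator_of_notMem (by simpa using hy) _, ?_⟩
  have := isFiniteMeasure_withDensity_ofReal h3.2
  refine ext_of_forall_integral_eq_of_IsFiniteMeasure fun f => ?_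
  rw [integral_map Y_meas.aemeasurable f.continuous.aestronglyMeasurable,
    integral_withDensity_eq_integral_toReal_smul₀ h3.1.aemeasurable.ennreal_ofReal
      (Eventually.of_forall fun _ => ENNReal.ofReal_lt_top)]
  have h5 := (hL (fun w => (f w : ℂ)) (by fun_prop)).1
  simp only [← Complex.ofReal_mul, integral_complex_ofReal, Complex.ofReal_inj] at h5
  refine h5.trans ?_
  rw [← integral_const_mul, ← integral_indicator hm]
  refine integral_congr_ae ?_
  filter_upwards [h4] with w hw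
  rw [ENNReal.toReal_ofReal hw]
  by_cases h : w ∈ Metric.closedBall (0 : ℂ) 3
  · simp only [indicator_of_mem h, smul_eq_mul]
    ring
  · simp only [indicator_of_notMem h, zero_smul]

structure Dn (p : (Fin 3 → ℝ) → ℝ) (F : ℂ → ℝ) : Prop where
  me : Measurable F
  l2 : MemLp F 2
  l1 : Integrable F
  su : ∀ᵐ y : ℂ, 3 < ‖y‖ → F y = 0
  eq : ∀ (φ : ℂ → ℝ) (C : ℝ), Measurable φ → (∀ y, ‖φ y‖ ≤ C) →
    ∫ x, φ (Y x) * p x ∂nu3 = ∫ y, φ y * F y

lemma dn_pos {q : (Fin 3 → ℝ) → ℝ} (hq : Measurable q) {M : ℝ} (h0 : ∀ x, 0 ≤ q x)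
    (hM : ∀ x, q x ≤ M) : ∃ F, Dn q F := by
  obtain ⟨G, g2, g1, g0, hG⟩ := base
  have hM0 : 0 ≤ M := (h0 0).trans (hM 0)
  let ρ : Measure ℂ := (nu3.withDensity fun x => ENNReal.ofReal (q x)).map Y
  have h1 : ρ ≤ ENNReal.ofReal M • volume.withDensity fun y => ENNReal.ofReal (G y) := by
    rw [← hG, ← Measure.map_smul, ← withDensity_const]
    exact Measure.map_mono (withDensity_mono (Eventually.of_forall fun x =>
      ENNReal.ofReal_le_ofReal (hM x))) Y_meas
  have := isFiniteMeasure_withDensity_ofReal g1.2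
  have : IsFiniteMeasure ρ := ⟨(h1 univ).trans_lt (by
    rw [Measure.smul_apply, smul_eq_mul]
    exact ENNReal.mul_lt_top ENNReal.ofReal_lt_top (measure_lt_top _ _))⟩
  have h2 : ρ ≪ volume := (Measure.absolutelyContinuous_of_le h1).trans
    ((withDensity_absolutelyContinuous _ _).smul_left _)
  have h3 : ρ.rnDeriv volume ≤ᵐ[volume] fun y => ENNReal.ofReal M * ENNReal.ofReal (G y) :=
    ae_le_of_forall_setLIntegral_le_of_sigmaFinite (Measure.measurable_rnDeriv _ _) fun s hs _ => by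
      rw [lintegral_const_mul' _ _ ENNReal.ofReal_ne_top,
        ← withDensity_apply (fun y => ENNReal.ofReal (G y)) hs]
      exact (Measure.setLIntegral_rnDeriv_le s).trans (h1 s)
  have h4 : ∀ᵐ y : ℂ, ‖(ρ.rnDeriv volume y).toReal‖ ≤ M * ‖G y‖ := by
    filter_upwards [h3] with y hy
    rw [Real.norm_of_nonneg ENNReal.toReal_nonneg]
    refine ENNReal.toReal_le_of_le_ofReal (by positivity) (hy.trans ?_)
    rw [ENNReal.ofReal_mul hM0]
    gcongr
    exact le_abs_self _
  have h5 := (Measure.measurable_rnDeriv ρ volume).ennreal_toReal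
  refine ⟨_, h5, g2.of_le_mul h5.aestronglyMeasurable h4, Measure.integrable_toReal_rnDeriv, ?_,
    fun φ _ hφ _ => ?_⟩
  · filter_upwards [h4] with y hy h
    rw [g0 y h, norm_zero, mul_zero] at hy
    exact norm_le_zero_iff.1 hy
  · simp only [mul_comm (φ _)]
    rw [integral_toReal_rnDeriv_mul h2, integral_map Y_meas.aemeasurable hφ.aestronglyMeasurable,
      integral_withDensity_eq_integral_toReal_smul hq.ennreal_ofReal
        (Eventually.of_forall fun _ => ENNReal.ofReal_lt_top)]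
    simp only [ENNReal.toReal_ofReal (h0 _), smul_eq_mul]

lemma dn_ex {p : (Fin 3 → ℝ) → ℝ} (hp : Continuous p) {M : ℝ} (hM : ∀ x, |p x| ≤ M) :
    ∃ F, Dn p F := by
  obtain ⟨F, hF⟩ := dn_pos (q := fun x => p x + M) (by fun_prop) (M := 2 * M)
    (fun x => by linarith [abs_le.1 (hM x)]) fun x => by linarith [abs_le.1 (hM x)]
  obtain ⟨G, hG⟩ := dn_pos (q := fun _ => M) measurable_const (M := M)
    (fun x => (abs_nonneg _).trans (hM x)) fun _ => le_rfl
  refine ⟨fun y => F y - G y, hF.me.sub hG.me, hF.l2.sub hG.l2, hF.l1.sub hG.l1, ?_,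
    fun φ C hφ hC => ?_⟩
  · filter_upwards [hF.su, hG.su] with y h1 h2 h
    rw [h1 h, h2 h, sub_zero]
  · have h1 : ∀ {u : (Fin 3 → ℝ) → ℝ}, Continuous u → Integrable (fun x => φ (Y x) * u x) nu3 :=
      fun hu => (integrable_nu3 hu).bdd_mul (hφ.comp Y_meas).aestronglyMeasurable
        (Eventually.of_forall fun x => hC _)
    simp only [mul_sub]
    rw [integral_sub (hF.l1.bdd_mul hφ.aestronglyMeasurable (Eventually.of_forall hC))
      (hG.l1.bdd_mul hφ.aestronglyMeasurable (Eventually.of_forall hC)), ← hF.eq φ C hφ hC,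
      ← hG.eq φ C hφ hC, ← integral_sub (h1 (by fun_prop)) (h1 continuous_const)]
    exact integral_congr_ae (Eventually.of_forall fun x => by ring)

lemma conv_cont {A B : ℂ → ℝ} (hA : MemLp A 2) (hB : MemLp B 2) :
    (Continuous fun z : ℂ => ∫ y, A y * B (z - y)) ∧ Integrable fun y => A y * B (-y) := by
  have hm : ∀ z : ℂ, MeasurePreserving (fun y : ℂ => z - y) volume volume := fun z =>
    Measure.measurePreserving_sub_left volume z
  refine ⟨?_, hA.integrable_mul (hB.comp_measurePreserving (Measure.measurePreserving_neg volume))⟩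
  let g : C(ℂ × ℂ, ℂ) := ⟨fun p => p.1 - p.2, by fun_prop⟩
  have h1 := (continuous_const (y := hB.toLp B)).compMeasurePreservingLp g.curry.continuous hm
    ENNReal.ofNat_ne_top
  refine ((continuous_const (y := hA.toLp A)).inner (𝕜 := ℝ) h1).congr fun z => ?_
  rw [L2.inner_def]
  refine integral_congr_ae ?_
  filter_upwards [hA.coeFn_toLp, Lp.coeFn_compMeasurePreserving (hB.toLp B) (hm z),
    (hm z).quasiMeasurePreserving.ae_eq_comp hB.coeFn_toLp] with y h2 h3 h4
  rw [h2]
  refine (congrArg _ (h3.trans h4)).trans ?_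
  simp [mul_comm]

lemma conv_lim {A B : ℂ → ℝ} (hA : MemLp A 2) (hB : MemLp B 2) (iA : Integrable A)
    (iB : Integrable B) : Tendsto (fun ε => ∫ y, A y * ∫ w, GG ε (y + w) * B w) (𝓝[>] 0)
      (𝓝 (∫ y, A y * B (-y))) := by
  have h1 := iA.convolution_integrand (ContinuousLinearMap.mul ℝ ℝ) iB
  simp only [ContinuousLinearMap.mul_apply'] at h1
  have h2 := tendsto_GG (g := fun z => ((∫ y, A y * B (z - y) : ℝ) : ℂ))
    h1.integral_prod_left.ofReal 0
    (Complex.continuous_ofReal.comp (conv_cont hA hB).1).continuousAt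
  simp only [← Complex.ofReal_mul, integral_complex_ofReal, zero_add, neg_zero, zero_sub] at h2
  refine ((Complex.continuous_re.tendsto _).comp h2).congr fun ε => ?_
  have h3 : Integrable (Function.uncurry fun z y : ℂ => GG ε z * (A y * B (z - y)))
      (volume.prod volume) :=
    h1.bdd_mul ((GG_continuous ε).comp continuous_fst).aestronglyMeasurable
      (Eventually.of_forall fun p => by
        rw [Real.norm_of_nonneg (GG_nonneg _ _)]
        exact GG_le _ _)
  simp only [Function.comp_apply, Complex.ofReal_re, ← integral_const_mul]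
  rw [integral_integral_swap h3]
  refine integral_congr_ae (Eventually.of_forall fun y => ?_)
  simp only
  rw [← integral_add_left_eq_self _ y]
  simp only [add_sub_cancel_left, mul_left_comm]

def wt (y : ℂ) : ℝ := min (‖y‖ ^ 2) 9 - 1

lemma wt_cont : Continuous wt := by
  unfold wt
  fun_prop

lemma wt_bd (y : ℂ) : ‖wt y‖ ≤ 8 := by
  have h1 : 0 ≤ min (‖y‖ ^ 2) 9 := by positivity
  have h2 := min_le_right (‖y‖ ^ 2) 9
  exact abs_le.2 ⟨by unfold wt; linarith, by unfold wt; linarith⟩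

lemma wt_eq {y : ℂ} (h : ‖y‖ ≤ 3) : wt y = ‖y‖ ^ 2 - 1 := by
  rw [wt, min_eq_left (by nlinarith [norm_nonneg y])]

lemma lim {p q : (Fin 3 → ℝ) → ℝ} {F B : ℂ → ℝ} (hF : Dn p F) (hB : Dn q B)
    {P : (Fin 6 → ℝ) → ℝ} (hP : Continuous P) (h : ∀ x x', P (cat (x, x')) = p x * q x') :
    (Integrable fun y => (‖y‖ ^ 2 - 1) * F y * B (-y)) ∧
    Tendsto (fun ε => I6 fun θ => Red.s0 θ * GG ε (zz θ) * P θ) (𝓝[>] 0)
      (𝓝 (∫ y, (‖y‖ ^ 2 - 1) * F y * B (-y))) := by
  have h1 : MemLp (fun y => wt y * F y) 2 := hF.l2.of_le_mul (c := 8)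
    (wt_cont.measurable.mul hF.me).aestronglyMeasurable (Eventually.of_forall fun y => by
      rw [norm_mul]
      exact mul_le_mul_of_nonneg_right (wt_bd y) (norm_nonneg _))
  have h2 := hF.l1.bdd_mul wt_cont.aestronglyMeasurable (Eventually.of_forall wt_bd)
  have h3 : (fun y => wt y * F y * B (-y)) =ᵐ[volume] fun y => (‖y‖ ^ 2 - 1) * F y * B (-y) := by
    filter_upwards [hF.su] with y hy
    rcases le_or_gt ‖y‖ 3 with h4 | h4
    · rw [wt_eq h4]
    · simp [hy h4]
  refine ⟨(conv_cont h1 hB.l2).2.congr h3, ?_⟩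
  rw [← integral_congr_ae h3]
  refine (conv_lim h1 hB.l2 h2 hB.l1).congr fun ε => ?_
  have hG : ∀ y w, ‖GG ε (y + w)‖ ≤ 1 / (Real.pi * ε ^ 2) := fun y w => by
    rw [Real.norm_of_nonneg (GG_nonneg _ _)]
    exact GG_le _ _
  have h5 : Measurable fun y => ∫ w, GG ε (y + w) * B w :=
    ((((GG_continuous ε).comp continuous_add).measurable.mul
      (hB.me.comp measurable_snd)).stronglyMeasurable.integral_prod_right').measurable
  have h6 : ∀ y, ‖wt y * ∫ w, GG ε (y + w) * B w‖ ≤ 8 * ∫ w, 1 / (Real.pi * ε ^ 2) * ‖B w‖ :=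
    fun y => by
      rw [norm_mul]
      refine mul_le_mul (wt_bd y) (norm_integral_le_of_norm_le (hB.l1.norm.const_mul _)
        (Eventually.of_forall fun w => ?_)) (norm_nonneg _) (by norm_num)
      rw [norm_mul]
      exact mul_le_mul_of_nonneg_right (hG y w) (norm_nonneg _)
  rw [I6_eq (by fun_prop)]
  refine Eq.trans (integral_congr_ae (Eventually.of_forall fun y => mul_right_comm _ _ _))
    ((hF.eq _ _ (wt_cont.measurable.mul h5) h6).symm.trans ?_)
  refine integral_congr_ae (Eventually.of_forall fun x => ?_)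
  simp only [Pi.mul_apply]
  rw [← hB.eq (fun w => GG ε (Y x + w)) _
    ((GG_continuous ε).comp (continuous_const_add (Y x))).measurable (hG _),
    ← integral_const_mul, ← integral_mul_const]
  refine integral_congr_ae (Eventually.of_forall fun x' => ?_)
  simp only [h]
  rw [wt_eq (y := Y x) (norm_yy_le _ _ _), ← Complex.normSq_eq_norm_sq]
  change _ = (Complex.normSq (Y x) - 1) * GG ε (Y x + Y x') * _
  ring

lemma dens_of {g : Circle → ℝ} (hg : Continuous g) : ∃ F,
    Dn (fun x => ∏ j, g (Circle.exp (x j))) F ∧ IsDens g (fun y => (1 / 2) ^ 3 * F y) ∧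
      ∀ F', IsDens g F' → F' =ᵐ[volume] fun y => (1 / 2) ^ 3 * F y := by
  obtain ⟨M, hM⟩ := isCompact_univ.exists_bound_of_continuousOn hg.continuousOn
  obtain ⟨F, hF⟩ := dn_ex (p := fun x => ∏ j, g (Circle.exp (x j))) (by fun_prop) (M := M ^ 3)
    fun x => by
      rw [Finset.abs_prod]
      exact (Finset.prod_le_prod (fun _ _ => abs_nonneg _) fun j _ => hM _ trivial).trans_eq
        (by simp)
  have h1 : IsDens g fun y => (1 / 2) ^ 3 * F y := ⟨hF.l1.const_mul _, fun A hA => by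
    have h2 := hF.eq (A.indicator 1) 1 (measurable_one.indicator hA) fun y => by
      by_cases h : y ∈ A <;> simp [h]
    have h3 : ∀ x, Y x = ∑ j, (Circle.exp (x j) : ℂ) := fun x => by
      rw [Fin.sum_univ_three]
      rfl
    rw [integral_const_mul, ← integral_indicator hA]
    congr 1
    refine Eq.trans (integral_congr_ae (Eventually.of_forall fun y => ?_)) (h2.symm.trans ?_)
    · by_cases h : y ∈ A <;> simp [h]
    · have h4 : {t : Fin 3 → ℝ | (∀ j, t j ∈ Icc 0 (2 * Real.pi)) ∧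
          ∑ j, (Circle.exp (t j) : ℂ) ∈ A} =
          Y ⁻¹' A ∩ Set.pi univ fun _ => Icc 0 (2 * Real.pi) := by
        ext t
        simp only [mem_ofPred_eq, mem_inter_iff, mem_preimage, mem_univ_pi, h3, and_comm]
      rw [h4, ← Measure.restrict_restrict (Y_meas hA), ← pi_nu, ← integral_indicator (Y_meas hA)]
      refine integral_congr_ae (Eventually.of_forall fun x => ?_)
      by_cases h : Y x ∈ A <;> simp [h]⟩
  exact ⟨F, hF, h1, fun F' h => h.1.ae_eq_of_forall_setIntegral_eq _ _ h1.1 fun s hs _ =>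
    (h.2 s hs).trans (h1.2 s hs).symm⟩

lemma lim' {g g' : Circle → ℝ} (hg : Continuous g) (hg' : Continuous g') {F B : ℂ → ℝ}
    (hF : IsDens g F) (hB : IsDens g' B) {P : (Fin 6 → ℝ) → ℝ} (hP : Continuous P)
    (h : ∀ x x', P (cat (x, x')) = (∏ j, g (Circle.exp (x j))) * ∏ j, g' (Circle.exp (x' j))) :
    (Integrable fun y => (‖y‖ ^ 2 - 1) * F y * B (-y)) ∧
    Tendsto (fun ε => (1 / 2) ^ 6 * I6 fun θ => Red.s0 θ * GG ε (zz θ) * P θ) (𝓝[>] 0)
      (𝓝 (∫ y, (‖y‖ ^ 2 - 1) * F y * B (-y))) := by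
  obtain ⟨F0, h1, -, h2⟩ := dens_of hg
  obtain ⟨B0, h3, -, h4⟩ := dens_of hg'
  obtain ⟨h5, h6⟩ := lim h1 h3 hP h
  have h7 : (fun y => (1 / 2) ^ 6 * ((‖y‖ ^ 2 - 1) * F0 y * B0 (-y))) =ᵐ[volume]
      fun y => (‖y‖ ^ 2 - 1) * F y * B (-y) := by
    filter_upwards [h2 F hF, (Measure.measurePreserving_neg volume).quasiMeasurePreserving.ae_eq_comp
      (h4 B hB)] with y h8 h9
    simp only [Function.comp_apply] at h9
    rw [h8, h9]
    ring
  refine ⟨(h5.const_mul _).congr h7, ?_⟩
  rw [← integral_congr_ae h7, integral_const_mul]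
  exact h6.const_mul _

end

end Pool.Agent.Lib.MP_cbe5a6_an.Bk
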