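import Pool.Agent.Lib.MP_cbe5a6_an.Conv1

-- part Pool.Agent.Lib.MP_cbe5a6_an.Boot1
section

/-! Comparison lemmas, maximum principle and first-order bootstrap. -/

set_option autoImplicit false

namespace Pool.Agent.Lib.MP_cbe5a6_an
namespace Boot

open Set Filter Topology

lemma cmp0 {x y : ℝ} {G g Φ φ : ℝ → ℝ} (hxy : x ≤ y)
    (hG : ∀ u ∈ Icc x y, HasDerivAt G (g u) u) (hΦ : ∀ u, HasDerivAt Φ (φ u) u)
    (hb : ∀ u ∈ Icc x y, g u ≤ φ u) : G y - G x ≤ Φ y - Φ x := by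
  have hm : MonotoneOn (fun u => Φ u - G u) (Icc x y) := by
    apply monotoneOn_of_hasDerivWithinAt_nonneg (convex_Icc x y) (f' := fun u => φ u - g u)
    · intro u hu
      exact ((hΦ u).sub (hG u hu)).continuousAt.continuousWithinAt
    · intro u hu
      exact ((hΦ u).sub (hG u (interior_subset hu))).hasDerivWithinAt
    · intro u hu
      exact sub_nonneg.2 (hb u (interior_subset hu))
  have h := hm (left_mem_Icc.2 hxy) (right_mem_Icc.2 hxy) hxy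
  simp only at h
  linarith

lemma cmp1 {x y : ℝ} {G g Φ φ : ℝ → ℝ} (hxy : x ≤ y)
    (hG : ∀ u ∈ Icc x y, HasDerivAt G (g u) u) (hΦ : ∀ u, HasDerivAt Φ (φ u) u)
    (hb : ∀ u ∈ Icc x y, |g u| ≤ φ u) : |G y - G x| ≤ Φ y - Φ x := by
  have h1 := cmp0 hxy hG hΦ fun u hu => (le_abs_self _).trans (hb u hu)
  have h2 := cmp0 (G := fun u => -G u) (g := fun u => -g u) hxy (fun u hu => (hG u hu).neg) hΦ
    fun u hu => (neg_le_abs _).trans (hb u hu)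
  rw [abs_le]
  constructor <;> linarith

lemma cmpR {a b : ℝ} {G g Φ φ : ℝ → ℝ} (hab : a < b)
    (hG : ∀ u ∈ Ioc a b, HasDerivAt G (g u) u) (hΦ : ∀ u, HasDerivAt Φ (φ u) u)
    (hb : ∀ u ∈ Ioc a b, |g u| ≤ φ u) (h0 : Tendsto G (𝓝[>] a) (𝓝 0)) :
    |G b| ≤ Φ b - Φ a := by
  have t1 : Tendsto (fun x => |G b - G x|) (𝓝[>] a) (𝓝 |G b - 0|) :=
    (tendsto_const_nhds.sub h0).abs
  have t2 : Tendsto (fun x => Φ b - Φ x) (𝓝[>] a) (𝓝 (Φ b - Φ a)) :=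
    tendsto_const_nhds.sub ((hΦ a).continuousAt.tendsto.mono_left nhdsWithin_le_nhds)
  have h := le_of_tendsto_of_tendsto t1 t2 (by
    filter_upwards [Ioo_mem_nhdsGT hab] with x hx
    exact cmp1 hx.2.le (fun u hu => hG u ⟨hx.1.trans_le hu.1, hu.2⟩) hΦ
      fun u hu => hb u ⟨hx.1.trans_le hu.1, hu.2⟩)
  rwa [sub_zero] at h

lemma cmpL {a b : ℝ} {G g Φ φ : ℝ → ℝ} (hab : a < b)
    (hG : ∀ u ∈ Ico a b, HasDerivAt G (g u) u) (hΦ : ∀ u, HasDerivAt Φ (φ u) u)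
    (hb : ∀ u ∈ Ico a b, |g u| ≤ φ u) (h0 : Tendsto G (𝓝[<] b) (𝓝 0)) :
    |G a| ≤ Φ b - Φ a := by
  have t1 : Tendsto (fun x => |G x - G a|) (𝓝[<] b) (𝓝 |0 - G a|) :=
    (h0.sub tendsto_const_nhds).abs
  have t2 : Tendsto (fun x => Φ x - Φ a) (𝓝[<] b) (𝓝 (Φ b - Φ a)) :=
    ((hΦ b).continuousAt.tendsto.mono_left nhdsWithin_le_nhds).sub tendsto_const_nhds
  have h := le_of_tendsto_of_tendsto t1 t2 (by
    filter_upwards [Ioo_mem_nhdsLT hab] with x hx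
    exact cmp1 hx.1.le (fun u hu => hG u ⟨hu.1, hu.2.trans_lt hx.2⟩) hΦ
      fun u hu => hb u ⟨hu.1, hu.2.trans_lt hx.2⟩)
  rwa [zero_sub, abs_neg] at h

lemma smono {x y : ℝ} {G g : ℝ → ℝ} (hxy : x < y) (hc : ContinuousOn G (Icc x y))
    (hG : ∀ u ∈ Ioo x y, HasDerivAt G (g u) u) (hg : ∀ u ∈ Ioo x y, 0 < g u) : G x < G y := by
  obtain ⟨c, hc1, hc2⟩ := exists_hasDerivAt_eq_slope G g hxy hc hG
  have h := hg c hc1
  rw [hc2] at h
  have h2 := (div_pos_iff_of_pos_right (sub_pos.2 hxy)).1 h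
  linarith

/-- one-sided maximum principle -/
lemma maxP1 {a b η : ℝ} {r H w g : ℝ → ℝ} (hab : a < b) (cr : ContinuousOn r (Icc a b))
    (dr : ∀ x ∈ Ioo a b, HasDerivAt r (H x * w x) x) (hw : ∀ x ∈ Ioo a b, 0 < w x)
    (dH : ∀ x ∈ Ioo a b, HasDerivAt H (g x) x) (hg : ∀ x ∈ Ioo a b, η < r x → 0 < g x)
    (Ha : Tendsto H (𝓝[>] a) (𝓝 0)) (Hb : Tendsto H (𝓝[<] b) (𝓝 0)) :
    ∀ x ∈ Icc a b, r x ≤ η := by
  obtain ⟨x0, hx0, hmax⟩ := isCompact_Icc.exists_isMaxOn (nonempty_Icc.2 hab.le) cr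
  suffices h : r x0 ≤ η from fun x hx => (hmax hx).trans h
  by_contra hcon
  have hlt : η < r x0 := lt_of_not_ge hcon
  have hev : ∀ᶠ x in 𝓝[Icc a b] x0, η < r x := (cr x0 hx0).eventually (lt_mem_nhds hlt)
  obtain ⟨δ, hδ, hball⟩ := Metric.eventually_nhds_iff.1 (eventually_nhdsWithin_iff.1 hev)
  have hnear : ∀ x ∈ Icc a b, |x - x0| < δ → η < r x := fun x hx hd =>
    hball (by rwa [Real.dist_eq]) hx
  have sm : ∀ p q, a < p → p < q → q < b → |p - x0| < δ → |q - x0| < δ → H p < H q := by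
    intro p q hp hpq hq h1 h2
    refine smono (g := g) hpq (fun u hu => (dH u ⟨hp.trans_le hu.1, hu.2.trans_lt hq⟩).continuousAt.continuousWithinAt)
      (fun u hu => dH u ⟨hp.trans hu.1, hu.2.trans hq⟩) fun u hu => ?_
    refine hg u ⟨hp.trans hu.1, hu.2.trans hq⟩ (hnear u ⟨(hp.trans hu.1).le, (hu.2.trans hq).le⟩ ?_)
    rw [abs_lt] at h1 h2 ⊢
    constructor <;> linarith [hu.1, hu.2]
  rcases hx0.2.lt_or_eq with hb | hb
  · have H0 : Tendsto H (𝓝[>] x0) (𝓝 0) := by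
      rcases hx0.1.lt_or_eq with ha | ha
      · have hl : IsLocalMax r x0 := hmax.isLocalMax (Icc_mem_nhds ha hb)
        have hz := hl.hasDerivAt_eq_zero (dr x0 ⟨ha, hb⟩)
        have hz' : H x0 = 0 := by
          rcases mul_eq_zero.1 hz with h | h
          · exact h
          · exact absurd h (hw x0 ⟨ha, hb⟩).ne'
        rw [← hz']
        exact (dH x0 ⟨ha, hb⟩).continuousAt.tendsto.mono_left nhdsWithin_le_nhds
      · rw [← ha]; exact Ha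
    obtain ⟨x1, h1, h2⟩ := exists_between (lt_min hb (lt_add_of_pos_right x0 hδ))
    have h2b : x1 < b := h2.trans_le (min_le_left _ _)
    have h2d : x1 < x0 + δ := h2.trans_le (min_le_right _ _)
    have cl : ∀ u, x0 < u → u ≤ x1 → |u - x0| < δ := fun u hu hu' => by
      rw [abs_lt]; constructor <;> linarith
    have Hpos : ∀ u ∈ Ioo x0 x1, 0 < H u := by
      intro u hu
      obtain ⟨p, hp1, hp2⟩ := exists_between hu.1
      have e1 : 0 ≤ H p := by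
        refine le_of_tendsto H0 ?_
        filter_upwards [Ioo_mem_nhdsGT hp1] with z hz
        exact (sm z p (hx0.1.trans_lt hz.1) hz.2 (by linarith [hu.2]) (cl z hz.1 (by linarith [hz.2, hu.2]))
          (cl p hp1 (by linarith [hu.2]))).le
      exact e1.trans_lt (sm p u (hx0.1.trans_lt hp1) hp2 (hu.2.trans h2b)
        (cl p hp1 (by linarith [hu.2])) (cl u hu.1 hu.2.le))
    have hr : r x0 < r x1 := smono (g := fun x => H x * w x) h1
      (cr.mono (Icc_subset_Icc hx0.1 h2b.le))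
      (fun u hu => dr u ⟨hx0.1.trans_lt hu.1, hu.2.trans h2b⟩)
      fun u hu => mul_pos (Hpos u hu) (hw u ⟨hx0.1.trans_lt hu.1, hu.2.trans h2b⟩)
    exact absurd (hmax ⟨hx0.1.trans h1.le, h2b.le⟩) (not_le.2 hr)
  · subst hb
    obtain ⟨x1, h1, h2⟩ := exists_between (max_lt hab (sub_lt_self x0 hδ))
    have h1a : a < x1 := (le_max_left _ _).trans_lt h1
    have h1d : x0 - δ < x1 := (le_max_right _ _).trans_lt h1
    have cl : ∀ u, x1 ≤ u → u < x0 → |u - x0| < δ := fun u hu hu' => by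
      rw [abs_lt]; constructor <;> linarith
    have Hneg : ∀ u ∈ Ioo x1 x0, H u < 0 := by
      intro u hu
      obtain ⟨p, hp1, hp2⟩ := exists_between hu.2
      have e1 : H p ≤ 0 := by
        refine ge_of_tendsto Hb ?_
        filter_upwards [Ioo_mem_nhdsLT hp2] with z hz
        exact (sm p z (by linarith [hu.1]) hz.1 hz.2 (cl p (by linarith [hu.1]) hp2)
          (cl z (by linarith [hz.1, hu.1]) hz.2)).le
      exact (sm u p (h1a.trans hu.1) hp1 hp2 (cl u hu.1.le hu.2)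
        (cl p (by linarith [hu.1]) hp2)).trans_le e1
    have hr : -r x1 < -r x0 := smono (G := fun x => -r x) (g := fun x => -(H x * w x)) h2
      (cr.mono (Icc_subset_Icc h1a.le le_rfl)).neg
      (fun u hu => (dr u ⟨h1a.trans hu.1, hu.2⟩).neg)
      fun u hu => neg_pos.2 (mul_neg_of_neg_of_pos (Hneg u hu) (hw u ⟨h1a.trans hu.1, hu.2⟩))
    have hle : r x1 ≤ r x0 := hmax ⟨h1a.le, h2.le⟩
    linarith

/-- two-sided maximum principle -/
lemma maxP {a b η : ℝ} {r H w g : ℝ → ℝ} (hab : a < b) (cr : ContinuousOn r (Icc a b))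
    (dr : ∀ x ∈ Ioo a b, HasDerivAt r (H x * w x) x) (hw : ∀ x ∈ Ioo a b, 0 < w x)
    (dH : ∀ x ∈ Ioo a b, HasDerivAt H (g x) x) (hg : ∀ x ∈ Ioo a b, η < r x → 0 < g x)
    (hg' : ∀ x ∈ Ioo a b, r x < -η → g x < 0)
    (Ha : Tendsto H (𝓝[>] a) (𝓝 0)) (Hb : Tendsto H (𝓝[<] b) (𝓝 0)) :
    ∀ x ∈ Icc a b, |r x| ≤ η := by
  intro x hx
  have h1 := maxP1 hab cr dr hw dH hg Ha Hb x hx
  have h2 := maxP1 (η := η) (r := fun x => -r x) (H := fun x => -H x) (w := w)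
    (g := fun x => -g x) hab cr.neg
    (fun x hx => by rw [neg_mul]; exact (dr x hx).neg) hw (fun x hx => (dH x hx).neg)
    (fun x hx h => neg_pos.2 (hg' x hx (by linarith)))
    (by rw [← neg_zero]; exact Ha.neg) (by rw [← neg_zero]; exact Hb.neg) x hx
  rw [abs_le]
  constructor <;> linarith

/-- vanishing at the three singular points -/
def Z (F : ℝ → ℝ) : Prop :=
  Tendsto F (𝓝[>] (-1)) (𝓝 0) ∧ Tendsto F (𝓝[≠] 0) (𝓝 0) ∧ Tendsto F (𝓝[<] 8) (𝓝 0)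

lemma ev {s : ℝ} (hs : s ∈ Ioo (-1 : ℝ) 8) (h0 : s ≠ 0) :
    ∀ᶠ y in 𝓝 s, y ∈ Ioo (-1 : ℝ) 8 ∧ y ≠ 0 :=
  (Filter.Eventually.and (Ioo_mem_nhds hs.1 hs.2) (eventually_ne_nhds h0))

lemma evA : ∀ᶠ y in 𝓝[>] (-1 : ℝ), y ∈ Ioo (-1 : ℝ) 8 ∧ y ≠ 0 := by
  filter_upwards [Ioo_mem_nhdsGT (show (-1 : ℝ) < 0 by norm_num)] with y hy
  exact ⟨⟨hy.1, by linarith [hy.2]⟩, hy.2.ne⟩

lemma evB : ∀ᶠ y in 𝓝[≠] (0 : ℝ), y ∈ Ioo (-1 : ℝ) 8 ∧ y ≠ 0 := by
  have h : Ioo (-1 : ℝ) 8 ∈ 𝓝[≠] (0 : ℝ) :=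
    mem_nhdsWithin_of_mem_nhds (Ioo_mem_nhds (by norm_num) (by norm_num))
  filter_upwards [h, self_mem_nhdsWithin] with y hy hy'
  exact ⟨hy, hy'⟩

lemma evC : ∀ᶠ y in 𝓝[<] (8 : ℝ), y ∈ Ioo (-1 : ℝ) 8 ∧ y ≠ 0 := by
  filter_upwards [Ioo_mem_nhdsLT (show (0 : ℝ) < 8 by norm_num)] with y hy
  exact ⟨⟨by linarith [hy.1], hy.2⟩, hy.1.ne'⟩

lemma Z.congr {F G : ℝ → ℝ} (h : Z F) (e : ∀ s ∈ Ioo (-1 : ℝ) 8, s ≠ 0 → F s = G s) : Z G :=
  ⟨h.1.congr' (evA.mono fun y hy => e y hy.1 hy.2),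
    h.2.1.congr' (evB.mono fun y hy => e y hy.1 hy.2),
    h.2.2.congr' (evC.mono fun y hy => e y hy.1 hy.2)⟩

lemma tA {f : ℝ → ℝ} (h : ContinuousOn f (Icc (-1 : ℝ) 8)) :
    Tendsto f (𝓝[>] (-1)) (𝓝 (f (-1))) :=
  (h (-1) (by norm_num)).tendsto.mono_left
    (nhdsWithin_le_of_mem (Icc_mem_nhdsGT (by norm_num)))

lemma tB {f : ℝ → ℝ} (h : ContinuousOn f (Icc (-1 : ℝ) 8)) :
    Tendsto f (𝓝[≠] 0) (𝓝 (f 0)) :=
  ((h 0 (by norm_num)).continuousAt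
    (Icc_mem_nhds (by norm_num) (by norm_num))).tendsto.mono_left nhdsWithin_le_nhds

lemma tC {f : ℝ → ℝ} (h : ContinuousOn f (Icc (-1 : ℝ) 8)) :
    Tendsto f (𝓝[<] 8) (𝓝 (f 8)) :=
  (h 8 (by norm_num)).tendsto.mono_left
    (nhdsWithin_le_of_mem (Icc_mem_nhdsLT (by norm_num)))

lemma cPP : Continuous PP := by unfold PP; fun_prop

lemma ZPP : Z PP := by
  have h1 := tA cPP.continuousOn
  have h2 := tB cPP.continuousOn
  have h3 := tC cPP.continuousOn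
  have e1 : PP (-1) = 0 := by norm_num [PP]
  have e2 : PP 0 = 0 := by norm_num [PP]
  have e3 : PP 8 = 0 := by norm_num [PP]
  rw [e1] at h1; rw [e2] at h2; rw [e3] at h3
  exact ⟨h1, h2, h3⟩

lemma Z.mul {F f : ℝ → ℝ} (h : Z F) (hf : ContinuousOn f (Icc (-1 : ℝ) 8)) :
    Z fun s => F s * f s := by
  have h1 := h.1.mul (tA hf)
  have h2 := h.2.1.mul (tB hf)
  have h3 := h.2.2.mul (tC hf)
  rw [zero_mul] at h1 h2 h3
  exact ⟨h1, h2, h3⟩

lemma Z.sub {F G : ℝ → ℝ} (h : Z F) (h' : Z G) : Z fun s => F s - G s := by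
  have h1 := h.1.sub h'.1
  have h2 := h.2.1.sub h'.2.1
  have h3 := h.2.2.sub h'.2.2
  rw [sub_zero] at h1 h2 h3
  exact ⟨h1, h2, h3⟩

lemma Z.mulb {F f : ℝ → ℝ} {C : ℝ} (h : Z F)
    (hf : ∀ s ∈ Ioo (-1 : ℝ) 8, s ≠ 0 → |f s| ≤ C) : Z fun s => F s * f s := by
  have key : ∀ l : Filter ℝ, (∀ᶠ y in l, y ∈ Ioo (-1 : ℝ) 8 ∧ y ≠ 0) → Tendsto F l (𝓝 0) →
      Tendsto (fun s => F s * f s) l (𝓝 0) := by
    intro l hl hF
    have t : Tendsto (fun s => |F s| * C) l (𝓝 0) := by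
      have := hF.abs.mul_const C
      rwa [abs_zero, zero_mul] at this
    refine squeeze_zero_norm' ?_ t
    filter_upwards [hl] with y hy
    rw [Real.norm_eq_abs, abs_mul]
    exact mul_le_mul_of_nonneg_left (hf y hy.1 hy.2) (abs_nonneg _)
  exact ⟨key _ evA h.1, key _ evB h.2.1, key _ evC h.2.2⟩

lemma Z.r0 {F : ℝ → ℝ} (h : Z F) : Tendsto F (𝓝[>] 0) (𝓝 0) :=
  h.2.1.mono_left (nhdsWithin_mono _ fun _ hx => ne_of_gt hx)

lemma Z.l0 {F : ℝ → ℝ} (h : Z F) : Tendsto F (𝓝[<] 0) (𝓝 0) :=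
  h.2.1.mono_left (nhdsWithin_mono _ fun _ hx => ne_of_lt hx)

lemma dPP (s : ℝ) : HasDerivAt PP (qS s) s := by
  have h := (((hasDerivAt_id' s).mul ((hasDerivAt_id' s).add_const 1)).mul
    ((hasDerivAt_id' s).sub_const 8))
  have e : qS s = (1 * (s + 1) + s * 1) * (s - 8) + s * (s + 1) * 1 := by unfold qS; ring
  rw [e]
  exact h

lemma PPne {s : ℝ} (hs : s ∈ Ioo (-1 : ℝ) 8) (h0 : s ≠ 0) : PP s ≠ 0 :=
  mul_ne_zero (mul_ne_zero h0 (by linarith [hs.1])) (by linarith [hs.2])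

lemma absN {s : ℝ} (h1 : -1 < s) (h2 : s < 0) : |PP s| = (s + 1) * (-s * (8 - s)) := by
  have h : 0 ≤ (s + 1) * (-s * (8 - s)) :=
    mul_nonneg (by linarith) (mul_nonneg (by linarith) (by linarith))
  rw [show PP s = (s + 1) * (-s * (8 - s)) by unfold PP; ring, abs_of_nonneg h]

lemma absP {s : ℝ} (h1 : 0 < s) (h2 : s < 8) : |PP s| = (s + 1) * (s * (8 - s)) := by
  have h : 0 ≤ (s + 1) * (s * (8 - s)) :=
    mul_nonneg (by linarith) (mul_nonneg (by linarith) (by linarith))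
  rw [show PP s = -((s + 1) * (s * (8 - s))) by unfold PP; ring, abs_neg, abs_of_nonneg h]

lemma dpow (n : ℕ) (K u v y : ℝ) :
    HasDerivAt (fun y => K / (u * (n + 1)) * (u * y + v) ^ (n + 1))
      (K / (u * (n + 1)) * (((n + 1 : ℕ) : ℝ) * (u * y + v) ^ (n + 1 - 1) * (u * 1))) y :=
  ((((hasDerivAt_id' y).const_mul u).add_const v).pow (n + 1)).const_mul _

lemma dpow' (n : ℕ) (K u v y : ℝ) (hu : u ≠ 0) :
    HasDerivAt (fun y => K / (u * (n + 1)) * (u * y + v) ^ (n + 1)) (K * (u * y + v) ^ n) y := by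
  have h := dpow n K u v y
  have e : K * (u * y + v) ^ n
      = K / (u * (n + 1)) * (((n + 1 : ℕ) : ℝ) * (u * y + v) ^ (n + 1 - 1) * (u * 1)) := by
    rw [Nat.add_sub_cancel]
    push_cast
    field_simp
  rw [e]
  exact h

lemma fin {w κ κ0 K η Y : ℝ} (hw : 0 < w) (hk : κ0 ≤ κ) (h0 : 0 < κ0) (hK : K ≤ 3 / 5 * κ0)
    (hη : 0 ≤ η) (hY : 0 ≤ Y) (h : w * κ * Y ≤ η * K * w) : Y ≤ 3 / 5 * η := by
  have h1 : κ * Y ≤ η * K := by
    have : w * (κ * Y) ≤ w * (η * K) := by linarith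
    exact le_of_mul_le_mul_left this hw
  have h2 : κ0 * Y ≤ κ * Y := mul_le_mul_of_nonneg_right hk hY
  have h3 : η * K ≤ η * (3 / 5 * κ0) := mul_le_mul_of_nonneg_left hK hη
  have h4 : κ0 * Y ≤ κ0 * (3 / 5 * η) := by linarith
  exact le_of_mul_le_mul_left h4 h0

lemma absW (a j : ℕ) {s : ℝ} (hs : -1 < s) (x : ℝ) :
    |(s + 1) ^ a * PP s ^ j * x| = (s + 1) ^ a * |PP s| ^ j * |x| := by
  rw [abs_mul, abs_mul, abs_pow, abs_pow, abs_of_nonneg (show 0 ≤ s + 1 by linarith)]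

lemma bootG (a j : ℕ) (c η : ℝ) (y R : ℝ → ℝ) (hc1 : -1 < c) (hc2 : c < 0)
    (dG : ∀ s ∈ Ioo (-1 : ℝ) 8, s ≠ 0 → HasDerivAt (fun s => (s + 1) ^ a * PP s ^ (j + 1) * y s)
      ((s + 1) ^ a * PP s ^ j * R s) s)
    (bR : ∀ s ∈ Ioo (-1 : ℝ) 8, s ≠ 0 → |R s| ≤ η)
    (fl : Z fun s => (s + 1) ^ a * PP s ^ (j + 1) * y s)
    (nA : (9 : ℝ) ^ j / ((a + j : ℕ) + 1) ≤ 3 / 5 * (-c * (8 - c)) ^ (j + 1))
    (nB : (8 : ℝ) ^ j / (j + 1) ≤ 3 / 5 * ((c + 1) ^ a * ((c + 1) * (8 - c)) ^ (j + 1)))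
    (nC : (8 : ℝ) ^ j / (j + 1) ≤ 3 / 5 * (7 / 2) ^ (j + 1))
    (nD : (9 : ℝ) ^ a * 72 ^ j / (j + 1) ≤ 3 / 5 * ((11 / 2) ^ a * (99 / 4) ^ (j + 1))) :
    ∀ s ∈ Ioo (-1 : ℝ) 8, s ≠ 0 → |y s| ≤ 3 / 5 * η := by
  have hη : 0 ≤ η := (abs_nonneg _).trans (bR 1 (by norm_num) one_ne_zero)
  have bW : ∀ s ∈ Ioo (-1 : ℝ) 8, s ≠ 0 → ∀ A B : ℝ, s + 1 ≤ A → |PP s| ≤ B →
      |(s + 1) ^ a * PP s ^ j * R s| ≤ A ^ a * B ^ j * η := by
    intro s hs h0 A B hA hB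
    rw [absW a j hs.1]
    have h1 : 0 ≤ s + 1 := by linarith [hs.1]
    have h2 : 0 ≤ A := h1.trans hA
    have h3 : 0 ≤ B := (abs_nonneg _).trans hB
    have h4 := bR s hs h0
    gcongr
  intro x hx h0
  have ht : 0 < x + 1 := by linarith [hx.1]
  rcases lt_or_gt_of_ne h0 with hn | hp
  · rcases le_total x c with hxc | hxc
    · have h := cmpR hx.1 (fun u hu => dG u ⟨hu.1, by linarith [hu.2]⟩ (by linarith [hu.2] : u < 0).ne)
        (fun u => dpow' (a + j) (η * 9 ^ j) 1 1 u one_ne_zero) (fun u hu => by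
          have hu0 : u < 0 := by linarith [hu.2]
          have hu1 : 0 < u + 1 := by linarith [hu.1]
          refine (bW u ⟨hu.1, by linarith⟩ hu0.ne (u + 1) ((u + 1) * 9) le_rfl ?_).trans (le_of_eq ?_)
          · rw [absN hu.1 hu0]
            exact mul_le_mul_of_nonneg_left (by nlinarith) hu1.le
          · rw [mul_pow, one_mul, pow_add]; ring) fl.1
      rw [absW a (j + 1) hx.1, absN hx.1 hn] at h
      refine fin (w := (x + 1) ^ (a + j + 1)) (κ := (-x * (8 - x)) ^ (j + 1)) (by positivity)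
        (pow_le_pow_left₀ (mul_nonneg (by linarith) (by linarith)) (by nlinarith) _)
        (pow_pos (mul_pos (by linarith) (by linarith)) _) nA hη (abs_nonneg _) ?_
      refine (le_of_eq ?_).trans (h.trans (le_of_eq ?_))
      · rw [mul_pow (x + 1)]; ring
      · rw [show (1 : ℝ) * -1 + 1 = 0 by ring, zero_pow (Nat.succ_ne_zero _)]
        ring
    · have h := cmpL hn (fun u hu => dG u ⟨by linarith [hu.1], by linarith [hu.2]⟩ hu.2.ne)
        (fun u => dpow' j (η * 8 ^ j) (-1) 0 u (by norm_num)) (fun u hu => by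
          have hu0 : u < 0 := hu.2
          have hu1 : -1 < u := by linarith [hu.1]
          refine (bW u ⟨hu1, by linarith⟩ hu0.ne 1 (8 * (-1 * u + 0)) (by linarith) ?_).trans
            (le_of_eq ?_)
          · rw [absN hu1 hu0]
            have : (u + 1) * (8 - u) ≤ 8 := by nlinarith
            nlinarith
          · rw [mul_pow, one_pow]; ring) fl.l0
      rw [absW a (j + 1) hx.1, absN hx.1 hn] at h
      have hc3 : 0 < c + 1 := by linarith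
      have hc4 : 0 < (c + 1) * (8 - c) := mul_pos hc3 (by linarith)
      have hx4 : (c + 1) * (8 - c) ≤ (x + 1) * (8 - x) := by nlinarith
      have hx5 : c + 1 ≤ x + 1 := by linarith
      have hx6 : 0 < -x := by linarith
      refine fin (w := (-x) ^ (j + 1)) (κ := (x + 1) ^ a * ((x + 1) * (8 - x)) ^ (j + 1))
        (by positivity) (by gcongr) (by positivity) nB hη (abs_nonneg _) ?_
      refine (le_of_eq ?_).trans (h.trans (le_of_eq ?_))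
      · rw [show (x + 1) * (-x * (8 - x)) = -x * ((x + 1) * (8 - x)) by ring, mul_pow (-x)]; ring
      · rw [show (-1 : ℝ) * 0 + 0 = 0 by ring, zero_pow (Nat.succ_ne_zero _),
          show -1 * x + 0 = -x by ring]
        field_simp
        ring
  · rcases le_total x (9 / 2) with hxc | hxc
    · have h := cmpR hp (fun u hu => dG u ⟨by linarith [hu.1], by linarith [hu.2]⟩ hu.1.ne')
        (fun u => dpow' j (η * 8 ^ j * (x + 1) ^ (a + j)) 1 0 u one_ne_zero) (fun u hu => by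
          have hu0 : 0 < u := hu.1
          have hu1 : u ≤ x := hu.2
          refine (bW u ⟨by linarith, by linarith⟩ hu0.ne' (x + 1) ((x + 1) * (8 * (1 * u + 0)))
            (by linarith) ?_).trans (le_of_eq ?_)
          · rw [absP hu0 (by linarith)]
            exact mul_le_mul (by linarith) (by nlinarith) (mul_nonneg hu0.le (by linarith)) ht.le
          · rw [mul_pow, mul_pow, pow_add]; ring) fl.r0
      rw [absW a (j + 1) hx.1, absP hp hx.2] at h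
      have hx5 : (7 / 2 : ℝ) ^ (j + 1) ≤ (x + 1) * (8 - x) ^ (j + 1) := by
        have h1 : (7 / 2 : ℝ) ^ (j + 1) ≤ (8 - x) ^ (j + 1) :=
          pow_le_pow_left₀ (by norm_num) (by linarith) _
        have h2 : 0 ≤ x * (8 - x) ^ (j + 1) := mul_nonneg hp.le (pow_nonneg (by linarith) _)
        linarith
      refine fin (w := (x + 1) ^ (a + j) * x ^ (j + 1)) (κ := (x + 1) * (8 - x) ^ (j + 1))
        (by positivity) hx5 (by positivity) nC hη (abs_nonneg _) ?_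
      refine (le_of_eq ?_).trans (h.trans (le_of_eq ?_))
      · rw [mul_pow (x + 1), mul_pow x]; ring
      · rw [show (1 : ℝ) * 0 + 0 = 0 by ring, zero_pow (Nat.succ_ne_zero _),
          show 1 * x + 0 = x by ring]
        ring
    · have h := cmpL hx.2 (fun u hu => dG u ⟨by linarith [hu.1], hu.2⟩ (by linarith [hu.1] : 0 < u).ne')
        (fun u => dpow' j (η * 72 ^ j * 9 ^ a) (-1) 8 u (by norm_num)) (fun u hu => by
          have hu0 : 0 < u := by linarith [hu.1]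
          have hu1 : u < 8 := hu.2
          refine (bW u ⟨by linarith, hu1⟩ hu0.ne' 9 (72 * (-1 * u + 8))
            (by linarith) ?_).trans (le_of_eq ?_)
          · rw [absP hu0 hu1]
            have : (u + 1) * u ≤ 72 := by nlinarith
            nlinarith
          · rw [mul_pow]; ring) fl.2.2
      rw [absW a (j + 1) hx.1, absP hp hx.2] at h
      have hx4 : (99 / 4 : ℝ) ≤ (x + 1) * x := by nlinarith
      have hx5 : (11 / 2 : ℝ) ≤ x + 1 := by linarith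
      have hx6 : 0 < 8 - x := by linarith [hx.2]
      refine fin (w := (8 - x) ^ (j + 1)) (κ := (x + 1) ^ a * ((x + 1) * x) ^ (j + 1))
        (by positivity) (by gcongr) (by positivity) nD hη (abs_nonneg _) ?_
      refine (le_of_eq ?_).trans (h.trans (le_of_eq ?_))
      · rw [show (x + 1) * (x * (8 - x)) = (8 - x) * ((x + 1) * x) by ring, mul_pow (8 - x)]; ring
      · rw [show (-1 : ℝ) * 8 + 8 = 0 by ring, zero_pow (Nat.succ_ne_zero _),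
          show -1 * x + 8 = 8 - x by ring]
        field_simp
        ring

lemma dflux (a j : ℕ) (ha : a = 0 ∨ a = 3) {y : ℝ → ℝ} {z R s : ℝ} (dy : HasDerivAt y z s)
    (eq : PP s * z + ((j + 1) * qS s + a * (s * (s - 8))) * y s = R) :
    HasDerivAt (fun s => (s + 1) ^ a * PP s ^ (j + 1) * y s) ((s + 1) ^ a * PP s ^ j * R) s := by
  have h := ((((hasDerivAt_id' s).add_const 1).fun_pow a).fun_mul
    ((dPP s).fun_pow (j + 1))).fun_mul dy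
  refine h.congr_deriv ?_
  rw [← eq, Nat.add_sub_cancel, pow_succ (PP s) j]
  have e : PP s = s * (s + 1) * (s - 8) := rfl
  generalize PP s ^ j = W
  rw [e]
  rcases ha with rfl | rfl <;> push_cast <;> ring

lemma boot (a j : ℕ) (ha : a = 0 ∨ a = 3) (hj : j ≤ 2) (y z R : ℝ → ℝ) (η : ℝ)
    (dy : ∀ s ∈ Ioo (-1 : ℝ) 8, s ≠ 0 → HasDerivAt y (z s) s)
    (eq : ∀ s ∈ Ioo (-1 : ℝ) 8, s ≠ 0 →
      PP s * z s + ((j + 1) * qS s + a * (s * (s - 8))) * y s = R s)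
    (bR : ∀ s ∈ Ioo (-1 : ℝ) 8, s ≠ 0 → |R s| ≤ η)
    (fl : Z fun s => (s + 1) ^ a * PP s ^ (j + 1) * y s) :
    ∀ s ∈ Ioo (-1 : ℝ) 8, s ≠ 0 → |y s| ≤ 3 / 5 * η := by
  have dG : ∀ s ∈ Ioo (-1 : ℝ) 8, s ≠ 0 →
      HasDerivAt (fun s => (s + 1) ^ a * PP s ^ (j + 1) * y s) ((s + 1) ^ a * PP s ^ j * R s) s :=
    fun s hs h0 => dflux a j ha (dy s hs h0) (eq s hs h0)
  rcases ha with rfl | rfl
  · refine bootG 0 j (-1 / 2) η y R (by norm_num) (by norm_num) dG bR fl ?_ ?_ ?_ ?_ <;>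
      interval_cases j <;> norm_num
  · rcases Nat.eq_zero_or_pos j with rfl | hj0
    · refine bootG 3 0 (-3 / 10) η y R (by norm_num) (by norm_num) dG bR fl ?_ ?_ ?_ ?_ <;>
        norm_num
    · refine bootG 3 j (-7 / 20) η y R (by norm_num) (by norm_num) dG bR fl ?_ ?_ ?_ ?_ <;>
        interval_cases j <;> norm_num

end Boot
end Pool.Agent.Lib.MP_cbe5a6_an
end

-- part Pool.Agent.Lib.MP_cbe5a6_an.Boot2
section

/-! The derivative bootstrap for a solution of the inhomogeneous equation. -/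

set_option autoImplicit false

namespace Pool.Agent.Lib.MP_cbe5a6_an
namespace Boot

open Set Filter Topology

lemma memU {s : ℝ} (hs : s ∈ Icc (-1 : ℝ) 8) (h : PP s ≠ 0) : s ∈ Ioo (-1 : ℝ) 8 ∧ s ≠ 0 := by
  refine ⟨⟨lt_of_le_of_ne hs.1 ?_, lt_of_le_of_ne hs.2 ?_⟩, ?_⟩
  · intro e; apply h; rw [← e]; norm_num [PP]
  · intro e; apply h; rw [e]; norm_num [PP]
  · intro e; apply h; rw [e]; norm_num [PP]

lemma PPz {s : ℝ} (h : PP s = 0) : s = 0 ∨ s = -1 ∨ s = 8 := by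
  unfold PP at h
  rcases mul_eq_zero.1 h with h | h
  · rcases mul_eq_zero.1 h with h | h
    · exact Or.inl h
    · exact Or.inr (Or.inl (by linarith))
  · exact Or.inr (Or.inr (by linarith))

lemma extn {y z Q R : ℝ → ℝ} {γ : ℝ} (cQ : Continuous Q) (cR : ContinuousOn R (Icc (-1 : ℝ) 8))
    (hQ : ∀ s, PP s = 0 → Q s ≠ 0)
    (dy : ∀ s ∈ Ioo (-1 : ℝ) 8, s ≠ 0 → HasDerivAt y (z s) s)
    (eq : ∀ s ∈ Ioo (-1 : ℝ) 8, s ≠ 0 → PP s * z s + Q s * y s = R s)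
    (bz : ∀ s ∈ Ioo (-1 : ℝ) 8, s ≠ 0 → |z s| ≤ γ) :
    ∃ g : ℝ → ℝ, ContinuousOn g (Icc (-1 : ℝ) 8) ∧ ∀ s ∈ Ioo (-1 : ℝ) 8, s ≠ 0 → g s = y s := by
  classical
  have hU : ∀ s ∈ Ioo (-1 : ℝ) 8, s ≠ 0 → (if PP s = 0 then R s / Q s else y s) = y s :=
    fun s hs h0 => if_neg (PPne hs h0)
  refine ⟨fun s => if PP s = 0 then R s / Q s else y s, fun s0 hs0 => ?_, hU⟩
  by_cases hP : PP s0 = 0
  · have t1 : Tendsto (fun s => PP s * z s) (𝓝[Icc (-1 : ℝ) 8] s0) (𝓝 0) := by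
      have t : Tendsto (fun s => |PP s| * γ) (𝓝[Icc (-1 : ℝ) 8] s0) (𝓝 0) := by
        have h1 : Tendsto PP (𝓝[Icc (-1 : ℝ) 8] s0) (𝓝 (PP s0)) :=
          cPP.continuousAt.tendsto.mono_left nhdsWithin_le_nhds
        have h2 := h1.abs.mul_const γ
        rwa [hP, abs_zero, zero_mul] at h2
      refine squeeze_zero_norm' ?_ t
      filter_upwards [self_mem_nhdsWithin] with s hs
      rw [Real.norm_eq_abs, abs_mul]
      by_cases h : PP s = 0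
      · rw [h, abs_zero, zero_mul, zero_mul]
      · exact mul_le_mul_of_nonneg_left (bz s (memU hs h).1 (memU hs h).2) (abs_nonneg _)
    have t2 : Tendsto Q (𝓝[Icc (-1 : ℝ) 8] s0) (𝓝 (Q s0)) :=
      cQ.continuousAt.tendsto.mono_left nhdsWithin_le_nhds
    have t3 := ((cR s0 hs0).tendsto.sub t1).div t2 (hQ s0 hP)
    rw [sub_zero] at t3
    have e0 : (if PP s0 = 0 then R s0 / Q s0 else y s0) = R s0 / Q s0 := if_pos hP
    show Tendsto _ _ (𝓝 (if PP s0 = 0 then R s0 / Q s0 else y s0))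
    rw [e0]
    refine t3.congr' ?_
    filter_upwards [self_mem_nhdsWithin, t2.eventually_ne (hQ s0 hP)] with s hs hq
    show (R s - PP s * z s) / Q s = _
    by_cases h : PP s = 0
    · rw [if_pos h, h, zero_mul, sub_zero]
    · rw [if_neg h, ← eq s (memU hs h).1 (memU hs h).2]
      field_simp
      ring
  · obtain ⟨h1, h2⟩ := memU hs0 hP
    refine ((dy s0 h1 h2).continuousAt.congr ?_).continuousWithinAt
    filter_upwards [ev h1 h2] with s hs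
    exact (hU s hs.1 hs.2).symm

lemma quot {z N : ℝ → ℝ} {n s : ℝ} (hs : s ∈ Ioo (-1 : ℝ) 8) (h0 : s ≠ 0)
    (e : ∀ s ∈ Ioo (-1 : ℝ) 8, s ≠ 0 → PP s * z s = N s) (dN : HasDerivAt N n s) :
    HasDerivAt z ((n - qS s * z s) / PP s) s := by
  have hP := PPne hs h0
  have h := dN.fun_div (dPP s) hP
  have e1 : (n - qS s * z s) / PP s = (n * PP s - N s * qS s) / PP s ^ 2 := by
    rw [← e s hs h0]
    field_simp
  rw [e1]
  refine h.congr_of_eventuallyEq ?_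
  filter_upwards [ev hs h0] with y hy
  rw [← e y hy.1 hy.2]
  field_simp [PPne hy.1 hy.2]

lemma dqS (s : ℝ) : HasDerivAt qS (6 * s - 14) s := by
  have h := ((((hasDerivAt_id' s).fun_pow 2).const_mul 3).sub
    ((hasDerivAt_id' s).const_mul 14)).sub_const 8
  refine h.congr_deriv ?_
  push_cast
  ring

lemma dss (s : ℝ) : HasDerivAt (fun s : ℝ => s * (s - 8)) (2 * s - 8) s :=
  ((hasDerivAt_id' s).fun_mul ((hasDerivAt_id' s).sub_const 8)).congr_deriv (by ring)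

lemma dlin (α β s : ℝ) : HasDerivAt (fun s : ℝ => α * s + β) α s :=
  (((hasDerivAt_id' s).const_mul α).add_const β).congr_deriv (mul_one α)

lemma abs3 {x a b c d A B C D X : ℝ} (hx : |x| ≤ X) (ha : |a| ≤ A) (hb : |b| ≤ B) (hc : |c| ≤ C)
    (hd : |d| ≤ D) : |-x - a * b - c * d| ≤ X + A * B + C * D := by
  have h1 : |a * b| ≤ A * B := by
    rw [abs_mul]; exact mul_le_mul ha hb (abs_nonneg _) ((abs_nonneg _).trans ha)
  have h2 : |c * d| ≤ C * D := by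
    rw [abs_mul]; exact mul_le_mul hc hd (abs_nonneg _) ((abs_nonneg _).trans hc)
  rw [abs_le] at hx h1 h2 ⊢
  constructor <;> linarith [hx.1, hx.2, h1.1, h1.2, h2.1, h2.2]

lemma cqS : Continuous qS := by unfold qS; fun_prop

lemma bQ (a j : ℕ) (ha : a = 0 ∨ a = 3) (hj : j ≤ 2) {s : ℝ} (hs : s ∈ Ioo (-1 : ℝ) 8) :
    |((j : ℝ) + 1) * qS s + a * (s * (s - 8))| ≤ 1000 := by
  have h1 := hs.1
  have h2 := hs.2
  have h3 : 0 ≤ (s + 1) * (8 - s) := mul_nonneg (by linarith) (by linarith)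
  have h4 := sq_nonneg s
  unfold qS
  rw [abs_le]
  rcases ha with rfl | rfl <;> interval_cases j <;> push_cast <;> constructor <;> nlinarith

lemma nQ (a j : ℕ) (ha : a = 0 ∨ a = 3) (hj : j ≤ 2) (s : ℝ) (h : PP s = 0) :
    ((j : ℝ) + 1) * qS s + a * (s * (s - 8)) ≠ 0 := by
  unfold qS
  rcases PPz h with rfl | rfl | rfl <;> rcases ha with rfl | rfl <;> interval_cases j <;> norm_num

lemma Zstep (a j : ℕ) (ha : a = 0 ∨ a = 3) (hj : j ≤ 2) {y z R : ℝ → ℝ} {η γ : ℝ}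
    (eq : ∀ s ∈ Ioo (-1 : ℝ) 8, s ≠ 0 →
      PP s * z s + ((j + 1) * qS s + a * (s * (s - 8))) * y s = R s)
    (bR : ∀ s ∈ Ioo (-1 : ℝ) 8, s ≠ 0 → |R s| ≤ η)
    (by' : ∀ s ∈ Ioo (-1 : ℝ) 8, s ≠ 0 → |y s| ≤ γ) :
    Z fun s => (s + 1) ^ a * PP s ^ (j + 1 + 1) * z s := by
  have h1 : Z fun s => PP s * ((s + 1) ^ a * PP s ^ j) :=
    ZPP.mul (Continuous.continuousOn (by have := cPP; fun_prop))
  have h2 := h1.mulb (f := fun s => PP s * z s) (C := η + 1000 * γ + 0 * 0) fun s hs h0 => by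
    have e : PP s * z s = -(-R s) - ((j + 1) * qS s + a * (s * (s - 8))) * y s - 0 * 0 := by
      rw [← eq s hs h0]; ring
    rw [e]
    exact abs3 (by rw [abs_neg]; exact bR s hs h0) (bQ a j ha hj hs) (by' s hs h0)
      abs_zero.le abs_zero.le
  exact h2.congr fun s _ _ => by ring

lemma core (a : ℕ) (ha : a = 0 ∨ a = 3) (α β : ℝ) (hα : 0 ≤ α) {e e1 e2 ρ0 ρ1 ρ2 : ℝ → ℝ}
    {η0 η1 η2 γ0 : ℝ} (γ1 γ2 γ3 C0 C1 C2 : ℝ)
    (ce : ContinuousOn e (Icc (-1 : ℝ) 8))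
    (d0 : ∀ s ∈ Ioo (-1 : ℝ) 8, s ≠ 0 → HasDerivAt e (e1 s) s)
    (d1 : ∀ s ∈ Ioo (-1 : ℝ) 8, s ≠ 0 → HasDerivAt e1 (e2 s) s)
    (eq0 : ∀ s ∈ Ioo (-1 : ℝ) 8, s ≠ 0 →
      PP s * e2 s + (qS s + a * (s * (s - 8))) * e1 s = -ρ0 s - (α * s + β) * e s)
    (fl : Z fun s => (s + 1) ^ a * PP s * e1 s)
    (dρ0 : ∀ s : ℝ, s ≠ 0 → HasDerivAt ρ0 (ρ1 s) s)
    (dρ1 : ∀ s : ℝ, s ≠ 0 → HasDerivAt ρ1 (ρ2 s) s)
    (cρ0 : Continuous ρ0) (cρ1 : Continuous ρ1)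
    (r0 : ∀ s ∈ Ioo (-1 : ℝ) 8, s ≠ 0 → |ρ0 s| ≤ η0)
    (r1 : ∀ s ∈ Ioo (-1 : ℝ) 8, s ≠ 0 → |ρ1 s| ≤ η1)
    (r2 : ∀ s ∈ Ioo (-1 : ℝ) 8, s ≠ 0 → |ρ2 s| ≤ η2)
    (b0 : ∀ s ∈ Ioo (-1 : ℝ) 8, s ≠ 0 → |e s| ≤ γ0)
    (hC0 : ∀ s ∈ Ioo (-1 : ℝ) 8, |α * s + β| ≤ C0)
    (hC1 : ∀ s ∈ Ioo (-1 : ℝ) 8, |(6 + 2 * a + α) * s + (β - 14 - 8 * a)| ≤ C1)
    (hC2 : ∀ s ∈ Ioo (-1 : ℝ) 8, |(18 + 4 * a + α) * s + (β - 42 - 16 * a)| ≤ C2)
    (g1 : 3 / 5 * (η0 + C0 * γ0) ≤ γ1) (g2 : 3 / 5 * (η1 + C1 * γ1 + α * γ0) ≤ γ2)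
    (g3 : 3 / 5 * (η2 + C2 * γ2 + (6 + 2 * a + 2 * α) * γ1) ≤ γ3) :
    ∃ g1 g2 g3, Reg e g1 g2 g3 γ0 γ1 γ2 γ3 := by
  have eq0' : ∀ s ∈ Ioo (-1 : ℝ) 8, s ≠ 0 → PP s * e2 s
      + ((((0 : ℕ) : ℝ) + 1) * qS s + a * (s * (s - 8))) * e1 s
      = -ρ0 s - (α * s + β) * e s - 0 * 0 := fun s hs h0 => by
    have h := eq0 s hs h0
    push_cast
    linarith
  have bR0 : ∀ s ∈ Ioo (-1 : ℝ) 8, s ≠ 0 →
      |-ρ0 s - (α * s + β) * e s - 0 * 0| ≤ η0 + C0 * γ0 + 0 * 0 := fun s hs h0 =>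
    abs3 (r0 s hs h0) (hC0 s hs) (b0 s hs h0) abs_zero.le abs_zero.le
  have b1 : ∀ s ∈ Ioo (-1 : ℝ) 8, s ≠ 0 → |e1 s| ≤ γ1 := fun s hs h0 => by
    have h := boot a 0 ha (by norm_num) e1 e2 _ _ d1 eq0' bR0
      (fl.congr fun s _ _ => by ring) s hs h0
    linarith
  obtain ⟨e3, d2, eq1⟩ : ∃ e3 : ℝ → ℝ,
      (∀ s ∈ Ioo (-1 : ℝ) 8, s ≠ 0 → HasDerivAt e2 (e3 s) s) ∧
      ∀ s ∈ Ioo (-1 : ℝ) 8, s ≠ 0 → PP s * e3 s
        + ((((1 : ℕ) : ℝ) + 1) * qS s + a * (s * (s - 8))) * e2 s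
        = -ρ1 s - ((6 + 2 * a + α) * s + (β - 14 - 8 * a)) * e1 s - α * e s := by
    refine ⟨fun s => ((-ρ1 s - (α * e s + (α * s + β) * e1 s)
      - ((6 * s - 14 + a * (2 * s - 8)) * e1 s + (qS s + a * (s * (s - 8))) * e2 s))
      - qS s * e2 s) / PP s, fun s hs h0 => ?_, fun s hs h0 => ?_⟩
    · refine quot (N := fun s => -ρ0 s - (α * s + β) * e s
        - (qS s + a * (s * (s - 8))) * e1 s) hs h0 (fun u hu hu0 => ?_) ?_
      · have := eq0 u hu hu0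
        linarith
      · exact ((dρ0 s h0).fun_neg.fun_sub ((dlin α β s).fun_mul (d0 s hs h0))).fun_sub
          (((dqS s).fun_add ((dss s).const_mul _)).fun_mul (d1 s hs h0))
    · have hP := PPne hs h0
      rw [mul_div_cancel₀ _ hP]
      push_cast
      ring
  have bR1 : ∀ s ∈ Ioo (-1 : ℝ) 8, s ≠ 0 →
      |-ρ1 s - ((6 + 2 * a + α) * s + (β - 14 - 8 * a)) * e1 s - α * e s|
        ≤ η1 + C1 * γ1 + α * γ0 := fun s hs h0 =>
    abs3 (r1 s hs h0) (hC1 s hs) (b1 s hs h0) (abs_of_nonneg hα).le (b0 s hs h0)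
  have b2 : ∀ s ∈ Ioo (-1 : ℝ) 8, s ≠ 0 → |e2 s| ≤ γ2 := fun s hs h0 =>
    (boot a 1 ha (by norm_num) e2 e3 _ _ d2 eq1 bR1
      (Zstep a 0 ha (by norm_num) eq0' bR0 b1) s hs h0).trans g2
  obtain ⟨e4, d3, eq2⟩ : ∃ e4 : ℝ → ℝ,
      (∀ s ∈ Ioo (-1 : ℝ) 8, s ≠ 0 → HasDerivAt e3 (e4 s) s) ∧
      ∀ s ∈ Ioo (-1 : ℝ) 8, s ≠ 0 → PP s * e4 s
        + ((((2 : ℕ) : ℝ) + 1) * qS s + a * (s * (s - 8))) * e3 s
        = -ρ2 s - ((18 + 4 * a + α) * s + (β - 42 - 16 * a)) * e2 s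
          - (6 + 2 * a + 2 * α) * e1 s := by
    refine ⟨fun s => ((-ρ2 s - ((6 + 2 * a + α) * e1 s
      + ((6 + 2 * a + α) * s + (β - 14 - 8 * a)) * e2 s) - α * e1 s
      - ((2 * (6 * s - 14) + a * (2 * s - 8)) * e2 s + (2 * qS s + a * (s * (s - 8))) * e3 s))
      - qS s * e3 s) / PP s, fun s hs h0 => ?_, fun s hs h0 => ?_⟩
    · refine quot (N := fun s => -ρ1 s - ((6 + 2 * a + α) * s + (β - 14 - 8 * a)) * e1 s - α * e s
        - (2 * qS s + a * (s * (s - 8))) * e2 s) hs h0 (fun u hu hu0 => ?_) ?_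
      · have := eq1 u hu hu0
        push_cast at this
        linarith
      · exact (((dρ1 s h0).fun_neg.fun_sub ((dlin _ _ s).fun_mul (d1 s hs h0))).fun_sub
          ((d0 s hs h0).const_mul α)).fun_sub
          ((((dqS s).const_mul 2).fun_add ((dss s).const_mul _)).fun_mul (d2 s hs h0))
    · have hP := PPne hs h0
      rw [mul_div_cancel₀ _ hP]
      push_cast
      ring
  have ha0 : (0 : ℝ) ≤ 6 + 2 * a + 2 * α := by positivity
  have bR2 : ∀ s ∈ Ioo (-1 : ℝ) 8, s ≠ 0 →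
      |-ρ2 s - ((18 + 4 * a + α) * s + (β - 42 - 16 * a)) * e2 s - (6 + 2 * a + 2 * α) * e1 s|
        ≤ η2 + C2 * γ2 + (6 + 2 * a + 2 * α) * γ1 := fun s hs h0 =>
    abs3 (r2 s hs h0) (hC2 s hs) (b2 s hs h0) (abs_of_nonneg ha0).le (b1 s hs h0)
  have b3 : ∀ s ∈ Ioo (-1 : ℝ) 8, s ≠ 0 → |e3 s| ≤ γ3 := fun s hs h0 =>
    (boot a 2 ha (by norm_num) e3 e4 _ _ d3 eq2 bR2
      (Zstep a 1 ha (by norm_num) eq1 bR1 b2) s hs h0).trans g3
  have cQ : ∀ j : ℕ, Continuous fun s : ℝ => ((j : ℝ) + 1) * qS s + a * (s * (s - 8)) :=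
    fun j => by have := cqS; fun_prop
  obtain ⟨G1, cG1, hG1⟩ := extn (cQ 0) (R := fun s => -ρ0 s - (α * s + β) * e s - 0 * 0)
    (by fun_prop) (nQ a 0 ha (by norm_num)) d1 eq0' b2
  obtain ⟨G2, cG2, hG2⟩ := extn (cQ 1)
    (R := fun s => -ρ1 s - ((6 + 2 * a + α) * s + (β - 14 - 8 * a)) * G1 s - α * e s)
    (by fun_prop) (nQ a 1 ha (by norm_num)) d2
    (fun s hs h0 => by rw [hG1 s hs h0]; exact eq1 s hs h0) b3
  refine ⟨G1, G2, e3, ce, cG1, cG2, fun s hs h0 => ?_, fun s hs h0 => ?_, fun s hs h0 => ?_, b0,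
    fun s hs h0 => ?_, fun s hs h0 => ?_, b3⟩
  · rw [hG1 s hs h0]; exact d0 s hs h0
  · rw [hG2 s hs h0]
    exact (d1 s hs h0).congr_of_eventuallyEq ((ev hs h0).mono fun u hu => hG1 u hu.1 hu.2)
  · exact (d2 s hs h0).congr_of_eventuallyEq ((ev hs h0).mono fun u hu => hG2 u hu.1 hu.2)
  · rw [hG1 s hs h0]; exact b1 s hs h0
  · rw [hG2 s hs h0]; exact b2 s hs h0

/-- the zeroth-order bound on `(-1,0)` -/
lemma negside (a : ℕ) (ha : a = 0 ∨ a = 3) (α β κ : ℝ) (hκ : 0 < κ) {e e1 e2 ρ0 : ℝ → ℝ} {η : ℝ}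
    (ce : ContinuousOn e (Icc (-1 : ℝ) 8))
    (d0 : ∀ s ∈ Ioo (-1 : ℝ) 8, s ≠ 0 → HasDerivAt e (e1 s) s)
    (d1 : ∀ s ∈ Ioo (-1 : ℝ) 8, s ≠ 0 → HasDerivAt e1 (e2 s) s)
    (eq0 : ∀ s ∈ Ioo (-1 : ℝ) 8, s ≠ 0 →
      PP s * e2 s + (qS s + a * (s * (s - 8))) * e1 s = -ρ0 s - (α * s + β) * e s)
    (fl : Z fun s => (s + 1) ^ a * PP s * e1 s)
    (r0 : ∀ s ∈ Ioo (-1 : ℝ) 8, s ≠ 0 → |ρ0 s| ≤ η)
    (hc : ∀ s ∈ Ioo (-1 : ℝ) 0, α * s + β ≤ -κ) :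
    ∀ s ∈ Icc (-1 : ℝ) 0, |e s| ≤ η / κ := by
  have hη : 0 ≤ η := (abs_nonneg _).trans (r0 1 (by norm_num) one_ne_zero)
  have mU : ∀ s ∈ Ioo (-1 : ℝ) 0, s ∈ Ioo (-1 : ℝ) 8 := fun s hs => ⟨hs.1, by linarith [hs.2]⟩
  have hP : ∀ s ∈ Ioo (-1 : ℝ) 0, 0 < PP s := fun s hs =>
    mul_pos_of_neg_of_neg (mul_neg_of_neg_of_pos hs.2 (by linarith [hs.1])) (by linarith [hs.2])
  have ht : ∀ s ∈ Ioo (-1 : ℝ) 0, 0 < (s + 1) ^ a := fun s hs => pow_pos (by linarith [hs.1]) _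
  have fl' : Z fun s => (s + 1) ^ a * PP s ^ (0 + 1) * e1 s := fl.congr fun s _ _ => by ring
  refine maxP (H := fun s => (s + 1) ^ a * PP s ^ (0 + 1) * e1 s)
    (w := fun s => 1 / ((s + 1) ^ a * PP s))
    (g := fun s => (s + 1) ^ a * PP s ^ 0 * (-ρ0 s - (α * s + β) * e s)) (by norm_num)
    (ce.mono (Icc_subset_Icc le_rfl (by norm_num))) (fun s hs => ?_)
    (fun s hs => one_div_pos.2 (mul_pos (ht s hs) (hP s hs))) (fun s hs => ?_) (fun s hs h => ?_)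
    (fun s hs h => ?_) fl'.1 fl'.l0
  · refine (d0 s (mU s hs) hs.2.ne).congr_deriv ?_
    have h1 := (ht s hs).ne'
    have h2 := (hP s hs).ne'
    field_simp
    ring
  · refine dflux a 0 ha (d1 s (mU s hs) hs.2.ne) ?_
    have := eq0 s (mU s hs) hs.2.ne
    push_cast
    linarith
  · rw [pow_zero, mul_one]
    refine mul_pos (ht s hs) ?_
    have h1 := (abs_le.1 (r0 s (mU s hs) hs.2.ne)).2
    have h2 := hc s hs
    rw [div_lt_iff₀ hκ] at h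
    have h3 : 0 < e s := by
      by_contra h4
      nlinarith
    nlinarith
  · rw [pow_zero, mul_one]
    refine mul_neg_of_pos_of_neg (ht s hs) ?_
    have h1 := (abs_le.1 (r0 s (mU s hs) hs.2.ne)).1
    have h2 := hc s hs
    rw [← neg_div, lt_div_iff₀ hκ] at h
    have h3 : e s < 0 := by
      by_contra h4
      nlinarith
    nlinarith

end Boot
end Pool.Agent.Lib.MP_cbe5a6_an
end

-- part Pool.Agent.Lib.MP_cbe5a6_an.Boot
section

/-! Error bounds for the approximate densities. -/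

set_option autoImplicit false

namespace Pool.Agent.Lib.MP_cbe5a6_an
namespace Boot

open Set Filter Topology

noncomputable section

/-- supersolution on `[0,8]` -/
def ph (s : ℝ) : ℝ := 4 - 959 / 800 * s + 1029 / 3200 * s ^ 2 - 161 / 2560 * s ^ 3
  + 35 / 4096 * s ^ 4 - 2499 / 3276800 * s ^ 5 + 21 / 524288 * s ^ 6 - 49 / 52428800 * s ^ 7
def ph1 (s : ℝ) : ℝ := -959 / 800 + 1029 / 1600 * s - 483 / 2560 * s ^ 2 + 35 / 1024 * s ^ 3
  - 2499 / 655360 * s ^ 4 + 63 / 262144 * s ^ 5 - 343 / 52428800 * s ^ 6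
def ph2 (s : ℝ) : ℝ := 1029 / 1600 - 483 / 1280 * s + 105 / 1024 * s ^ 2
  - 2499 / 163840 * s ^ 3 + 315 / 262144 * s ^ 4 - 1029 / 26214400 * s ^ 5

lemma dmon (c : ℝ) (n : ℕ) (s : ℝ) :
    HasDerivAt (fun s : ℝ => c * s ^ n) (c * (n * s ^ (n - 1))) s :=
  (hasDerivAt_pow n s).const_mul c

lemma dph (s : ℝ) : HasDerivAt ph (ph1 s) s := by
  have h := (((((((((hasDerivAt_id' s).const_mul (959 / 800)).const_sub 4).fun_add
    (dmon (1029 / 3200) 2 s)).fun_sub (dmon (161 / 2560) 3 s)).fun_add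
    (dmon (35 / 4096) 4 s)).fun_sub (dmon (2499 / 3276800) 5 s)).fun_add
    (dmon (21 / 524288) 6 s)).fun_sub (dmon (49 / 52428800) 7 s))
  refine h.congr_deriv ?_
  unfold ph1
  push_cast
  ring

lemma dph1 (s : ℝ) : HasDerivAt ph1 (ph2 s) s := by
  have h := ((((((((hasDerivAt_id' s).const_mul (1029 / 1600)).const_add (-959 / 800)).fun_sub
    (dmon (483 / 2560) 2 s)).fun_add (dmon (35 / 1024) 3 s)).fun_sub
    (dmon (2499 / 655360) 4 s)).fun_add (dmon (63 / 262144) 5 s)).fun_sub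
    (dmon (343 / 52428800) 6 s))
  refine h.congr_deriv ?_
  unfold ph2
  push_cast
  ring

lemma phb {s : ℝ} (h0 : 0 ≤ s) (h8 : s ≤ 8) :
    1 ≤ ph s ∧ ph s ≤ 4 ∧ 1 ≤ PP s * ph2 s + qS s * ph1 s + (s - 2) * ph s := by
  obtain ⟨x, rfl⟩ : ∃ x : ℝ, s = 8 * x := ⟨s / 8, by ring⟩
  obtain ⟨y, hy⟩ : ∃ y : ℝ, y = 1 - x := ⟨_, rfl⟩
  have hx0 : 0 ≤ x := by linarith
  have hy0 : 0 ≤ y := by linarith
  have e1 : ph (8 * x) - 1 = 3 * y ^ 7 + 1141 / 100 * x * y ^ 6 + 651 / 25 * x ^ 2 * y ^ 5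
      + 637 / 20 * x ^ 3 * y ^ 4 + 126 / 5 * x ^ 4 * y ^ 3 + 294 / 25 * x ^ 5 * y ^ 2
      + 77 / 25 * x ^ 6 * y + 17 / 50 * x ^ 7 := by
    rw [hy]; unfold ph; ring
  have e2 : 4 - ph (8 * x) = 959 / 100 * x * y ^ 6 + 924 / 25 * x ^ 2 * y ^ 5
      + 1463 / 20 * x ^ 3 * y ^ 4 + 399 / 5 * x ^ 4 * y ^ 3 + 1281 / 25 * x ^ 5 * y ^ 2
      + 448 / 25 * x ^ 6 * y + 133 / 50 * x ^ 7 := by
    rw [hy]; unfold ph; ring
  have e3 : PP (8 * x) * ph2 (8 * x) + qS (8 * x) * ph1 (8 * x) + (8 * x - 2) * ph (8 * x) - 1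
      = 59 / 100 * y ^ 10 + 5451 / 50 * x * y ^ 9 + 3203 / 100 * x ^ 2 * y ^ 8
      + 2332 / 25 * x ^ 3 * y ^ 7 + 6461 / 20 * x ^ 4 * y ^ 6 + 5257 / 50 * x ^ 5 * y ^ 5
      + 10619 / 100 * x ^ 6 * y ^ 4 + 823 / 5 * x ^ 7 * y ^ 3 + 19 * x ^ 8 * y ^ 2
      + 239 / 25 * x ^ 9 * y + 37 / 50 * x ^ 10 := by
    rw [hy]; unfold ph ph1 ph2 PP qS; ring
  refine ⟨sub_nonneg.1 ?_, sub_nonneg.1 ?_, sub_nonneg.1 ?_⟩
  · rw [e1]; positivity
  · rw [e2]; positivity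
  · rw [e3]; positivity

lemma cph : Continuous ph := by unfold ph; fun_prop
lemma cph1 : Continuous ph1 := by unfold ph1; fun_prop

/-- the zeroth-order bound on `(0,8)` for the density -/
lemma posside {e e1 e2 ρ0 : ℝ → ℝ} {η : ℝ} (ce : ContinuousOn e (Icc (-1 : ℝ) 8))
    (d0 : ∀ s ∈ Ioo (-1 : ℝ) 8, s ≠ 0 → HasDerivAt e (e1 s) s)
    (d1 : ∀ s ∈ Ioo (-1 : ℝ) 8, s ≠ 0 → HasDerivAt e1 (e2 s) s)
    (eq0 : ∀ s ∈ Ioo (-1 : ℝ) 8, s ≠ 0 → PP s * e2 s + qS s * e1 s = -ρ0 s - (s - 2) * e s)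
    (fl : Z fun s => PP s * e1 s)
    (r0 : ∀ s ∈ Ioo (-1 : ℝ) 8, s ≠ 0 → |ρ0 s| ≤ η) :
    ∀ s ∈ Icc (0 : ℝ) 8, |e s| ≤ 4 * η := by
  have hη : 0 ≤ η := (abs_nonneg _).trans (r0 1 (by norm_num) one_ne_zero)
  have mU : ∀ s ∈ Ioo (0 : ℝ) 8, s ∈ Ioo (-1 : ℝ) 8 := fun s hs => ⟨by linarith [hs.1], hs.2⟩
  have hP : ∀ s ∈ Ioo (0 : ℝ) 8, PP s < 0 := fun s hs =>
    mul_neg_of_pos_of_neg (mul_pos hs.1 (by linarith [hs.1])) (by linarith [hs.2])
  have hph : ∀ s ∈ Icc (0 : ℝ) 8, 0 < ph s := fun s hs => by linarith [(phb hs.1 hs.2).1]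
  have hZ : Z fun s => PP s * (e s * ph1 s) - PP s * e1 s * ph s :=
    (ZPP.mul (ce.mul cph1.continuousOn)).sub (fl.mul cph.continuousOn)
  have key := maxP (η := η) (r := fun s => e s / ph s)
    (H := fun s => PP s * (e s * ph1 s) - PP s * e1 s * ph s)
    (w := fun s => 1 / (-PP s * ph s ^ 2))
    (g := fun s => ρ0 s * ph s + e s * (PP s * ph2 s + qS s * ph1 s + (s - 2) * ph s))
    (show (0 : ℝ) < 8 by norm_num)
    ((ce.mono (Icc_subset_Icc (by norm_num) le_rfl)).div cph.continuousOn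
      fun s hs => (hph s hs).ne')
    (fun s hs => by
      have h1 := (hph s (Ioo_subset_Icc_self hs)).ne'
      have h2 := (hP s hs).ne
      refine ((d0 s (mU s hs) hs.1.ne').fun_div (dph s) h1).congr_deriv ?_
      field_simp
      ring)
    (fun s hs => one_div_pos.2 (mul_pos (neg_pos.2 (hP s hs))
      (pow_pos (hph s (Ioo_subset_Icc_self hs)) 2)))
    (fun s hs => by
      refine (((dPP s).fun_mul ((d0 s (mU s hs) hs.1.ne').fun_mul (dph1 s))).fun_sub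
        (((dPP s).fun_mul (d1 s (mU s hs) hs.1.ne')).fun_mul (dph s))).congr_deriv ?_
      have h := eq0 s (mU s hs) hs.1.ne'
      linear_combination (-ph s) * h)
    (fun s hs h => by
      have h1 := hph s (Ioo_subset_Icc_self hs)
      have h2 := (phb hs.1.le hs.2.le).2.2
      have h3 := (abs_le.1 (r0 s (mU s hs) hs.1.ne')).1
      rw [lt_div_iff₀ h1] at h
      have h4 : 0 ≤ η * ph s := mul_nonneg hη h1.le
      have h5 := mul_le_mul_of_nonneg_left h2 (show 0 ≤ e s by linarith)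
      have h6 := mul_le_mul_of_nonneg_right h3 h1.le
      linarith)
    (fun s hs h => by
      have h1 := hph s (Ioo_subset_Icc_self hs)
      have h2 := (phb hs.1.le hs.2.le).2.2
      have h3 := (abs_le.1 (r0 s (mU s hs) hs.1.ne')).2
      rw [div_lt_iff₀ h1] at h
      have h4 : 0 ≤ η * ph s := mul_nonneg hη h1.le
      have h5 := mul_le_mul_of_nonneg_left h2 (show 0 ≤ -e s by linarith)
      have h6 := mul_le_mul_of_nonneg_right h3 h1.le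
      linarith)
    hZ.r0 hZ.2.2
  intro s hs
  have h1 := hph s hs
  have h2 := key s hs
  rw [abs_div, abs_of_pos h1, div_le_iff₀ h1] at h2
  have h3 := mul_le_mul_of_nonneg_left (phb hs.1 hs.2).2.1 hη
  linarith

lemma diffZ (a : ℕ) {a0 : ℝ} {v1 v2 w1 N : ℝ → ℝ}
    (dv1 : ∀ s : ℝ, s ≠ 0 → HasDerivAt v1 (v2 s) s)
    (fl : Tendsto (fun s => s * v1 s) (𝓝[≠] 0) (𝓝 (-a0)))
    (cN : ContinuousOn N (Icc (-1 : ℝ) 8)) (N1 : N (-1) = 0) (N0 : N 0 = 8 * a0) (N8 : N 8 = 0)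
    (hN : ∀ s ∈ Ioo (-1 : ℝ) 8, s ≠ 0 → (s + 1) ^ a * PP s * w1 s = N s) :
    Z fun s => (s + 1) ^ a * PP s * (w1 s - v1 s) := by
  have cW : Continuous fun s : ℝ => (s + 1) ^ a * PP s := by have := cPP; fun_prop
  have h : Z fun s => N s - (s + 1) ^ a * PP s * v1 s := by
    refine ⟨?_, ?_, ?_⟩
    · have t := (tA cN).sub ((cW.continuousAt.mul
        (dv1 (-1) (by norm_num)).continuousAt).tendsto.mono_left nhdsWithin_le_nhds)
      have e : N (-1) - ((-1 : ℝ) + 1) ^ a * PP (-1) * v1 (-1) = 0 := by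
        rw [N1]; norm_num [PP]
      rw [← e]
      exact t
    · have c2 : Continuous fun s : ℝ => (s + 1) ^ a * ((s + 1) * (s - 8)) := by fun_prop
      have t := (tB cN).sub
        ((c2.continuousAt.tendsto.mono_left (nhdsWithin_le_nhds (s := {0}ᶜ))).mul fl)
      have e : N 0 - ((0 : ℝ) + 1) ^ a * ((0 + 1) * (0 - 8)) * -a0 = 0 := by
        rw [N0, zero_add, one_pow]; ring
      rw [e] at t
      refine t.congr fun s => ?_
      unfold PP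
      ring
    · have t := (tC cN).sub ((cW.continuousAt.mul
        (dv1 8 (by norm_num)).continuousAt).tendsto.mono_left nhdsWithin_le_nhds)
      have e : N 8 - ((8 : ℝ) + 1) ^ a * PP 8 * v1 8 = 0 := by
        rw [N8]; norm_num [PP]
      rw [← e]
      exact t
  exact h.congr fun s hs h0 => by rw [← hN s hs h0]; ring

lemma cslog : Continuous fun s : ℝ => s * Real.log |s| := by
  simp only [Real.log_abs]
  exact Real.continuous_mul_log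

lemma regS {σ J m v v1 v2 ρ0 ρ1 ρ2 : ℝ → ℝ} (S : Sol σ J m)
    (A : App 1 qS cS v v1 v2 ρ0 ρ1 ρ2 (1 / 10 ^ 15) (1 / 10 ^ 13) (1 / 10 ^ 11)) :
    ∃ g1 g2 g3, Reg (fun s => σ s - v s) g1 g2 g3
      (4 / 10 ^ 15) (16 / 10 ^ 15) (5 / 10 ^ 13) (4 / 10 ^ 11) := by
  have ce : ContinuousOn (fun s => σ s - v s) (Icc (-1 : ℝ) 8) :=
    (S.cσ.sub A.cv).congr fun s _ => by simp only [Pi.sub_apply]; ring
  have hJ : ∀ s ∈ Ioo (-1 : ℝ) 8, s ≠ 0 → PP s * (J s / PP s) = J s := fun s hs h0 =>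
    mul_div_cancel₀ _ (PPne hs h0)
  have d0 : ∀ s ∈ Ioo (-1 : ℝ) 8, s ≠ 0 →
      HasDerivAt (fun s => σ s - v s) (J s / PP s - v1 s) s := fun s hs h0 =>
    (S.dσ s hs h0).fun_sub (A.dv s h0)
  have d1 : ∀ s ∈ Ioo (-1 : ℝ) 8, s ≠ 0 → HasDerivAt (fun s => J s / PP s - v1 s)
      ((-((s - 2) * σ s) - qS s * (J s / PP s)) / PP s - v2 s) s := fun s hs h0 =>
    (quot (z := fun s => J s / PP s) hs h0 hJ (S.dJ s hs h0)).fun_sub (A.dv1 s h0)
  have eq0 : ∀ s ∈ Ioo (-1 : ℝ) 8, s ≠ 0 →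
      PP s * ((-((s - 2) * σ s) - qS s * (J s / PP s)) / PP s - v2 s)
        + qS s * (J s / PP s - v1 s) = -ρ0 s - (s - 2) * (σ s - v s) := fun s hs h0 => by
    have h := A.eqn s h0
    rw [mul_sub, mul_div_cancel₀ _ (PPne hs h0)]
    unfold cS at h
    linarith
  have eq0' : ∀ s ∈ Ioo (-1 : ℝ) 8, s ≠ 0 →
      PP s * ((-((s - 2) * σ s) - qS s * (J s / PP s)) / PP s - v2 s)
        + (qS s + (0 : ℕ) * (s * (s - 8))) * (J s / PP s - v1 s)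
        = -ρ0 s - (1 * s + -2) * (σ s - v s) := fun s hs h0 => by
    have h := eq0 s hs h0
    push_cast
    linarith
  have fl : Z fun s => (s + 1) ^ 0 * PP s * (J s / PP s - v1 s) :=
    diffZ 0 (w1 := fun s => J s / PP s) A.dv1 A.fl S.cJ S.J1 (by rw [S.J0]; norm_num) S.J8
      fun s hs h0 => by rw [pow_zero, one_mul]; exact hJ s hs h0
  have b0 : ∀ s ∈ Ioo (-1 : ℝ) 8, s ≠ 0 → |σ s - v s| ≤ 4 / 10 ^ 15 := fun s hs _ => by
    rcases le_total s 0 with h | h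
    · have := negside 0 (Or.inl rfl) 1 (-2) 2 (by norm_num) ce d0 d1 eq0' fl A.b0
        (fun s hs => by linarith [hs.2]) s ⟨hs.1.le, h⟩
      exact this.trans (by norm_num)
    · have := posside ce d0 d1 eq0 (fl.congr fun s _ _ => by ring) A.b0 s ⟨h, hs.2.le⟩
      exact this.trans (by norm_num)
  refine core 0 (Or.inl rfl) 1 (-2) (by norm_num) _ _ _ 6 40 108 ce d0 d1 eq0' fl A.dρ0 A.dρ1
    A.cρ0 A.cρ1 A.b0 A.b1 A.b2 b0 (fun s hs => ?_) (fun s hs => ?_) (fun s hs => ?_)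
    (by norm_num) (by norm_num) (by norm_num)
  all_goals
    push_cast
    rw [abs_le]
    constructor <;> linarith [hs.1, hs.2]

/-- derivative of the third angular moment -/
def m1 (σ m : ℝ → ℝ) (s : ℝ) : ℝ := (-((2 * s ^ 2 - 23 * s + 2) * m s) - 2 * σ s) / PP s

lemma dm {σ J m : ℝ → ℝ} (S : Sol σ J m) {s : ℝ} (hs : s ∈ Ioo (-1 : ℝ) 8) (h0 : s ≠ 0) :
    HasDerivAt m (m1 σ m s) s := by
  have ht : s + 1 ≠ 0 := by linarith [hs.1]
  have h8 : s - 8 ≠ 0 := by linarith [hs.2]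
  have h := ((((((hasDerivAt_id' s).add_const 1).fun_mul
    ((hasDerivAt_id' s).sub_const 2)).fun_mul (S.dσ s hs h0)).fun_add (S.dJ s hs h0)).fun_div
    ((((hasDerivAt_id' s).add_const 1).fun_pow 3).const_mul 2)
    (mul_ne_zero two_ne_zero (pow_ne_zero 3 ht)))
  have hJ : J s = 2 * (s + 1) ^ 3 * m s - (s + 1) * (s - 2) * σ s := by
    have := S.hm s (Ioo_subset_Icc_self hs) h0
    linarith
  refine (h.congr_of_eventuallyEq ?_).congr_deriv ?_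
  · filter_upwards [ev hs h0] with y hy
    have hy1 : y + 1 ≠ 0 := by linarith [hy.1.1]
    rw [← S.hm y (Ioo_subset_Icc_self hy.1) hy.2]
    field_simp
  · rw [hJ]
    unfold m1 PP
    push_cast
    field_simp
    ring

lemma regM {σ J m v v1 g1 g2 g3 u u1 u2 τ0 τ1 τ2 : ℝ → ℝ} (S : Sol σ J m)
    (dv : ∀ s : ℝ, s ≠ 0 → HasDerivAt v (v1 s) s)
    (R : Reg (fun s => σ s - v s) g1 g2 g3
      (4 / 10 ^ 15) (16 / 10 ^ 15) (5 / 10 ^ 13) (4 / 10 ^ 11))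
    (A : App (-1) qM cM u u1 u2 τ0 τ1 τ2 (4 / 10 ^ 12) (2 / 10 ^ 10) (1 / 10 ^ 8))
    (hr : ∀ s ∈ Ioo (0 : ℝ) 8,
      |2 * (s + 1) ^ 2 * u s - (s - 2) * v s - s * (s - 8) * v1 s| ≤ 1 / 10 ^ 13) :
    ∃ g1 g2 g3, Reg (fun s => m s - u s) g1 g2 g3
      (2 / 10 ^ 13) (7 / 10 ^ 12) (5 / 10 ^ 10) (6 / 10 ^ 8) := by
  have ce : ContinuousOn (fun s => m s - u s) (Icc (-1 : ℝ) 8) :=
    (S.cm.sub A.cv).congr fun s _ => by simp only [Pi.sub_apply]; ring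
  have hJ : ∀ s ∈ Ioo (-1 : ℝ) 8, s ≠ 0 →
      J s = 2 * (s + 1) ^ 3 * m s - (s + 1) * (s - 2) * σ s := fun s hs h0 => by
    have := S.hm s (Ioo_subset_Icc_self hs) h0
    linarith
  have hm1 : ∀ s ∈ Ioo (-1 : ℝ) 8, s ≠ 0 →
      PP s * m1 σ m s = -((2 * s ^ 2 - 23 * s + 2) * m s) - 2 * σ s := fun s hs h0 =>
    mul_div_cancel₀ _ (PPne hs h0)
  have d0 : ∀ s ∈ Ioo (-1 : ℝ) 8, s ≠ 0 →
      HasDerivAt (fun s => m s - u s) (m1 σ m s - u1 s) s := fun s hs h0 =>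
    (dm S hs h0).fun_sub (A.dv s h0)
  have dq : ∀ s : ℝ, HasDerivAt (fun s : ℝ => 2 * s ^ 2 - 23 * s + 2) (4 * s - 23) s := fun s =>
    (((dmon 2 2 s).fun_sub ((hasDerivAt_id' s).const_mul 23)).add_const 2).congr_deriv
      (by push_cast; ring)
  have d1 : ∀ s ∈ Ioo (-1 : ℝ) 8, s ≠ 0 → HasDerivAt (fun s => m1 σ m s - u1 s)
      ((-((4 * s - 23) * m s + (2 * s ^ 2 - 23 * s + 2) * m1 σ m s) - 2 * (J s / PP s)
        - qS s * m1 σ m s) / PP s - u2 s) s := fun s hs h0 =>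
    (quot hs h0 hm1 (((dq s).fun_mul (dm S hs h0)).fun_neg.fun_sub
      ((S.dσ s hs h0).const_mul 2))).fun_sub (A.dv1 s h0)
  have eq0 : ∀ s ∈ Ioo (-1 : ℝ) 8, s ≠ 0 →
      PP s * ((-((4 * s - 23) * m s + (2 * s ^ 2 - 23 * s + 2) * m1 σ m s) - 2 * (J s / PP s)
        - qS s * m1 σ m s) / PP s - u2 s)
        + (qS s + (3 : ℕ) * (s * (s - 8))) * (m1 σ m s - u1 s)
        = -τ0 s - (6 * s + -30) * (m s - u s) := fun s hs h0 => by
    have h := A.eqn s h0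
    have ht : s + 1 ≠ 0 := by linarith [hs.1]
    have h8 : s - 8 ≠ 0 := by linarith [hs.2]
    have e : 2 * (J s / PP s) = (2 * s - 7) * m s + (s + 1) * (s - 2) * m1 σ m s := by
      rw [hJ s hs h0]
      unfold m1 PP
      field_simp
      ring
    rw [mul_sub, mul_div_cancel₀ _ (PPne hs h0), e]
    unfold qM cM at h
    unfold qS
    push_cast
    linear_combination -h
  have cA : ContinuousOn (fun s => s * σ s) (Icc (-1 : ℝ) 8) :=
    ((continuousOn_id.mul S.cσ).sub cslog.continuousOn).congr fun s _ => by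
      simp only [Pi.sub_apply, Pi.mul_apply, id]; ring
  have cB : ContinuousOn (fun s => s * m s) (Icc (-1 : ℝ) 8) :=
    ((continuousOn_id.mul S.cm).add cslog.continuousOn).congr fun s _ => by
      simp only [Pi.add_apply, Pi.mul_apply, id]; ring
  have cJ := S.cJ
  have fl : Z fun s => (s + 1) ^ 3 * PP s * (m1 σ m s - u1 s) :=
    diffZ 3 (w1 := m1 σ m) (N := fun s => (s + 1) * ((s + 1) * (s - 8) * (s * σ s)
      + (s - 2) * J s) / 2 - 3 * (s + 1) ^ 3 * (s - 8) * (s * m s)) A.dv1 A.fl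
      (((((continuousOn_id.add continuousOn_const).mul ((((continuousOn_id.add
        continuousOn_const).mul (continuousOn_id.sub continuousOn_const)).mul cA).add
        ((continuousOn_id.sub continuousOn_const).mul cJ))).div_const 2).sub
        ((Continuous.continuousOn (f := fun s : ℝ => 3 * (s + 1) ^ 3 * (s - 8))
          (by fun_prop)).mul cB)))
      (by norm_num) (by simp only [S.J0]; norm_num) (by simp only [S.J8]; norm_num)
      fun s hs h0 => by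
        rw [mul_assoc, hm1 s hs h0]
        simp only [hJ s hs h0]
        ring
  have b0 : ∀ s ∈ Ioo (-1 : ℝ) 8, s ≠ 0 → |m s - u s| ≤ 2 / 10 ^ 13 := fun s hs h0 => by
    rcases lt_or_gt_of_ne h0 with h | h
    · have := negside 3 (Or.inr rfl) 6 (-30) 30 (by norm_num) ce d0 d1 eq0 fl A.b0
        (fun s hs => by linarith [hs.2]) s ⟨hs.1.le, h.le⟩
      exact this.trans (by norm_num)
    · have ht : s + 1 ≠ 0 := by linarith [hs.1]
      have h8 : s - 8 ≠ 0 := by linarith [hs.2]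
      have e1 : g1 s = J s / PP s - v1 s :=
        (R.d0 s hs h0).unique ((S.dσ s hs h0).fun_sub (dv s h0))
      have e2 : 2 * (s + 1) ^ 2 * (m s - u s)
          = -(2 * (s + 1) ^ 2 * u s - (s - 2) * v s - s * (s - 8) * v1 s)
            - (2 - s) * (σ s - v s) - s * (8 - s) * g1 s := by
        rw [e1, hJ s hs h0]
        unfold PP
        field_simp
        ring
      have h1 : |2 - s| ≤ 6 := by rw [abs_le]; constructor <;> linarith [hs.2]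
      have h2 : |s * (8 - s)| ≤ 16 := by
        rw [abs_le]; constructor <;> nlinarith [hs.2, sq_nonneg (s - 4)]
      have h3 := abs3 (hr s ⟨h, hs.2⟩) h1 (R.b0 s hs h0) h2 (R.b1 s hs h0)
      rw [← e2, abs_mul, abs_of_nonneg (by positivity : (0 : ℝ) ≤ 2 * (s + 1) ^ 2)] at h3
      have h4 : 2 * |m s - u s| ≤ 2 * (s + 1) ^ 2 * |m s - u s| :=
        mul_le_mul_of_nonneg_right (by nlinarith) (abs_nonneg _)
      have h5 : (1 : ℝ) / 10 ^ 13 + 6 * (4 / 10 ^ 15) + 16 * (16 / 10 ^ 15) ≤ 2 * (2 / 10 ^ 13) := by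
        norm_num
      linarith
  refine core 3 (Or.inr rfl) 6 (-30) (by norm_num) _ _ _ 36 86 168 ce d0 d1 eq0 fl A.dρ0 A.dρ1
    A.cρ0 A.cρ1 A.b0 A.b1 A.b2 b0 (fun s hs => ?_) (fun s hs => ?_) (fun s hs => ?_)
    (by norm_num) (by norm_num) (by norm_num)
  all_goals
    push_cast
    rw [abs_le]
    constructor <;> linarith [hs.1, hs.2]

end

end Boot

theorem stmtBoot : StmtBoot := by
  intro σ J m v v1 v2 ρ0 ρ1 ρ2 u u1 u2 τ0 τ1 τ2 S A B hr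
  obtain ⟨g1, g2, g3, R⟩ := Boot.regS S A
  exact ⟨⟨g1, g2, g3, R⟩, Boot.regM S A.dv R B hr⟩

end Pool.Agent.Lib.MP_cbe5a6_an
end
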