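import Pool.Agent.Lib.MP_cbe5a6_an.Tab

/-! Kernel checks of the first forty rows. -/

set_option autoImplicit false

namespace Pool.Agent.Lib.MP_cbe5a6_an

theorem kR1 : rowsOK 1 10 = true := by decide +kernel
theorem kR2 : rowsOK 11 30 = true := by decide +kernel

end Pool.Agent.Lib.MP_cbe5a6_an
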