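import Pool.Agent.Lib.MP_cbe5a6_an.Tab

/-! Kernel checks of the tables and of the tail moments. -/

set_option autoImplicit false

namespace Pool.Agent.Lib.MP_cbe5a6_an

theorem kAs : psm gg dAs' = dAs := by decide +kernel
theorem kAm : psm gg dAm' = dAm := by decide +kernel
theorem kP1 : tbOK true a1L (psm (-1) b1L) 33 560 73 = true := by decide +kernel
theorem kM1 : tbOK true (psm (-1) a1L) b1L 33 560 73 = true := by decide +kernel
theorem kP0 : tbOK false a0L (psm (-1) b0L) 73 455 151 = true := by decide +kernel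
theorem kM0 : tbOK false (psm (-1) a0L) b0L 73 455 151 = true := by decide +kernel
theorem kLen : a0L.length ≤ 74 ∧ b0L.length ≤ 74 ∧ a1L.length ≤ 34 ∧ b1L.length ≤ 34 := by
  decide +kernel
theorem kCv : (tbN true a1L (psm (-1) b1L) 33 1 1 + tbN true (psm (-1) a1L) b1L 33 1 1)
    * (hN 1 1 310 lcL + hN 1 1 310 (psm (-1) lcL)) < 2 ^ 560 := by decide +kernel
theorem kLc : lcOK 155 = true := by decide +kernel
theorem kTau : tauOK 19 = true := by decide +kernel
theorem kTail : tailOK 37 = true := by decide +kernel

end Pool.Agent.Lib.MP_cbe5a6_an
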