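import Mathlib

-- part Pool.Agent.Lib.MP_cbe5a6_an.Defs
section

/-! Definitions and interface statements for the six-linear circle inequality. -/

set_option autoImplicit false

namespace Pool.Agent.Lib.MP_cbe5a6_an

open MeasureTheory Set Filter Topology

noncomputable section

/-- point of the unit circle -/
def ex (a : ℝ) : ℂ := Complex.exp (a * Complex.I)
/-- sum of three unit vectors -/
def yy (a b c : ℝ) : ℂ := ex a + ex b + ex c
/-- `s = |y|^2 - 1`, in `[-1,8]` -/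
def ss (a b c : ℝ) : ℝ := Complex.normSq (yy a b c) - 1
/-- product of three unit vectors -/
def pr (a b c : ℝ) : ℂ := ex a * ex b * ex c
/-- `X = Re (pr * conj y ^ 3)` -/
def XX (a b c : ℝ) : ℝ := (pr a b c * (starRingEnd ℂ (yy a b c)) ^ 3).re
def al (s : ℝ) : ℝ := 29 * s ^ 3 - 42 * s ^ 2 + 64 * s
def be (s : ℝ) : ℝ := 27 * s ^ 3 - 18 * s ^ 2
def PP (s : ℝ) : ℝ := s * (s + 1) * (s - 8)
/-- the trilinear kernel -/
def KK (σ m : ℝ → ℝ) (a b c : ℝ) : ℝ :=
  al (ss a b c) * σ (ss a b c) - be (ss a b c) * XX a b c * m (ss a b c)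

def nu : Measure ℝ := volume.restrict (Icc (0 : ℝ) (2 * Real.pi))
def nu3 : Measure (Fin 3 → ℝ) := Measure.pi fun _ => nu
def I3 (F : ℝ → ℝ → ℝ → ℝ) : ℝ := ∫ x : Fin 3 → ℝ, F (x 0) (x 1) (x 2) ∂nu3
def I6 (F : (Fin 6 → ℝ) → ℝ) : ℝ :=
  ∫ θ in Set.pi Set.univ (fun _ : Fin 6 => Set.Icc (0 : ℝ) (2 * Real.pi)), F θ
/-- Gaussian mollifier -/
def GG (ε : ℝ) (z : ℂ) : ℝ := 1 / (Real.pi * ε ^ 2) * Real.exp (-Complex.normSq z / ε ^ 2)
def zz (θ : Fin 6 → ℝ) : ℂ := yy (θ 0) (θ 1) (θ 2) + yy (θ 3) (θ 4) (θ 5)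
/-- `512 (u - P)` -/
def WW (θ : Fin 6 → ℝ) : ℝ :=
  al (ss (θ 0) (θ 1) (θ 2)) + be (ss (θ 0) (θ 1) (θ 2)) *
    (pr (θ 0) (θ 1) (θ 2) * starRingEnd ℂ (pr (θ 3) (θ 4) (θ 5))).re

/-- the frozen statement -/
def Target : Prop :=
    ∀ L : ℝ → (Fin 6 → ℝ → ℝ) → ℝ,
      (∀ (ε : ℝ) (g : Fin 6 → ℝ → ℝ),
        L ε g = (1 / 2 : ℝ) ^ 6 *
          ∫ θ in Set.pi Set.univ (fun _ : Fin 6 => Set.Icc (0 : ℝ) (2 * Real.pi)),
            ((Real.cos (θ 0) + Real.cos (θ 1) + Real.cos (θ 2)) ^ 2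
                + (Real.sin (θ 0) + Real.sin (θ 1) + Real.sin (θ 2)) ^ 2 - 1)
            * ((1 / (Real.pi * ε ^ 2)) *
                Real.exp (-((∑ k : Fin 6, Real.cos (θ k)) ^ 2
                    + (∑ k : Fin 6, Real.sin (θ k)) ^ 2) / ε ^ 2))
            * ∏ j : Fin 6, g j (θ j)) →
      ∀ f : ℝ → ℝ, ContDiff ℝ (⊤ : ℕ∞) f → Function.Periodic f Real.pi →
        ∀ δ : ℝ, 0 < δ → ∃ ε₀ : ℝ, 0 < ε₀ ∧ ∀ ε : ℝ, 0 < ε → ε < ε₀ →
          L ε (fun _ => f) ≤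
            L ε (fun j t => if (j : ℕ) < 3 then f t ^ 2 else 1) + δ

/-- exact densities: `σ` radial density of the three-step walk (normalised so that
`σ + log |s|` is continuous), `J = PP * σ'` its flux, `m` the third angular moment. -/
structure Sol (σ J m : ℝ → ℝ) : Prop where
  dσ : ∀ s ∈ Ioo (-1 : ℝ) 8, s ≠ 0 → HasDerivAt σ (J s / PP s) s
  dJ : ∀ s ∈ Ioo (-1 : ℝ) 8, s ≠ 0 → HasDerivAt J (-((s - 2) * σ s)) s
  hm : ∀ s ∈ Icc (-1 : ℝ) 8, s ≠ 0 → 2 * (s + 1) ^ 3 * m s = (s + 1) * (s - 2) * σ s + J s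
  cσ : ContinuousOn (fun s => σ s + Real.log |s|) (Icc (-1 : ℝ) 8)
  cm : ContinuousOn (fun s => m s - Real.log |s|) (Icc (-1 : ℝ) 8)
  cJ : ContinuousOn J (Icc (-1 : ℝ) 8)
  J1 : J (-1) = 0
  J8 : J 8 = 0
  J0 : J 0 = 8
  pos : ∀ s ∈ Ioo (-1 : ℝ) 8, s ≠ 0 → 0 < σ s

/-- law of `y` and of `conj pr` given `y` -/
def Law (σ m : ℝ → ℝ) (c : ℝ) : Prop :=
  ∀ F : ℂ → ℂ, Continuous F →
    (∫ x : Fin 3 → ℝ, F (yy (x 0) (x 1) (x 2)) ∂nu3
      = c * ∫ w in Metric.closedBall (0 : ℂ) 3, F w * (σ (Complex.normSq w - 1) : ℝ)) ∧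
    (∫ x : Fin 3 → ℝ, F (yy (x 0) (x 1) (x 2)) * starRingEnd ℂ (pr (x 0) (x 1) (x 2)) ∂nu3
      = c * ∫ w in Metric.closedBall (0 : ℂ) 3,
          F w * (starRingEnd ℂ w) ^ 3 * (m (Complex.normSq w - 1) : ℝ))

/-- convergence of the mollified integrals -/
def Conv (σ m : ℝ → ℝ) (c : ℝ) : Prop :=
  (∀ Φ : ℝ → ℝ → ℝ → ℝ, Continuous (fun x : ℝ × ℝ × ℝ => Φ x.1 x.2.1 x.2.2) →
    Tendsto (fun ε => I6 fun θ => GG ε (zz θ) * WW θ * Φ (θ 0) (θ 1) (θ 2)) (𝓝[>] 0)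
      (𝓝 (c * I3 fun a b d => KK σ m a b d * Φ a b d))) ∧
  ∃ C : ℝ, ∀ ε : ℝ, 0 < ε → (I6 fun θ => GG ε (zz θ)) ≤ C

/-- positivity of the trilinear form on even nonnegative functions -/
def Pos (K : ℝ → ℝ → ℝ → ℝ) : Prop :=
  ∀ h : ℝ → ℝ, Continuous h → Function.Periodic h Real.pi → (∀ x, 0 ≤ h x) →
    0 ≤ I3 fun a b d => K a b d * (h a * h b * h d)

/-- three derivatives with bounds on `[-1,8]`, off the points `-1,0,8` -/
structure Reg (g g1 g2 g3 : ℝ → ℝ) (γ0 γ1 γ2 γ3 : ℝ) : Prop where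
  c0 : ContinuousOn g (Icc (-1 : ℝ) 8)
  c1 : ContinuousOn g1 (Icc (-1 : ℝ) 8)
  c2 : ContinuousOn g2 (Icc (-1 : ℝ) 8)
  d0 : ∀ s ∈ Ioo (-1 : ℝ) 8, s ≠ 0 → HasDerivAt g (g1 s) s
  d1 : ∀ s ∈ Ioo (-1 : ℝ) 8, s ≠ 0 → HasDerivAt g1 (g2 s) s
  d2 : ∀ s ∈ Ioo (-1 : ℝ) 8, s ≠ 0 → HasDerivAt g2 (g3 s) s
  b0 : ∀ s ∈ Ioo (-1 : ℝ) 8, s ≠ 0 → |g s| ≤ γ0
  b1 : ∀ s ∈ Ioo (-1 : ℝ) 8, s ≠ 0 → |g1 s| ≤ γ1
  b2 : ∀ s ∈ Ioo (-1 : ℝ) 8, s ≠ 0 → |g2 s| ≤ γ2
  b3 : ∀ s ∈ Ioo (-1 : ℝ) 8, s ≠ 0 → |g3 s| ≤ γ3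

/-- approximate solution `v` (derivative `v1`) of `PP v'' + q v' + c v = 0` with
`v + a0 log |s|` continuous and residual bounds `η0 η1 η2` -/
structure App (a0 : ℝ) (q c v v1 v2 ρ0 ρ1 ρ2 : ℝ → ℝ) (η0 η1 η2 : ℝ) : Prop where
  cv : ContinuousOn (fun s => v s + a0 * Real.log |s|) (Icc (-1 : ℝ) 8)
  dv : ∀ s : ℝ, s ≠ 0 → HasDerivAt v (v1 s) s
  dv1 : ∀ s : ℝ, s ≠ 0 → HasDerivAt v1 (v2 s) s
  fl : Tendsto (fun s => s * v1 s) (𝓝[≠] 0) (𝓝 (-a0))
  eqn : ∀ s : ℝ, s ≠ 0 → PP s * v2 s + q s * v1 s + c s * v s = ρ0 s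
  dρ0 : ∀ s : ℝ, s ≠ 0 → HasDerivAt ρ0 (ρ1 s) s
  dρ1 : ∀ s : ℝ, s ≠ 0 → HasDerivAt ρ1 (ρ2 s) s
  cρ0 : Continuous ρ0
  cρ1 : Continuous ρ1
  b0 : ∀ s ∈ Ioo (-1 : ℝ) 8, s ≠ 0 → |ρ0 s| ≤ η0
  b1 : ∀ s ∈ Ioo (-1 : ℝ) 8, s ≠ 0 → |ρ1 s| ≤ η1
  b2 : ∀ s ∈ Ioo (-1 : ℝ) 8, s ≠ 0 → |ρ2 s| ≤ η2

def qS (s : ℝ) : ℝ := 3 * s ^ 2 - 14 * s - 8
def cS (s : ℝ) : ℝ := s - 2
def qM (s : ℝ) : ℝ := 6 * s ^ 2 - 38 * s - 8
def cM (s : ℝ) : ℝ := 6 * s - 30

/-- absolutely convergent Fourier series with real symmetric coefficients -/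
structure Ser (K : ℝ → ℝ → ℝ → ℝ) (C : ℤ × ℤ → ℝ) : Prop where
  sm : Summable C
  hs : ∀ a b : ℝ, HasSum (fun k : ℤ × ℤ => (C k : ℂ) * ex (k.1 * a + k.2 * b)) (K a b 0 : ℝ)
  sw : ∀ p q : ℤ, C (p, q) = C (q, p)
  ng : ∀ p q : ℤ, C (-p, -q) = C (p, q)

/-- loads -/
def ww (c : ℤ → ℤ → ℝ) (n : ℕ) : ℝ := if n < 2 then 0 else 4 * (∑' q : ℤ, c n q) + 4 * c 0 n

/-- matrix of the quadratic forms (`s = 1` real parts, `s = -1` imaginary parts) -/
def RR (s : ℝ) (c : ℤ → ℤ → ℝ) (w : ℕ → ℝ) (n m : ℕ) : ℝ :=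
  2 * (c n (-(m : ℤ)) + s * c n m) + (if n = m then 4 * c 0 n else 0)
    - (if m = n + 1 ∨ n = m + 1 then (w n + w m) / 4 else 0)
    + (if n = 1 then (w (m - 1) - w (m + 1)) / 4 else 0)
    + (if m = 1 then (w (n - 1) - w (n + 1)) / 4 else 0)

def QQ (s : ℝ) (c : ℤ → ℤ → ℝ) (w : ℕ → ℝ) (v : ℕ → ℝ) : ℝ :=
  ∑' k : ℕ × ℕ, RR s c w k.1 k.2 * (v k.1 * v k.2)

/-- both quadratic forms are nonnegative on bounded sequences -/
def QPos (c : ℤ → ℤ → ℝ) : Prop :=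
  ∀ (v : ℕ → ℝ) (B : ℝ), (∀ n, |v n| ≤ B) → v 0 = 0 →
    (v 1 = 0 → 0 ≤ QQ 1 c (ww c) v) ∧ 0 ≤ QQ (-1) c (ww c) v

/-- weighted diagonal dominance with margin `ε / n^3`, indices `≥ lo` -/
def Rows (R : ℕ → ℕ → ℝ) (ω : ℕ → ℝ) (lo : ℕ) (ε : ℝ) : Prop :=
  ∀ n, lo ≤ n → 0 < ω n ∧ ∀ N : ℕ,
    ∑ m ∈ (Finset.range N).filter (fun m => lo ≤ m ∧ m ≠ n), |R n m| * ω m
      ≤ (R n n - ε / (n : ℝ) ^ 3) * ω n

/-! ### Job statements -/

def StmtSol : Prop := ∃ σ J m : ℝ → ℝ, Sol σ J m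

def StmtLaw : Prop := ∀ σ J m : ℝ → ℝ, Sol σ J m → ∃ c : ℝ, 0 < c ∧ Law σ m c

def StmtConv : Prop := ∀ (σ J m : ℝ → ℝ) (c : ℝ), Sol σ J m → 0 < c → Law σ m c → Conv σ m c

def StmtRed : Prop := ∀ (σ m : ℝ → ℝ) (c : ℝ), 0 < c → Conv σ m c →
  I3 (KK σ m) = 0 ∧ (Pos (KK σ m) → Target)

def StmtBoot : Prop := ∀ σ J m v v1 v2 ρ0 ρ1 ρ2 u u1 u2 τ0 τ1 τ2 : ℝ → ℝ, Sol σ J m →
  App 1 qS cS v v1 v2 ρ0 ρ1 ρ2 (1 / 10 ^ 15) (1 / 10 ^ 13) (1 / 10 ^ 11) →
  App (-1) qM cM u u1 u2 τ0 τ1 τ2 (4 / 10 ^ 12) (2 / 10 ^ 10) (1 / 10 ^ 8) →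
  (∀ s ∈ Ioo (0 : ℝ) 8,
    |2 * (s + 1) ^ 2 * u s - (s - 2) * v s - s * (s - 8) * v1 s| ≤ 1 / 10 ^ 13) →
  (∃ g1 g2 g3, Reg (fun s => σ s - v s) g1 g2 g3
      (4 / 10 ^ 15) (16 / 10 ^ 15) (5 / 10 ^ 13) (4 / 10 ^ 11)) ∧
  (∃ g1 g2 g3, Reg (fun s => m s - u s) g1 g2 g3
      (2 / 10 ^ 13) (7 / 10 ^ 12) (5 / 10 ^ 10) (6 / 10 ^ 8))

def StmtFou : Prop := ∀ e e1 e2 e3 f f1 f2 f3 : ℝ → ℝ,
  Reg e e1 e2 e3 (4 / 10 ^ 15) (16 / 10 ^ 15) (5 / 10 ^ 13) (4 / 10 ^ 11) →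
  Reg f f1 f2 f3 (2 / 10 ^ 13) (7 / 10 ^ 12) (5 / 10 ^ 10) (6 / 10 ^ 8) →
  ∃ E : ℤ × ℤ → ℝ, Ser (KK e f) E ∧
    (∀ S : Finset (ℤ × ℤ), ∑ k ∈ S, (k.1 : ℝ) ^ 6 * E k ^ 2 ≤ (3 / 2) ^ 2) ∧
    (∀ P : ℤ, |(P : ℝ)| ^ 3 * |∑' q : ℤ, E (P, 2 * q)| ≤ 3 / 2)

def StmtCan : Prop := ∀ (K : ℝ → ℝ → ℝ → ℝ) (C : ℤ × ℤ → ℝ), Ser K C →
  (∀ a b d, K a b d = K (a - d) (b - d) 0) → I3 K = 0 →
  K 0 0 0 + K Real.pi 0 0 + K 0 Real.pi 0 + K Real.pi Real.pi 0 = 0 →
  QPos (fun p q => C (2 * p, 2 * q)) → Pos K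

def StmtDom : Prop := ∀ (c E : ℤ → ℤ → ℝ) (w ω : ℕ → ℝ) (M ε : ℝ),
  Summable (fun k : ℤ × ℤ => c k.1 k.2) → Summable (fun k : ℤ × ℤ => E k.1 k.2) →
  (∀ p q, c p q = c q p) → (∀ p q, c (-p) (-q) = c p q) →
  (∀ p q, E p q = E q p) → (∀ p q, E (-p) (-q) = E p q) →
  (∀ S : Finset (ℤ × ℤ), ∑ k ∈ S, (k.1 : ℝ) ^ 6 * E k.1 k.2 ^ 2 ≤ M ^ 2) →
  (∀ p : ℤ, |(p : ℝ)| ^ 3 * |∑' q : ℤ, E p q| ≤ M) →
  w 0 = 0 → w 1 = 0 → (∀ n : ℕ, (n : ℝ) ^ 3 * |ww c n - w n| ≤ M) →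
  40 * M ≤ ε → Rows (RR 1 c w) ω 2 ε → Rows (RR (-1) c w) ω 1 ε →
  QPos (fun p q => c p q + E p q)

end

end Pool.Agent.Lib.MP_cbe5a6_an
end

-- part Pool.Agent.Lib.MP_cbe5a6_an.Can1
section

/-! Series bookkeeping for the canonical form. -/

set_option autoImplicit false

namespace Pool.Agent.Lib.MP_cbe5a6_an.Can

open MeasureTheory Set Filter Topology

noncomputable section

theorem smb {ι : Type} {u g : ι → ℝ} (hu : Summable u) (M : ℝ) (hg : ∀ i, |g i| ≤ M) :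
    Summable fun i => u i * g i := by
  refine Summable.of_norm_bounded (hu.abs.mul_right M) fun i => ?_
  rw [Real.norm_eq_abs, abs_mul]
  exact mul_le_mul_of_nonneg_left (hg i) (abs_nonneg _)

theorem lift {ι κ : Type} {e : ι → κ} (he : Function.Injective e) {F : κ → ℝ} {u : ι → ℝ}
    {S : ℝ} (hu : HasSum u S) (h1 : ∀ i, F (e i) = u i) (h0 : ∀ x, (∀ i, e i ≠ x) → F x = 0) :
    HasSum F S := by
  have h2 : F ∘ e = u := funext h1
  refine (he.hasSum_iff (f := F) ?_).1 (h2 ▸ hu)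
  intro x hx
  exact h0 x fun i hi => hx ⟨i, hi⟩

theorem quad {f : ℤ × ℤ → ℝ} (hf : Summable f) (h1 : ∀ p, f (p, 0) = 0) (h2 : ∀ q, f (0, q) = 0)
    (s t : ℤ) (hs : s = 1 ∨ s = -1) (ht : t = 1 ∨ t = -1) :
    ∃ S, HasSum (fun k : ℕ × ℕ => f (s * k.1, t * k.2)) S ∧
      HasSum (fun k : ℤ × ℤ => if 0 < s * k.1 ∧ 0 < t * k.2 then f k else 0) S := by
  have he : Function.Injective (fun k : ℕ × ℕ => ((s * k.1, t * k.2) : ℤ × ℤ)) := by
    rintro ⟨a, b⟩ ⟨c, d⟩ h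
    simp only [Prod.mk.injEq] at h ⊢
    rcases hs with rfl | rfl <;> rcases ht with rfl | rfl <;> omega
  have hsum : Summable (fun k : ℕ × ℕ => f (s * k.1, t * k.2)) := hf.comp_injective he
  refine ⟨_, hsum.hasSum, lift he hsum.hasSum ?_ ?_⟩
  · rintro ⟨a, b⟩
    dsimp only
    split_ifs with h
    · rfl
    · have : a = 0 ∨ b = 0 := by
        rcases hs with rfl | rfl <;> rcases ht with rfl | rfl <;> omega
      rcases this with rfl | rfl
      · simp [h2]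
      · simp [h1]
  · rintro ⟨p, q⟩ h
    dsimp only
    split_ifs with h'
    · exfalso
      apply h (p.natAbs, q.natAbs)
      simp only [Prod.mk.injEq]
      rcases hs with rfl | rfl <;> rcases ht with rfl | rfl <;> omega
    · rfl

theorem fold2 {f : ℤ × ℤ → ℝ} {S : ℝ} (hf : HasSum f S) (h1 : ∀ p, f (p, 0) = 0)
    (h2 : ∀ q, f (0, q) = 0) :
    HasSum (fun k : ℕ × ℕ => f (k.1, k.2) + f (k.1, -(k.2 : ℤ)) + f (-(k.1 : ℤ), k.2)
      + f (-(k.1 : ℤ), -(k.2 : ℤ))) S := by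
  obtain ⟨S1, a1, b1⟩ := quad hf.summable h1 h2 1 1 (Or.inl rfl) (Or.inl rfl)
  obtain ⟨S2, a2, b2⟩ := quad hf.summable h1 h2 1 (-1) (Or.inl rfl) (Or.inr rfl)
  obtain ⟨S3, a3, b3⟩ := quad hf.summable h1 h2 (-1) 1 (Or.inr rfl) (Or.inl rfl)
  obtain ⟨S4, a4, b4⟩ := quad hf.summable h1 h2 (-1) (-1) (Or.inr rfl) (Or.inr rfl)
  have hb := ((b1.add b2).add b3).add b4
  have ha := ((a1.add a2).add a3).add a4
  have hfe : (fun k : ℤ × ℤ => (((if 0 < 1 * k.1 ∧ 0 < 1 * k.2 then f k else 0)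
      + (if 0 < 1 * k.1 ∧ 0 < -1 * k.2 then f k else 0))
      + (if 0 < -1 * k.1 ∧ 0 < 1 * k.2 then f k else 0))
      + (if 0 < -1 * k.1 ∧ 0 < -1 * k.2 then f k else 0)) = f := by
    funext ⟨p, q⟩
    dsimp only
    by_cases hp : p = 0
    · subst hp; simp [h2]
    by_cases hq : q = 0
    · subst hq; simp [h1]
    split_ifs <;> first | omega | simp
  rw [hfe] at hb
  rw [hf.unique hb]
  simpa using ha

theorem fold1 {f : ℤ → ℝ} {S : ℝ} (hf : HasSum f S) (h0 : f 0 = 0) (he : ∀ n : ℕ, f (-n) = f n) :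
    HasSum (fun n : ℕ => 2 * f n) S := by
  have h := hf.nat_add_neg
  rw [h0, add_zero] at h
  have : (fun n : ℕ => f n + f (-n)) = fun n : ℕ => 2 * f n := by
    funext n; rw [he]; ring
  exact this ▸ h

/-- the quadratic form evaluated on a bounded symmetric table -/
theorem rr_sum (s : ℝ) (c : ℤ → ℤ → ℝ) (w : ℕ → ℝ) (G : ℕ → ℕ → ℝ) (M : ℝ)
    (hc : Summable fun n : ℕ => c 0 n) (hw : Summable w) (w0 : w 0 = 0)
    (hG : ∀ n m, |G n m| ≤ M) (hs : ∀ n m, G n m = G m n) (S : ℝ)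
    (hS : HasSum (fun k : ℕ × ℕ => 2 * (c k.1 (-(k.2 : ℤ)) + s * c k.1 k.2) * G k.1 k.2) S) :
    HasSum (fun k : ℕ × ℕ => RR s c w k.1 k.2 * G k.1 k.2)
      (S + ∑' n : ℕ, (4 * c 0 n * G n n
        + w n * (-(G n (n + 1) + G n (n - 1)) + (G 1 (n + 1) - G 1 (n - 1))) / 2)) := by
  have s1 : Summable fun n : ℕ => c 0 n * G n n := smb hc M fun n => hG _ _
  have s2 : Summable fun n : ℕ => w n * G n (n + 1) := smb hw M fun n => hG _ _
  have s3 : Summable fun n : ℕ => w n * G n (n - 1) := smb hw M fun n => hG _ _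
  have s4 : Summable fun n : ℕ => w n * G 1 (n + 1) := smb hw M fun n => hG _ _
  have s5 : Summable fun n : ℕ => w n * G 1 (n - 1) := smb hw M fun n => hG _ _
  set D := ∑' n : ℕ, c 0 n * G n n
  set U := ∑' n : ℕ, w n * G n (n + 1)
  set V := ∑' n : ℕ, w n * G n (n - 1)
  set X := ∑' n : ℕ, w n * G 1 (n + 1)
  set Y := ∑' n : ℕ, w n * G 1 (n - 1)
  have hD : HasSum (fun n : ℕ => c 0 n * G n n) D := s1.hasSum
  have hU : HasSum (fun n : ℕ => w n * G n (n + 1)) U := s2.hasSum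
  have hV : HasSum (fun n : ℕ => w n * G n (n - 1)) V := s3.hasSum
  have hX : HasSum (fun n : ℕ => w n * G 1 (n + 1)) X := s4.hasSum
  have hY : HasSum (fun n : ℕ => w n * G 1 (n - 1)) Y := s5.hasSum
  have hV' : HasSum (fun n : ℕ => w (n + 1) * G n (n + 1)) V := by
    have := (hasSum_nat_add_iff' 1).2 hV
    simp only [Finset.range_one, Finset.sum_singleton, w0, zero_mul, sub_zero,
      Nat.add_sub_cancel] at this
    have e : (fun n : ℕ => w (n + 1) * G (n + 1) n) = fun n : ℕ => w (n + 1) * G n (n + 1) := by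
      funext n; rw [hs]
    exact e ▸ this
  have hX' : HasSum (fun n : ℕ => w (n - 1) * G 1 n) X := by
    refine (hasSum_nat_add_iff' 1).1 ?_
    simpa [w0] using hX
  have hY' : HasSum (fun n : ℕ => w (n + 1) * G 1 n) Y := by
    have := (hasSum_nat_add_iff' 1).2 hY
    simpa [w0] using this
  have t1 : HasSum (fun k : ℕ × ℕ => (if k.1 = k.2 then 4 * c 0 k.1 else 0) * G k.1 k.2)
      (4 * D) := by
    refine lift (e := fun n : ℕ => (n, n)) (fun a b h => (Prod.ext_iff.1 h).1)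
      (hD.mul_left 4) (fun n => by simp [mul_assoc]) ?_
    rintro ⟨a, b⟩ h
    have : a ≠ b := fun e => h a (by rw [e])
    simp [this]
  have t2 : HasSum (fun k : ℕ × ℕ => (if k.2 = k.1 + 1 then (w k.1 + w k.2) / 4 else 0)
      * G k.1 k.2) ((U + V) / 4) := by
    refine lift (e := fun n : ℕ => (n, n + 1)) (fun a b h => (Prod.ext_iff.1 h).1)
      ((hU.add hV').div_const 4) (fun n => by simp only [if_true]; ring) ?_
    rintro ⟨a, b⟩ h
    have : b ≠ a + 1 := fun e => h a (by rw [e])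
    simp [this]
  have t3 : HasSum (fun k : ℕ × ℕ => (if k.1 = k.2 + 1 then (w k.1 + w k.2) / 4 else 0)
      * G k.1 k.2) ((U + V) / 4) := by
    refine lift (e := fun n : ℕ => (n + 1, n)) (fun a b h => (Prod.ext_iff.1 h).2)
      ((hU.add hV').div_const 4) (fun n => by simp only [if_true]; rw [hs (n + 1) n]; ring) ?_
    rintro ⟨a, b⟩ h
    have : a ≠ b + 1 := fun e => h b (by rw [e])
    simp [this]
  have t4 : HasSum (fun k : ℕ × ℕ => (if k.1 = 1 then (w (k.2 - 1) - w (k.2 + 1)) / 4 else 0)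
      * G k.1 k.2) ((X - Y) / 4) := by
    refine lift (e := fun n : ℕ => (1, n)) (fun a b h => (Prod.ext_iff.1 h).2)
      ((hX'.sub hY').div_const 4) (fun n => by simp only [if_true]; ring) ?_
    rintro ⟨a, b⟩ h
    have : a ≠ 1 := fun e => h b (by rw [e])
    simp [this]
  have t5 : HasSum (fun k : ℕ × ℕ => (if k.2 = 1 then (w (k.1 - 1) - w (k.1 + 1)) / 4 else 0)
      * G k.1 k.2) ((X - Y) / 4) := by
    refine lift (e := fun n : ℕ => (n, 1)) (fun a b h => (Prod.ext_iff.1 h).1)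
      ((hX'.sub hY').div_const 4) (fun n => by simp only [if_true]; rw [hs n 1]; ring) ?_
    rintro ⟨a, b⟩ h
    have : b ≠ 1 := fun e => h a (by rw [e])
    simp [this]
  have tot := (((hS.add t1).sub (t2.add t3)).add t4).add t5
  have val : (∑' n : ℕ, (4 * c 0 n * G n n
        + w n * (-(G n (n + 1) + G n (n - 1)) + (G 1 (n + 1) - G 1 (n - 1))) / 2))
      = 4 * D + (-(U + V) + (X - Y)) / 2 := by
    have h := (hD.mul_left 4).add ((((hU.add hV).neg).add (hX.sub hY)).div_const 2)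
    rw [← h.tsum_eq]
    refine tsum_congr fun n => by ring
  rw [val]
  have e1 : S + (4 * D + (-(U + V) + (X - Y)) / 2)
      = S + 4 * D - ((U + V) / 4 + (U + V) / 4) + (X - Y) / 4 + (X - Y) / 4 := by ring
  rw [e1]
  refine tot.congr_fun ?_
  rintro ⟨a, b⟩
  have : (if b = a + 1 ∨ a = b + 1 then (w a + w b) / 4 else 0)
      = (if b = a + 1 then (w a + w b) / 4 else 0) + (if a = b + 1 then (w a + w b) / 4 else 0) := by
    by_cases h1 : b = a + 1
    · have : a ≠ b + 1 := by omega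
      rw [if_pos (Or.inl h1), if_pos h1, if_neg this, add_zero]
    · by_cases h2 : a = b + 1
      · rw [if_pos (Or.inr h2), if_neg h1, if_pos h2, zero_add]
      · rw [if_neg (by omega), if_neg h1, if_neg h2, add_zero]
  simp only [RR, this]
  ring

theorem quad_summable {c : ℤ → ℤ → ℝ} (hc : Summable fun k : ℤ × ℤ => c k.1 k.2) (s : ℝ) :
    Summable fun k : ℕ × ℕ => 2 * (c k.1 (-(k.2 : ℤ)) + s * c k.1 k.2) := by
  have h1 : Summable fun k : ℕ × ℕ => c k.1 (-(k.2 : ℤ)) := by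
    have he : Function.Injective (fun k : ℕ × ℕ => (((k.1 : ℤ), -(k.2 : ℤ)) : ℤ × ℤ)) := by
      rintro ⟨a, b⟩ ⟨c, d⟩ h
      simp only [Prod.mk.injEq] at h ⊢
      omega
    exact hc.comp_injective he
  have h2 : Summable fun k : ℕ × ℕ => c k.1 k.2 := by
    have he : Function.Injective (fun k : ℕ × ℕ => (((k.1 : ℤ), (k.2 : ℤ)) : ℤ × ℤ)) := by
      rintro ⟨a, b⟩ ⟨c, d⟩ h
      simp only [Prod.mk.injEq] at h ⊢
      omega
    exact hc.comp_injective he
  exact (h1.add (h2.mul_left s)).mul_left 2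

theorem row0_summable {c : ℤ → ℤ → ℝ} (hc : Summable fun k : ℤ × ℤ => c k.1 k.2) :
    Summable fun n : ℕ => c 0 n :=
  (hc.prod_factor 0).comp_injective Nat.cast_injective

theorem ww_summable {c : ℤ → ℤ → ℝ} (hc : Summable fun k : ℤ × ℤ => c k.1 k.2) :
    Summable (ww c) := by
  have h1 : Summable fun n : ℕ => ∑' q : ℤ, c n q := hc.prod.comp_injective Nat.cast_injective
  have h2 := (h1.mul_left 4).add ((row0_summable hc).mul_left 4)
  have h3 := smb h2 1 (g := fun n => if n < 2 then 0 else 1) (fun n => by split_ifs <;> simp)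
  refine h3.congr fun n => ?_
  unfold ww
  split_ifs <;> simp

theorem rr_summable {c : ℤ → ℤ → ℝ} (hc : Summable fun k : ℤ × ℤ => c k.1 k.2) (s : ℝ) :
    Summable fun k : ℕ × ℕ => RR s c (ww c) k.1 k.2 := by
  have h := rr_sum s c (ww c) (fun _ _ => 1) 1 (row0_summable hc) (ww_summable hc)
    (by simp [ww]) (fun _ _ => by simp) (fun _ _ => rfl) _
    (by simpa using (quad_summable hc s).hasSum)
  simpa using h.summable

/-- the canonical form of the sum of `c * τ` -/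
theorem canon {c : ℤ → ℤ → ℝ} (hc : HasSum (fun k : ℤ × ℤ => c k.1 k.2) 0)
    (sw : ∀ p q, c p q = c q p) (ng : ∀ p q, c (-p) (-q) = c p q) (c0 : c 0 0 = 0)
    (A B : ℕ → ℕ → ℝ) (Z : ℕ → ℝ) (Xi M : ℝ) (τ : ℤ → ℤ → ℝ)
    (hA : ∀ n m, |A n m| ≤ M) (hB : ∀ n m, |B n m| ≤ M) (hZ : ∀ n, |Z n| ≤ M)
    (sA : ∀ n m, A n m = A m n) (sB : ∀ n m, B n m = B m n)
    (A0 : ∀ m, A 0 m = 0) (A1 : ∀ m, A 1 m = 0) (B0 : ∀ m, B 0 m = 0)
    (Z0 : Z 0 = 0) (Z1 : Z 1 = 0)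
    (h1 : ∀ p q : ℤ, p ≠ 0 → q ≠ 0 → τ p q = Xi + Z p.natAbs + Z q.natAbs
      + A p.natAbs q.natAbs - (p.sign * q.sign : ℤ) * B p.natAbs q.natAbs)
    (h2 : ∀ p q, τ p q = τ q p) (h3 : ∀ p q, τ p q = τ p (-p - q)) :
    ∑' k : ℤ × ℤ, c k.1 k.2 * τ k.1 k.2
      = (∑' k : ℕ × ℕ, RR 1 c (ww c) k.1 k.2 * A k.1 k.2)
        + ∑' k : ℕ × ℕ, RR (-1) c (ww c) k.1 k.2 * B k.1 k.2 := by
  have hs := hc.summable
  have hM : 0 ≤ M := (abs_nonneg _).trans (hZ 0)
  have sgn : ∀ p q : ℤ, |((p.sign * q.sign : ℤ) : ℝ)| ≤ 1 := by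
    intro p q
    rw [← Int.cast_abs]
    have : |p.sign * q.sign| ≤ 1 := by
      rcases lt_trichotomy p 0 with hp | hp | hp <;> rcases lt_trichotomy q 0 with hq | hq | hq <;>
        simp [Int.sign_eq_one_of_pos, Int.sign_eq_neg_one_of_neg, hp, hq]
    exact_mod_cast this
  have zf : ∀ n : ℕ, 2 ≤ n → Z n = (-(A n (n + 1) + A n (n - 1)) + (A 1 (n + 1) - A 1 (n - 1))) / 2
      + (-(B n (n + 1) + B n (n - 1)) + (B 1 (n + 1) - B 1 (n - 1))) / 2 := by
    intro n hn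
    have e1 : τ n (-(n : ℤ) - 1) = τ 1 (-(n : ℤ) - 1) := by
      rw [h2 n, h3, h2]; congr 1; ring
    have e2 : τ n (1 - (n : ℤ)) = τ (-1) (1 - (n : ℤ)) := by
      rw [h2 n, h3, h2]; congr 1; ring
    rw [h1 _ _ (by omega) (by omega), h1 _ _ (by omega) (by omega)] at e1 e2
    have n1 : (-(n : ℤ) - 1).natAbs = n + 1 := by omega
    have n2 : (1 - (n : ℤ)).natAbs = n - 1 := by omega
    have s1 : (-(n : ℤ) - 1).sign = -1 := Int.sign_eq_neg_one_of_neg (by omega)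
    have s2 : (1 - (n : ℤ)).sign = -1 := Int.sign_eq_neg_one_of_neg (by omega)
    have s3 : (n : ℤ).sign = 1 := Int.sign_eq_one_of_pos (by omega)
    simp only [n1, n2, s1, s2, s3, Int.natAbs_natCast, Int.natAbs_one, Int.natAbs_neg,
      Int.sign_one, Int.sign_neg, Z1, A1] at e1 e2
    push_cast at e1 e2
    rw [A1, A1]
    linarith
  set D : ℕ → ℝ := fun n => Z n + A n n + B n n with hD
  have bD : ∀ n, |D n| ≤ 3 * M := fun n => by
    have := hZ n; have := hA n n; have := hB n n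
    have := abs_add_three (Z n) (A n n) (B n n)
    simp only [hD]; linarith
  have D0 : D 0 = 0 := by simp [hD, Z0, A0, B0]
  have h0 : ∀ p : ℤ, p ≠ 0 → τ p 0 = Xi + Z p.natAbs + D p.natAbs := by
    intro p hp
    rw [h3, sub_zero, h1 _ _ hp (by omega)]
    have : p.sign * (-p).sign = -1 := by
      rcases lt_or_gt_of_ne hp with hp | hp <;>
        simp [Int.sign_eq_one_of_pos, Int.sign_eq_neg_one_of_neg, hp]
    rw [this]
    simp only [Int.natAbs_neg, hD]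
    push_cast
    ring
  -- rows
  have hr : ∀ p : ℤ, HasSum (fun q => c p q) (∑' q, c p q) := fun p => (hs.prod_factor p).hasSum
  have rn : ∀ p : ℤ, ∑' q, c (-p) q = ∑' q, c p q := by
    intro p
    rw [← (Equiv.neg ℤ).tsum_eq]
    exact tsum_congr fun q => ng p q
  have sZ : Summable fun k : ℤ × ℤ => c k.1 k.2 * Z k.1.natAbs := smb hs M fun k => hZ _
  have tZ : HasSum (fun n : ℕ => 2 * ((∑' q, c n q) * Z n))
      (∑' k : ℤ × ℤ, c k.1 k.2 * Z k.1.natAbs) := by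
    have h := sZ.hasSum.prod_fiberwise (g := fun p => (∑' q, c p q) * Z p.natAbs)
      (fun p => (hr p).mul_right _)
    simpa using fold1 h (by simp [Z0]) (fun n => by simp [rn])
  set SZ := ∑' k : ℤ × ℤ, c k.1 k.2 * Z k.1.natAbs
  have u1 : HasSum (fun k : ℤ × ℤ => c k.1 k.2 * Z k.1.natAbs) SZ := sZ.hasSum
  have u2 : HasSum (fun k : ℤ × ℤ => c k.1 k.2 * Z k.2.natAbs) SZ := by
    refine ((Equiv.prodComm ℤ ℤ).hasSum_iff.2 u1).congr_fun ?_
    rintro ⟨p, q⟩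
    simp [sw p q]
  have sD : Summable fun p : ℤ => c 0 p * D p.natAbs := smb (hs.prod_factor 0) (3 * M) fun p => bD _
  have tD : HasSum (fun n : ℕ => 2 * (c 0 n * D n)) (∑' p : ℤ, c 0 p * D p.natAbs) := by
    have ng0 : ∀ n : ℕ, c 0 (-(n : ℤ)) = c 0 n := fun n => by
      have := ng 0 n
      rwa [neg_zero] at this
    simpa using fold1 sD.hasSum (by simp [D0]) (fun n => by simp [ng0])
  set SD := ∑' p : ℤ, c 0 p * D p.natAbs
  have u3 : HasSum (fun k : ℤ × ℤ => c k.1 k.2 * (if k.2 = 0 then D k.1.natAbs else 0)) SD := by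
    refine lift (e := fun p : ℤ => (p, 0)) (fun a b h => (Prod.ext_iff.1 h).1) sD.hasSum
      (fun p => by simp [sw p 0]) ?_
    rintro ⟨a, b⟩ h
    have : b ≠ 0 := fun e => h a (by rw [e])
    simp [this]
  have u4 : HasSum (fun k : ℤ × ℤ => c k.1 k.2 * (if k.1 = 0 then D k.2.natAbs else 0)) SD := by
    refine lift (e := fun p : ℤ => (0, p)) (fun a b h => (Prod.ext_iff.1 h).2) sD.hasSum
      (fun p => by simp) ?_
    rintro ⟨a, b⟩ h
    have : a ≠ 0 := fun e => h b (by rw [e])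
    simp [this]
  have sAA : Summable fun k : ℤ × ℤ => c k.1 k.2 * A k.1.natAbs k.2.natAbs :=
    smb hs M fun k => hA _ _
  have sBB : Summable fun k : ℤ × ℤ =>
      c k.1 k.2 * (-((k.1.sign * k.2.sign : ℤ) : ℝ) * B k.1.natAbs k.2.natAbs) := by
    refine smb hs M fun k => ?_
    rw [abs_mul, abs_neg]
    calc _ ≤ 1 * M := mul_le_mul (sgn _ _) (hB _ _) (abs_nonneg _) zero_le_one
      _ = M := one_mul M
  set SA := ∑' k : ℤ × ℤ, c k.1 k.2 * A k.1.natAbs k.2.natAbs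
  set SB := ∑' k : ℤ × ℤ,
      c k.1 k.2 * (-((k.1.sign * k.2.sign : ℤ) : ℝ) * B k.1.natAbs k.2.natAbs)
  have ng' : ∀ p q, c (-p) q = c p (-q) := fun p q => by
    have := ng p (-q)
    rwa [neg_neg] at this
  have fA : HasSum (fun k : ℕ × ℕ => 2 * (c k.1 (-(k.2 : ℤ)) + 1 * c k.1 k.2) * A k.1 k.2) SA := by
    refine (fold2 sAA.hasSum (fun p => by simp [sA _ 0, A0]) (fun q => by simp [A0])).congr_fun ?_
    rintro ⟨a, b⟩
    simp only [Int.natAbs_neg, Int.natAbs_natCast, ng, ng' a b]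
    ring
  have fB : HasSum (fun k : ℕ × ℕ => 2 * (c k.1 (-(k.2 : ℤ)) + (-1) * c k.1 k.2) * B k.1 k.2)
      SB := by
    refine (fold2 sBB.hasSum (fun p => by simp) (fun q => by simp)).congr_fun ?_
    rintro ⟨a, b⟩
    simp only [Int.natAbs_neg, Int.natAbs_natCast, ng, ng' a b, Int.sign_neg]
    rcases Nat.eq_zero_or_pos a with rfl | ha
    · simp [B0]
    rcases Nat.eq_zero_or_pos b with rfl | hb
    · simp [sB _ 0, B0]
    rw [Int.sign_eq_one_of_pos (by omega : (0 : ℤ) < a),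
      Int.sign_eq_one_of_pos (by omega : (0 : ℤ) < b)]
    push_cast
    ring
  have w0 : ww c 0 = 0 := by simp [ww]
  have rA := rr_sum 1 c (ww c) A M (row0_summable hs) (ww_summable hs) w0 hA sA SA fA
  have rB := rr_sum (-1) c (ww c) B M (row0_summable hs) (ww_summable hs) w0 hB sB SB fB
  have tot := ((((((hc.mul_right Xi).add u1).add u2).add sAA.hasSum).add sBB.hasSum).add u3).add u4
  have lhs : HasSum (fun k : ℤ × ℤ => c k.1 k.2 * τ k.1 k.2)
      (0 * Xi + SZ + SZ + SA + SB + SD + SD) := by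
    refine tot.congr_fun ?_
    rintro ⟨p, q⟩
    dsimp only
    by_cases hp : p = 0
    · by_cases hq : q = 0
      · simp [hp, hq, c0]
      · subst hp
        rw [h2, h0 q hq]
        simp [hq, Z0, A0]
        ring
    · by_cases hq : q = 0
      · subst hq
        rw [h0 p hp]
        simp [hp, Z0, sA _ 0, A0]
        ring
      · rw [h1 p q hp hq]
        simp only [hp, hq, if_false]
        ring
  rw [lhs.tsum_eq, rA.tsum_eq, rB.tsum_eq]
  have bd : ∀ G : ℕ → ℕ → ℝ, (∀ n m, |G n m| ≤ M) → Summable fun n : ℕ => 4 * c 0 n * G n n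
      + ww c n * (-(G n (n + 1) + G n (n - 1)) + (G 1 (n + 1) - G 1 (n - 1))) / 2 := by
    intro G hG
    have a1 := smb ((row0_summable hs).mul_left 4) M (g := fun n => G n n) fun n => hG _ _
    have a2 := smb (ww_summable hs) M (g := fun n => G n (n + 1)) fun n => hG _ _
    have a3 := smb (ww_summable hs) M (g := fun n => G n (n - 1)) fun n => hG _ _
    have a4 := smb (ww_summable hs) M (g := fun n => G 1 (n + 1)) fun n => hG _ _
    have a5 := smb (ww_summable hs) M (g := fun n => G 1 (n - 1)) fun n => hG _ _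
    refine (a1.add (((a2.add a3).neg.add (a4.sub a5)).div_const 2)).congr fun n => by ring
  have fin := ((bd A hA).hasSum.add (bd B hB).hasSum).unique
    ((((tZ.add tZ).add tD).add tD).congr_fun (fun n => by
      rcases Nat.lt_or_ge n 2 with hn | hn
      · have hw : ww c n = 0 := by simp [ww, hn]
        have hz : Z n = 0 := by
          rcases n with _ | _ | n
          · exact Z0
          · exact Z1
          · omega
        simp only [hw, hD, hz]
        ring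
      · have hw : ww c n = 4 * (∑' q : ℤ, c n q) + 4 * c 0 n := by
          simp [ww, Nat.not_lt.2 hn]
        simp only [hw, hD]
        rw [zf n hn]
        ring))
  linarith

end

end Pool.Agent.Lib.MP_cbe5a6_an.Can
end

-- part Pool.Agent.Lib.MP_cbe5a6_an.Can2
section

/-! Fourier coefficients of the weight and termwise integration. -/

set_option autoImplicit false

namespace Pool.Agent.Lib.MP_cbe5a6_an.Can

open MeasureTheory Set Filter Topology

noncomputable section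

instance nuFin : IsFiniteMeasure nu := by
  unfold nu
  infer_instance

instance nu3Fin : IsFiniteMeasure nu3 := by
  unfold nu3
  infer_instance

theorem swap_sum {ι α E : Type} [Countable ι] [MeasurableSpace α] [NormedAddCommGroup E]
    [NormedSpace ℝ E] (μ : Measure α) [IsFiniteMeasure μ] {R : ι → ℝ} (hR : Summable R)
    (F : ι → α → E) (M : ℝ) (hm : ∀ i, AEStronglyMeasurable (F i) μ) (hb : ∀ i x, ‖F i x‖ ≤ M) :
    HasSum (fun i => R i • ∫ x, F i x ∂μ) (∫ x, ∑' i, R i • F i x ∂μ) := by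
  have hi : ∀ i, Integrable (F i) μ := fun i =>
    Integrable.of_bound (hm i) M (Eventually.of_forall (hb i))
  have h := hasSum_integral_of_summable_integral_norm (μ := μ) (F := fun i x => R i • F i x)
    (fun i => (hi i).smul (R i)) (by
      refine Summable.of_nonneg_of_le (fun i => integral_nonneg fun x => norm_nonneg _)
        (fun i => ?_) (hR.abs.mul_right (M * μ.real univ))
      simp only [norm_smul, Real.norm_eq_abs]
      rw [integral_const_mul]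
      refine mul_le_mul_of_nonneg_left ?_ (abs_nonneg _)
      calc ∫ x, ‖F i x‖ ∂μ ≤ ∫ _x, M ∂μ := integral_mono (hi i).norm (integrable_const M) (hb i)
        _ = M * μ.real univ := by rw [integral_const, smul_eq_mul, mul_comm])
  simpa only [integral_smul] using h

theorem ex_add (a b : ℝ) : ex (a + b) = ex a * ex b := by
  unfold ex; rw [← Complex.exp_add]; congr 1; push_cast; ring

theorem ex_norm (a : ℝ) : ‖ex a‖ = 1 := Complex.norm_exp_ofReal_mul_I a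

theorem ex_conj (a : ℝ) : starRingEnd ℂ (ex a) = ex (-a) := by
  unfold ex; rw [← Complex.exp_conj]; congr 1; simp

theorem ex_cont : Continuous ex := by
  unfold ex; fun_prop

theorem ex_zero : ex 0 = 1 := by simp [ex]

theorem ex_even (n : ℤ) : ex (((2 * n : ℤ) : ℝ) * Real.pi) = 1 := by
  unfold ex
  have := Complex.exp_int_mul_two_pi_mul_I n
  rw [← this]; congr 1; push_cast; ring

theorem ex_odd (n : ℤ) : ex (((2 * n + 1 : ℤ) : ℝ) * Real.pi) = -1 := by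
  have : (((2 * n + 1 : ℤ) : ℝ) * Real.pi) = ((2 * n : ℤ) : ℝ) * Real.pi + Real.pi := by
    push_cast; ring
  rw [this, ex_add, ex_even, one_mul]
  exact Complex.exp_pi_mul_I

theorem nu_int {E : Type} [NormedAddCommGroup E] [NormedSpace ℝ E] (f : ℝ → E) :
    ∫ a, f a ∂nu = ∫ a in (0 : ℝ)..(2 * Real.pi), f a := by
  unfold nu
  rw [integral_Icc_eq_integral_Ioc, intervalIntegral.integral_of_le (by positivity)]

theorem nu_integrable {E : Type} [NormedAddCommGroup E] {f : ℝ → E} (hf : Continuous f) :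
    Integrable f nu := hf.integrableOn_Icc

/-- Fourier coefficients of the weight -/
def HH (h : ℝ → ℝ) (n : ℤ) : ℂ := ∫ a, (h a : ℂ) * ex (n * a) ∂nu

theorem HH_neg (h : ℝ → ℝ) (n : ℤ) : HH h (-n) = starRingEnd ℂ (HH h n) := by
  unfold HH
  rw [← integral_conj]
  refine integral_congr_ae (Eventually.of_forall fun a => ?_)
  simp only [map_mul, Complex.conj_ofReal, ex_conj]
  congr 2; push_cast; ring

theorem HH_odd {h : ℝ → ℝ} (hc : Continuous h) (hp : Function.Periodic h Real.pi) (n : ℤ) :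
    HH h (2 * n + 1) = 0 := by
  unfold HH
  set f : ℝ → ℂ := fun a => (h a : ℂ) * ex (((2 * n + 1 : ℤ) : ℝ) * a) with hf
  have fc : Continuous f := (Complex.continuous_ofReal.comp hc).mul (ex_cont.comp (by fun_prop))
  have fs : ∀ a, f (a + Real.pi) = -f a := fun a => by
    simp only [hf, hp a, mul_add, ex_add, ex_odd]; ring
  rw [nu_int, ← intervalIntegral.integral_add_adjacent_intervals (b := Real.pi)
    (fc.intervalIntegrable _ _) (fc.intervalIntegrable _ _)]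
  have := intervalIntegral.integral_comp_add_right (a := 0) (b := Real.pi) f Real.pi
  rw [zero_add, ← two_mul] at this
  rw [← this]
  simp only [fs, intervalIntegral.integral_neg]
  ring

theorem HH_one (n : ℤ) (hn : n ≠ 0) : HH (fun _ => 1) n = 0 := by
  unfold HH
  rw [nu_int]
  have e : (fun a : ℝ => ((1 : ℝ) : ℂ) * ex (n * a)) = fun a : ℝ => Complex.exp ((n * Complex.I) * a) := by
    funext a; unfold ex; push_cast; rw [one_mul]; congr 1; ring
  rw [e, integral_exp_mul_complex (mul_ne_zero (by exact_mod_cast hn) Complex.I_ne_zero)]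
  have := Complex.exp_int_mul_two_pi_mul_I n
  have e2 : (n * Complex.I) * ((2 * Real.pi : ℝ) : ℂ) = n * (2 * Real.pi * Complex.I) := by
    push_cast; ring
  rw [e2, this]; simp

theorem HH_one_zero : HH (fun _ => 1) 0 ≠ 0 := by
  unfold HH
  rw [nu_int]
  simp [ex_zero, Real.pi_ne_zero]

theorem per_bound {h : ℝ → ℝ} (hc : Continuous h) (hp : Function.Periodic h Real.pi) :
    ∃ M, ∀ x, |h x| ≤ M := by
  obtain ⟨M, hM⟩ := (hp.isBounded_of_continuous Real.pi_ne_zero hc).exists_norm_le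
  exact ⟨M, fun x => hM _ ⟨x, rfl⟩⟩

theorem tri_sum {K : ℝ → ℝ → ℝ → ℝ} {C : ℤ × ℤ → ℝ} (hS : Ser K C)
    (hK : ∀ a b d, K a b d = K (a - d) (b - d) 0) {h : ℝ → ℝ} (hc : Continuous h) (M : ℝ)
    (hM : ∀ x, |h x| ≤ M) :
    HasSum (fun k : ℤ × ℤ => (C k : ℂ) * (HH h k.1 * HH h k.2 * HH h (-k.1 - k.2)))
      ((I3 fun a b d => K a b d * (h a * h b * h d) : ℝ) : ℂ) := by
  let f : ℤ → ℝ → ℂ := fun n a => (h a : ℂ) * ex (n * a)
  have fc : ∀ n, Continuous (f n) := fun n =>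
    (Complex.continuous_ofReal.comp hc).mul (ex_cont.comp (by fun_prop))
  have fb : ∀ n a, ‖f n a‖ ≤ M := fun n a => by
    simp only [f, norm_mul, ex_norm, mul_one, Complex.norm_real, Real.norm_eq_abs]
    exact hM a
  have M0 : 0 ≤ M := (abs_nonneg _).trans (hM 0)
  let F : ℤ × ℤ → (Fin 3 → ℝ) → ℂ := fun k x =>
    f k.1 (x 0) * f k.2 (x 1) * f (-k.1 - k.2) (x 2)
  have h1 := swap_sum nu3 hS.sm F (M * M * M)
    (fun k => (((fc _).comp (continuous_apply 0)).mul ((fc _).comp (continuous_apply 1))).mul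
      ((fc _).comp (continuous_apply 2)) |>.aestronglyMeasurable)
    (fun k x => by
      simp only [F, norm_mul]
      exact mul_le_mul (mul_le_mul (fb _ _) (fb _ _) (norm_nonneg _) M0) (fb _ _) (norm_nonneg _)
        (mul_nonneg M0 M0))
  have h2 : ∀ k : ℤ × ℤ, ∫ x, F k x ∂nu3 = HH h k.1 * HH h k.2 * HH h (-k.1 - k.2) := by
    intro k
    have := integral_fintype_prod_eq_prod (𝕜 := ℂ) (ι := Fin 3) (E := fun _ => ℝ)
      (μ := fun _ => nu) (fun i => f (![k.1, k.2, -k.1 - k.2] i))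
    simp only [Fin.prod_univ_three, Matrix.cons_val_zero, Matrix.cons_val_one,
      Matrix.cons_val_two, Matrix.head_cons, Matrix.tail_cons] at this
    exact this
  have h3 : ∀ x : Fin 3 → ℝ, ∑' k, C k • F k x
      = ((K (x 0) (x 1) (x 2) * (h (x 0) * h (x 1) * h (x 2)) : ℝ) : ℂ) := by
    intro x
    have := (hS.hs (x 0 - x 2) (x 1 - x 2)).mul_right ((h (x 0) * h (x 1) * h (x 2) : ℝ) : ℂ)
    rw [hK, Complex.ofReal_mul, ← this.tsum_eq]
    refine tsum_congr fun k => ?_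
    have e : (k.1 : ℝ) * (x 0 - x 2) + k.2 * (x 1 - x 2)
        = k.1 * x 0 + k.2 * x 1 + ((-k.1 - k.2 : ℤ) : ℝ) * x 2 := by push_cast; ring
    simp only [F, f, e, ex_add, Complex.real_smul]
    push_cast
    ring
  simp only [h2, h3] at h1
  simp only [Complex.real_smul] at h1
  rw [integral_complex_ofReal] at h1
  exact h1

theorem dbl_inj : Function.Injective (fun k : ℤ × ℤ => ((2 * k.1, 2 * k.2) : ℤ × ℤ)) := by
  rintro ⟨a, b⟩ ⟨c, d⟩ h
  simp only [Prod.mk.injEq] at h ⊢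
  omega

theorem odd_of_not_range {x : ℤ × ℤ}
    (hx : x ∉ range (fun k : ℤ × ℤ => ((2 * k.1, 2 * k.2) : ℤ × ℤ))) :
    (∃ n, x.1 = 2 * n + 1) ∨ ∃ n, x.2 = 2 * n + 1 := by
  obtain ⟨p, q⟩ := x
  by_cases hp : p % 2 = 1
  · exact Or.inl ⟨p / 2, by dsimp only; omega⟩
  by_cases hq : q % 2 = 1
  · exact Or.inr ⟨q / 2, by dsimp only; omega⟩
  exact absurd ⟨(p / 2, q / 2), by simp only [Prod.mk.injEq]; omega⟩ hx

theorem tri_even {K : ℝ → ℝ → ℝ → ℝ} {C : ℤ × ℤ → ℝ} (hS : Ser K C)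
    (hK : ∀ a b d, K a b d = K (a - d) (b - d) 0) {h : ℝ → ℝ} (hc : Continuous h)
    (hp : Function.Periodic h Real.pi) :
    HasSum (fun k : ℤ × ℤ => C (2 * k.1, 2 * k.2)
        * (HH h (2 * k.1) * HH h (2 * k.2) * HH h (2 * (-k.1 - k.2))).re)
      (I3 fun a b d => K a b d * (h a * h b * h d)) := by
  obtain ⟨M, hM⟩ := per_bound hc hp
  have h1 := tri_sum hS hK hc M hM
  have h2 := (dbl_inj.hasSum_iff (fun x hx => by
    rcases odd_of_not_range hx with ⟨n, hn⟩ | ⟨n, hn⟩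
    · simp [hn, HH_odd hc hp]
    · simp [hn, HH_odd hc hp])).2 h1
  have h3 := Complex.hasSum_re h2
  rw [Complex.ofReal_re] at h3
  refine h3.congr_fun fun k => ?_
  have e : -(2 * k.1) - 2 * k.2 = 2 * (-k.1 - k.2) := by ring
  simp only [Function.comp, e, Complex.re_ofReal_mul]

theorem c00 {K : ℝ → ℝ → ℝ → ℝ} {C : ℤ × ℤ → ℝ} (hS : Ser K C)
    (hK : ∀ a b d, K a b d = K (a - d) (b - d) 0) (h0 : I3 K = 0) : C (0, 0) = 0 := by
  have h1 := tri_sum hS hK (h := fun _ => 1) continuous_const 1 (fun _ => by simp)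
  have e : (fun a b d => K a b d * ((1 : ℝ) * 1 * 1)) = K := by
    funext a b d; ring
  rw [e, h0] at h1
  have h2 := hasSum_single (f := fun k : ℤ × ℤ => (C k : ℂ) * (HH (fun _ => 1) k.1
    * HH (fun _ => 1) k.2 * HH (fun _ => 1) (-k.1 - k.2))) ((0, 0) : ℤ × ℤ) (by
      rintro ⟨p, q⟩ hk
      by_cases hp : p = 0
      · have hq : q ≠ 0 := fun hq => hk (by rw [hp, hq])
        simp [HH_one q hq]
      · simp [HH_one p hp])
  have h3 := h1.unique h2
  have := HH_one_zero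
  simpa [this] using h3.symm

theorem csum {K : ℝ → ℝ → ℝ → ℝ} {C : ℤ × ℤ → ℝ} (hS : Ser K C)
    (h0 : K 0 0 0 + K Real.pi 0 0 + K 0 Real.pi 0 + K Real.pi Real.pi 0 = 0) :
    HasSum (fun k : ℤ × ℤ => C (2 * k.1, 2 * k.2)) 0 := by
  have h1 := (((hS.hs 0 0).add (hS.hs Real.pi 0)).add (hS.hs 0 Real.pi)).add
    (hS.hs Real.pi Real.pi)
  have e : (K 0 0 0 : ℂ) + K Real.pi 0 0 + K 0 Real.pi 0 + K Real.pi Real.pi 0 = 0 := by
    exact_mod_cast h0
  rw [e] at h1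
  have h2 : HasSum (fun k : ℤ × ℤ => (C k : ℂ) * ((1 + ex (k.1 * Real.pi))
      * (1 + ex (k.2 * Real.pi)))) 0 := by
    refine h1.congr_fun fun k => ?_
    simp only [mul_zero, add_zero, zero_add, ex_add, ex_zero]
    ring
  have h3 := (dbl_inj.hasSum_iff (fun x hx => by
    rcases odd_of_not_range hx with ⟨n, hn⟩ | ⟨n, hn⟩
    · rw [hn, ex_odd]; ring
    · rw [hn, ex_odd]; ring)).2 h2
  have h4 := (Complex.hasSum_re h3).div_const 4
  rw [Complex.zero_re, zero_div] at h4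
  refine h4.congr_fun fun k => ?_
  simp only [Function.comp, ex_even, Complex.re_ofReal_mul]
  norm_num

end

end Pool.Agent.Lib.MP_cbe5a6_an.Can
end

-- part Pool.Agent.Lib.MP_cbe5a6_an.Ser1
section

/-! Uniqueness of coefficients, symmetries, and the series of `(1+x) log |1+x|`. -/

set_option autoImplicit false

namespace Pool.Agent.Lib.MP_cbe5a6_an

open MeasureTheory Set Filter Topology Can

noncomputable section

lemma hsc {ι E : Type*} [AddCommMonoid E] [TopologicalSpace E] {f g : ι → E} {a : E}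
    (h : HasSum f a) (e : ∀ i, f i = g i) : HasSum g a := by
  rwa [show g = f from funext fun i => (e i).symm]

lemma coef_zero (C : ℤ × ℤ → ℝ) (hC : Summable C)
    (h : ∀ a b : ℝ, HasSum (fun k : ℤ × ℤ => (C k : ℂ) * ex (k.1 * a + k.2 * b)) 0) (p q : ℤ) :
    C (p, q) = 0 := by
  have h1 := swap_sum (nu.prod nu) hC
    (fun (k : ℤ × ℤ) (x : ℝ × ℝ) => (((1 : ℝ) : ℂ) * ex (((k.1 - p : ℤ) : ℝ) * x.1))
      * (((1 : ℝ) : ℂ) * ex (((k.2 - q : ℤ) : ℝ) * x.2))) 1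
    (fun k => (Continuous.aestronglyMeasurable (by
      have := ex_cont
      fun_prop)))
    (fun k x => by simp [ex_norm])
  have h2 : ∀ x : ℝ × ℝ, ∑' k : ℤ × ℤ, C k • ((((1 : ℝ) : ℂ) * ex (((k.1 - p : ℤ) : ℝ) * x.1))
      * (((1 : ℝ) : ℂ) * ex (((k.2 - q : ℤ) : ℝ) * x.2))) = 0 := fun x => by
    have h3 := (h x.1 x.2).mul_right (ex (-(p * x.1 + q * x.2)))
    rw [zero_mul] at h3
    rw [← h3.tsum_eq]
    refine tsum_congr fun k => ?_
    rw [Complex.real_smul, Complex.ofReal_one, one_mul, one_mul, mul_assoc, ← ex_add, ← ex_add]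
    congr 2; push_cast; ring
  simp only [h2, integral_zero] at h1
  have h4 : ∀ k : ℤ × ℤ, ∫ x : ℝ × ℝ, (((1 : ℝ) : ℂ) * ex (((k.1 - p : ℤ) : ℝ) * x.1))
      * (((1 : ℝ) : ℂ) * ex (((k.2 - q : ℤ) : ℝ) * x.2)) ∂(nu.prod nu)
      = HH (fun _ => 1) (k.1 - p) * HH (fun _ => 1) (k.2 - q) := fun k =>
    integral_prod_mul (fun a : ℝ => ((1 : ℝ) : ℂ) * ex (((k.1 - p : ℤ) : ℝ) * a))
      (fun a : ℝ => ((1 : ℝ) : ℂ) * ex (((k.2 - q : ℤ) : ℝ) * a))
  simp only [h4] at h1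
  have h5 := hasSum_single (f := fun k : ℤ × ℤ =>
      C k • (HH (fun _ => 1) (k.1 - p) * HH (fun _ => 1) (k.2 - q))) (p, q) (fun k hk => by
    by_cases h1 : k.1 = p
    · have h2 : k.2 - q ≠ 0 := fun h2 => hk (Prod.ext h1 (by simp; omega))
      simp [HH_one _ h2]
    · simp [HH_one _ (sub_ne_zero.2 h1)])
  have h6 := h5.unique h1
  simp only [sub_self, smul_eq_zero, mul_self_eq_zero] at h6
  exact h6.resolve_right HH_one_zero

lemma coef_unique (C C' : ℤ × ℤ → ℝ) (hC : Summable C) (hC' : Summable C') (f : ℝ → ℝ → ℂ)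
    (h : ∀ a b : ℝ, HasSum (fun k : ℤ × ℤ => (C k : ℂ) * ex (k.1 * a + k.2 * b)) (f a b))
    (h' : ∀ a b : ℝ, HasSum (fun k : ℤ × ℤ => (C' k : ℂ) * ex (k.1 * a + k.2 * b)) (f a b))
    (p q : ℤ) : C (p, q) = C' (p, q) := by
  have := coef_zero (fun k => C k - C' k) (hC.sub hC') (fun a b => by
    have h1 := (h a b).sub (h' a b)
    rw [sub_self] at h1
    refine hsc h1 ?_
    intro k; push_cast; ring) p q
  linarith

lemma ser_of_hasSum (K : ℝ → ℝ → ℝ → ℝ) (C : ℤ × ℤ → ℝ)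
    (h : ∀ a b : ℝ, HasSum (fun k : ℤ × ℤ => (C k : ℂ) * ex (k.1 * a + k.2 * b)) (K a b 0 : ℝ))
    (h1 : ∀ a b, K a b 0 = K b a 0) (h2 : ∀ a b, K (-a) (-b) 0 = K a b 0) : Ser K C := by
  have hs : Summable C := by
    have := (h 0 0).summable
    simp only [mul_zero, add_zero, ex_zero, mul_one] at this
    exact Complex.summable_ofReal.1 this
  refine ⟨hs, h, fun p q => ?_, fun p q => ?_⟩
  · refine coef_unique C (fun k => C k.swap) hs ((Equiv.prodComm ℤ ℤ).summable_iff.2 hs) _ h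
      (fun a b => ?_) p q
    rw [h1]
    have := (Equiv.prodComm ℤ ℤ).hasSum_iff.2 (h b a)
    refine hsc this fun k => ?_
    simp [add_comm]
  · refine (coef_unique C (fun k => C (-k)) hs ((Equiv.neg (ℤ × ℤ)).summable_iff.2 hs) _ h
      (fun a b => ?_) p q).symm
    rw [← h2]
    have := (Equiv.neg (ℤ × ℤ)).hasSum_iff.2 (h (-a) (-b))
    refine hsc this fun k => ?_
    simp

/-! ### symmetries -/

lemma yy_shift (a b c d : ℝ) : yy (a - d) (b - d) (c - d) = ex (-d) * yy a b c := by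
  simp only [yy, sub_eq_add_neg, ex_add]; ring

lemma ex_mul_neg (d : ℝ) : ex d * ex (-d) = 1 := by rw [← ex_add, add_neg_cancel, ex_zero]

lemma ss_shift (a b c d : ℝ) : ss (a - d) (b - d) (c - d) = ss a b c := by
  rw [ss, ss, yy_shift, map_mul, Complex.normSq_eq_norm_sq (ex _), ex_norm]; ring

lemma XX_shift (a b c d : ℝ) : XX (a - d) (b - d) (c - d) = XX a b c := by
  rw [XX, XX, yy_shift, map_mul, ex_conj, neg_neg]
  congr 1
  simp only [pr, sub_eq_add_neg, ex_add]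
  have := ex_mul_neg d
  linear_combination (ex a * ex b * ex c * (starRingEnd ℂ (yy a b c)) ^ 3
    * ((ex d * ex (-d)) ^ 2 + ex d * ex (-d) + 1)) * this

lemma ss_sw (a b c : ℝ) : ss a b c = ss b a c := by simp only [ss, yy, add_comm (ex a)]
lemma XX_sw (a b c : ℝ) : XX a b c = XX b a c := by
  simp only [XX, yy, pr, add_comm (ex a), mul_comm (ex a)]
lemma ss_sw' (a b c : ℝ) : ss a b c = ss a c b := by simp only [ss, yy, add_right_comm (ex a)]
lemma XX_sw' (a b c : ℝ) : XX a b c = XX a c b := by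
  simp only [XX, yy, pr, add_right_comm (ex a), mul_right_comm (ex a)]

lemma yy_neg (a b c : ℝ) : yy (-a) (-b) (-c) = starRingEnd ℂ (yy a b c) := by
  simp only [yy, map_add, ex_conj]

lemma ss_neg (a b : ℝ) : ss (-a) (-b) 0 = ss a b 0 := by
  have := yy_neg a b 0
  rw [neg_zero] at this
  rw [ss, ss, this, Complex.normSq_conj]

lemma XX_neg (a b : ℝ) : XX (-a) (-b) 0 = XX a b 0 := by
  have := yy_neg a b 0
  rw [neg_zero] at this
  rw [XX, XX, this, ← Complex.conj_re]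
  congr 1
  simp only [pr, map_mul, map_pow, ex_conj, neg_neg, neg_zero, Complex.conj_conj]

lemma KK_shift (σ m : ℝ → ℝ) (a b d : ℝ) : KK σ m a b d = KK σ m (a - d) (b - d) 0 := by
  rw [KK, KK, ← sub_self d, ss_shift, XX_shift]

lemma KK_sw (σ m : ℝ → ℝ) (a b : ℝ) : KK σ m a b 0 = KK σ m b a 0 := by
  rw [KK, KK, ss_sw, XX_sw]

lemma KK_neg (σ m : ℝ → ℝ) (a b : ℝ) : KK σ m (-a) (-b) 0 = KK σ m a b 0 := by
  rw [KK, KK, ss_neg, XX_neg]

/-! ### the logarithmic series -/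

def cn (n : ℕ) : ℝ := if n = 0 then 0 else if n = 1 then 1 else (-1) ^ n / (n * (n - 1))

lemma cn_summable : Summable fun n => |cn n| := by
  rw [← summable_nat_add_iff 2]
  refine Summable.of_nonneg_of_le (fun _ => abs_nonneg _) (fun n => ?_)
    ((summable_nat_add_iff 1).2 (Real.summable_one_div_nat_pow.2 one_lt_two))
  rw [cn, if_neg (by omega), if_neg (by omega), abs_div, abs_pow, abs_neg, abs_one, one_pow]
  push_cast
  rw [abs_of_pos (by nlinarith [Nat.cast_nonneg (α := ℝ) n])]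
  exact one_div_le_one_div_of_le (by positivity) (by nlinarith [Nat.cast_nonneg (α := ℝ) n])

lemma hasSum_cn_lt (z : ℂ) (hz : ‖z‖ < 1) :
    HasSum (fun n : ℕ => (cn n : ℂ) * z ^ n) ((1 + z) * Complex.log (1 + z)) := by
  have h1 := Complex.hasSum_taylorSeries_log hz
  have h2 := h1.mul_left z
  have h3 : HasSum (fun n : ℕ => (-1) ^ n * z ^ n / ((n - 1 : ℕ) : ℂ))
      (z * Complex.log (1 + z)) := by
    rw [← hasSum_nat_add_iff' 1]
    simp only [Finset.range_one, Finset.sum_singleton, Nat.zero_sub, Nat.cast_zero, div_zero,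
      sub_zero, Nat.add_sub_cancel]
    refine hsc h2 fun n => ?_
    ring
  have h4 := h1.add h3
  rw [add_mul, one_mul]
  refine hsc h4 fun n => ?_
  rcases n with _ | _ | n
  · simp [cn]
  · simp [cn]
  · rw [cn, if_neg (by omega), if_neg (by omega)]
    have a1 : ((n : ℂ) + 1) ≠ 0 := by exact_mod_cast Nat.succ_ne_zero n
    have a2 : ((n : ℂ) + 1 + 1) ≠ 0 := by exact_mod_cast Nat.succ_ne_zero (n + 1)
    simp only [Nat.add_sub_cancel]
    push_cast
    rw [add_sub_cancel_right]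
    field_simp
    ring

lemma hasSum_cn (x : ℂ) (hx : ‖x‖ = 1) :
    HasSum (fun n : ℕ => (cn n : ℂ) * x ^ n) ((1 + x) * Complex.log (1 + x)) := by
  have hs : Summable fun n : ℕ => (cn n : ℂ) * x ^ n :=
    Summable.of_norm (by simpa [hx] using cn_summable)
  have h1 : Tendsto (fun r : ℝ => ∑' n : ℕ, (cn n : ℂ) * ((r : ℂ) * x) ^ n) (𝓝[<] 1)
      (𝓝 (∑' n : ℕ, (cn n : ℂ) * x ^ n)) := by
    refine tendsto_tsum_of_dominated_convergence cn_summable (fun n => ?_) ?_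
    · have : Continuous fun r : ℝ => (cn n : ℂ) * ((r : ℂ) * x) ^ n := by fun_prop
      simpa using (this.tendsto 1).mono_left nhdsWithin_le_nhds
    · filter_upwards [Ioo_mem_nhdsLT (show (0 : ℝ) < 1 by norm_num)] with r hr n
      rw [norm_mul, norm_pow, norm_mul, hx, mul_one, Complex.norm_real, Complex.norm_real,
        Real.norm_eq_abs, Real.norm_eq_abs, abs_of_pos hr.1]
      exact mul_le_of_le_one_right (abs_nonneg _) (pow_le_one₀ hr.1.le hr.2.le)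
  have h2 : Tendsto (fun r : ℝ => (1 + (r : ℂ) * x) * Complex.log (1 + (r : ℂ) * x)) (𝓝[<] 1)
      (𝓝 ((1 + x) * Complex.log (1 + x))) := by
    by_cases hx1 : x = -1
    · subst hx1
      have c1 : Continuous fun r : ℝ => (((1 - r) * Real.log (1 - r) : ℝ) : ℂ) :=
        Complex.continuous_ofReal.comp (Real.continuous_mul_log.comp (by fun_prop))
      have c2 := (c1.tendsto 1).mono_left (nhdsWithin_le_nhds (s := Iio 1))
      simp only [sub_self, zero_mul, Complex.ofReal_zero] at c2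
      rw [add_neg_cancel, zero_mul]
      refine c2.congr' ?_
      filter_upwards [self_mem_nhdsWithin] with r hr
      have hr' : (0 : ℝ) ≤ 1 - r := by have : r < 1 := hr; linarith
      rw [Complex.ofReal_mul, Complex.ofReal_log hr']
      push_cast; ring_nf
    · have hre : 0 < (1 + x).re := by
        have a1 := Complex.abs_re_le_norm x
        rw [hx, abs_le] at a1
        rcases a1.1.lt_or_eq with h | h
        · simp; linarith
        · exfalso; apply hx1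
          have a2 := Complex.sq_norm x
          rw [hx, Complex.normSq_apply, ← h] at a2
          apply Complex.ext
          · simp [← h]
          · simp; nlinarith
      have c1 : ContinuousAt (fun r : ℝ => 1 + (r : ℂ) * x) 1 := by fun_prop
      have c2 : ContinuousAt (fun r : ℝ => Complex.log (1 + (r : ℂ) * x)) 1 :=
        c1.clog (by
          rw [Complex.ofReal_one, one_mul]; exact Complex.mem_slitPlane_iff.2 (Or.inl hre))
      have c3 := ((c1.mul c2).tendsto).mono_left (nhdsWithin_le_nhds (s := Iio 1))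
      simp only [Pi.mul_apply, Complex.ofReal_one, one_mul] at c3
      exact c3
  have h3 : (∑' n : ℕ, (cn n : ℂ) * x ^ n) = (1 + x) * Complex.log (1 + x) := by
    refine tendsto_nhds_unique_of_eventuallyEq h1 h2 ?_
    filter_upwards [Ioo_mem_nhdsLT (show (0 : ℝ) < 1 by norm_num)] with r hr
    refine (hasSum_cn_lt _ ?_).tsum_eq
    rw [norm_mul, hx, mul_one, Complex.norm_real, Real.norm_eq_abs, abs_of_pos hr.1]
    exact hr.2
  rw [← h3]; exact hs.hasSum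

/-- Fourier coefficients of `(1+x) log |1+x|` -/
def lc (k : ℤ) : ℝ := cn (max k (1 - k)).toNat / 2

lemma ex_nat (n : ℕ) (a : ℝ) : ex (n * a) = ex a ^ n := by
  unfold ex; rw [← Complex.exp_nat_mul]; congr 1; push_cast; ring

lemma hasSum_lc (a : ℝ) : HasSum (fun k : ℤ => (lc k : ℂ) * ex (k * a))
    ((1 + ex a) * (Real.log ‖1 + ex a‖ : ℝ)) := by
  have h0 := hasSum_cn (ex a) (ex_norm a)
  have h1 : HasSum (fun k : ℤ => (cn k.toNat : ℂ) * ex (k * a))
      ((1 + ex a) * Complex.log (1 + ex a)) := by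
    refine (Function.Injective.hasSum_iff (g := fun n : ℕ => (n : ℤ)) Nat.cast_injective ?_).1 ?_
    · intro k hk
      have : k.toNat = 0 := by
        by_contra h
        exact hk ⟨k.toNat, by simp; omega⟩
      simp [this, cn]
    · refine hsc h0 fun n => ?_
      simp [ex_nat]
  have h2 : HasSum (fun k : ℤ => (cn (1 - k).toNat : ℂ) * ex (k * a))
      (ex a * starRingEnd ℂ ((1 + ex a) * Complex.log (1 + ex a))) := by
    have h3 := ((Equiv.subLeft (1 : ℤ)).hasSum_iff.2 (Complex.hasSum_conj'.2 h1)).mul_left (ex a)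
    refine hsc h3 fun k => ?_
    simp only [Function.comp, Equiv.subLeft_apply, map_mul, Complex.conj_ofReal, ex_conj]
    rw [mul_left_comm, ← ex_add]
    congr 2; push_cast; ring
  have h4 := (h1.add h2).div_const 2
  have e : ((1 + ex a) * Complex.log (1 + ex a)
      + ex a * starRingEnd ℂ ((1 + ex a) * Complex.log (1 + ex a))) / 2
      = (1 + ex a) * (Real.log ‖1 + ex a‖ : ℝ) := by
    rw [← Complex.log_re, Complex.re_eq_add_conj, map_mul, map_add, map_one, ex_conj]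
    linear_combination (starRingEnd ℂ (Complex.log (1 + ex a)) / 2) * ex_mul_neg a
  rw [e] at h4
  refine hsc h4 fun k => ?_
  rw [lc]
  rcases le_or_gt k 0 with h | h
  · rw [max_eq_right (by omega), show k.toNat = 0 by omega]; simp [cn]; ring
  · rw [max_eq_left (by omega), show (1 - k).toNat = 0 by omega]; simp [cn]; ring

lemma hasSum_lc_even (p : ℤ) : HasSum (fun q : ℤ => lc (2 * q - p)) (Real.log 2) := by
  have h0 := hasSum_lc 0
  have h1 := (hasSum_lc Real.pi).mul_left (ex (p * Real.pi))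
  have e1 : ex Real.pi = -1 := Complex.exp_pi_mul_I
  simp only [mul_zero, ex_zero, mul_one] at h0
  rw [e1, add_neg_cancel, zero_mul, mul_zero] at h1
  have h2 := (h0.add h1).div_const 2
  have e2 : ((1 + 1 : ℂ) * (Real.log ‖(1 + 1 : ℂ)‖ : ℝ) + 0) / 2 = (Real.log 2 : ℝ) := by
    have : ‖(1 + 1 : ℂ)‖ = 2 := by norm_num
    rw [this]; ring
  rw [e2] at h2
  have h3 := (Function.Injective.hasSum_iff (g := fun q : ℤ => 2 * q - p)
    (fun x y h => by simp at h; omega) (fun k hk => by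
      have : ∃ j : ℤ, p + k = 2 * j + 1 := by
        rcases Int.even_or_odd' (p + k) with ⟨j, hj | hj⟩
        · exact absurd ⟨j, by simp; omega⟩ hk
        · exact ⟨j, hj⟩
      obtain ⟨j, hj⟩ := this
      have e3 : ex (p * Real.pi) * ex (k * Real.pi) = -1 := by
        rw [← ex_add, ← ex_odd j, ← hj]; congr 1; push_cast; ring
      linear_combination ((lc k : ℂ) / 2) * e3)).2 h2
  rw [← Complex.hasSum_ofReal]
  refine hsc h3 fun q => ?_
  have e3 : ex (p * Real.pi) * ex (((2 * q - p : ℤ) : ℝ) * Real.pi) = 1 := by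
    rw [← ex_add, ← ex_even q]; congr 1; push_cast; ring
  simp only [Function.comp]
  linear_combination ((lc (2 * q - p) : ℂ) / 2) * e3

end

end Pool.Agent.Lib.MP_cbe5a6_an
end

-- part Pool.Agent.Lib.MP_cbe5a6_an.Conv1
section

/-! Gaussian facts and square integrability of the logarithmic singularity. -/

set_option autoImplicit false

namespace Pool.Agent.Lib.MP_cbe5a6_an.ConvAux

open MeasureTheory Set Filter Topology

noncomputable section

lemma GG_nonneg (ε : ℝ) (z : ℂ) : 0 ≤ GG ε z := by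
  unfold GG
  have := Real.pi_pos
  positivity

lemma GG_continuous (ε : ℝ) : Continuous (GG ε) := by
  unfold GG
  have : Continuous fun z : ℂ => Complex.normSq z := Complex.continuous_normSq
  fun_prop

lemma GG_le (ε : ℝ) (z : ℂ) : GG ε z ≤ 1 / (Real.pi * ε ^ 2) := by
  unfold GG
  have hp := Real.pi_pos
  have h0 : 0 ≤ 1 / (Real.pi * ε ^ 2) := by positivity
  have h1 : Real.exp (-Complex.normSq z / ε ^ 2) ≤ 1 := by
    rw [Real.exp_le_one_iff]
    have := Complex.normSq_nonneg z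
    apply div_nonpos_of_nonpos_of_nonneg <;> [linarith; positivity]
  calc _ ≤ 1 / (Real.pi * ε ^ 2) * 1 := mul_le_mul_of_nonneg_left h1 h0
    _ = _ := mul_one _

lemma GG_eq (ε : ℝ) (z : ℂ) :
    GG ε z = 1 / (Real.pi * ε ^ 2) * Real.exp (-(1 / ε ^ 2) * ‖z‖ ^ 2) := by
  unfold GG
  rw [Complex.normSq_eq_norm_sq]
  congr 2
  ring

lemma integral_GG {ε : ℝ} (hε : 0 < ε) : ∫ z, GG ε z = 1 := by
  simp_rw [GG_eq]
  rw [integral_const_mul, GaussianFourier.integral_rexp_neg_mul_sq_norm (by positivity)]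
  have hp := Real.pi_pos
  simp only [Complex.finrank_real_complex, Nat.cast_ofNat, ne_eq, OfNat.ofNat_ne_zero,
    not_false_eq_true, div_self, Real.rpow_one]
  field_simp

lemma integrable_GG {ε : ℝ} (hε : 0 < ε) : Integrable (GG ε) :=
  integrable_of_integral_eq_one (integral_GG hε)

lemma integrable_GG_add {ε : ℝ} (hε : 0 < ε) (y : ℂ) : Integrable (fun w => GG ε (y + w)) :=
  (integrable_GG hε).comp_add_left y

lemma integral_GG_add {ε : ℝ} (hε : 0 < ε) (y : ℂ) : ∫ w, GG ε (y + w) = 1 := by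
  rw [integral_add_left_eq_self (GG ε) y, integral_GG hε]

lemma setIntegral_GG_add_le {ε : ℝ} (hε : 0 < ε) (y : ℂ) (S : Set ℂ) :
    ∫ w in S, GG ε (y + w) ≤ 1 := by
  rw [← integral_GG_add hε y]
  exact setIntegral_le_integral (integrable_GG_add hε y)
    (Eventually.of_forall fun w => GG_nonneg _ _)

lemma GG_mul_normSq_le {ε : ℝ} (hε : 0 < ε) (z : ℂ) : GG ε z * ‖z‖ ^ 2 ≤ 1 := by
  rw [GG_eq]
  set x : ℝ := 1 / ε ^ 2 * ‖z‖ ^ 2 with hx
  have hx0 : 0 ≤ x := by positivity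
  have hp : 3 < Real.pi := Real.pi_gt_three
  have h1 : x * Real.exp (-x) ≤ 1 := by
    have h2 : x + 1 ≤ Real.exp x := Real.add_one_le_exp x
    have h3 : Real.exp x * Real.exp (-x) = 1 := by rw [← Real.exp_add]; simp
    have h4 := Real.exp_pos (-x)
    nlinarith
  have h5 : 1 / (Real.pi * ε ^ 2) * Real.exp (-(1 / ε ^ 2) * ‖z‖ ^ 2) * ‖z‖ ^ 2
      = (x * Real.exp (-x)) / Real.pi := by
    have : -(1 / ε ^ 2) * ‖z‖ ^ 2 = -x := by rw [hx]; ring
    rw [this, hx]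
    field_simp
  rw [h5, div_le_one (by linarith)]
  linarith

lemma GG_amgm {ε : ℝ} (hε : 0 < ε) (z : ℂ) (t : ℝ) :
    GG ε z * ‖z‖ * t ≤ (GG ε z + t ^ 2) / 2 := by
  have h1 := GG_mul_normSq_le hε z
  have h2 := GG_nonneg ε z
  have h3 : (GG ε z * ‖z‖) ^ 2 ≤ GG ε z := by
    calc (GG ε z * ‖z‖) ^ 2 = GG ε z * (GG ε z * ‖z‖ ^ 2) := by ring
      _ ≤ GG ε z * 1 := mul_le_mul_of_nonneg_left h1 h2
      _ = _ := mul_one _
  nlinarith [sq_nonneg (GG ε z * ‖z‖ - t)]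

/-- approximate identity -/
lemma tendsto_GG {g : ℂ → ℂ} (hg : Integrable g) (y : ℂ) (hc : ContinuousAt g (-y)) :
    Tendsto (fun ε => ∫ w, (GG ε (y + w) : ℂ) * g w) (𝓝[>] 0) (𝓝 (g (-y))) := by
  have hp := Real.pi_pos
  have A := tendsto_integral_comp_smul_smul_of_integrable' (μ := (volume : Measure ℂ))
    (φ := GG 1) (fun x => GG_nonneg _ _) (integral_GG one_pos) (g := g) (x₀ := -y) ?_ hg hc
  · have B := A.comp tendsto_inv_nhdsGT_zero
    refine B.congr' ?_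
    filter_upwards [self_mem_nhdsWithin] with ε (hε : 0 < ε)
    simp only [Function.comp]
    refine integral_congr_ae (Eventually.of_forall fun w => ?_)
    simp only [Complex.real_smul]
    congr 2
    rw [GG_eq, GG_eq, Complex.finrank_real_complex, ← Complex.real_smul, norm_smul]
    have : ‖-y - w‖ = ‖y + w‖ := by rw [← norm_neg]; congr 1; ring
    rw [this, Real.norm_eq_abs, mul_pow, sq_abs]
    have e1 : -(1 / (1 : ℝ) ^ 2) * (ε⁻¹ ^ 2 * ‖y + w‖ ^ 2) = -(1 / ε ^ 2) * ‖y + w‖ ^ 2 := by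
      field_simp
    rw [e1]
    field_simp
  · have A1 : Tendsto (fun w : ℂ => ‖w‖ ^ 2) (Bornology.cobounded ℂ) atTop :=
      (tendsto_pow_atTop two_ne_zero).comp tendsto_norm_cobounded_atTop
    have B := ((Real.tendsto_pow_mul_exp_neg_atTop_nhds_zero 1).comp A1).const_mul (1 / Real.pi)
    rw [mul_zero] at B
    refine B.congr fun w => ?_
    simp only [Function.comp, GG_eq, Complex.finrank_real_complex]
    have e1 : -(1 / (1 : ℝ) ^ 2) * ‖w‖ ^ 2 = -‖w‖ ^ 2 := by ring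
    rw [e1]
    ring

lemma log_sq_le {x : ℝ} (hx : 0 < x) (hx1 : x ≤ 1) :
    Real.log x ^ 2 ≤ 16 * x ^ (-(1 / 2) : ℝ) := by
  have h := Real.abs_log_mul_self_rpow_lt x (1 / 4) hx hx1 (by norm_num)
  have h4 : (1 : ℝ) / (1 / 4) = 4 := by norm_num
  rw [h4] at h
  have h2 : (Real.log x * x ^ (1 / 4 : ℝ)) ^ 2 ≤ 16 := by
    have := abs_nonneg (Real.log x * x ^ (1 / 4 : ℝ))
    rw [← sq_abs]
    nlinarith
  have h3 : (x ^ (1 / 4 : ℝ)) ^ 2 * x ^ (-(1 / 2) : ℝ) = 1 := by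
    rw [← Real.rpow_natCast, ← Real.rpow_mul hx.le, ← Real.rpow_add hx]
    norm_num
  have h5 : 0 < x ^ (-(1 / 2) : ℝ) := Real.rpow_pos_of_pos hx _
  calc Real.log x ^ 2 = Real.log x ^ 2 * ((x ^ (1 / 4 : ℝ)) ^ 2 * x ^ (-(1 / 2) : ℝ)) := by
        rw [h3, mul_one]
    _ = (Real.log x * x ^ (1 / 4 : ℝ)) ^ 2 * x ^ (-(1 / 2) : ℝ) := by ring
    _ ≤ 16 * x ^ (-(1 / 2) : ℝ) := mul_le_mul_of_nonneg_right h2 h5.le

lemma log_sq_radial_le {r : ℝ} (h0 : 0 < r) (h4 : r < 4) :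
    Real.log |r ^ 2 - 1| ^ 2 ≤
      225 + 16 * (|(r - 1) ^ (-(1 / 2) : ℝ)| + |(1 - r) ^ (-(1 / 2) : ℝ)|) := by
  have ha := abs_nonneg ((r - 1) ^ (-(1 / 2) : ℝ))
  have hb := abs_nonneg ((1 - r) ^ (-(1 / 2) : ℝ))
  rcases eq_or_ne r 1 with h1 | h1
  · subst h1
    simp
  have hx : 0 < |r ^ 2 - 1| := by
    rw [abs_pos]
    intro h
    have : (r - 1) * (r + 1) = 0 := by linarith
    rcases mul_eq_zero.1 this with h | h
    · exact h1 (by linarith)
    · linarith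
  rcases le_total |r ^ 2 - 1| 1 with hle | hle
  · have h5 := log_sq_le hx hle
    have h6 : |r ^ 2 - 1| ^ (-(1 / 2) : ℝ) ≤ |r - 1| ^ (-(1 / 2) : ℝ) := by
      apply Real.rpow_le_rpow_of_nonpos (abs_pos.2 (sub_ne_zero.2 h1)) _ (by norm_num)
      have : r ^ 2 - 1 = (r - 1) * (r + 1) := by ring
      rw [this, abs_mul, abs_of_pos (by linarith : 0 < r + 1)]
      nlinarith [abs_nonneg (r - 1)]
    have h7 : |r - 1| ^ (-(1 / 2) : ℝ) ≤
        |(r - 1) ^ (-(1 / 2) : ℝ)| + |(1 - r) ^ (-(1 / 2) : ℝ)| := by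
      rcases le_total r 1 with hr | hr
      · rw [abs_of_nonpos (by linarith : r - 1 ≤ 0), neg_sub]
        linarith [le_abs_self ((1 - r) ^ (-(1 / 2) : ℝ))]
      · rw [abs_of_nonneg (by linarith : 0 ≤ r - 1)]
        linarith [le_abs_self ((r - 1) ^ (-(1 / 2) : ℝ))]
    linarith
  · have h5 : 0 ≤ Real.log |r ^ 2 - 1| := Real.log_nonneg hle
    have h6 : Real.log |r ^ 2 - 1| ≤ 15 := by
      have := Real.log_le_sub_one_of_pos hx
      have h7 : |r ^ 2 - 1| ≤ 16 := by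
        rw [abs_le]; constructor <;> nlinarith
      linarith
    nlinarith

lemma integrableOn_log_sq :
    IntegrableOn (fun w : ℂ => Real.log |Complex.normSq w - 1| ^ 2)
      (Metric.closedBall (0 : ℂ) 3) := by
  have h1 : IntegrableOn (fun w : ℂ => (fun r : ℝ => Real.log |r ^ 2 - 1| ^ 2) ‖w‖)
      (Metric.ball (0 : ℂ) 4) := by
    refine (integrableOn_fun_norm_addHaar (volume : Measure ℂ)
      (f := fun r : ℝ => Real.log |r ^ 2 - 1| ^ 2) (r := 4)).2 ?_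
    have ha : IntervalIntegrable (fun r : ℝ => (r - 1) ^ (-(1 / 2) : ℝ)) volume 0 4 := by
      have := (intervalIntegral.intervalIntegrable_rpow' (a := -1) (b := 3)
        (r := -(1 / 2)) (by norm_num)).comp_sub_right 1
      norm_num at this ⊢
      exact this
    have hb : IntervalIntegrable (fun r : ℝ => (1 - r) ^ (-(1 / 2) : ℝ)) volume 0 4 := by
      have := (intervalIntegral.intervalIntegrable_rpow' (a := 1) (b := -3)
        (r := -(1 / 2)) (by norm_num)).comp_sub_left 1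
      norm_num at this ⊢
      exact this
    have hc : IntervalIntegrable (fun r : ℝ => 4 * (225 + 16 *
        (|(r - 1) ^ (-(1 / 2) : ℝ)| + |(1 - r) ^ (-(1 / 2) : ℝ)|))) volume 0 4 :=
      ((intervalIntegrable_const).add ((ha.abs.add hb.abs).const_mul 16)).const_mul 4
    rw [intervalIntegrable_iff_integrableOn_Ioo_of_le (by norm_num)] at hc
    refine Integrable.mono' hc ?_ ?_
    · apply Measurable.aestronglyMeasurable
      fun_prop
    · rw [ae_restrict_iff' measurableSet_Ioo]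
      refine Eventually.of_forall fun r hr => ?_
      have h := log_sq_radial_le hr.1 hr.2
      have h2 : 0 ≤ Real.log |r ^ 2 - 1| ^ 2 := sq_nonneg _
      simp only [Complex.finrank_real_complex, Nat.add_one_sub_one, pow_one, smul_eq_mul,
        Real.norm_eq_abs]
      rw [abs_of_nonneg (mul_nonneg hr.1.le h2)]
      have := hr.2
      nlinarith
  have h2 := h1.mono_set (Metric.closedBall_subset_ball (by norm_num : (3 : ℝ) < 4))
  simpa only [Complex.normSq_eq_norm_sq] using h2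

end

end Pool.Agent.Lib.MP_cbe5a6_an.ConvAux
end
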