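import Pool.Agent.Lib.MP_cbe5a6_an.Conv1

/-! Diagonal dominance and the perturbation bound for the two quadratic forms. -/

set_option autoImplicit false

namespace Pool.Agent.Lib.MP_cbe5a6_an

open Finset Filter Topology

namespace Dom

/-- weighted diagonal dominance on a finite square -/
lemma dominance {R : ℕ → ℕ → ℝ} {ω v : ℕ → ℝ} {lo : ℕ} {ε : ℝ} (hs : ∀ n m, R n m = R m n)
    (hR : Rows R ω lo ε) (hv : ∀ n, n < lo → v n = 0) (N : ℕ) :
    ε * ∑ n ∈ range N, v n ^ 2 / (n : ℝ) ^ 3 ≤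
      ∑ n ∈ range N, ∑ m ∈ range N, R n m * (v n * v m) := by
  set P : ℕ → ℕ → ℝ := fun n m =>
    if lo ≤ m ∧ m ≠ n then |R n m| * ω m * (v n ^ 2 / ω n) else 0 with hP
  have h1 : ∀ n m, (if n = m then R n n * v n ^ 2 else 0) - (P n m + P m n) / 2 ≤
      R n m * (v n * v m) := by
    intro n m
    by_cases hnm : n = m
    · subst hnm
      simp [hP, sq]
    rcases lt_or_ge n lo with hn | hn
    · simp [hP, hnm, hv n hn, hn.not_ge]
    rcases lt_or_ge m lo with hm | hm
    · simp [hP, hnm, hv m hm, hm.not_ge]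
    have a1 := (hR n hn).1
    have a2 := (hR m hm).1
    simp only [hP, hnm, hn, hm, Ne.symm hnm, ne_eq, not_false_eq_true, and_self, if_true,
      if_false, ← hs n m]
    have a3 : 2 * |v n * v m| ≤ ω m * (v n ^ 2 / ω n) + ω n * (v m ^ 2 / ω m) := by
      have : ω m * (v n ^ 2 / ω n) + ω n * (v m ^ 2 / ω m) - 2 * |v n * v m| =
          (ω m * |v n| - ω n * |v m|) ^ 2 / (ω n * ω m) := by
        rw [abs_mul, ← sq_abs (v n), ← sq_abs (v m)]
        field_simp
        ring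
      have : 0 ≤ (ω m * |v n| - ω n * |v m|) ^ 2 / (ω n * ω m) := by positivity
      linarith
    have a4 := mul_le_mul_of_nonneg_left a3 (abs_nonneg (R n m))
    have a5 := neg_abs_le (R n m * (v n * v m))
    rw [abs_mul] at a5
    nlinarith
  have h2 : ∀ n, ∑ m ∈ range N, P n m ≤ (R n n - ε / (n : ℝ) ^ 3) * v n ^ 2 := by
    intro n
    rcases lt_or_ge n lo with hn | hn
    · simp [hP, hv n hn]
    obtain ⟨a1, a2⟩ := hR n hn
    have a3 := mul_le_mul_of_nonneg_right (a2 N) (by positivity : 0 ≤ v n ^ 2 / ω n)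
    rw [sum_mul, sum_filter] at a3
    refine a3.trans (le_of_eq ?_)
    field_simp
  refine le_trans ?_ (sum_le_sum fun n _ => sum_le_sum fun m _ => h1 n m)
  have h3 : ∑ n ∈ range N, ∑ m ∈ range N,
      ((if n = m then R n n * v n ^ 2 else 0) - (P n m + P m n) / 2) =
      ∑ n ∈ range N, (R n n * v n ^ 2 - ∑ m ∈ range N, P n m) := by
    simp only [sum_sub_distrib, ← sum_div, sum_add_distrib]
    rw [sum_comm (f := fun n m => P m n)]
    congr 1
    · exact sum_congr rfl fun n hn => by rw [sum_ite_eq, if_pos hn]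
    · ring
  rw [h3, mul_sum]
  refine sum_le_sum fun n _ => ?_
  have := h2 n
  have e : ε * (v n ^ 2 / (n : ℝ) ^ 3) = ε / (n : ℝ) ^ 3 * v n ^ 2 := by ring
  rw [e]
  linarith

/-- small row sums -/
lemma rows_of_abs {T : ℕ → ℕ → ℝ} {b : ℝ}
    (h : ∀ n, 1 ≤ n → ∀ N, ∑ m ∈ range N, |T n m| ≤ b / (n : ℝ) ^ 3) :
    Rows T (fun _ => 1) 1 (-b) := by
  intro n hn
  refine ⟨one_pos, fun N => ?_⟩
  have h1 := h n hn (N + n + 1)
  have h2 : insert n ((range N).filter fun m => 1 ≤ m ∧ m ≠ n) ⊆ range (N + n + 1) := by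
    intro m hm
    simp only [mem_insert, mem_filter, mem_range] at hm ⊢
    omega
  have h3 := sum_le_sum_of_subset_of_nonneg (f := fun m => |T n m|) h2
    fun _ _ _ => abs_nonneg _
  rw [sum_insert (by simp)] at h3
  simp only [mul_one, neg_div]
  linarith [neg_abs_le (T n n)]

/-- Hilbert-Schmidt bound -/
lemma hilbert_schmidt {F : ℕ → ℕ → ℝ} {v : ℕ → ℝ} {M : ℝ} (hM : 0 ≤ M) (hv : v 0 = 0) (N : ℕ)
    (h1 : ∑ k ∈ range N ×ˢ range N, (k.1 : ℝ) ^ 6 * F k.1 k.2 ^ 2 ≤ M ^ 2)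
    (h2 : ∑ k ∈ range N ×ˢ range N, (k.2 : ℝ) ^ 6 * F k.1 k.2 ^ 2 ≤ M ^ 2) :
    |∑ n ∈ range N, ∑ m ∈ range N, F n m * (v n * v m)| ≤
      M * ∑ n ∈ range N, v n ^ 2 / (n : ℝ) ^ 3 := by
  have hS : 0 ≤ ∑ n ∈ range N, v n ^ 2 / (n : ℝ) ^ 3 := sum_nonneg fun _ _ => by positivity
  have h3 := sum_sq_le_sum_mul_sum_of_sq_le_mul (range N ×ˢ range N)
    (r := fun k => F k.1 k.2 * (v k.1 * v k.2))
    (f := fun k => (k.1 : ℝ) ^ 3 * (k.2 : ℝ) ^ 3 * F k.1 k.2 ^ 2)
    (g := fun k => v k.1 ^ 2 / (k.1 : ℝ) ^ 3 * (v k.2 ^ 2 / (k.2 : ℝ) ^ 3))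
    (fun _ _ => by positivity) (fun _ _ => by positivity) (fun k _ => le_of_eq <| by
      rcases Nat.eq_zero_or_pos k.1 with a | a
      · simp [a, hv]
      rcases Nat.eq_zero_or_pos k.2 with b | b
      · simp [b, hv]
      have : (k.1 : ℝ) ≠ 0 := by positivity
      have : (k.2 : ℝ) ≠ 0 := by positivity
      field_simp)
  have h4 : ∑ k ∈ range N ×ˢ range N, (k.1 : ℝ) ^ 3 * (k.2 : ℝ) ^ 3 * F k.1 k.2 ^ 2 ≤ M ^ 2 := by
    have : ∑ k ∈ range N ×ˢ range N, (k.1 : ℝ) ^ 3 * (k.2 : ℝ) ^ 3 * F k.1 k.2 ^ 2 ≤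
        ∑ k ∈ range N ×ˢ range N, ((k.1 : ℝ) ^ 6 * F k.1 k.2 ^ 2 +
          (k.2 : ℝ) ^ 6 * F k.1 k.2 ^ 2) / 2 := by
      refine sum_le_sum fun k _ => ?_
      nlinarith [mul_nonneg (sq_nonneg ((k.1 : ℝ) ^ 3 - (k.2 : ℝ) ^ 3)) (sq_nonneg (F k.1 k.2))]
    rw [← sum_div, sum_add_distrib] at this
    linarith
  rw [sum_product' (f := fun n m => F n m * (v n * v m)),
    sum_product' (f := fun n m : ℕ => v n ^ 2 / (n : ℝ) ^ 3 * (v m ^ 2 / (m : ℝ) ^ 3)),
    ← sum_mul_sum] at h3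
  refine abs_le.2 (abs_le_of_sq_le_sq' ?_ (mul_nonneg hM hS))
  refine h3.trans ?_
  rw [mul_pow, sq (∑ n ∈ range N, _)]
  exact mul_le_mul_of_nonneg_right h4 (mul_nonneg hS hS)

lemma RR_symm {s : ℝ} {c : ℤ → ℤ → ℝ} (w : ℕ → ℝ) (h1 : ∀ p q, c p q = c q p)
    (h2 : ∀ p q, c (-p) (-q) = c p q) (n m : ℕ) : RR s c w n m = RR s c w m n := by
  have a1 : c n (-(m : ℤ)) = c m (-(n : ℤ)) := by
    rw [h1, ← h2 (m : ℤ) (-(n : ℤ)), neg_neg]
  have a2 : (if n = m then 4 * c 0 n else 0) = if m = n then 4 * c 0 m else 0 := by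
    by_cases h : n = m
    · subst h; rfl
    · rw [if_neg h, if_neg (Ne.symm h)]
  have a3 : (if m = n + 1 ∨ n = m + 1 then (w n + w m) / 4 else 0) =
      if n = m + 1 ∨ m = n + 1 then (w m + w n) / 4 else 0 := by
    simp only [or_comm, add_comm (w n)]
  unfold RR
  rw [a1, h1 n m, a2, a3]
  ring

/-- the part of the perturbation outside the Hilbert-Schmidt block -/
noncomputable def TT (a d : ℕ → ℝ) (n m : ℕ) : ℝ :=
  (if n = m then 4 * a n else 0)
    - (if m = n + 1 ∨ n = m + 1 then (d n + d m) / 4 else 0)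
    + (if n = 1 then (d (m - 1) - d (m + 1)) / 4 else 0)
    + (if m = 1 then (d (n - 1) - d (n + 1)) / 4 else 0)

lemma TT_symm (a d : ℕ → ℝ) (n m : ℕ) : TT a d n m = TT a d m n := by
  have a2 : (if n = m then 4 * a n else 0) = if m = n then 4 * a m else 0 := by
    by_cases h : n = m
    · subst h; rfl
    · rw [if_neg h, if_neg (Ne.symm h)]
  have a3 : (if m = n + 1 ∨ n = m + 1 then (d n + d m) / 4 else 0) =
      if n = m + 1 ∨ m = n + 1 then (d m + d n) / 4 else 0 := by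
    simp only [or_comm, add_comm (d n)]
  unfold TT
  rw [a2, a3]
  ring

lemma sum_ite_le (N k : ℕ) {x : ℝ} (hx : 0 ≤ x) :
    ∑ m ∈ range N, (if m = k then x else 0) ≤ x := by
  rw [sum_ite_eq']
  split_ifs
  · exact le_rfl
  · exact hx

lemma sum_shift_le {d : ℕ → ℝ} {b : ℝ} (hb : 0 ≤ b) (h1 : d 1 = 0)
    (hd : ∀ n, 1 ≤ n → |d n| ≤ b / (n : ℝ) ^ 3) (N : ℕ) :
    ∑ m ∈ range (N + 1), |d (m + 1)| ≤ b - b / (N + 1) := by
  induction N with
  | zero => simp [h1]
  | succ N ih =>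
    rw [sum_range_succ]
    have a1 := hd (N + 1 + 1) (by omega)
    have a2 : b / ((N + 1 + 1 : ℕ) : ℝ) ^ 3 ≤ b / (N + 1) - b / (N + 1 + 1) := by
      have e : b / (N + 1) - b / (N + 1 + 1) = b / (((N : ℝ) + 1) * (N + 1 + 1)) := by
        field_simp
        ring
      rw [e]
      push_cast
      refine div_le_div_of_nonneg_left hb (by positivity) ?_
      have : (0 : ℝ) ≤ N := Nat.cast_nonneg N
      nlinarith [mul_nonneg this this, mul_nonneg (mul_nonneg this this) this]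
    push_cast at a2 a1 ⊢
    linarith

lemma TT_rows {a d : ℕ → ℝ} {M : ℝ} (hM : 0 ≤ M) (h0 : d 0 = 0) (h1 : d 1 = 0)
    (ha : ∀ n, 1 ≤ n → |a n| ≤ M / (n : ℝ) ^ 3)
    (hd : ∀ n, 1 ≤ n → |d n| ≤ 9 * M / (n : ℝ) ^ 3) (n : ℕ) (hn : 1 ≤ n) (N : ℕ) :
    ∑ m ∈ range N, |TT a d n m| ≤ 33 * M / (n : ℝ) ^ 3 := by
  have hn0 : (1 : ℝ) ≤ n := by exact_mod_cast hn
  have b1 : |d (n + 1)| ≤ 9 * M / (n : ℝ) ^ 3 := by
    refine (hd (n + 1) (by omega)).trans ?_
    push_cast
    gcongr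
    linarith
  have b2 : |d (n - 1)| ≤ 31 * M / (n : ℝ) ^ 3 := by
    rcases lt_or_ge n 3 with h | h
    · have : d (n - 1) = 0 := by
        interval_cases n
        · exact h0
        · exact h1
      rw [this, abs_zero]
      positivity
    · obtain ⟨k, rfl⟩ : ∃ k, n = k + 1 := ⟨n - 1, by omega⟩
      have hk : (2 : ℝ) ≤ k := by exact_mod_cast (by omega : 2 ≤ k)
      refine (hd k (by omega)).trans ?_
      push_cast
      rw [div_le_div_iff₀ (by positivity) (by positivity)]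
      have c1 : ((k : ℝ) + 1) ^ 3 ≤ (3 / 2 * k) ^ 3 := by
        gcongr
        linarith
      have c2 : 0 ≤ M * (k : ℝ) ^ 3 := by positivity
      nlinarith [mul_le_mul_of_nonneg_left c1 hM]
  have b3 : ∀ K, ∑ m ∈ range K, |d (m + 1)| ≤ 9 * M := by
    intro K
    have c1 := sum_shift_le (by positivity) h1 hd K
    rw [sum_range_succ] at c1
    have : 0 ≤ 9 * M / ((K : ℝ) + 1) := by positivity
    linarith [abs_nonneg (d (K + 1))]
  have b4 : ∑ m ∈ range N, |d (m - 1)| ≤ 9 * M := by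
    have c1 : ∑ m ∈ range N, |d (m - 1)| ≤ ∑ m ∈ range (N + 1 + 1), |d (m - 1)| :=
      sum_le_sum_of_subset_of_nonneg (range_subset_range.2 (by omega)) fun _ _ _ => abs_nonneg _
    rw [sum_range_succ', sum_range_succ'] at c1
    simp only [Nat.add_sub_cancel, Nat.zero_sub, zero_add, Nat.sub_self, h0, abs_zero,
      add_zero] at c1
    exact c1.trans (b3 N)
  have b5 : ∀ m, |TT a d n m| ≤ (if m = n then 4 * |a n| else 0) +
      (if m = n + 1 then (|d n| + |d (n + 1)|) / 4 else 0) +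
      (if m = n - 1 then (|d n| + |d (n - 1)|) / 4 else 0) +
      (if n = 1 then (|d (m - 1)| + |d (m + 1)|) / 4 else 0) +
      (if m = 1 then (|d (n - 1)| + |d (n + 1)|) / 4 else 0) := by
    intro m
    have c1 : |if n = m then 4 * a n else 0| ≤ if m = n then 4 * |a n| else 0 := by
      by_cases h : n = m
      · rw [if_pos h, if_pos h.symm, abs_mul]
        norm_num
      · rw [if_neg h, if_neg (Ne.symm h), abs_zero]
    have c0 : ∀ x y : ℝ, |(x + y) / 4| ≤ (|x| + |y|) / 4 := fun x y => by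
      rw [abs_div, abs_of_pos (by norm_num : (0 : ℝ) < 4)]
      linarith [abs_add_le x y]
    have c0' : ∀ x y : ℝ, |(x - y) / 4| ≤ (|x| + |y|) / 4 := fun x y => by
      rw [abs_div, abs_of_pos (by norm_num : (0 : ℝ) < 4)]
      linarith [abs_sub x y]
    have c2 : |if m = n + 1 ∨ n = m + 1 then (d n + d m) / 4 else 0| ≤
        (if m = n + 1 then (|d n| + |d (n + 1)|) / 4 else 0) +
        (if m = n - 1 then (|d n| + |d (n - 1)|) / 4 else 0) := by
      by_cases h : m = n + 1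
      · rw [if_pos (Or.inl h), if_pos h, if_neg (by omega), add_zero, h]
        exact c0 _ _
      by_cases h' : n = m + 1
      · have h'' : m = n - 1 := by omega
        rw [if_pos (Or.inr h'), if_neg h, if_pos h'', zero_add, ← h'']
        exact c0 _ _
      · rw [if_neg (by tauto), if_neg h, if_neg (by omega)]
        simp
    have c3 : |if n = 1 then (d (m - 1) - d (m + 1)) / 4 else 0| ≤
        if n = 1 then (|d (m - 1)| + |d (m + 1)|) / 4 else 0 := by
      split_ifs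
      · exact c0' _ _
      · simp
    have c4 : |if m = 1 then (d (n - 1) - d (n + 1)) / 4 else 0| ≤
        if m = 1 then (|d (n - 1)| + |d (n + 1)|) / 4 else 0 := by
      split_ifs
      · exact c0' _ _
      · simp
    unfold TT
    refine (abs_add_le _ _).trans (add_le_add ((abs_add_le _ _).trans (add_le_add
      ((abs_sub _ _).trans ?_) c3)) c4)
    linarith
  refine (sum_le_sum fun m _ => b5 m).trans ?_
  simp only [sum_add_distrib]
  have e1 := sum_ite_le N n (x := 4 * |a n|) (by positivity)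
  have e2 := sum_ite_le N (n + 1) (x := (|d n| + |d (n + 1)|) / 4) (by positivity)
  have e3 := sum_ite_le N (n - 1) (x := (|d n| + |d (n - 1)|) / 4) (by positivity)
  have e4 := sum_ite_le N 1 (x := (|d (n - 1)| + |d (n + 1)|) / 4) (by positivity)
  have e5 : ∑ m ∈ range N, (if n = 1 then (|d (m - 1)| + |d (m + 1)|) / 4 else 0) ≤
      9 / 2 * M / (n : ℝ) ^ 3 := by
    split_ifs with h
    · subst h
      rw [← sum_div, sum_add_distrib]
      have := b3 N
      simp only [Nat.cast_one, one_pow, div_one]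
      linarith
    · rw [sum_const_zero]
      positivity
  have e6 := ha n hn
  have e7 := hd n hn
  simp only [mul_div_assoc] at *
  linarith

lemma tsum_nonneg_of_squares {f : ℕ × ℕ → ℝ}
    (h : ∀ N, 0 ≤ ∑ n ∈ range N, ∑ m ∈ range N, f (n, m)) : 0 ≤ ∑' k, f k := by
  by_cases hf : Summable f
  · have h1 : Tendsto (fun N : ℕ => range N ×ˢ range N) atTop atTop := by
      refine tendsto_atTop_finset_of_monotone (fun a b hab => ?_) fun k => ?_
      · exact product_subset_product (range_subset_range.2 hab) (range_subset_range.2 hab)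
      · exact ⟨k.1 + k.2 + 1, by simp only [mem_product, mem_range]; omega⟩
    refine ge_of_tendsto' (hf.hasSum.comp h1) fun N => ?_
    have := h N
    rwa [← sum_product'] at this
  · rw [tsum_eq_zero_of_not_summable hf]

end Dom

open Dom

theorem stmtDom : StmtDom := by
  intro c E w ω M ε hc hE c1 c2 E1 E2 hHS hrow w0 w1 hw hε R1 R2
  have hM : 0 ≤ M := by simpa using hrow 0
  set d : ℕ → ℝ := fun n => ww (fun p q => c p q + E p q) n - w n with hd
  have hdiv : ∀ (n : ℕ) (x b : ℝ), 1 ≤ n → (n : ℝ) ^ 3 * x ≤ b → x ≤ b / (n : ℝ) ^ 3 := by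
    intro n x b hn h
    rwa [le_div_iff₀' (by positivity)]
  have ha : ∀ n : ℕ, 1 ≤ n → |E 0 n| ≤ M / (n : ℝ) ^ 3 := by
    intro n hn
    refine hdiv n _ _ hn ?_
    have h1 := hHS {((n : ℤ), 0)}
    rw [sum_singleton, E1] at h1
    refine (abs_le_of_sq_le_sq' ?_ hM).2
    rw [mul_pow, sq_abs, ← pow_mul]
    exact_mod_cast h1
  have hd9 : ∀ n : ℕ, 1 ≤ n → |d n| ≤ 9 * M / (n : ℝ) ^ 3 := by
    intro n hn
    have h1 := hdiv n _ _ hn (hw n)
    have h2 : |∑' q : ℤ, E n q| ≤ M / (n : ℝ) ^ 3 := by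
      refine hdiv n _ _ hn ?_
      simpa using hrow n
    have h3 := ha n hn
    have h4 : 0 ≤ M / (n : ℝ) ^ 3 := by positivity
    rw [mul_div_assoc]
    simp only [hd, ww] at h1 ⊢
    split_ifs at h1 ⊢
    · linarith
    · rw [(hc.prod_factor (n : ℤ)).tsum_add (hE.prod_factor (n : ℤ))]
      rw [abs_le] at h1 h2 h3 ⊢
      constructor <;> linarith [h1.1, h1.2, h2.1, h2.2, h3.1, h3.2]
  have key : ∀ (s : ℝ) (v : ℕ → ℝ) (lo : ℕ), |s| = 1 → v 0 = 0 → (∀ n, n < lo → v n = 0) →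
      Rows (RR s c w) ω lo ε →
      0 ≤ QQ s (fun p q => c p q + E p q) (ww fun p q => c p q + E p q) v := by
    intro s v lo hs v0 hv hR
    refine tsum_nonneg_of_squares fun N => ?_
    have hS : 0 ≤ ∑ n ∈ range N, v n ^ 2 / (n : ℝ) ^ 3 := sum_nonneg fun _ _ => by positivity
    have a1 := dominance (RR_symm w c1 c2) hR hv N
    have a2 := dominance (v := v) (TT_symm (fun n => E 0 n) d)
      (rows_of_abs (TT_rows hM (by simp [hd, ww, w0]) (by simp [hd, ww, w1]) ha hd9))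
      (fun n hn => by rw [Nat.lt_one_iff.1 hn, v0]) N
    have hI : ∀ g : ℕ × ℕ → ℤ × ℤ, Function.Injective g →
        ∑ k ∈ range N ×ˢ range N, ((g k).1 : ℝ) ^ 6 * E (g k).1 (g k).2 ^ 2 ≤ M ^ 2 := by
      intro g hg
      have := hHS ((range N ×ˢ range N).map ⟨g, hg⟩)
      rwa [sum_map] at this
    have a3 := hilbert_schmidt (F := fun n m => E n (-(m : ℤ))) hM v0 N
      (by simpa using hI (fun k => (k.1, -k.2)) fun x y h => by simpa [Prod.ext_iff] using h)
      (by
        have := hI (fun k => (-k.2, k.1)) fun x y h => by simpa [Prod.ext_iff, and_comm] using h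
        refine le_trans (le_of_eq (sum_congr rfl fun k _ => ?_)) this
        rw [E1]
        push_cast
        ring)
    have a4 := hilbert_schmidt (F := fun n m => E n m) hM v0 N
      (by simpa using hI (fun k => (k.1, k.2)) fun x y h => by simpa [Prod.ext_iff] using h)
      (by
        have := hI (fun k => (k.2, k.1)) fun x y h => by simpa [Prod.ext_iff, and_comm] using h
        refine le_trans (le_of_eq (sum_congr rfl fun k _ => ?_)) this
        rw [E1]
        push_cast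
        ring)
    have a5 : ∀ n m, RR s (fun p q => c p q + E p q) (ww fun p q => c p q + E p q) n m *
        (v n * v m) = RR s c w n m * (v n * v m) + TT (fun n => E 0 n) d n m * (v n * v m) +
          2 * (E n (-(m : ℤ)) * (v n * v m)) + 2 * s * (E n m * (v n * v m)) := by
      intro n m
      simp only [RR, TT, hd]
      split_ifs <;> ring
    simp only [a5, sum_add_distrib, ← mul_sum]
    have a6 := neg_abs_le (s * ∑ n ∈ range N, ∑ m ∈ range N, E n m * (v n * v m))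
    rw [abs_mul, hs, one_mul] at a6
    have a7 := neg_abs_le (∑ n ∈ range N, ∑ m ∈ range N, E n (-(m : ℤ)) * (v n * v m))
    nlinarith [mul_le_mul_of_nonneg_right hε hS, mul_nonneg hM hS]
  intro v B _ v0
  refine ⟨fun v1 => key 1 v 2 (by simp) v0 (fun n hn => ?_) R1,
    key (-1) v 1 (by simp) v0 (fun n hn => by rw [Nat.lt_one_iff.1 hn, v0]) R2⟩
  interval_cases n
  · exact v0
  · exact v1

end Pool.Agent.Lib.MP_cbe5a6_an
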