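import Pool.Agent.Lib.MP_cbe5a6_an.Conv1

-- part Pool.Agent.Lib.MP_cbe5a6_an.Red1
section

/-! Algebra on the set of six unit vectors with sum zero. -/

set_option autoImplicit false

namespace Pool.Agent.Lib.MP_cbe5a6_an.Red

open Complex

lemma ex_mul_conj (a : ℝ) : ex a * starRingEnd ℂ (ex a) = 1 := by
  rw [mul_conj, normSq_eq_norm_sq, ex, norm_exp_ofReal_mul_I]; simp

lemma normSq_ex (a : ℝ) : normSq (ex a) = 1 := by
  rw [normSq_eq_norm_sq, ex, norm_exp_ofReal_mul_I]; simp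

lemma normSq_pr (a b c : ℝ) : normSq (pr a b c) = 1 := by simp [pr, normSq_ex]

lemma ss_cast (a b c : ℝ) : (ss a b c : ℂ) = (ex a + ex b + ex c) *
    (starRingEnd ℂ (ex a) + starRingEnd ℂ (ex b) + starRingEnd ℂ (ex c)) - 1 := by
  rw [ss, ofReal_sub, ← mul_conj, yy, map_add, map_add, ofReal_one]

lemma ss_le (a b c : ℝ) : ss a b c ≤ 8 := by
  have h : ∀ x, ‖ex x‖ = 1 := fun x => norm_exp_ofReal_mul_I x
  have h1 : ‖yy a b c‖ ≤ 3 := by
    refine norm_add₃_le.trans ?_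
    rw [h, h, h]; norm_num
  rw [ss, normSq_eq_norm_sq]
  nlinarith [norm_nonneg (yy a b c)]

lemma cube_sum (a b c : ℝ) :
    ex a ^ 3 + ex b ^ 3 + ex c ^ 3 = yy a b c ^ 3 - 3 * ss a b c * pr a b c := by
  rw [ss_cast, yy, pr]
  linear_combination 3 * (ex a + ex b + ex c) *
    (ex b * ex c * ex_mul_conj a + ex a * ex c * ex_mul_conj b + ex a * ex b * ex_mul_conj c)

lemma vand (a b c a' b' c' : ℂ) (ha : a * a' = 1) (hb : b * b' = 1) (hc : c * c' = 1) :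
    (a - b) * (a - c) * (b - c) * ((a' - b') * (a' - c') * (b' - c')) =
      4 * (a * b * c * (a' + b' + c') ^ 3 + a' * b' * c' * (a + b + c) ^ 3) -
        ((a + b + c) * (a' + b' + c')) ^ 2 - 18 * ((a + b + c) * (a' + b' + c')) + 27 := by
  have h1 := left_ne_zero_of_mul_eq_one ha
  have h2 := left_ne_zero_of_mul_eq_one hb
  have h3 := left_ne_zero_of_mul_eq_one hc
  rw [eq_inv_of_mul_eq_one_right ha, eq_inv_of_mul_eq_one_right hb, eq_inv_of_mul_eq_one_right hc]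
  field_simp
  ring

lemma XX_ge (a b c : ℝ) : (ss a b c + 1) ^ 2 + 18 * (ss a b c + 1) - 27 ≤ 8 * XX a b c := by
  have h := normSq_nonneg ((ex a - ex b) * (ex a - ex c) * (ex b - ex c))
  have e : (normSq ((ex a - ex b) * (ex a - ex c) * (ex b - ex c)) : ℂ) =
      (8 * XX a b c - (ss a b c + 1) ^ 2 - 18 * (ss a b c + 1) + 27 : ℝ) := by
    rw [← mul_conj]
    simp only [map_mul, map_sub]
    rw [vand _ _ _ _ _ _ (ex_mul_conj a) (ex_mul_conj b) (ex_mul_conj c)]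
    push_cast
    rw [ss_cast, XX, re_eq_add_conj]
    simp only [pr, yy, map_mul, map_pow, map_add, conj_conj]
    ring
  rw [ofReal_inj.1 e] at h
  linarith

section
variable {a b c d e f : ℝ} (hz : yy a b c + yy d e f = 0)
include hz

lemma ss_eq : ss d e f = ss a b c := by
  rw [ss, ss, eq_neg_of_add_eq_zero_right hz, normSq_neg]

lemma p3_eq : normSq (ex a ^ 3 + ex b ^ 3 + ex c ^ 3 + ex d ^ 3 + ex e ^ 3 + ex f ^ 3) =
    9 * ss a b c ^ 2 * (2 + 2 * (pr a b c * starRingEnd ℂ (pr d e f)).re) := by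
  have h : ex a ^ 3 + ex b ^ 3 + ex c ^ 3 + ex d ^ 3 + ex e ^ 3 + ex f ^ 3 =
      (-3 * ss a b c : ℝ) * (pr a b c + pr d e f) := by
    have h1 := cube_sum a b c
    have h2 := cube_sum d e f
    rw [ss_eq hz, eq_neg_of_add_eq_zero_right hz] at h2
    push_cast
    linear_combination h1 + h2
  rw [h, map_mul, normSq_ofReal, normSq_add, normSq_pr, normSq_pr]
  ring

lemma B_nonneg : 0 ≤ 64 * ss a b c - (al (ss a b c) + be (ss a b c) *
    (pr a b c * starRingEnd ℂ (pr d e f)).re) := by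
  set s := ss a b c with hs
  set R := (pr a b c * starRingEnd ℂ (pr d e f)).re with hR
  have hs8 : s ≤ 8 := ss_le a b c
  have hN : normSq (pr a b c + pr d e f) = 2 + 2 * R := by
    rw [normSq_add, normSq_pr, normSq_pr]; ring
  have hR1 : -1 ≤ R := by linarith [normSq_nonneg (pr a b c + pr d e f)]
  have hR2 : R ≤ 1 := by
    have := normSq_nonneg (pr a b c - pr d e f)
    rw [normSq_sub, normSq_pr, normSq_pr] at this
    linarith
  rw [show 64 * s - (al s + be s * R) = s ^ 2 * (24 - 2 * s - 9 * (3 * s - 2) * (1 + R)) by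
    simp only [al, be]; ring]
  refine mul_nonneg (sq_nonneg _) ?_
  rcases le_total s (2 / 3) with h | h
  · nlinarith
  rcases le_total s 1 with h' | h'
  · nlinarith
  set A := pr a b c * (starRingEnd ℂ (yy a b c)) ^ 3 with hA
  set A' := pr d e f * (starRingEnd ℂ (yy d e f)) ^ 3 with hA'
  have ht : normSq (yy a b c) = s + 1 := by rw [hs, ss]; ring
  have n1 : A.re ^ 2 + A.im ^ 2 = (s + 1) ^ 3 := by
    rw [← ht, ← normSq_conj (yy a b c), ← map_pow, ← one_mul (normSq _), ← normSq_pr a b c,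
      ← map_mul, normSq_apply, sq, sq]
  have n2 : A'.re ^ 2 + A'.im ^ 2 = (s + 1) ^ 3 := by
    rw [← ht, ← normSq_neg, ← eq_neg_of_add_eq_zero_right hz, ← normSq_conj (yy d e f), ← map_pow,
      ← one_mul (normSq _), ← normSq_pr d e f, ← map_mul, normSq_apply, sq, sq]
  have n3 : (A.re - A'.re) ^ 2 + (A.im - A'.im) ^ 2 = (2 + 2 * R) * (s + 1) ^ 3 := by
    have e1 : A - A' = (pr a b c + pr d e f) * (starRingEnd ℂ (yy a b c)) ^ 3 := by
      rw [hA, hA', eq_neg_of_add_eq_zero_right hz, map_neg]; ring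
    rw [← hN, ← ht, ← normSq_conj (yy a b c), ← map_pow, ← map_mul, ← e1, normSq_apply, sq, sq,
      sub_re, sub_im]
  have g1 : ((s + 1) ^ 2 + 18 * (s + 1) - 27) / 8 ≤ A.re := by
    have := XX_ge a b c
    rw [XX] at this
    linarith
  have g2 : ((s + 1) ^ 2 + 18 * (s + 1) - 27) / 8 ≤ A'.re := by
    have := XX_ge d e f
    rw [XX, ss_eq hz] at this
    linarith
  set g := ((s + 1) ^ 2 + 18 * (s + 1) - 27) / 8 with hg
  have g0 : 0 ≤ g := by rw [hg]; nlinarith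
  have k1 : (2 + 2 * R) * (s + 1) ^ 3 ≤ 4 * ((s + 1) ^ 3 - g ^ 2) := by
    nlinarith [mul_le_mul g1 g2 g0 (g0.trans g1), mul_self_le_mul_self g0 g1,
      mul_self_le_mul_self g0 g2, sq_nonneg (A.im + A'.im)]
  have k2 := mul_le_mul_of_nonneg_left k1 (show 0 ≤ 9 / 2 * (3 * s - 2) by linarith)
  have hx : 0 ≤ s - 1 := by linarith
  have k3 : 9 / 2 * (3 * s - 2) * (4 * ((s + 1) ^ 3 - g ^ 2)) ≤ (24 - 2 * s) * (s + 1) ^ 3 := by
    rw [hg]
    nlinarith [mul_nonneg hx (sq_nonneg ((s - 1) ^ 2 - 111 / 10 * (s - 1) + 39 / 10)),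
      sq_nonneg (s - 1 - 107 / 100), pow_nonneg hx 3, pow_nonneg hx 4, sq_nonneg (s - 1)]
  refine nonneg_of_mul_nonneg_left ?_ (show 0 < (s + 1) ^ 3 by positivity)
  linarith

end

/-- the cubic in the formula for the weight -/
def pc (s : ℝ) : ℝ := s ^ 2 * (24 - 2 * s)

lemma cos_alg (c01 c02 c03 c04 c05 c12 c13 c14 c15 c23 c24 c25 c34 c35 c45 : ℝ)
    (l0 : c01 + c02 + c03 + c04 + c05 = -2)
    (l1 : c01 + c12 + c13 + c14 + c15 = -2)
    (l2 : c02 + c12 + c23 + c24 + c25 = -2)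
    (l3 : c03 + c13 + c23 + c34 + c35 = -2)
    (l4 : c04 + c14 + c24 + c34 + c45 = -2)
    (l5 : c05 + c15 + c25 + c35 + c45 = -2)
    (t012 : c01 * c02 * c12 = c01 ^ 2 + c02 ^ 2 + c12 ^ 2 - 4)
    (t013 : c01 * c03 * c13 = c01 ^ 2 + c03 ^ 2 + c13 ^ 2 - 4)
    (t014 : c01 * c04 * c14 = c01 ^ 2 + c04 ^ 2 + c14 ^ 2 - 4)
    (t015 : c01 * c05 * c15 = c01 ^ 2 + c05 ^ 2 + c15 ^ 2 - 4)
    (t023 : c02 * c03 * c23 = c02 ^ 2 + c03 ^ 2 + c23 ^ 2 - 4)
    (t024 : c02 * c04 * c24 = c02 ^ 2 + c04 ^ 2 + c24 ^ 2 - 4)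
    (t025 : c02 * c05 * c25 = c02 ^ 2 + c05 ^ 2 + c25 ^ 2 - 4)
    (t034 : c03 * c04 * c34 = c03 ^ 2 + c04 ^ 2 + c34 ^ 2 - 4)
    (t035 : c03 * c05 * c35 = c03 ^ 2 + c05 ^ 2 + c35 ^ 2 - 4)
    (t045 : c04 * c05 * c45 = c04 ^ 2 + c05 ^ 2 + c45 ^ 2 - 4)
    (t123 : c12 * c13 * c23 = c12 ^ 2 + c13 ^ 2 + c23 ^ 2 - 4)
    (t124 : c12 * c14 * c24 = c12 ^ 2 + c14 ^ 2 + c24 ^ 2 - 4)
    (t125 : c12 * c15 * c25 = c12 ^ 2 + c15 ^ 2 + c25 ^ 2 - 4)
    (t134 : c13 * c14 * c34 = c13 ^ 2 + c14 ^ 2 + c34 ^ 2 - 4)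
    (t135 : c13 * c15 * c35 = c13 ^ 2 + c15 ^ 2 + c35 ^ 2 - 4)
    (t145 : c14 * c15 * c45 = c14 ^ 2 + c15 ^ 2 + c45 ^ 2 - 4)
    (t234 : c23 * c24 * c34 = c23 ^ 2 + c24 ^ 2 + c34 ^ 2 - 4)
    (t235 : c23 * c25 * c35 = c23 ^ 2 + c25 ^ 2 + c35 ^ 2 - 4)
    (t245 : c24 * c25 * c45 = c24 ^ 2 + c25 ^ 2 + c45 ^ 2 - 4)
    (t345 : c34 * c35 * c45 = c34 ^ 2 + c35 ^ 2 + c45 ^ 2 - 4) :
      (2 + c01 + c02 + c12) + (2 + c01 + c03 + c13) + (2 + c01 + c04 + c14) +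
      (2 + c01 + c05 + c15) + (2 + c02 + c03 + c23) + (2 + c02 + c04 + c24) +
      (2 + c02 + c05 + c25) + (2 + c03 + c04 + c34) + (2 + c03 + c05 + c35) +
      (2 + c04 + c05 + c45) + (2 + c12 + c13 + c23) + (2 + c12 + c14 + c24) +
      (2 + c12 + c15 + c25) + (2 + c13 + c14 + c34) + (2 + c13 + c15 + c35) +
      (2 + c14 + c15 + c45) + (2 + c23 + c24 + c34) + (2 + c23 + c25 + c35) +
      (2 + c24 + c25 + c45) + (2 + c34 + c35 + c45) = 16 ∧
      pc (2 + c01 + c02 + c12) + pc (2 + c01 + c03 + c13) + pc (2 + c01 + c04 + c14) +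
      pc (2 + c01 + c05 + c15) + pc (2 + c02 + c03 + c23) + pc (2 + c02 + c04 + c24) +
      pc (2 + c02 + c05 + c25) + pc (2 + c03 + c04 + c34) + pc (2 + c03 + c05 + c35) +
      pc (2 + c04 + c05 + c45) + pc (2 + c12 + c13 + c23) + pc (2 + c12 + c14 + c24) +
      pc (2 + c12 + c15 + c25) + pc (2 + c13 + c14 + c34) + pc (2 + c13 + c15 + c35) +
      pc (2 + c14 + c15 + c45) + pc (2 + c23 + c24 + c34) + pc (2 + c23 + c25 + c35) +
      pc (2 + c24 + c25 + c45) + pc (2 + c34 + c35 + c45) = 1024 + 4 * (6 +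
      (c01 ^ 3 - 3 * c01) + (c02 ^ 3 - 3 * c02) + (c03 ^ 3 - 3 * c03) + (c04 ^ 3 - 3 * c04) +
      (c05 ^ 3 - 3 * c05) + (c12 ^ 3 - 3 * c12) + (c13 ^ 3 - 3 * c13) + (c14 ^ 3 - 3 * c14) +
      (c15 ^ 3 - 3 * c15) + (c23 ^ 3 - 3 * c23) + (c24 ^ 3 - 3 * c24) + (c25 ^ 3 - 3 * c25) +
      (c34 ^ 3 - 3 * c34) + (c35 ^ 3 - 3 * c35) + (c45 ^ 3 - 3 * c45)) := by
  refine ⟨by linear_combination 2 * (l0 + l1 + l2 + l3 + l4 + l5), ?_⟩
  simp only [pc]
  linear_combination (126 + 12 * (c01 + c02 + c03 + c04 + c05) -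
        6 * (c01 ^ 2 + c02 ^ 2 + c03 ^ 2 + c04 ^ 2 + c05 ^ 2)) * l0 +
      (126 + 12 * (c01 + c12 + c13 + c14 + c15) -
        6 * (c01 ^ 2 + c12 ^ 2 + c13 ^ 2 + c14 ^ 2 + c15 ^ 2)) * l1 +
      (126 + 12 * (c02 + c12 + c23 + c24 + c25) -
        6 * (c02 ^ 2 + c12 ^ 2 + c23 ^ 2 + c24 ^ 2 + c25 ^ 2)) * l2 +
      (126 + 12 * (c03 + c13 + c23 + c34 + c35) -
        6 * (c03 ^ 2 + c13 ^ 2 + c23 ^ 2 + c34 ^ 2 + c35 ^ 2)) * l3 +
      (126 + 12 * (c04 + c14 + c24 + c34 + c45) -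
        6 * (c04 ^ 2 + c14 ^ 2 + c24 ^ 2 + c34 ^ 2 + c45 ^ 2)) * l4 +
      (126 + 12 * (c05 + c15 + c25 + c35 + c45) -
        6 * (c05 ^ 2 + c15 ^ 2 + c25 ^ 2 + c35 ^ 2 + c45 ^ 2)) * l5 - 12 * (
      t012 + t013 + t014 + t015 + t023 + t024 + t025 + t034 + t035 + t045 + t123 + t124 + t125 +
      t134 + t135 + t145 + t234 + t235 + t245 + t345)

/-- twice the cosine of the difference -/
noncomputable def cc (x y : ℝ) : ℝ := 2 * Real.cos (x - y)

lemma re_ex (a : ℝ) : (ex a).re = Real.cos a := exp_ofReal_mul_I_re a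

lemma im_ex (a : ℝ) : (ex a).im = Real.sin a := exp_ofReal_mul_I_im a

lemma ss_cc (a b c : ℝ) : ss a b c = 2 + cc a b + cc a c + cc b c := by
  simp only [ss, yy, normSq_apply, add_re, add_im, re_ex, im_ex, cc, Real.cos_sub]
  linear_combination Real.cos_sq_add_sin_sq a + Real.cos_sq_add_sin_sq b + Real.cos_sq_add_sin_sq c

lemma cc_tri (a b c : ℝ) :
    cc a b * cc a c * cc b c = cc a b ^ 2 + cc a c ^ 2 + cc b c ^ 2 - 4 := by
  rw [cc, cc, cc, show a - c = (a - b) + (b - c) by ring, Real.cos_add]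
  linear_combination -4 * Real.sin (b - c) ^ 2 * Real.cos_sq_add_sin_sq (a - b) -
    4 * (1 - Real.cos (a - b) ^ 2) * Real.cos_sq_add_sin_sq (b - c)

lemma cc_three (a b : ℝ) : cc (3 * a) (3 * b) = cc a b ^ 3 - 3 * cc a b := by
  rw [cc, cc, ← mul_sub, Real.cos_three_mul]; ring

lemma ex_cube (a : ℝ) : ex a ^ 3 = ex (3 * a) := by
  rw [ex, ex, ← exp_nat_mul]; push_cast; ring_nf

lemma normSq_six (a b c d e f : ℝ) : normSq (ex a + ex b + ex c + ex d + ex e + ex f) =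
    6 + cc a b + cc a c + cc a d + cc a e + cc a f + cc b c + cc b d + cc b e + cc b f + cc c d +
      cc c e + cc c f + cc d e + cc d f + cc e f := by
  simp only [normSq_apply, add_re, add_im, re_ex, im_ex, cc, Real.cos_sub]
  linear_combination Real.cos_sq_add_sin_sq a + Real.cos_sq_add_sin_sq b +
    Real.cos_sq_add_sin_sq c + Real.cos_sq_add_sin_sq d + Real.cos_sq_add_sin_sq e +
    Real.cos_sq_add_sin_sq f

/-- the ten splits -/
def sp : Fin 10 → Fin 6 → Fin 6 :=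
  ![![0, 1, 2, 3, 4, 5], ![0, 1, 3, 2, 4, 5], ![0, 1, 4, 2, 3, 5], ![0, 1, 5, 2, 3, 4],
    ![0, 2, 3, 1, 4, 5], ![0, 2, 4, 1, 3, 5], ![0, 2, 5, 1, 3, 4], ![0, 3, 4, 1, 2, 5],
    ![0, 3, 5, 1, 2, 4], ![0, 4, 5, 1, 2, 3]]

/-- exchange of the two triples -/
def sw : Fin 6 → Fin 6 := ![3, 4, 5, 0, 1, 2]

lemma sp_bij : ∀ i, Function.Bijective (sp i) := by decide

lemma sw_bij : Function.Bijective sw := by decide

lemma zz_eq (θ : Fin 6 → ℝ) : zz θ = ∑ j, ex (θ j) := by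
  simp only [zz, yy, Fin.sum_univ_six]; ring

lemma zz_comp (θ : Fin 6 → ℝ) {π : Fin 6 → Fin 6} (h : Function.Bijective π) :
    zz (θ ∘ π) = zz θ := by
  rw [zz_eq, zz_eq]
  exact h.sum_comp fun j => ex (θ j)

/-- the first radial variable -/
noncomputable def s0 (θ : Fin 6 → ℝ) : ℝ := ss (θ 0) (θ 1) (θ 2)

lemma WW_eq {θ : Fin 6 → ℝ} (hz : zz θ = 0) : WW θ = 64 * s0 θ - s0 θ ^ 2 * (24 - 2 * s0 θ) +
    (3 * s0 θ - 2) * normSq (∑ j, ex (θ j) ^ 3) / 2 := by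
  rw [Fin.sum_univ_six, p3_eq hz, WW, s0, al, be]
  ring

lemma sums {θ : Fin 6 → ℝ} (hz : zz θ = 0) : ∑ i, WW (θ ∘ sp i) = 0 := by
  have hz1 := hz
  rw [zz_eq, Fin.sum_univ_six] at hz1
  have hu := congrArg re hz1
  have hv := congrArg im hz1
  simp only [add_re, add_im, re_ex, im_ex, zero_re, zero_im] at hu hv
  obtain ⟨h1, h2⟩ := cos_alg
    (cc (θ 0) (θ 1)) (cc (θ 0) (θ 2)) (cc (θ 0) (θ 3)) (cc (θ 0) (θ 4)) (cc (θ 0) (θ 5))
    (cc (θ 1) (θ 2)) (cc (θ 1) (θ 3)) (cc (θ 1) (θ 4)) (cc (θ 1) (θ 5)) (cc (θ 2) (θ 3))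
    (cc (θ 2) (θ 4)) (cc (θ 2) (θ 5)) (cc (θ 3) (θ 4)) (cc (θ 3) (θ 5)) (cc (θ 4) (θ 5))
    (by
      simp only [cc, Real.cos_sub]
      linear_combination 2 * Real.cos (θ 0) * hu + 2 * Real.sin (θ 0) * hv -
        2 * Real.cos_sq_add_sin_sq (θ 0))
    (by
      simp only [cc, Real.cos_sub]
      linear_combination 2 * Real.cos (θ 1) * hu + 2 * Real.sin (θ 1) * hv -
        2 * Real.cos_sq_add_sin_sq (θ 1))
    (by
      simp only [cc, Real.cos_sub]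
      linear_combination 2 * Real.cos (θ 2) * hu + 2 * Real.sin (θ 2) * hv -
        2 * Real.cos_sq_add_sin_sq (θ 2))
    (by
      simp only [cc, Real.cos_sub]
      linear_combination 2 * Real.cos (θ 3) * hu + 2 * Real.sin (θ 3) * hv -
        2 * Real.cos_sq_add_sin_sq (θ 3))
    (by
      simp only [cc, Real.cos_sub]
      linear_combination 2 * Real.cos (θ 4) * hu + 2 * Real.sin (θ 4) * hv -
        2 * Real.cos_sq_add_sin_sq (θ 4))
    (by
      simp only [cc, Real.cos_sub]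
      linear_combination 2 * Real.cos (θ 5) * hu + 2 * Real.sin (θ 5) * hv -
        2 * Real.cos_sq_add_sin_sq (θ 5))
    (cc_tri _ _ _) (cc_tri _ _ _) (cc_tri _ _ _) (cc_tri _ _ _) (cc_tri _ _ _) (cc_tri _ _ _)
    (cc_tri _ _ _) (cc_tri _ _ _) (cc_tri _ _ _) (cc_tri _ _ _) (cc_tri _ _ _) (cc_tri _ _ _)
    (cc_tri _ _ _) (cc_tri _ _ _) (cc_tri _ _ _) (cc_tri _ _ _) (cc_tri _ _ _) (cc_tri _ _ _)
    (cc_tri _ _ _) (cc_tri _ _ _)
  have h5 : ∀ i, 2 * WW (θ ∘ sp i) = (64 + 3 * normSq (∑ j, ex (θ j) ^ 3) / 2) *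
      (s0 (θ ∘ sp i) + s0 ((θ ∘ sp i) ∘ sw)) - (pc (s0 (θ ∘ sp i)) + pc (s0 ((θ ∘ sp i) ∘ sw))) -
      2 * normSq (∑ j, ex (θ j) ^ 3) := fun i => by
    have hi := (zz_comp θ (sp_bij i)).trans hz
    rw [WW_eq hi, show s0 ((θ ∘ sp i) ∘ sw) = s0 (θ ∘ sp i) from ss_eq hi, pc,
      show ∑ j, ex ((θ ∘ sp i) j) ^ 3 = _ from (sp_bij i).sum_comp fun j => ex (θ j) ^ 3]
    ring
  have h3 : ∑ i, (s0 (θ ∘ sp i) + s0 ((θ ∘ sp i) ∘ sw)) = 16 := by
    simp [s0, sp, sw, ss_cc, Fin.sum_univ_succ]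
    linear_combination h1
  have h4 : ∑ i, (pc (s0 (θ ∘ sp i)) + pc (s0 ((θ ∘ sp i) ∘ sw))) =
      1024 + 4 * normSq (∑ j, ex (θ j) ^ 3) := by
    simp only [Fin.sum_univ_six, ex_cube, normSq_six, cc_three]
    simp [s0, sp, sw, ss_cc, Fin.sum_univ_succ]
    linear_combination h2
  refine mul_left_cancel₀ (two_ne_zero' ℝ) ?_
  rw [Finset.mul_sum]
  simp only [h5, Finset.sum_sub_distrib, ← Finset.mul_sum, h3, h4, Finset.sum_const,
    Finset.card_univ, Fintype.card_fin, nsmul_eq_mul]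
  push_cast
  ring

lemma WW_sw {θ : Fin 6 → ℝ} (hz : zz θ = 0) : WW (θ ∘ sw) = WW θ := by
  rw [WW_eq hz, WW_eq ((zz_comp θ sw_bij).trans hz), show s0 (θ ∘ sw) = s0 θ from ss_eq hz,
    show ∑ j, ex ((θ ∘ sw) j) ^ 3 = _ from sw_bij.sum_comp fun j => ex (θ j) ^ 3]

/-- the function that is symmetrised -/
noncomputable def Ph (f : ℝ → ℝ) (θ : Fin 6 → ℝ) : ℝ :=
  64 * s0 θ * ∏ j, f (θ j) - (64 * s0 θ - WW θ) * (f (θ 0) ^ 2 * f (θ 1) ^ 2 * f (θ 2) ^ 2)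

lemma Ph_pair (f : ℝ → ℝ) {θ : Fin 6 → ℝ} (hz : zz θ = 0) :
    Ph f θ + Ph f (θ ∘ sw) ≤ 2 * WW θ * ∏ j, f (θ j) := by
  have e1 : s0 (θ ∘ sw) = s0 θ := ss_eq hz
  have e2 := WW_sw hz
  have hB : 0 ≤ 64 * s0 θ - WW θ := B_nonneg hz
  have e3 : ∏ j, f ((θ ∘ sw) j) = ∏ j, f (θ j) := sw_bij.prod_comp fun j => f (θ j)
  have := mul_nonneg hB (sq_nonneg (f (θ 0) * f (θ 1) * f (θ 2) - f (θ 3) * f (θ 4) * f (θ 5)))
  rw [Ph, Ph, e1, e2, e3, Fin.prod_univ_six]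
  change _ - _ * _ + (_ - _ * (f (θ 3) ^ 2 * f (θ 4) ^ 2 * f (θ 5) ^ 2)) ≤ _
  linarith

lemma Ph_sum (f : ℝ → ℝ) {θ : Fin 6 → ℝ} (hz : zz θ = 0) :
    ∑ i, (Ph f (θ ∘ sp i) + Ph f ((θ ∘ sp i) ∘ sw)) ≤ 0 := by
  refine (Finset.sum_le_sum fun i _ => Ph_pair f ((zz_comp θ (sp_bij i)).trans hz)).trans_eq ?_
  have e : ∀ i, ∏ j, f ((θ ∘ sp i) j) = ∏ j, f (θ j) := fun i =>
    (sp_bij i).prod_comp fun j => f (θ j)
  simp only [e, ← Finset.sum_mul, ← Finset.mul_sum, sums hz, mul_zero, zero_mul]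

end Pool.Agent.Lib.MP_cbe5a6_an.Red
end

-- part Pool.Agent.Lib.MP_cbe5a6_an.Red
section

/-! Reduction of the six-linear inequality to the positivity of a trilinear form. -/

set_option autoImplicit false

namespace Pool.Agent.Lib.MP_cbe5a6_an

open MeasureTheory Set Filter Topology

namespace Red

/-- the cube -/
def cube : Set (Fin 6 → ℝ) := Set.pi Set.univ fun _ : Fin 6 => Set.Icc (0 : ℝ) (2 * Real.pi)

lemma cube_compact : IsCompact cube := isCompact_univ_pi fun _ => isCompact_Icc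

lemma intOn {F : (Fin 6 → ℝ) → ℝ} (h : Continuous F) : IntegrableOn F cube :=
  h.continuousOn.integrableOn_compact cube_compact

lemma I6_perm {π : Fin 6 → Fin 6} (h : Function.Bijective π) (F : (Fin 6 → ℝ) → ℝ) :
    (I6 fun θ => F (θ ∘ π)) = I6 F := by
  have := (volume_measurePreserving_piCongrLeft (fun _ : Fin 6 => ℝ)
    (Equiv.ofBijective π h)).symm.setIntegral_preimage_emb (MeasurableEquiv.measurableEmbedding _)
    F cube
  rw [I6, I6, ← cube, ← this]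
  congr 2
  ext θ
  simp only [cube, mem_preimage, mem_univ_pi]
  exact ⟨fun H j => H (π j), fun H j => by
    obtain ⟨i, rfl⟩ := h.2 j
    exact H i⟩

@[fun_prop]
lemma cont_ex : Continuous ex := by
  unfold ex
  fun_prop

@[fun_prop]
lemma cont_zz : Continuous zz := by
  unfold zz yy
  fun_prop

@[fun_prop]
lemma cont_GG (ε : ℝ) : Continuous (GG ε) := by
  unfold GG
  fun_prop

@[fun_prop]
lemma cont_s0 : Continuous s0 := by
  unfold s0 ss yy
  fun_prop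

@[fun_prop]
lemma cont_WW : Continuous WW := by
  unfold WW al be ss pr yy
  fun_prop

lemma GG_nonneg (ε : ℝ) (z : ℂ) : 0 ≤ GG ε z := by
  unfold GG
  positivity

lemma GG_le {ε r : ℝ} (hε : 0 < ε) (hr : 0 < r) {z : ℂ} (hz : r ≤ Complex.normSq z) :
    GG ε z ≤ ε ^ 2 / r ^ 2 := by
  have h1 : Real.exp (-Complex.normSq z / ε ^ 2) ≤ Real.exp (-(r / ε ^ 2)) := by
    rw [neg_div]
    gcongr
  have h2 : (r / ε ^ 2) ^ 2 / 2 ≤ Real.exp (r / ε ^ 2) := by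
    simpa using Real.pow_div_factorial_le_exp _ (by positivity : 0 ≤ r / ε ^ 2) 2
  have h3 : Real.exp (-(r / ε ^ 2)) ≤ ((r / ε ^ 2) ^ 2 / 2)⁻¹ := by
    rw [Real.exp_neg]
    gcongr
  calc GG ε z ≤ 1 / (2 * ε ^ 2) * ((r / ε ^ 2) ^ 2 / 2)⁻¹ := by
        unfold GG
        gcongr
        · exact Real.two_le_pi
        · exact h1.trans h3
    _ = _ := by field_simp

lemma soft {C : ℝ} (hC : ∀ ε : ℝ, 0 < ε → (I6 fun θ => GG ε (zz θ)) ≤ C)
    {Ψ : (Fin 6 → ℝ) → ℝ} (hΨ : Continuous Ψ) (h0 : ∀ θ, zz θ = 0 → Ψ θ ≤ 0) {η : ℝ}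
    (hη : 0 < η) : ∀ᶠ ε in 𝓝[>] (0 : ℝ), (I6 fun θ => GG ε (zz θ) * Ψ θ) ≤ η := by
  set η' := η / (2 * (|C| + 1)) with hη'
  have h1 : 0 < η' := by positivity
  obtain ⟨r, hr, h2⟩ := (cube_compact.inter_right
    (isClosed_le (f := fun _ => η') continuous_const hΨ)).exists_forall_le'
    (f := fun θ => Complex.normSq (zz θ)) (by fun_prop) (a := 0) fun θ hθ =>
      Complex.normSq_pos.2 fun h => (h1.trans_le hθ.2).not_ge (h0 θ h)
  obtain ⟨M, hM⟩ := cube_compact.exists_bound_of_continuousOn hΨ.continuousOn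
  have ht : Tendsto (fun ε : ℝ => volume.real cube * (ε ^ 2 / r ^ 2 * |M|)) (𝓝[>] 0) (𝓝 0) := by
    have : Continuous fun ε : ℝ => volume.real cube * (ε ^ 2 / r ^ 2 * |M|) := by fun_prop
    simpa using (this.tendsto 0).mono_left nhdsWithin_le_nhds
  filter_upwards [self_mem_nhdsWithin, ht.eventually (gt_mem_nhds (half_pos hη))] with ε hε h3
  have hε : 0 < ε := hε
  have hv : volume cube ≠ ⊤ := cube_compact.measure_lt_top.ne
  calc (I6 fun θ => GG ε (zz θ) * Ψ θ)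
      ≤ ∫ θ in cube, (η' * GG ε (zz θ) + ε ^ 2 / r ^ 2 * |M|) := by
        refine setIntegral_mono_on (intOn (by fun_prop)) (intOn (by fun_prop))
          cube_compact.measurableSet fun θ hθ => ?_
        have g0 := GG_nonneg ε (zz θ)
        rcases le_total η' (Ψ θ) with h | h
        · have g1 := GG_le hε hr (h2 θ ⟨hθ, h⟩)
          have g2 : Ψ θ ≤ |M| := (le_abs_self _).trans ((hM θ hθ).trans (le_abs_self _))
          have := mul_le_mul g1 g2 (h1.le.trans h) (by positivity)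
          nlinarith [mul_nonneg h1.le g0]
        · have : 0 ≤ ε ^ 2 / r ^ 2 * |M| := by positivity
          nlinarith [mul_le_mul_of_nonneg_left h g0]
    _ = η' * (I6 fun θ => GG ε (zz θ)) + volume.real cube * (ε ^ 2 / r ^ 2 * |M|) := by
        rw [integral_add (intOn (by fun_prop)) (intOn (by fun_prop)), integral_const_mul,
          setIntegral_const, smul_eq_mul]
        rfl
    _ ≤ η / 2 + η / 2 := by
        refine add_le_add ?_ h3.le
        calc _ ≤ η' * (|C| + 1) := by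
              gcongr
              linarith [hC ε hε, le_abs_self C]
          _ = _ := by rw [hη']; field_simp
    _ = η := by ring

lemma sym {C : ℝ} (hC : ∀ ε : ℝ, 0 < ε → (I6 fun θ => GG ε (zz θ)) ≤ C)
    {Φ : (Fin 6 → ℝ) → ℝ} (hΦ : Continuous Φ)
    (h0 : ∀ θ, zz θ = 0 → ∑ i, (Φ (θ ∘ sp i) + Φ ((θ ∘ sp i) ∘ sw)) ≤ 0) {η : ℝ}
    (hη : 0 < η) : ∀ᶠ ε in 𝓝[>] (0 : ℝ), (I6 fun θ => GG ε (zz θ) * Φ θ) ≤ η := by
  have c : ∀ π : Fin 6 → Fin 6, Continuous fun θ : Fin 6 → ℝ => Φ (θ ∘ π) := fun π =>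
    hΦ.comp (continuous_pi fun j => continuous_apply (π j))
  filter_upwards [soft hC (continuous_finsetSum _ fun i _ => (c (sp i)).add (c (sp i ∘ sw))) h0
    (show 0 < 20 * η by positivity)] with ε h
  have e : ∀ π : Fin 6 → Fin 6, Function.Bijective π →
      ∫ θ in cube, GG ε (zz θ) * Φ (θ ∘ π) = I6 fun θ => GG ε (zz θ) * Φ θ := fun π hπ => by
    rw [← I6_perm hπ fun θ => GG ε (zz θ) * Φ θ]
    simp only [zz_comp _ hπ]
    rfl
  have i : ∀ π : Fin 6 → Fin 6, IntegrableOn (fun θ => GG ε (zz θ) * Φ (θ ∘ π)) cube := fun π =>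
    intOn (((cont_GG ε).comp cont_zz).mul (c π))
  have e2 : (I6 fun θ => GG ε (zz θ) * ∑ i, (Φ (θ ∘ sp i) + Φ (θ ∘ sp i ∘ sw))) =
      ∑ _i : Fin 10, 2 * I6 fun θ => GG ε (zz θ) * Φ θ := by
    simp only [Finset.mul_sum, mul_add]
    refine (integral_finsetSum _ fun j _ => (i (sp j)).add (i (sp j ∘ sw))).trans ?_
    refine Finset.sum_congr rfl fun j _ => ?_
    simp only [Pi.add_apply]
    rw [integral_add (i (sp j)) (i (sp j ∘ sw)), e _ (sp_bij j), e _ ((sp_bij j).comp sw_bij),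
      two_mul]
  rw [Finset.sum_const, Finset.card_univ, Fintype.card_fin, nsmul_eq_mul] at e2
  have h' := e2.symm.trans_le h
  push_cast at h'
  linarith

lemma WW_sum {θ : Fin 6 → ℝ} (hz : zz θ = 0) :
    ∑ i, (WW (θ ∘ sp i) + WW ((θ ∘ sp i) ∘ sw)) = 0 := by
  simp only [fun i => WW_sw ((zz_comp θ (sp_bij i)).trans hz), Finset.sum_add_distrib, sums hz,
    add_zero]

lemma kernel_eq (ε : ℝ) (θ : Fin 6 → ℝ) :
    ((Real.cos (θ 0) + Real.cos (θ 1) + Real.cos (θ 2)) ^ 2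
      + (Real.sin (θ 0) + Real.sin (θ 1) + Real.sin (θ 2)) ^ 2 - 1)
      * ((1 / (Real.pi * ε ^ 2)) * Real.exp (-((∑ k : Fin 6, Real.cos (θ k)) ^ 2
        + (∑ k : Fin 6, Real.sin (θ k)) ^ 2) / ε ^ 2)) = s0 θ * GG ε (zz θ) := by
  simp only [s0, ss, yy, GG, zz_eq, Complex.normSq_apply, Complex.add_re, Complex.add_im,
    Complex.re_sum, Complex.im_sum, re_ex, im_ex, ← sq]

end Red

open Red in
theorem stmtRed : StmtRed := by
  rintro σ m c hc ⟨hconv, C, hC⟩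
  constructor
  · have h1 := hconv (fun _ _ _ => 1) continuous_const
    simp only [mul_one] at h1
    refine (mul_eq_zero.1 (le_antisymm (le_of_forall_pos_le_add fun η hη => ?_)
      (le_of_forall_pos_le_add fun η hη => ?_))).resolve_left hc.ne'
    · rw [zero_add]
      exact le_of_tendsto h1 (sym hC cont_WW (fun θ hz => (WW_sum hz).le) hη)
    · rw [← neg_le_iff_add_nonneg']
      refine le_of_tendsto h1.neg ?_
      filter_upwards [sym hC (Φ := fun θ => -WW θ) cont_WW.neg (fun θ hz => by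
        simp only [← neg_add, Finset.sum_neg_distrib, WW_sum hz, neg_zero, le_refl]) hη] with ε h
      simp only [mul_neg] at h
      rwa [I6, integral_neg] at h
  · intro hpos L hL f hf hper δ hδ
    have hf := hf.continuous
    have h1 := hconv (fun a b d => f a ^ 2 * f b ^ 2 * f d ^ 2) (by fun_prop)
    have h2 := mul_nonneg hc.le (hpos (fun x => f x ^ 2) (by fun_prop)
      (fun x => by simp only [hper x]) fun x => sq_nonneg _)
    have hP : Continuous (Ph f) := by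
      unfold Ph
      fun_prop
    have h3 := (h1.eventually (lt_mem_nhds ((neg_lt_zero.2 hδ).trans_le h2))).and
      (sym hC hP (fun θ hz => Ph_sum f hz) hδ)
    obtain ⟨ε₀, h0, h4⟩ := (nhdsGT_basis (0 : ℝ)).eventually_iff.1 h3
    refine ⟨ε₀, h0, fun ε e1 e2 => ?_⟩
    obtain ⟨h5, h6⟩ := h4 ⟨e1, e2⟩
    have e3 : (I6 fun θ => GG ε (zz θ) * Ph f θ) =
        64 * (I6 fun θ => s0 θ * GG ε (zz θ) * ∏ j, f (θ j)) -
        64 * (I6 fun θ => s0 θ * GG ε (zz θ) * (f (θ 0) ^ 2 * f (θ 1) ^ 2 * f (θ 2) ^ 2)) +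
        I6 fun θ => GG ε (zz θ) * WW θ * (f (θ 0) ^ 2 * f (θ 1) ^ 2 * f (θ 2) ^ 2) := by
      simp only [I6, ← cube.eq_1]
      rw [← integral_const_mul, ← integral_const_mul,
        ← integral_sub (intOn (by fun_prop)) (intOn (by fun_prop)),
        ← integral_add (intOn (by fun_prop)) (intOn (by fun_prop))]
      refine integral_congr_ae (Eventually.of_forall fun θ => ?_)
      simp only [Ph]
      ring
    rw [hL, hL]
    simp only [kernel_eq]
    have e4 : ∀ θ : Fin 6 → ℝ, (∏ j : Fin 6, if (j : ℕ) < 3 then f (θ j) ^ 2 else 1) =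
        f (θ 0) ^ 2 * f (θ 1) ^ 2 * f (θ 2) ^ 2 := fun θ => by
      simp [Fin.prod_univ_six]
    simp only [e4]
    simp only [I6] at e3 h5 h6
    linarith

end Pool.Agent.Lib.MP_cbe5a6_an
end

-- part Pool.Agent.Lib.MP_cbe5a6_an.Fou1
section

/-! Fourier coefficients of functions with bounded third differences. -/

set_option autoImplicit false

namespace Pool.Agent.Lib.MP_cbe5a6_an.Fou

open MeasureTheory Set Filter Topology AddCircle ComplexConjugate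

noncomputable section

instance twoPiPos : Fact (0 < 2 * Real.pi) := ⟨Real.two_pi_pos⟩

/-- the circle of length `2 π` -/
abbrev TT := AddCircle (2 * Real.pi)

lemma four_coe (n : ℤ) (a : ℝ) : fourier n (a : TT) = ex (n * a) := by
  rw [fourier_coe_apply, ex]
  congr 1
  have : (Real.pi : ℂ) ≠ 0 := by exact_mod_cast Real.pi_ne_zero
  push_cast
  field_simp

lemma four_add (n : ℤ) (x y : TT) : fourier n (x + y) = fourier n x * fourier n y := by
  simp only [fourier_apply, smul_add, toCircle_add, Circle.coe_mul]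

lemma four_neg (n : ℤ) (x : TT) : fourier n (-x) = fourier (-n) x := by
  simp only [fourier_apply, smul_neg, neg_smul]

lemma norm_four (n : ℤ) (x : TT) : ‖fourier n x‖ = 1 := by
  rw [fourier_apply, Circle.norm_coe]

lemma integ {E : Type} [NormedAddCommGroup E] {ψ : TT → E} (h : Continuous ψ) :
    Integrable ψ haarAddCircle :=
  h.integrable_of_hasCompactSupport (HasCompactSupport.of_compactSpace ψ)

lemma bessel {ψ : TT → ℂ} (h : Continuous ψ) (S : Finset ℤ) :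
    ∑ n ∈ S, ‖fourierCoeff ψ n‖ ^ 2 ≤ ∫ x, ‖ψ x‖ ^ 2 ∂haarAddCircle := by
  have h1 := hasSum_sq_fourierCoeff (ContinuousMap.toLp (E := ℂ) 2 haarAddCircle ℂ ⟨ψ, h⟩)
  simp only [fourierCoeff_toLp] at h1
  refine (sum_le_hasSum S (fun _ _ => by positivity) h1).trans (le_of_eq (integral_congr_ae ?_))
  filter_upwards [ContinuousMap.coeFn_toLp (E := ℂ) (p := 2) (𝕜 := ℂ) haarAddCircle ⟨ψ, h⟩]
    with x hx
  rw [hx]
  rfl

lemma co_neg (ψ : TT → ℂ) (n : ℤ) : fourierCoeff (fun x => ψ (-x)) n = fourierCoeff ψ (-n) := by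
  unfold fourierCoeff
  rw [← integral_neg_eq_self]
  simp only [four_neg, neg_neg]

lemma co_conj (ψ : TT → ℂ) (n : ℤ) :
    fourierCoeff (fun x => conj (ψ x)) n = conj (fourierCoeff ψ (-n)) := by
  unfold fourierCoeff
  rw [← integral_conj]
  simp only [neg_neg, smul_eq_mul, map_mul, fourier_neg]

lemma co_shift (ψ : TT → ℂ) (τ : TT) (n : ℤ) :
    fourierCoeff (fun x => ψ (x + τ)) n = fourier n τ * fourierCoeff ψ n := by
  unfold fourierCoeff
  rw [← integral_const_mul, ← integral_add_right_eq_self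
    (fun x => fourier n τ * (fourier (-n) x • ψ x)) τ]
  refine integral_congr_ae (ae_of_all _ fun x => ?_)
  have h1 : fourier n τ * fourier (-n) τ = 1 := by
    rw [← fourier_add, add_neg_cancel, fourier_zero]
  simp only [four_add, smul_eq_mul]
  linear_combination (-(fourier (-n) x * ψ (x + τ))) * h1

/-- difference operator -/
def DD {G E : Type} [Add G] [Sub E] (τ : G) (ψ : G → E) : G → E := fun x => ψ (x + τ) - ψ x

lemma cont_DD {ψ : TT → ℂ} (h : Continuous ψ) (τ : TT) : Continuous (DD τ ψ) :=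
  (h.comp (continuous_add_const τ)).sub h

lemma co_DD {ψ : TT → ℂ} (h : Continuous ψ) (τ : TT) (n : ℤ) :
    fourierCoeff (DD τ ψ) n = (fourier n τ - 1) * fourierCoeff ψ n := by
  rw [sub_mul, one_mul, ← co_shift]
  unfold fourierCoeff DD
  simp only [smul_sub]
  exact integral_sub ((integ (h.comp (continuous_add_const τ))).fourier_smul _)
    ((integ h).fourier_smul _)

/-- bounded third differences -/
def B3 (ψ : TT → ℂ) (Λ : ℝ) : Prop :=
  ∀ h : ℝ, 0 < h → ∀ x, ‖DD (h : TT) (DD (h : TT) (DD (h : TT) ψ)) x‖ ≤ Λ * h ^ 3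

lemma slope_four (n : ℤ) :
    Tendsto (fun h : ℝ => ‖fourier n (h : TT) - 1‖ / h) (𝓝[>] 0) (𝓝 |(n : ℝ)|) := by
  have h1 := (hasDerivAt_fourier (2 * Real.pi) n 0).tendsto_slope_zero_right.norm
  have h2 : ‖2 * Real.pi * Complex.I * n / ((2 * Real.pi : ℝ) : ℂ) * fourier n ((0 : ℝ) : TT)‖ =
      |(n : ℝ)| := by
    have : (Real.pi : ℂ) ≠ 0 := by exact_mod_cast Real.pi_ne_zero
    rw [norm_mul, norm_four, mul_one,
      show 2 * Real.pi * Complex.I * n / ((2 * Real.pi : ℝ) : ℂ) = Complex.I * n by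
        push_cast; field_simp, norm_mul, Complex.norm_I, one_mul, Complex.norm_intCast]
  rw [h2] at h1
  refine h1.congr' (eventually_nhdsWithin_of_forall fun h hh => ?_)
  have h3 : (0 : ℝ) < h := hh
  simp only [zero_add, norm_smul, norm_inv, Real.norm_eq_abs, abs_of_pos h3, coe_zero,
    fourier_eval_zero, div_eq_inv_mul]

lemma bessel3 {ψ : TT → ℂ} (h : Continuous ψ) {Λ : ℝ} (hB : B3 ψ Λ) (S : Finset ℤ) :
    ∑ n ∈ S, (n : ℝ) ^ 6 * ‖fourierCoeff ψ n‖ ^ 2 ≤ Λ ^ 2 := by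
  have h1 : Tendsto (fun t : ℝ => ∑ n ∈ S, (‖fourier n (t : TT) - 1‖ / t) ^ 6 *
      ‖fourierCoeff ψ n‖ ^ 2) (𝓝[>] 0) (𝓝 (∑ n ∈ S, |(n : ℝ)| ^ 6 * ‖fourierCoeff ψ n‖ ^ 2)) :=
    tendsto_finsetSum _ fun n _ => ((slope_four n).pow 6).mul_const _
  simp only [Even.pow_abs (show Even 6 by decide)] at h1
  refine le_of_tendsto h1 (eventually_nhdsWithin_of_forall fun t ht => ?_)
  have h3 : (0 : ℝ) < t := ht
  have c1 := cont_DD h (t : TT)
  have c2 := cont_DD c1 (t : TT)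
  have c3 := cont_DD c2 (t : TT)
  have h4 := bessel c3 S
  have h5 : ∫ x, ‖DD (t : TT) (DD (t : TT) (DD (t : TT) ψ)) x‖ ^ 2 ∂haarAddCircle ≤
      (Λ * t ^ 3) ^ 2 := by
    refine (integral_mono (integ (c3.norm.pow 2)) (integrable_const ((Λ * t ^ 3) ^ 2))
      fun x => pow_le_pow_left₀ (norm_nonneg _) (hB t h3 x) 2).trans ?_
    simp
  simp only [co_DD c2, co_DD c1, co_DD h, norm_mul] at h4
  refine le_of_mul_le_mul_right ?_ (pow_pos h3 6)
  rw [Finset.sum_mul]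
  refine le_trans (le_of_eq (Finset.sum_congr rfl fun n _ => ?_))
    ((h4.trans h5).trans (le_of_eq (by ring)))
  field_simp

lemma summable_inv : Summable fun n : ℤ => 1 / (1 + (n : ℝ) ^ 2) := by
  refine (Real.summable_one_div_int_pow.2 one_lt_two).of_norm_bounded_eventually ?_
  refine (Set.finite_singleton (0 : ℤ)).subset fun n hn => ?_
  by_contra h0
  have h1 : (n : ℝ) ≠ 0 := by exact_mod_cast h0
  refine hn ?_
  rw [mem_ofPred_eq, Real.norm_eq_abs, abs_of_pos (by positivity)]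
  exact one_div_le_one_div_of_le (by positivity) (by linarith)

lemma summable_of_six {E : ℤ × ℤ → ℝ} (hs : ∀ p q, E (p, q) = E (q, p)) {C : ℝ}
    (h : ∀ S : Finset (ℤ × ℤ), ∑ k ∈ S, (k.1 : ℝ) ^ 6 * E k ^ 2 ≤ C) : Summable E := by
  have h1 : Summable fun k : ℤ × ℤ => (k.1 : ℝ) ^ 6 * E k ^ 2 :=
    summable_of_sum_le (fun k => by positivity) h
  have h2 : Summable fun k : ℤ × ℤ => (k.2 : ℝ) ^ 6 * E k ^ 2 :=
    ((Equiv.prodComm ℤ ℤ).summable_iff.2 h1).congr fun k => by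
      simp only [Function.comp, Equiv.prodComm_apply, Prod.fst_swap]
      rw [show E k.swap = E k from hs k.2 k.1]
  have h3 := summable_inv.mul_of_nonneg summable_inv (fun _ => by positivity)
    fun _ => by positivity
  refine (((h1.add h2).mul_left 3).add h3).of_norm_bounded_eventually ?_
  refine (Set.finite_singleton ((0, 0) : ℤ × ℤ)).subset fun k hk => ?_
  by_contra h0
  refine hk ?_
  obtain ⟨p, q⟩ := k
  have a0 : ∀ n : ℤ, n ≠ 0 → (1 : ℤ) ≤ n ^ 2 := fun n hn => by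
    have := pow_pos (abs_pos.2 hn) 2
    rwa [sq_abs] at this
  have a1 : ∀ n : ℤ, n ^ 4 ≤ n ^ 6 := fun n => by
    rcases eq_or_ne n 0 with rfl | hn
    · simp
    · nlinarith [a0 n hn, pow_nonneg (sq_nonneg n) 2]
  have a2 : 1 ≤ p ^ 6 + q ^ 6 := by
    have b : ∀ n : ℤ, n ≠ 0 → (1 : ℤ) ≤ n ^ 6 := fun n hn => by
      have := one_le_pow₀ (n := 3) (a0 n hn)
      rwa [← pow_mul] at this
    by_cases hp : p = 0
    · have hq : q ≠ 0 := fun hq => h0 (by rw [hp, hq]; rfl)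
      have := b q hq
      have : 0 ≤ p ^ 6 := by positivity
      linarith
    · have := b p hp
      have : 0 ≤ q ^ 6 := by positivity
      linarith
  have a3 : (1 + p ^ 2) * (1 + q ^ 2) ≤ 3 * (p ^ 6 + q ^ 6) := by
    nlinarith [a1 p, a1 q, sq_nonneg (p ^ 2 - q ^ 2), sq_nonneg (p ^ 2 - 1), sq_nonneg (q ^ 2 - 1)]
  have a4 : (1 + (p : ℝ) ^ 2) * (1 + (q : ℝ) ^ 2) ≤ 3 * ((p : ℝ) ^ 6 + (q : ℝ) ^ 6) := by
    exact_mod_cast a3
  rw [mem_ofPred_eq, Real.norm_eq_abs, one_div_mul_one_div]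
  dsimp only
  have a5 : 0 < (1 + (p : ℝ) ^ 2) * (1 + (q : ℝ) ^ 2) := by positivity
  generalize (1 + (p : ℝ) ^ 2) * (1 + (q : ℝ) ^ 2) = W at a4 a5 ⊢
  generalize E (p, q) = x
  have a6 : |x| ≤ W * x ^ 2 + 1 / W := by
    rw [← sub_le_iff_le_add', le_div_iff₀ a5, ← sq_abs x]
    nlinarith [sq_nonneg (W * |x| - 1), mul_nonneg a5.le (abs_nonneg x)]
  nlinarith [mul_le_mul_of_nonneg_right a4 (sq_nonneg x)]

section two

variable {F : TT → TT → ℂ}

/-- coefficient in the first variable -/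
def c1 (F : TT → TT → ℂ) (p : ℤ) (y : TT) : ℂ := fourierCoeff (fun x => F x y) p

/-- double coefficient -/
def c2 (F : TT → TT → ℂ) (p q : ℤ) : ℂ := fourierCoeff (c1 F p) q

lemma cont_c1 (hF : Continuous F.uncurry) (p : ℤ) : Continuous (c1 F p) := by
  have := continuous_parametric_integral_of_continuous (μ := haarAddCircle)
    (f := fun (y x : TT) => fourier (-p) x • F x y)
    (((fourier (-p)).continuous.comp continuous_snd).smul (hF.comp continuous_swap))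
    isCompact_univ
  simp only [Measure.restrict_univ] at this
  exact this

lemma c2_swap (hF : Continuous F.uncurry) (hs : ∀ x y, F x y = F y x) (p q : ℤ) :
    c2 F p q = c2 F q p := by
  have h1 : ∀ p q, c2 F p q = ∫ y, ∫ x, fourier (-q) y * (fourier (-p) x * F x y)
      ∂haarAddCircle ∂haarAddCircle := fun p q => by
    simp only [c2, c1, fourierCoeff, smul_eq_mul, integral_const_mul]
  rw [h1, h1, integral_integral_swap]
  · refine integral_congr_ae (ae_of_all _ fun x => integral_congr_ae (ae_of_all _ fun y => ?_))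
    simp only [hs x y]
    ring
  · exact Continuous.integrable_of_hasCompactSupport
      (((fourier (-q)).continuous.comp continuous_fst).mul
        (((fourier (-p)).continuous.comp continuous_snd).mul (hF.comp continuous_swap)))
      (HasCompactSupport.of_compactSpace _)

lemma c2_neg (hn : ∀ x y, F (-x) (-y) = F x y) (p q : ℤ) : c2 F (-p) (-q) = c2 F p q := by
  rw [c2, ← co_neg, c2]
  congr 1
  funext y
  rw [c1, ← co_neg]
  simp only [hn]
  rfl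

lemma c2_conj (hr : ∀ x y, conj (F x y) = F x y) (p q : ℤ) :
    conj (c2 F (-p) (-q)) = c2 F p q := by
  rw [c2, ← co_conj, c2]
  congr 1
  funext y
  rw [c1, ← co_conj]
  simp only [hr]
  rfl

lemma bessel2 (hF : Continuous F.uncurry) {Λ : ℝ} (hB : ∀ y, B3 (fun x => F x y) Λ)
    (S : Finset (ℤ × ℤ)) : ∑ k ∈ S, (k.1 : ℝ) ^ 6 * ‖c2 F k.1 k.2‖ ^ 2 ≤ Λ ^ 2 := by
  have hi : ∀ p : ℤ, Integrable (fun y => (p : ℝ) ^ 6 * ‖c1 F p y‖ ^ 2) haarAddCircle :=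
    fun p => integ (continuous_const.mul ((cont_c1 hF p).norm.pow 2))
  refine (Finset.sum_le_sum_of_subset_of_nonneg Finset.subset_product
    fun _ _ _ => by positivity).trans ?_
  rw [Finset.sum_product]
  refine (Finset.sum_le_sum (g := fun p : ℤ => ∫ y, (p : ℝ) ^ 6 * ‖c1 F p y‖ ^ 2 ∂haarAddCircle)
    fun p _ => ?_).trans ?_
  · dsimp only
    rw [← Finset.mul_sum, integral_const_mul]
    exact mul_le_mul_of_nonneg_left (bessel (cont_c1 hF p) _) (by positivity)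
  · rw [← integral_finsetSum _ fun p _ => hi p]
    refine (integral_mono (integrable_finsetSum _ fun p _ => hi p) (integrable_const (Λ ^ 2))
      fun y => bessel3 (hF.comp (Continuous.prodMk_left y)) (hB y) _).trans ?_
    simp

theorem main (hF : Continuous F.uncurry) (hs : ∀ x y, F x y = F y x)
    (hn : ∀ x y, F (-x) (-y) = F x y) (hr : ∀ x y, conj (F x y) = F x y) {Λ : ℝ} (hΛ : 0 ≤ Λ)
    (hB : ∀ y, B3 (fun x => F x y) Λ) : ∃ E : ℤ × ℤ → ℝ, Summable E ∧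
      (∀ x y, HasSum (fun k : ℤ × ℤ => (E k : ℂ) * (fourier k.1 x * fourier k.2 y)) (F x y)) ∧
      (∀ p q, E (p, q) = E (q, p)) ∧ (∀ p q, E (-p, -q) = E (p, q)) ∧
      (∀ S : Finset (ℤ × ℤ), ∑ k ∈ S, (k.1 : ℝ) ^ 6 * E k ^ 2 ≤ Λ ^ 2) ∧
      ∀ p : ℤ, |(p : ℝ)| ^ 3 * |∑' q : ℤ, E (p, 2 * q)| ≤ Λ := by
  obtain ⟨E, hE⟩ : ∃ E : ℤ × ℤ → ℝ, ∀ p q, (E (p, q) : ℂ) = c2 F p q :=
    ⟨fun k => (c2 F k.1 k.2).re, fun p q => Complex.conj_eq_iff_re.1
      (by rw [← c2_neg hn, c2_conj hr, c2_neg hn])⟩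
  have e1 : ∀ p q, E (p, q) = E (q, p) := fun p q => by
    rw [← Complex.ofReal_inj, hE, hE, c2_swap hF hs]
  have e2 : ∀ S : Finset (ℤ × ℤ), ∑ k ∈ S, (k.1 : ℝ) ^ 6 * E k ^ 2 ≤ Λ ^ 2 := fun S => by
    refine le_trans (le_of_eq (Finset.sum_congr rfl fun k _ => ?_)) (bessel2 hF hB S)
    rw [← hE, Complex.norm_real, Real.norm_eq_abs, sq_abs]
  have e3 := summable_of_six e1 e2
  have e4 : ∀ p y, HasSum (fun q => (E (p, q) : ℂ) * fourier q y) (c1 F p y) := fun p y => by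
    have h1 : Summable (fourierCoeff (⟨c1 F p, cont_c1 hF p⟩ : C(TT, ℂ))) :=
      (Complex.summable_ofReal.2 (e3.prod_factor p)).congr fun q => hE p q
    simp only [hE]
    exact has_pointwise_sum_fourier_series_of_summable h1 y
  have e5 : ∀ x y : TT, Summable fun k : ℤ × ℤ => (E k : ℂ) * (fourier k.1 x * fourier k.2 y) :=
    fun x y => e3.norm.of_norm_bounded fun k => by
      rw [norm_mul, norm_mul, norm_four, norm_four, Complex.norm_real, mul_one, mul_one]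
  have e6 : ∀ x y : TT, HasSum (fun p => c1 F p y * fourier p x)
      (∑' k : ℤ × ℤ, (E k : ℂ) * (fourier k.1 x * fourier k.2 y)) := fun x y =>
    (e5 x y).hasSum.prod_fiberwise fun p => by
      simpa only [mul_assoc, mul_comm (fourier p x)] using (e4 p y).mul_right (fourier p x)
  refine ⟨E, e3, fun x y => ?_, e1, fun p q => ?_, e2, fun p => ?_⟩
  · have h1 : Summable (fourierCoeff (⟨fun x => F x y, hF.comp (Continuous.prodMk_left y)⟩ :
        C(TT, ℂ))) := by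
      have h0 := (e6 0 y).summable
      simp only [fourier_eval_zero, mul_one] at h0
      exact h0
    have h2 : HasSum (fun p => c1 F p y * fourier p x) (F x y) :=
      has_pointwise_sum_fourier_series_of_summable h1 x
    rw [← (e6 x y).unique h2]
    exact (e5 x y).hasSum
  · rw [← Complex.ofReal_inj, hE, hE, c2_neg hn]
  · have b : ∀ y, |(p : ℝ)| ^ 3 * ‖c1 F p y‖ ≤ Λ := fun y => by
      have h1 := bessel3 (hF.comp (Continuous.prodMk_left y)) (hB y) {p}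
      rw [Finset.sum_singleton] at h1
      refine (pow_le_pow_iff_left₀ (by positivity) hΛ two_ne_zero).1 (le_trans (le_of_eq ?_) h1)
      rw [mul_pow, ← pow_mul, Even.pow_abs (show Even (3 * 2) by decide)]
      rfl
    have h1 := (e4 p 0).add (e4 p ((Real.pi : ℝ) : TT))
    have hπ : ∀ q : ℤ, fourier q ((Real.pi : ℝ) : TT) = (-1) ^ q := fun q => by
      rw [four_coe, ex, ← Complex.exp_pi_mul_I, ← Complex.exp_int_mul]
      congr 1
      push_cast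
      ring
    simp only [fourier_eval_zero, hπ] at h1
    have h2 : Function.Injective fun q : ℤ => 2 * q := mul_right_injective₀ two_ne_zero
    have h3 := (h2.hasSum_iff fun q hq => by
      have : Odd q := Int.not_even_iff_odd.1 fun ⟨r, hr⟩ => hq ⟨r, by simp only [hr, two_mul]⟩
      rw [this.neg_one_zpow]
      ring).2 h1
    have h4 := (Complex.hasSum_ofReal.2 ((e3.prod_factor p).comp_injective h2).hasSum).mul_left 2
    have h5 : 2 * ((∑' q : ℤ, E (p, 2 * q) : ℝ) : ℂ) = c1 F p 0 + c1 F p ((Real.pi : ℝ) : TT) := by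
      refine h4.unique ?_
      have h6 : ∀ q : ℤ, (-1 : ℂ) ^ (2 * q) = 1 := fun q => (even_two_mul q).neg_one_zpow
      simpa only [Function.comp_def, h6, mul_one, two_mul (E _ : ℂ)] using h3
    have h7 := (congrArg norm h5).le.trans (norm_add_le _ _)
    rw [norm_mul, Complex.norm_real, Real.norm_eq_abs, Complex.norm_ofNat] at h7
    have h8 := mul_le_mul_of_nonneg_left h7 (show 0 ≤ |(p : ℝ)| ^ 3 by positivity)
    linarith [b 0, b ((Real.pi : ℝ) : TT)]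

end two

end

end Pool.Agent.Lib.MP_cbe5a6_an.Fou
end

-- part Pool.Agent.Lib.MP_cbe5a6_an.Fou
section

/-! Third differences of the error kernel and its Fourier series. -/

set_option autoImplicit false

namespace Pool.Agent.Lib.MP_cbe5a6_an

open MeasureTheory Set Filter Topology AddCircle ComplexConjugate

namespace Fou

noncomputable section

/-- differentiable off a countable set -/
def Der (ψ ψ' : ℝ → ℝ) : Prop :=
  Continuous ψ ∧ ∃ Z : Set ℝ, Z.Countable ∧ ∀ a ∉ Z, HasDerivAt ψ (ψ' a) a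

lemma Der.dd {ψ ψ' : ℝ → ℝ} (h : Der ψ ψ') (τ : ℝ) : Der (DD τ ψ) (DD τ ψ') := by
  obtain ⟨h1, Z, h2, h3⟩ := h
  refine ⟨(h1.comp (continuous_add_const τ)).sub h1, Z ∪ (· + τ) ⁻¹' Z,
    h2.union (h2.preimage (add_left_injective τ)), fun a ha => ?_⟩
  rw [mem_union, not_or] at ha
  exact ((h3 _ ha.2).comp_add_const a τ).sub (h3 a ha.1)

lemma Der.bound {ψ ψ' : ℝ → ℝ} (h : Der ψ ψ') {Z : Set ℝ} (hZ : Z.Countable) {Λ τ : ℝ}
    (hτ : 0 < τ) (hb : ∀ a ∉ Z, |ψ' a| ≤ Λ) (a : ℝ) : |DD τ ψ a| ≤ Λ * τ := by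
  obtain ⟨h1, Z', h2, h3⟩ := h
  have h4 : ∀ᵐ x : ℝ, ‖deriv ψ x‖ ≤ Λ := by
    filter_upwards [(hZ.union h2).ae_notMem volume] with x hx
    rw [mem_union, not_or] at hx
    rw [(h3 x hx.2).deriv]
    exact hb x hx.1
  have h5 : IntervalIntegrable (deriv ψ) volume a (a + τ) :=
    (intervalIntegrable_const (c := Λ)).mono_fun' (measurable_deriv ψ).aestronglyMeasurable
      (ae_restrict_of_ae h4)
  have h6 := integral_eq_of_hasDerivAt_off_countable ψ (deriv ψ) h2 h1.continuousOn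
    (fun x hx => (h3 x hx.2).differentiableAt.hasDerivAt) h5
  have h7 := intervalIntegral.norm_integral_le_of_norm_le_const_ae (a := a) (b := a + τ)
    (f := deriv ψ) (C := Λ) (h4.mono fun x hx _ => hx)
  rwa [h6, add_sub_cancel_left, abs_of_pos hτ] at h7

/-- three derivatives off `Z`, with bounds -/
def Jet (Z : Set ℝ) (ψ : ℝ → ℝ) (b0 b1 b2 b3 : ℝ) : Prop :=
  ∃ ψ1 ψ2 ψ3 : ℝ → ℝ, Continuous ψ ∧ Continuous ψ1 ∧ Continuous ψ2 ∧ ∀ a ∉ Z,
    HasDerivAt ψ (ψ1 a) a ∧ HasDerivAt ψ1 (ψ2 a) a ∧ HasDerivAt ψ2 (ψ3 a) a ∧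
      |ψ a| ≤ b0 ∧ |ψ1 a| ≤ b1 ∧ |ψ2 a| ≤ b2 ∧ |ψ3 a| ≤ b3

variable {Z : Set ℝ} {ψ χ : ℝ → ℝ} {b0 b1 b2 b3 d0 d1 d2 d3 : ℝ}

lemma Jet.third (h : Jet Z ψ b0 b1 b2 b3) (hZ : Z.Countable) {τ : ℝ} (hτ : 0 < τ) (a : ℝ) :
    |DD τ (DD τ (DD τ ψ)) a| ≤ b3 * τ ^ 3 := by
  obtain ⟨ψ1, ψ2, ψ3, c0, c1, c2, h⟩ := h
  have e0 : Der ψ ψ1 := ⟨c0, Z, hZ, fun a ha => (h a ha).1⟩
  have e1 : Der ψ1 ψ2 := ⟨c1, Z, hZ, fun a ha => (h a ha).2.1⟩
  have e2 : Der ψ2 ψ3 := ⟨c2, Z, hZ, fun a ha => (h a ha).2.2.1⟩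
  have f2 := e2.bound hZ hτ fun a ha => (h a ha).2.2.2.2.2.2
  have f1 := (e1.dd τ).bound countable_empty hτ fun a _ => f2 a
  exact (((e0.dd τ).dd τ).bound countable_empty hτ (fun a _ => f1 a) a).trans (le_of_eq (by ring))

lemma amul {x y a b : ℝ} (h : |x| ≤ a) (h' : |y| ≤ b) : |x * y| ≤ a * b := by
  rw [abs_mul]
  exact mul_le_mul h h' (abs_nonneg _) ((abs_nonneg _).trans h)

lemma aadd {x y a b : ℝ} (h : |x| ≤ a) (h' : |y| ≤ b) : |x + y| ≤ a + b :=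
  (abs_add_le _ _).trans (add_le_add h h')

lemma Jet.sub (h : Jet Z ψ b0 b1 b2 b3) (h' : Jet Z χ d0 d1 d2 d3) :
    Jet Z (fun a => ψ a - χ a) (b0 + d0) (b1 + d1) (b2 + d2) (b3 + d3) := by
  obtain ⟨ψ1, ψ2, ψ3, c0, c1, c2, h⟩ := h
  obtain ⟨χ1, χ2, χ3, c0', c1', c2', h'⟩ := h'
  refine ⟨fun a => ψ1 a - χ1 a, fun a => ψ2 a - χ2 a, fun a => ψ3 a - χ3 a, c0.sub c0',
    c1.sub c1', c2.sub c2', fun a ha => ?_⟩
  obtain ⟨p0, p1, p2, q0, q1, q2, q3⟩ := h a ha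
  obtain ⟨r0, r1, r2, s0, s1, s2, s3⟩ := h' a ha
  exact ⟨p0.sub r0, p1.sub r1, p2.sub r2, (abs_sub _ _).trans (add_le_add q0 s0),
    (abs_sub _ _).trans (add_le_add q1 s1), (abs_sub _ _).trans (add_le_add q2 s2),
    (abs_sub _ _).trans (add_le_add q3 s3)⟩

lemma Jet.mul (h : Jet Z ψ b0 b1 b2 b3) (h' : Jet Z χ d0 d1 d2 d3) :
    Jet Z (fun a => ψ a * χ a) (b0 * d0) (b1 * d0 + b0 * d1)
      (b2 * d0 + b1 * d1 + (b1 * d1 + b0 * d2))
      (b3 * d0 + b2 * d1 + (b2 * d1 + b1 * d2) + (b2 * d1 + b1 * d2 + (b1 * d2 + b0 * d3))) := by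
  obtain ⟨ψ1, ψ2, ψ3, c0, c1, c2, h⟩ := h
  obtain ⟨χ1, χ2, χ3, c0', c1', c2', h'⟩ := h'
  refine ⟨fun a => ψ1 a * χ a + ψ a * χ1 a,
    fun a => ψ2 a * χ a + ψ1 a * χ1 a + (ψ1 a * χ1 a + ψ a * χ2 a),
    fun a => ψ3 a * χ a + ψ2 a * χ1 a + (ψ2 a * χ1 a + ψ1 a * χ2 a) +
      (ψ2 a * χ1 a + ψ1 a * χ2 a + (ψ1 a * χ2 a + ψ a * χ3 a)), by fun_prop, by fun_prop,
    by fun_prop, fun a ha => ?_⟩
  obtain ⟨p0, p1, p2, q0, q1, q2, q3⟩ := h a ha
  obtain ⟨r0, r1, r2, s0, s1, s2, s3⟩ := h' a ha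
  exact ⟨p0.mul r0, (p1.mul r0).add (p0.mul r1),
    ((p2.mul r0).add (p1.mul r1)).add ((p1.mul r1).add (p0.mul r2)), amul q0 s0,
    aadd (amul q1 s0) (amul q0 s1),
    aadd (aadd (amul q2 s0) (amul q1 s1)) (aadd (amul q1 s1) (amul q0 s2)),
    aadd (aadd (aadd (amul q3 s0) (amul q2 s1)) (aadd (amul q2 s1) (amul q1 s2)))
      (aadd (aadd (amul q2 s1) (amul q1 s2)) (aadd (amul q1 s2) (amul q0 s3)))⟩

lemma Jet.comp {g g1 g2 g3 : ℝ → ℝ} (hg : Reg g g1 g2 g3 d0 d1 d2 d3) (h : Jet Z ψ b0 b1 b2 b3)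
    (hI : ∀ a, ψ a ∈ Icc (-1 : ℝ) 8) (hZ : ∀ a ∉ Z, ψ a ≠ -1 ∧ ψ a ≠ 0 ∧ ψ a ≠ 8) :
    Jet Z (fun a => g (ψ a)) d0 (d1 * b1) (d2 * b1 * b1 + d1 * b2)
      ((d3 * b1 * b1 + d2 * b2) * b1 + d2 * b1 * b2 + (d2 * b1 * b2 + d1 * b3)) := by
  obtain ⟨ψ1, ψ2, ψ3, c0, c1, c2, h⟩ := h
  have k0 : Continuous fun a => g (ψ a) := hg.c0.comp_continuous c0 hI
  have k1 : Continuous fun a => g1 (ψ a) := hg.c1.comp_continuous c0 hI
  have k2 : Continuous fun a => g2 (ψ a) := hg.c2.comp_continuous c0 hI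
  refine ⟨fun a => g1 (ψ a) * ψ1 a, fun a => g2 (ψ a) * ψ1 a * ψ1 a + g1 (ψ a) * ψ2 a,
    fun a => (g3 (ψ a) * ψ1 a * ψ1 a + g2 (ψ a) * ψ2 a) * ψ1 a + g2 (ψ a) * ψ1 a * ψ2 a +
      (g2 (ψ a) * ψ1 a * ψ2 a + g1 (ψ a) * ψ3 a), k0, k1.mul c1,
    ((k2.mul c1).mul c1).add (k1.mul c2), fun a ha => ?_⟩
  obtain ⟨p0, p1, p2, q0, q1, q2, q3⟩ := h a ha
  obtain ⟨z1, z2, z3⟩ := hZ a ha
  have hm : ψ a ∈ Ioo (-1 : ℝ) 8 := ⟨lt_of_le_of_ne (hI a).1 z1.symm, lt_of_le_of_ne (hI a).2 z3⟩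
  have r0 : HasDerivAt (fun a => g (ψ a)) _ a := (hg.d0 _ hm z2).comp a p0
  have r1 : HasDerivAt (fun a => g1 (ψ a)) _ a := (hg.d1 _ hm z2).comp a p0
  have r2 : HasDerivAt (fun a => g2 (ψ a)) _ a := (hg.d2 _ hm z2).comp a p0
  have s1 := hg.b1 _ hm z2
  have s2 := hg.b2 _ hm z2
  have s3 := hg.b3 _ hm z2
  exact ⟨r0, r1.mul p1, ((r2.mul p1).mul p1).add (r1.mul p2), hg.b0 _ hm z2, amul s1 q1,
    aadd (amul (amul s2 q1) q1) (amul s1 q2),
    aadd (aadd (amul (aadd (amul (amul s3 q1) q1) (amul s2 q2)) q1) (amul (amul s2 q1) q2))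
      (aadd (amul (amul s2 q1) q2) (amul s1 q3))⟩

lemma norm_ex (a : ℝ) : ‖ex a‖ = 1 := Complex.norm_exp_ofReal_mul_I a

lemma conj_ex (a : ℝ) : conj (ex a) = ex (-a) := by
  rw [ex, ex, ← Complex.exp_conj]
  simp

lemma ex_add (a b : ℝ) : ex (a + b) = ex a * ex b := by
  rw [ex, ex, ex, ← Complex.exp_add]
  push_cast
  ring_nf

lemma ex_zero : ex 0 = 1 := by simp [ex]

lemma ex_mul_conj (a : ℝ) : ex a * conj (ex a) = 1 := by
  rw [conj_ex, ← ex_add, add_neg_cancel, ex_zero]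

lemma cont_ex : Continuous ex := by
  unfold ex
  fun_prop

lemma der_ex (n a : ℝ) : HasDerivAt (fun a => ex (n * a)) (n * Complex.I * ex (n * a)) a := by
  have h : HasDerivAt (fun z : ℂ => Complex.exp (n * z * Complex.I))
      (Complex.exp (n * a * Complex.I) * (n * 1 * Complex.I)) (a : ℂ) :=
    (((hasDerivAt_id (a : ℂ)).const_mul (n : ℂ)).mul_const Complex.I).cexp
  have h2 := h.comp_ofReal
  simp only [ex, Complex.ofReal_mul]
  rwa [mul_one, mul_comm] at h2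

/-- a real trigonometric monomial -/
def tr (c : ℂ) (n a : ℝ) : ℝ := (c * ex (n * a)).re

lemma cont_tr (c : ℂ) (n : ℝ) : Continuous (tr c n) :=
  Complex.continuous_re.comp (continuous_const.mul (cont_ex.comp (continuous_const_mul n)))

lemma der_tr (c : ℂ) (n a : ℝ) : HasDerivAt (tr c n) (tr (c * (n * Complex.I)) n a) a := by
  have h := Complex.reCLM.hasFDerivAt.comp_hasDerivAt a ((der_ex n a).const_mul c)
  rw [tr, mul_assoc c]
  exact h

lemma abs_tr {c : ℂ} {B : ℝ} (h : ‖c‖ ≤ B) (n a : ℝ) : |tr c n a| ≤ B :=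
  (Complex.abs_re_le_norm _).trans (by rwa [norm_mul, norm_ex, mul_one])

lemma jet_tr (Z : Set ℝ) {c : ℂ} {B : ℝ} (h : ‖c‖ ≤ B) (n : ℝ) :
    Jet Z (tr c n) B (B * |n|) (B * |n| * |n|) (B * |n| * |n| * |n|) := by
  have k : ∀ {c : ℂ} {B : ℝ}, ‖c‖ ≤ B → ‖c * (n * Complex.I)‖ ≤ B * |n| := fun h => by
    rw [norm_mul, norm_mul, Complex.norm_I, mul_one, Complex.norm_real, Real.norm_eq_abs]
    exact mul_le_mul_of_nonneg_right h (abs_nonneg n)
  exact ⟨_, _, _, cont_tr _ _, cont_tr _ _, cont_tr _ _, fun a _ => ⟨der_tr _ _ _, der_tr _ _ _,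
    der_tr _ _ _, abs_tr h _ _, abs_tr (k h) _ _, abs_tr (k (k h)) _ _, abs_tr (k (k (k h))) _ _⟩⟩

lemma Jet.mono (h : Jet Z ψ b0 b1 b2 b3) (he : ∀ a, χ a = ψ a) (h0 : b0 ≤ d0) (h1 : b1 ≤ d1)
    (h2 : b2 ≤ d2) (h3 : b3 ≤ d3) : Jet Z χ d0 d1 d2 d3 := by
  obtain rfl : χ = ψ := funext he
  obtain ⟨ψ1, ψ2, ψ3, c0, c1, c2, h⟩ := h
  refine ⟨ψ1, ψ2, ψ3, c0, c1, c2, fun a ha => ?_⟩
  obtain ⟨p0, p1, p2, q0, q1, q2, q3⟩ := h a ha
  exact ⟨p0, p1, p2, q0.trans h0, q1.trans h1, q2.trans h2, q3.trans h3⟩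

lemma norm_r (b : ℝ) : ‖ex b + 1‖ ≤ 2 :=
  (norm_add_le _ _).trans (by rw [norm_ex, norm_one]; norm_num)

lemma ss_eq (a b : ℝ) : ss a b 0 = Complex.normSq (ex b + 1) + 2 * (ex a * conj (ex b + 1)).re := by
  rw [ss, yy, ex_zero, add_assoc, Complex.normSq_add, Complex.normSq_eq_norm_sq (ex a), norm_ex]
  ring

lemma jet_ss (Z : Set ℝ) (b : ℝ) : Jet Z (fun a => ss a b 0) 8 4 4 4 := by
  have h := norm_r b
  have h1 : ‖((Complex.normSq (ex b + 1) : ℝ) : ℂ)‖ ≤ 4 := by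
    rw [Complex.norm_real, Complex.normSq_eq_norm_sq, norm_pow, norm_norm]
    nlinarith [norm_nonneg (ex b + 1)]
  have h2 : ‖-(2 * conj (ex b + 1))‖ ≤ 4 := by
    rw [norm_neg, norm_mul, Complex.norm_conj, Complex.norm_ofNat]
    linarith
  refine ((jet_tr Z h1 0).sub (jet_tr Z h2 1)).mono (fun a => ?_) (by norm_num) (by norm_num)
    (by norm_num) (by norm_num)
  rw [ss_eq]
  simp only [tr, zero_mul, one_mul, ex_zero, mul_one, Complex.ofReal_re, neg_mul, Complex.neg_re,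
    mul_assoc, Complex.mul_re (2 : ℂ), Complex.re_ofNat, Complex.im_ofNat, mul_comm (ex a)]
  ring

lemma jet_XX (Z : Set ℝ) (b : ℝ) : Jet Z (fun a => XX a b 0) 27 16 18 22 := by
  have h := norm_r b
  have h0 := norm_nonneg (ex b + 1)
  have h1 : ‖ex b‖ ≤ 1 := (norm_ex b).le
  have h2 : ‖-(3 * ex b * conj (ex b + 1))‖ ≤ 6 := by
    rw [norm_neg, norm_mul, norm_mul, Complex.norm_conj, Complex.norm_ofNat, norm_ex]
    linarith
  have h3 : ‖-(3 * ex b * conj (ex b + 1) ^ 2)‖ ≤ 12 := by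
    rw [norm_neg, norm_mul, norm_mul, norm_pow, Complex.norm_conj, Complex.norm_ofNat, norm_ex]
    nlinarith
  have h4 : ‖-(ex b * conj (ex b + 1) ^ 3)‖ ≤ 8 := by
    rw [norm_neg, norm_mul, norm_pow, Complex.norm_conj, norm_ex, one_mul]
    exact (pow_le_pow_left₀ h0 h 3).trans (by norm_num)
  refine ((((jet_tr Z h1 (-2)).sub (jet_tr Z h2 (-1))).sub (jet_tr Z h3 0)).sub
    (jet_tr Z h4 1)).mono (fun a => ?_) (by norm_num) (by norm_num) (by norm_num) (by norm_num)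
  simp only [tr, ← Complex.sub_re, XX, pr, yy]
  congr 1
  have e1 : ex (-1 * a) = conj (ex a) := by rw [conj_ex, neg_one_mul]
  have e2 : ex (-2 * a) = conj (ex a) ^ 2 := by
    rw [conj_ex, sq, ← ex_add]
    congr 1
    ring
  rw [e1, e2, zero_mul, one_mul, ex_zero, add_assoc, map_add _ (ex a)]
  generalize conj (ex b + 1) = r
  linear_combination (ex b * (conj (ex a) ^ 2 + 3 * conj (ex a) * r + 3 * r ^ 2)) * ex_mul_conj a

lemma ss_mem (a b d : ℝ) : ss a b d ∈ Icc (-1 : ℝ) 8 := by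
  have h : ‖yy a b d‖ ≤ 3 :=
    norm_add₃_le.trans (by rw [norm_ex, norm_ex, norm_ex]; norm_num)
  have h0 := norm_nonneg (yy a b d)
  rw [ss, Complex.normSq_eq_norm_sq]
  constructor <;> nlinarith

lemma countable_cos (θ c : ℝ) : {a : ℝ | Real.cos (a + θ) = c}.Countable := by
  rcases eq_empty_or_nonempty {a : ℝ | Real.cos (a + θ) = c} with h | ⟨a0, h⟩
  · rw [h]
    exact countable_empty
  refine ((countable_range fun k : ℤ => 2 * k * Real.pi + (a0 + θ) - θ).union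
    (countable_range fun k : ℤ => 2 * k * Real.pi - (a0 + θ) - θ)).mono fun a ha => ?_
  obtain ⟨k, hk | hk⟩ := Real.cos_eq_cos_iff.1 (h.trans ha.symm)
  · exact Or.inl ⟨k, by simp only [← hk, add_sub_cancel_right]⟩
  · exact Or.inr ⟨k, by simp only [← hk, add_sub_cancel_right]⟩

lemma countable_ss {b : ℝ} (hb : ex b + 1 ≠ 0) (c : ℝ) : {a : ℝ | ss a b 0 = c}.Countable := by
  have h0 : ‖conj (ex b + 1)‖ ≠ 0 := by rwa [Complex.norm_conj, norm_ne_zero_iff]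
  refine (countable_cos (Complex.arg (conj (ex b + 1)))
    ((c - Complex.normSq (ex b + 1)) / (2 * ‖conj (ex b + 1)‖))).mono fun a ha => ?_
  rw [mem_ofPred_eq, ss_eq] at ha
  rw [mem_ofPred_eq, eq_div_iff (mul_ne_zero two_ne_zero h0), ← ha]
  generalize conj (ex b + 1) = r
  have h1 : ex a * r = ‖r‖ * ex (a + r.arg) := by
    rw [ex_add, mul_left_comm]
    congr 1
    exact (Complex.norm_mul_exp_arg_mul_I r).symm
  rw [h1, Complex.re_ofReal_mul, show (ex (a + r.arg)).re = _ from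
    Complex.exp_ofReal_mul_I_re _]
  ring

lemma reg_poly {p q r γ0 γ1 γ2 γ3 : ℝ}
    (h0 : ∀ s ∈ Ioo (-1 : ℝ) 8, |p * s ^ 3 - q * s ^ 2 + r * s| ≤ γ0)
    (h1 : ∀ s ∈ Ioo (-1 : ℝ) 8, |3 * p * s ^ 2 - 2 * q * s + r| ≤ γ1)
    (h2 : ∀ s ∈ Ioo (-1 : ℝ) 8, |6 * p * s - 2 * q| ≤ γ2) (h3 : |6 * p| ≤ γ3) :
    Reg (fun s => p * s ^ 3 - q * s ^ 2 + r * s) (fun s => 3 * p * s ^ 2 - 2 * q * s + r)
      (fun s => 6 * p * s - 2 * q) (fun _ => 6 * p) γ0 γ1 γ2 γ3 where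
  c0 := by fun_prop
  c1 := by fun_prop
  c2 := by fun_prop
  d0 s _ _ := (((((hasDerivAt_pow 3 s).const_mul p).sub ((hasDerivAt_pow 2 s).const_mul q))).add
    ((hasDerivAt_id s).const_mul r)).congr_deriv (by norm_num; ring)
  d1 s _ _ := ((((hasDerivAt_pow 2 s).const_mul (3 * p)).sub
    ((hasDerivAt_id s).const_mul (2 * q))).add_const r).congr_deriv (by norm_num; ring)
  d2 s _ _ := (((hasDerivAt_id s).const_mul (6 * p)).sub_const (2 * q)).congr_deriv (by ring)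
  b0 s hs _ := h0 s hs
  b1 s hs _ := h1 s hs
  b2 s hs _ := h2 s hs
  b3 _ _ _ := h3

lemma cubic_aux {s : ℝ} (hs : s ∈ Ioo (-1 : ℝ) 8) :
    0 ≤ s ^ 2 * (s + 1) ∧ 0 ≤ s ^ 2 * (8 - s) ∧ s ^ 2 ≤ 64 ∧ 0 ≤ s ^ 2 :=
  ⟨mul_nonneg (sq_nonneg s) (by linarith [hs.1]), mul_nonneg (sq_nonneg s) (by linarith [hs.2]),
    by nlinarith [hs.1, hs.2], sq_nonneg s⟩

lemma reg_al : ∃ g1 g2 g3, Reg al g1 g2 g3 20000 7000 1500 200 := by
  refine ⟨_, _, _, reg_poly (p := 29) (q := 42) (r := 64) (fun s hs => ?_) (fun s hs => ?_)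
    (fun s hs => abs_le.2 ⟨by linarith [hs.1], by linarith [hs.2]⟩) (by norm_num)⟩
  all_goals
    obtain ⟨h1, h2, h3, h4⟩ := cubic_aux hs
    exact abs_le.2 ⟨by linarith [hs.1, hs.2], by linarith [hs.1, hs.2]⟩

lemma reg_be : ∃ g1 g2 g3, Reg be g1 g2 g3 12672 6000 1400 200 := by
  have h := reg_poly (p := 27) (q := 18) (r := 0) (γ0 := 12672) (γ1 := 6000) (γ2 := 1400)
    (γ3 := 200) (fun s hs => ?_) (fun s hs => ?_)
    (fun s hs => abs_le.2 ⟨by linarith [hs.1], by linarith [hs.2]⟩) (by norm_num)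
  · simp only [zero_mul, add_zero] at h
    exact ⟨_, _, _, h⟩
  all_goals
    obtain ⟨h1, h2, h3, h4⟩ := cubic_aux hs
    exact abs_le.2 ⟨by linarith [hs.1, hs.2], by linarith [hs.1, hs.2]⟩

variable {e e1 e2 e3 f f1 f2 f3 : ℝ → ℝ}

lemma third_KK (he : Reg e e1 e2 e3 (4 / 10 ^ 15) (16 / 10 ^ 15) (5 / 10 ^ 13) (4 / 10 ^ 11))
    (hf : Reg f f1 f2 f3 (2 / 10 ^ 13) (7 / 10 ^ 12) (5 / 10 ^ 10) (6 / 10 ^ 8)) (b : ℝ) {τ : ℝ}
    (hτ : 0 < τ) (a : ℝ) : |DD τ (DD τ (DD τ fun a => KK e f a b 0)) a| ≤ 3 / 2 * τ ^ 3 := by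
  by_cases hb : ex b + 1 = 0
  · have h : ∀ a, KK e f a b 0 = 0 := fun a => by
      have : ss a b 0 = 0 := by simp [ss_eq, hb]
      simp [KK, this, al, be]
    simp only [DD, h, sub_zero, abs_zero]
    positivity
  have hZ := ((countable_ss hb (-1)).union (countable_ss hb 0)).union (countable_ss hb 8)
  set Z := {a : ℝ | ss a b 0 = -1} ∪ {a : ℝ | ss a b 0 = 0} ∪ {a : ℝ | ss a b 0 = 8}
  have hZ' : ∀ a ∉ Z, ss a b 0 ≠ -1 ∧ ss a b 0 ≠ 0 ∧ ss a b 0 ≠ 8 := fun a ha =>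
    ⟨fun h => ha (Or.inl (Or.inl h)), fun h => ha (Or.inl (Or.inr h)), fun h => ha (Or.inr h)⟩
  obtain ⟨_, _, _, ha⟩ := reg_al
  obtain ⟨_, _, _, hb⟩ := reg_be
  have j := jet_ss Z b
  have hI := fun a => ss_mem a b 0
  refine (((((j.comp ha hI hZ').mul (j.comp he hI hZ')).sub (((j.comp hb hI hZ').mul
    (jet_XX Z b)).mul (j.comp hf hI hZ'))).third hZ hτ a).trans
      (mul_le_mul_of_nonneg_right ?_ (by positivity)))
  norm_num

/-- the kernel as a function of two complex numbers -/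
def kc (e f : ℝ → ℝ) (u v : ℂ) : ℝ :=
  al (Complex.normSq (u + v + 1) - 1) * e (Complex.normSq (u + v + 1) - 1) -
    be (Complex.normSq (u + v + 1) - 1) * (u * v * conj (u + v + 1) ^ 3).re *
      f (Complex.normSq (u + v + 1) - 1)

lemma kc_ex (e f : ℝ → ℝ) (a b : ℝ) : kc e f (ex a) (ex b) = KK e f a b 0 := by
  simp only [kc, KK, ss, XX, pr, yy, ex_zero, mul_one]

lemma kc_conj (e f : ℝ → ℝ) (u v : ℂ) : kc e f (conj u) (conj v) = kc e f u v := by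
  have h : conj u + conj v + 1 = conj (u + v + 1) := by simp
  rw [kc, kc, h, Complex.normSq_conj, ← map_mul, ← map_pow, ← map_pow, ← map_mul,
    Complex.conj_re, map_pow]

lemma four_one (a : ℝ) : fourier 1 (a : TT) = ex a := by
  rw [four_coe, Int.cast_one, one_mul]

end

end Fou

open Fou in
theorem stmtFou : StmtFou := by
  intro e e1 e2 e3 f f1 f2 f3 he hf
  have hI : ∀ z : TT × TT, Complex.normSq (fourier 1 z.1 + fourier 1 z.2 + 1) - 1 ∈
      Icc (-1 : ℝ) 8 := by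
    rintro ⟨x, y⟩
    induction x using QuotientAddGroup.induction_on with | H a => ?_
    induction y using QuotientAddGroup.induction_on with | H b => ?_
    have := ss_mem a b 0
    rwa [ss, yy, ex_zero, ← four_one, ← four_one] at this
  have c0 : Continuous fun z : TT × TT => Complex.normSq (fourier 1 z.1 + fourier 1 z.2 + 1) - 1 := by
    fun_prop
  have c1 := he.c0.comp_continuous c0 hI
  have c2 := hf.c0.comp_continuous c0 hI
  obtain ⟨E, h1, h2, h3, h4, h5, h6⟩ := main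
    (F := fun x y => (kc e f (fourier 1 x) (fourier 1 y) : ℝ)) (Λ := 3 / 2)
    (Complex.continuous_ofReal.comp (((by unfold al; fun_prop : Continuous fun z : TT × TT =>
      al (Complex.normSq (fourier 1 z.1 + fourier 1 z.2 + 1) - 1)).mul c1).sub
      ((by unfold be; fun_prop : Continuous fun z : TT × TT =>
        be (Complex.normSq (fourier 1 z.1 + fourier 1 z.2 + 1) - 1) * (fourier 1 z.1 *
          fourier 1 z.2 * conj (fourier 1 z.1 + fourier 1 z.2 + 1) ^ 3).re).mul c2)))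
    (fun x y => by simp only [kc, add_comm (fourier 1 x), mul_comm (fourier 1 x)])
    (fun x y => by simp only [four_neg, fourier_neg, kc_conj]) (fun x y => Complex.conj_ofReal _)
    (by norm_num) fun y τ hτ x => by
      induction x using QuotientAddGroup.induction_on with | H a => ?_
      induction y using QuotientAddGroup.induction_on with | H b => ?_
      have := third_KK he hf b hτ a
      simp only [DD, ← coe_add, four_one, kc_ex, ← Complex.ofReal_sub, Complex.norm_real,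
        Real.norm_eq_abs] at this ⊢
      exact this
  refine ⟨E, ⟨h1, fun a b => ?_, h3, h4⟩, h5, h6⟩
  simpa only [Int.cast_one, one_mul, kc_ex, four_coe, ← ex_add] using h2 a b

end Pool.Agent.Lib.MP_cbe5a6_an
end
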