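import Pool.Agent.Lib.MP_cbe5a6_an.Law2

/-! The law of the three-step walk: moments agree, then Stone-Weierstrass. -/

set_option autoImplicit false

namespace Pool.Agent.Lib.MP_cbe5a6_an

open MeasureTheory Set Filter Topology

noncomputable section

namespace Law

/-- evaluation of a polynomial in `w` and `conj w` -/
def ev (p : MvPolynomial (Fin 2) ℂ) (w : ℂ) : ℂ := MvPolynomial.eval ![w, starRingEnd ℂ w] p

lemma ev_add (p q : MvPolynomial (Fin 2) ℂ) (w : ℂ) : ev (p + q) w = ev p w + ev q w := map_add _ _ _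

lemma ev_mul (p q : MvPolynomial (Fin 2) ℂ) (w : ℂ) : ev (p * q) w = ev p w * ev q w := map_mul _ _ _

lemma ev_mono (u : Fin 2 →₀ ℕ) (a w : ℂ) :
    ev (MvPolynomial.monomial u a) w = a * (w ^ u 0 * (starRingEnd ℂ w) ^ u 1) := by
  unfold ev
  rw [MvPolynomial.eval_monomial, Finsupp.prod_fintype _ _ (by simp), Fin.prod_univ_two]
  rfl

lemma ev_cont (p : MvPolynomial (Fin 2) ℂ) : Continuous (ev p) := by
  induction p using MvPolynomial.induction_on' with
  | monomial u a =>
    have : ev (MvPolynomial.monomial u a) = fun w => a * (w ^ u 0 * (starRingEnd ℂ w) ^ u 1) :=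
      funext (ev_mono u a)
    rw [this]
    have := Complex.continuous_conj
    fun_prop
  | add p q hp hq =>
    have : ev (p + q) = fun w => ev p w + ev q w := funext (ev_add p q)
    rw [this]
    exact hp.add hq

lemma ev_star (p : MvPolynomial (Fin 2) ℂ) : ∃ q, ∀ w, ev q w = starRingEnd ℂ (ev p w) := by
  induction p using MvPolynomial.induction_on' with
  | monomial u a =>
    refine ⟨MvPolynomial.monomial (Finsupp.single 0 (u 1) + Finsupp.single 1 (u 0))
      (starRingEnd ℂ a), fun w => ?_⟩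
    rw [ev_mono, ev_mono]
    simp
    ring_nf
    simp
  | add p q hp hq =>
    obtain ⟨p', hp⟩ := hp
    obtain ⟨q', hq⟩ := hq
    exact ⟨p' + q', fun w => by rw [ev_add, ev_add, hp, hq, map_add]⟩

lemma approx (F : ℂ → ℂ) (hF : Continuous F) (ε : ℝ) (hε : 0 < ε) :
    ∃ p, ∀ w ∈ Metric.closedBall (0 : ℂ) 3, ‖F w - ev p w‖ ≤ ε := by
  set K := Metric.closedBall (0 : ℂ) 3
  have : CompactSpace K := isCompact_iff_compactSpace.1 (isCompact_closedBall _ _)
  have hrep : ∀ g ∈ (polynomialFunctions K).starClosure, ∃ p, ∀ w : K, g w = ev p w := by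
    intro g hg
    rw [polynomialFunctions.starClosure_eq_adjoin_X] at hg
    induction hg using StarAlgebra.adjoin_induction with
    | mem x hx =>
      rw [mem_singleton_iff.1 hx]
      exact ⟨MvPolynomial.X 0, fun w => by simp [ev]⟩
    | algebraMap r => exact ⟨MvPolynomial.C r, fun w => by simp [ev]⟩
    | add x y _ _ hx hy =>
      obtain ⟨p, hp⟩ := hx
      obtain ⟨q, hq⟩ := hy
      exact ⟨p + q, fun w => by rw [ev_add, ← hp, ← hq]; rfl⟩
    | mul x y _ _ hx hy =>
      obtain ⟨p, hp⟩ := hx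
      obtain ⟨q, hq⟩ := hy
      exact ⟨p * q, fun w => by rw [ev_mul, ← hp, ← hq]; rfl⟩
    | star x _ hx =>
      obtain ⟨p, hp⟩ := hx
      obtain ⟨q, hq⟩ := ev_star p
      exact ⟨q, fun w => by rw [hq, ← hp]; rfl⟩
  let f : C(K, ℂ) := ⟨fun w => F w, hF.comp continuous_subtype_val⟩
  have hf : f ∈ (polynomialFunctions K).starClosure.topologicalClosure := by
    rw [polynomialFunctions.starClosure_topologicalClosure]
    exact StarSubalgebra.mem_top
  have hf' : f ∈ closure ((polynomialFunctions K).starClosure : Set C(K, ℂ)) := hf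
  obtain ⟨g, hg, hd⟩ := Metric.mem_closure_iff.1 hf' ε hε
  obtain ⟨p, hp⟩ := hrep g hg
  refine ⟨p, fun w hw => ?_⟩
  have := (ContinuousMap.dist_apply_le_dist (f := f) (g := g) ⟨w, hw⟩).trans hd.le
  rw [dist_eq_norm, hp] at this
  exact this

lemma norm_y3 (x : Fin 3 → ℝ) : y3 x ∈ Metric.closedBall (0 : ℂ) 3 := by
  rw [mem_closedBall_zero_iff]
  unfold y3
  have := norm_add₃_le (a := ex (x 0)) (b := ex (x 1)) (c := ex (x 2))
  rw [norm_ex, norm_ex, norm_ex] at this
  linarith

lemma yb_eq (x : Fin 3 → ℝ) : yb x = starRingEnd ℂ (y3 x) := by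
  unfold yb y3 eb
  rw [map_add, map_add]

lemma imul {F H : ℂ → ℂ} (hF : Continuous F) (hH : IntegrableOn H (Metric.closedBall (0 : ℂ) 3)) :
    IntegrableOn (fun w => F w * H w) (Metric.closedBall (0 : ℂ) 3) :=
  hH.continuousOn_mul hF.continuousOn (isCompact_closedBall _ _)

lemma extend (q : (Fin 3 → ℝ) → ℂ) (hq : Continuous q) (H : ℂ → ℂ)
    (hH : IntegrableOn H (Metric.closedBall (0 : ℂ) 3)) (c : ℂ)
    (hm : ∀ a b : ℕ, ∫ x, y3 x ^ a * yb x ^ b * q x ∂nu3
      = c * ∫ w in Metric.closedBall (0 : ℂ) 3, w ^ a * (starRingEnd ℂ w) ^ b * H w)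
    (F : ℂ → ℂ) (hF : Continuous F) :
    ∫ x, F (y3 x) * q x ∂nu3 = c * ∫ w in Metric.closedBall (0 : ℂ) 3, F w * H w := by
  have iq : ∀ G : ℂ → ℂ, Continuous G → Integrable (fun x => G (y3 x) * q x) nu3 :=
    fun G hG => integrable_nu3 ((hG.comp cont_y3).mul hq)
  have hp : ∀ p, ∫ x, ev p (y3 x) * q x ∂nu3
      = c * ∫ w in Metric.closedBall (0 : ℂ) 3, ev p w * H w := by
    intro p
    induction p using MvPolynomial.induction_on' with
    | monomial u a =>
      simp only [ev_mono, ← yb_eq, mul_assoc a, integral_const_mul]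
      rw [hm]
      ring
    | add p p' h1 h2 =>
      simp only [ev_add, add_mul]
      rw [integral_add (iq _ (ev_cont p)) (iq _ (ev_cont p')),
        integral_add (imul (ev_cont p) hH) (imul (ev_cont p') hH), h1, h2]
      ring
  set C : ℝ := ∫ x, ‖q x‖ ∂nu3 + ‖c‖ * ∫ w in Metric.closedBall (0 : ℂ) 3, ‖H w‖ with hC
  have hC0 : 0 ≤ C := add_nonneg (integral_nonneg fun _ => norm_nonneg _)
    (mul_nonneg (norm_nonneg _) (integral_nonneg fun _ => norm_nonneg _))
  have key : ∀ ε : ℝ, 0 < ε → ‖∫ x, F (y3 x) * q x ∂nu3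
      - c * ∫ w in Metric.closedBall (0 : ℂ) 3, F w * H w‖ ≤ C * ε := by
    intro ε hε
    obtain ⟨p, hp'⟩ := approx F hF ε hε
    have e1 : ∫ x, F (y3 x) * q x ∂nu3 - ∫ x, ev p (y3 x) * q x ∂nu3
        = ∫ x, (F (y3 x) - ev p (y3 x)) * q x ∂nu3 := by
      rw [← integral_sub (iq _ hF) (iq _ (ev_cont p))]
      simp only [sub_mul]
    have e2 : (∫ w in Metric.closedBall (0 : ℂ) 3, F w * H w)
        - ∫ w in Metric.closedBall (0 : ℂ) 3, ev p w * H w
        = ∫ w in Metric.closedBall (0 : ℂ) 3, (F w - ev p w) * H w := by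
      rw [← integral_sub (imul hF hH) (imul (ev_cont p) hH)]
      simp only [sub_mul]
    have b1 : ‖∫ x, (F (y3 x) - ev p (y3 x)) * q x ∂nu3‖ ≤ ∫ x, ε * ‖q x‖ ∂nu3 := by
      refine norm_integral_le_of_norm_le ((integrable_nu3 hq).norm.const_mul ε)
        (Eventually.of_forall fun x => ?_)
      rw [norm_mul]
      exact mul_le_mul_of_nonneg_right (hp' _ (norm_y3 x)) (norm_nonneg _)
    have b2 : ‖∫ w in Metric.closedBall (0 : ℂ) 3, (F w - ev p w) * H w‖
        ≤ ∫ w in Metric.closedBall (0 : ℂ) 3, ε * ‖H w‖ := by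
      refine norm_integral_le_of_norm_le (hH.norm.const_mul ε) ?_
      refine (ae_restrict_iff' measurableSet_closedBall).2 (Eventually.of_forall fun w hw => ?_)
      rw [norm_mul]
      exact mul_le_mul_of_nonneg_right (hp' _ hw) (norm_nonneg _)
    rw [integral_const_mul] at b1 b2
    have e3 : ∫ x, F (y3 x) * q x ∂nu3 - c * ∫ w in Metric.closedBall (0 : ℂ) 3, F w * H w
        = (∫ x, (F (y3 x) - ev p (y3 x)) * q x ∂nu3)
          - c * ∫ w in Metric.closedBall (0 : ℂ) 3, (F w - ev p w) * H w := by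
      rw [← e1, ← e2, hp p]
      ring
    rw [e3]
    refine (norm_sub_le _ _).trans ?_
    rw [norm_mul, hC]
    have := mul_le_mul_of_nonneg_left b2 (norm_nonneg c)
    linarith
  have hz : ‖∫ x, F (y3 x) * q x ∂nu3
      - c * ∫ w in Metric.closedBall (0 : ℂ) 3, F w * H w‖ ≤ 0 := by
    refine le_of_forall_pos_le_add fun ε hε => ?_
    have := key (ε / (C + 1)) (by positivity)
    have h2 : C * (ε / (C + 1)) ≤ ε := by
      rw [← mul_div_assoc, div_le_iff₀ (by positivity)]
      nlinarith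
    linarith
  exact sub_eq_zero.1 (norm_le_zero_iff.1 hz)

lemma moments {σ J m : ℝ → ℝ} (h : Sol σ J m) {c : ℝ} (hc : c * (Real.pi * mo σ 0) = nu3.real univ)
    (k : ℕ) : MW k k = c * (Real.pi * mo σ k : ℝ) ∧ MU (k + 3) k = c * (Real.pi * mo m (k + 3) : ℝ) := by
  have := uniq (fun k => MW k k - c * (Real.pi * mo σ k : ℝ))
    (fun k => MU (k + 3) k - c * (Real.pi * mo m (k + 3) : ℝ))
    (by
      show MW 0 0 - _ = 0
      rw [MW00, ← hc]; push_cast; ring)
    (by
      have a := R10
      have b : (mo σ 1 : ℂ) = 3 * mo σ 0 := by exact_mod_cast S10 h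
      push_cast
      linear_combination a - c * Real.pi * b)
    (fun j => by
      have a := R1 j
      have b : 2 * ((j : ℂ) + 1) * mo m (j + 3) = (j + 2) * (mo σ (j + 2) - 3 * mo σ (j + 1)) := by
        exact_mod_cast S1 h j
      push_cast
      linear_combination a - c * Real.pi * b)
    (by
      have a := R20
      have b : 2 * ((mo σ 2 : ℂ) - mo σ 1) = 4 * mo m 3 := by exact_mod_cast S20 h
      push_cast
      linear_combination a - c * Real.pi * b)
    (fun j => by
      have a := R2 j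
      have b : ((j : ℂ) + 3) * (mo σ (j + 3) - mo σ (j + 2))
          = (3 * j + 7) * mo m (j + 4) - 3 * (j + 1) * mo m (j + 3) := by
        exact_mod_cast S2 h j
      rw [show j + 1 + 3 = j + 4 from rfl]
      push_cast
      linear_combination a - c * Real.pi * b) k
  exact ⟨sub_eq_zero.1 this.1, sub_eq_zero.1 this.2⟩

end Law

open Law in
theorem stmtLaw : StmtLaw := by
  intro σ J m h
  have hp := mo_pos h
  have hpi := Real.pi_pos
  refine ⟨nu3.real univ / (Real.pi * mo σ 0), div_pos nu3_pos (by positivity), ?_⟩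
  have hmo := moments h (c := nu3.real univ / (Real.pi * mo σ 0)) (by field_simp)
  generalize nu3.real univ / (Real.pi * mo σ 0) = c at hmo
  have iH : ∀ {g : ℝ → ℝ}, IntervalIntegrable g volume (-1) 8 →
      IntegrableOn (fun w : ℂ => ((g (Complex.normSq w - 1) : ℝ) : ℂ)) (Metric.closedBall (0 : ℂ) 3) :=
    fun hg => (disc_integrable hg).ofReal
  intro F hF
  constructor
  · have := extend (fun _ => 1) continuous_const _ (iH (iσ h)) c (fun a b => by
      simp only [mul_one]
      by_cases hab : a = b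
      · subst hab
        rw [disc_on]
        exact (hmo a).1
      · rw [disc_off _ hab, mul_zero]
        exact MW_off hab) F hF
    simp only [mul_one] at this
    exact this
  · have hc3 : Continuous fun w : ℂ => (starRingEnd ℂ w) ^ 3 := Complex.continuous_conj.pow 3
    have := extend pb cont_pb _ (imul hc3 (iH (im h))) c (fun a b => by
      have e : ∀ w : ℂ, w ^ a * (starRingEnd ℂ w) ^ b
          * ((starRingEnd ℂ w) ^ 3 * ((m (Complex.normSq w - 1) : ℝ) : ℂ))
          = w ^ a * (starRingEnd ℂ w) ^ (b + 3) * ((m (Complex.normSq w - 1) : ℝ) : ℂ) := by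
        intro w; ring
      simp only [e]
      by_cases hab : a = b + 3
      · subst hab
        rw [disc_on]
        exact (hmo b).2
      · rw [disc_off _ hab, mul_zero]
        exact MU_off hab) F hF
    have e2 : ∀ x : Fin 3 → ℝ, starRingEnd ℂ (pr (x 0) (x 1) (x 2)) = pb x := by
      intro x
      unfold pr pb eb
      rw [map_mul, map_mul]
    simp only [e2, mul_assoc]
    exact this

end

end Pool.Agent.Lib.MP_cbe5a6_an
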