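import Pool.Agent.Lib.MP_cbe5a6_an.Conv1

-- part Pool.Agent.Lib.MP_cbe5a6_an.Conv2
section

/-! Mollification of densities with a logarithmic singularity on the unit circle. -/

set_option autoImplicit false

namespace Pool.Agent.Lib.MP_cbe5a6_an.ConvAux

open MeasureTheory Set Filter Topology

noncomputable section

/-- the properties of the densities used in the limit -/
structure Nice (g : ℂ → ℂ) : Prop where
  meas : AEStronglyMeasurable g (volume.restrict (Metric.closedBall (0 : ℂ) 3))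
  sq : IntegrableOn (fun w => ‖g w‖ ^ 2) (Metric.closedBall (0 : ℂ) 3)
  bd : ∃ B : ℝ, ∀ w ∈ Metric.closedBall (0 : ℂ) 3, |Complex.normSq w - 1| * ‖g w‖ ≤ B
  cont : ∀ w : ℂ, ‖w‖ < 3 → Complex.normSq w ≠ 1 → ContinuousAt g w

lemma mem_Icc_of_ball {w : ℂ} (hw : w ∈ Metric.closedBall (0 : ℂ) 3) :
    Complex.normSq w - 1 ∈ Icc (-1 : ℝ) 8 := by
  rw [mem_closedBall_zero_iff] at hw
  rw [Complex.normSq_eq_norm_sq]
  have := norm_nonneg w
  constructor <;> nlinarith

instance finBall : IsFiniteMeasure (volume.restrict (Metric.closedBall (0 : ℂ) 3)) :=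
  isFiniteMeasure_restrict.2 (isCompact_closedBall _ _).measure_lt_top.ne

lemma nice_of (a : ℝ → ℝ) (k : ℝ)
    (ha : ContinuousOn (fun s => a s + k * Real.log |s|) (Icc (-1 : ℝ) 8))
    (u : ℂ → ℂ) (hu : Continuous u) :
    Nice (fun w => u w * (a (Complex.normSq w - 1) : ℝ)) := by
  have hφ : Continuous fun w : ℂ => Complex.normSq w - 1 :=
    Complex.continuous_normSq.sub continuous_const
  set b : ℂ → ℝ := fun w => a (Complex.normSq w - 1) + k * Real.log |Complex.normSq w - 1|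
    with hb
  have hbc : ContinuousOn b (Metric.closedBall (0 : ℂ) 3) :=
    ha.comp hφ.continuousOn fun w hw => mem_Icc_of_ball hw
  have hab : ∀ w, a (Complex.normSq w - 1) = b w - k * Real.log |Complex.normSq w - 1| := by
    intro w; simp [hb]
  have hmeas : AEStronglyMeasurable (fun w => u w * (a (Complex.normSq w - 1) : ℝ))
      (volume.restrict (Metric.closedBall (0 : ℂ) 3)) := by
    simp_rw [hab]
    refine hu.aestronglyMeasurable.mul ?_
    refine Complex.continuous_ofReal.comp_aestronglyMeasurable ?_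
    refine (hbc.aestronglyMeasurable Metric.isClosed_closedBall.measurableSet).sub ?_
    apply Measurable.aestronglyMeasurable
    have := hφ.measurable
    fun_prop
  refine ⟨hmeas, ?_, ?_, ?_⟩
  · obtain ⟨M, hM⟩ := (isCompact_closedBall (0 : ℂ) 3).exists_bound_of_continuousOn hbc
    obtain ⟨U, hU⟩ := (isCompact_closedBall (0 : ℂ) 3).exists_bound_of_continuousOn
      hu.continuousOn
    have hi : IntegrableOn (fun w : ℂ => U ^ 2 * (2 * M ^ 2 +
        2 * k ^ 2 * Real.log |Complex.normSq w - 1| ^ 2)) (Metric.closedBall (0 : ℂ) 3) :=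
      ((integrable_const _).add (integrableOn_log_sq.const_mul _)).const_mul _
    refine Integrable.mono' hi (hmeas.norm.pow 2) ?_
    rw [ae_restrict_iff' Metric.isClosed_closedBall.measurableSet]
    refine Eventually.of_forall fun w hw => ?_
    have h1 := hM w hw
    have h2 := hU w hw
    rw [Real.norm_eq_abs, abs_of_nonneg (sq_nonneg _), norm_mul, mul_pow, Complex.norm_real,
      Real.norm_eq_abs, sq_abs, hab]
    have h3 : ‖u w‖ ^ 2 ≤ U ^ 2 := pow_le_pow_left₀ (norm_nonneg _) h2 2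
    have h4 : b w ^ 2 ≤ M ^ 2 := by
      rw [← sq_abs]
      exact pow_le_pow_left₀ (abs_nonneg _) h1 2
    have h5 : (b w - k * Real.log |Complex.normSq w - 1|) ^ 2 ≤
        2 * M ^ 2 + 2 * k ^ 2 * Real.log |Complex.normSq w - 1| ^ 2 := by
      nlinarith [sq_nonneg (b w + k * Real.log |Complex.normSq w - 1|)]
    exact mul_le_mul h3 h5 (sq_nonneg _) (sq_nonneg _)
  · have h1 : ContinuousOn (fun w : ℂ => ‖u w‖ * ((Complex.normSq w - 1) * b w -
        k * ((Complex.normSq w - 1) * Real.log (Complex.normSq w - 1))))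
        (Metric.closedBall (0 : ℂ) 3) :=
      hu.norm.continuousOn.mul ((hφ.continuousOn.mul hbc).sub
        (continuous_const.mul (Real.continuous_mul_log.comp hφ)).continuousOn)
    obtain ⟨B, hB⟩ := (isCompact_closedBall (0 : ℂ) 3).exists_bound_of_continuousOn h1
    refine ⟨B, fun w hw => le_trans (le_of_eq ?_) (hB w hw)⟩
    rw [norm_mul, norm_mul, norm_norm, Complex.norm_real, hab, Real.log_abs, Real.norm_eq_abs,
      Real.norm_eq_abs, mul_left_comm, ← abs_mul]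
    congr 2
    ring
  · intro w hw h1
    simp_rw [hab]
    have hn : Metric.closedBall (0 : ℂ) 3 ∈ 𝓝 w :=
      mem_of_superset (Metric.isOpen_ball.mem_nhds (mem_ball_zero_iff.2 hw))
        Metric.ball_subset_closedBall
    refine hu.continuousAt.mul (Complex.continuous_ofReal.continuousAt.comp ?_)
    refine (hbc.continuousAt hn).sub (continuousAt_const.mul ?_)
    refine ContinuousAt.log hφ.abs.continuousAt ?_
    rw [abs_ne_zero]
    exact sub_ne_zero.2 h1

lemma Nice.integrableOn {g : ℂ → ℂ} (hg : Nice g) :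
    IntegrableOn g (Metric.closedBall (0 : ℂ) 3) := by
  have hi : IntegrableOn (fun w : ℂ => 1 + ‖g w‖ ^ 2) (Metric.closedBall (0 : ℂ) 3) :=
    (integrable_const _).add hg.sq
  refine Integrable.mono' hi hg.meas (Eventually.of_forall fun w => ?_)
  nlinarith [sq_nonneg (‖g w‖ - 1), sq_nonneg ‖g w‖]

lemma Nice.tendsto {g : ℂ → ℂ} (hg : Nice g) {y : ℂ} (hy : ‖y‖ < 3)
    (h1 : Complex.normSq y ≠ 1) :
    Tendsto (fun ε => ∫ w in Metric.closedBall (0 : ℂ) 3, (GG ε (y + w) : ℂ) * g w)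
      (𝓝[>] 0) (𝓝 (g (-y))) := by
  have hm : MeasurableSet (Metric.closedBall (0 : ℂ) 3) :=
    Metric.isClosed_closedBall.measurableSet
  have hy' : ‖-y‖ < 3 := by rwa [norm_neg]
  have hn : Metric.closedBall (0 : ℂ) 3 ∈ 𝓝 (-y) :=
    mem_of_superset (Metric.isOpen_ball.mem_nhds (mem_ball_zero_iff.2 hy'))
      Metric.ball_subset_closedBall
  have he : g =ᶠ[𝓝 (-y)] (Metric.closedBall (0 : ℂ) 3).indicator g := by
    filter_upwards [hn] with w hw
    rw [indicator_of_mem hw]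
  have hc : ContinuousAt ((Metric.closedBall (0 : ℂ) 3).indicator g) (-y) :=
    (hg.cont (-y) hy' (by rwa [Complex.normSq_neg])).congr he
  have := tendsto_GG ((integrable_indicator_iff hm).2 hg.integrableOn) y hc
  rw [← he.eq_of_nhds] at this
  refine this.congr fun ε => ?_
  rw [← integral_indicator hm]
  refine integral_congr_ae (Eventually.of_forall fun w => ?_)
  by_cases hw : w ∈ Metric.closedBall (0 : ℂ) 3
  · simp only [indicator_of_mem hw]
  · simp only [indicator_of_notMem hw, mul_zero]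

lemma abs_normSq_sub_le {y w : ℂ} (hy : y ∈ Metric.closedBall (0 : ℂ) 3)
    (hw : w ∈ Metric.closedBall (0 : ℂ) 3) :
    |Complex.normSq y - 1| ≤ |Complex.normSq w - 1| + 6 * ‖y + w‖ := by
  rw [mem_closedBall_zero_iff] at hy hw
  have h1 : |‖y‖ - ‖w‖| ≤ ‖y + w‖ := by
    have := abs_norm_sub_norm_le y (-w)
    rwa [norm_neg, sub_neg_eq_add] at this
  have h2 : |Complex.normSq y - Complex.normSq w| ≤ 6 * ‖y + w‖ := by
    rw [Complex.normSq_eq_norm_sq, Complex.normSq_eq_norm_sq, sq_sub_sq, abs_mul,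
      abs_of_nonneg (add_nonneg (norm_nonneg _) (norm_nonneg _))]
    exact mul_le_mul (by linarith) h1 (abs_nonneg _) (by norm_num)
  have h3 := abs_add_le (Complex.normSq w - 1) (Complex.normSq y - Complex.normSq w)
  have h4 : Complex.normSq w - 1 + (Complex.normSq y - Complex.normSq w)
      = Complex.normSq y - 1 := by ring
  rw [h4] at h3
  linarith

lemma Nice.bound {g : ℂ → ℂ} (hg : Nice g) :
    ∃ C : ℝ, ∀ ε : ℝ, 0 < ε → ∀ y ∈ Metric.closedBall (0 : ℂ) 3,
      |Complex.normSq y - 1| *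
        ‖∫ w in Metric.closedBall (0 : ℂ) 3, (GG ε (y + w) : ℂ) * g w‖ ≤ C := by
  obtain ⟨B, hB⟩ := hg.bd
  have hB0 : 0 ≤ B := le_trans (by positivity) (hB 0 (by simp))
  refine ⟨B + 3 + 3 * ∫ w in Metric.closedBall (0 : ℂ) 3, ‖g w‖ ^ 2, fun ε hε y hy => ?_⟩
  have hm : MeasurableSet (Metric.closedBall (0 : ℂ) 3) :=
    Metric.isClosed_closedBall.measurableSet
  have hG : IntegrableOn (fun w => GG ε (y + w)) (Metric.closedBall (0 : ℂ) 3) :=
    (integrable_GG_add hε y).integrableOn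
  have h1 : |Complex.normSq y - 1| *
      ‖∫ w in Metric.closedBall (0 : ℂ) 3, (GG ε (y + w) : ℂ) * g w‖
      = ‖∫ w in Metric.closedBall (0 : ℂ) 3,
          ((Complex.normSq y - 1 : ℝ) : ℂ) * ((GG ε (y + w) : ℂ) * g w)‖ := by
    rw [integral_const_mul, norm_mul, Complex.norm_real, Real.norm_eq_abs]
  rw [h1]
  have hi : IntegrableOn (fun w => (B + 3) * GG ε (y + w) + 3 * ‖g w‖ ^ 2)
      (Metric.closedBall (0 : ℂ) 3) := (hG.const_mul _).add (hg.sq.const_mul _)
  refine le_trans (norm_integral_le_of_norm_le hi ?_) ?_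
  · rw [ae_restrict_iff' hm]
    refine Eventually.of_forall fun w hw => ?_
    rw [norm_mul, norm_mul, Complex.norm_real, Complex.norm_real, Real.norm_eq_abs,
      Real.norm_eq_abs, abs_of_nonneg (GG_nonneg _ _)]
    have h2 := abs_normSq_sub_le hy hw
    have h3 := hB w hw
    have h4 := GG_amgm hε (y + w) ‖g w‖
    have h5 := GG_nonneg ε (y + w)
    have h6 := norm_nonneg (g w)
    calc |Complex.normSq y - 1| * (GG ε (y + w) * ‖g w‖)
        ≤ (|Complex.normSq w - 1| + 6 * ‖y + w‖) * (GG ε (y + w) * ‖g w‖) :=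
          mul_le_mul_of_nonneg_right h2 (mul_nonneg h5 h6)
      _ = GG ε (y + w) * (|Complex.normSq w - 1| * ‖g w‖)
            + 6 * (GG ε (y + w) * ‖y + w‖ * ‖g w‖) := by ring
      _ ≤ GG ε (y + w) * B + 6 * ((GG ε (y + w) + ‖g w‖ ^ 2) / 2) := by
          have := mul_le_mul_of_nonneg_left h3 h5
          linarith
      _ = _ := by ring
  · rw [integral_add (hG.const_mul _) (hg.sq.const_mul _), integral_const_mul,
      integral_const_mul]
    have := setIntegral_GG_add_le hε y (Metric.closedBall (0 : ℂ) 3)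
    nlinarith

lemma Nice.double {g : ℂ → ℂ} (hg : Nice g) {ε : ℝ} (hε : 0 < ε) :
    ‖∫ v in Metric.closedBall (0 : ℂ) 3,
        (∫ w in Metric.closedBall (0 : ℂ) 3, (GG ε (v + w) : ℂ) * g w) * g v‖
      ≤ ∫ w in Metric.closedBall (0 : ℂ) 3, ‖g w‖ ^ 2 := by
  set μ : Measure ℂ := volume.restrict (Metric.closedBall (0 : ℂ) 3) with hμ
  have hsq : Integrable (fun w => ‖g w‖ ^ 2) μ := hg.sq
  have hGc : Continuous fun p : ℂ × ℂ => GG ε (p.1 + p.2) :=
    (GG_continuous ε).comp (continuous_fst.add continuous_snd)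
  have hH : Integrable (fun p : ℂ × ℂ => GG ε (p.1 + p.2) * ‖g p.2‖ ^ 2) (μ.prod μ) := by
    refine Integrable.bdd_mul (c := 1 / (Real.pi * ε ^ 2)) (hsq.comp_snd μ)
      hGc.aestronglyMeasurable (Eventually.of_forall fun p => ?_)
    rw [Real.norm_eq_abs, abs_of_nonneg (GG_nonneg _ _)]
    exact GG_le _ _
  have hI : Integrable (fun v => ∫ w, GG ε (v + w) * ‖g w‖ ^ 2 ∂μ) μ := hH.integral_prod_left
  have hsw : ∫ v, ∫ w, GG ε (v + w) * ‖g w‖ ^ 2 ∂μ ∂μ
      = ∫ w, ∫ v, GG ε (v + w) * ‖g w‖ ^ 2 ∂μ ∂μ :=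
    integral_integral_swap (f := fun v w => GG ε (v + w) * ‖g w‖ ^ 2) hH
  have hle : ∫ w, ∫ v, GG ε (v + w) * ‖g w‖ ^ 2 ∂μ ∂μ ≤ ∫ w, ‖g w‖ ^ 2 ∂μ := by
    refine integral_mono hH.integral_prod_right hsq fun w => ?_
    simp only
    rw [integral_mul_const]
    have h1 : ∫ v, GG ε (v + w) ∂μ ≤ 1 := by
      simp_rw [add_comm _ w]
      exact setIntegral_GG_add_le hε w _
    have h2 := sq_nonneg ‖g w‖
    nlinarith
  have hi : Integrable (fun v => (∫ w, GG ε (v + w) * ‖g w‖ ^ 2 ∂μ) / 2 + ‖g v‖ ^ 2 / 2) μ :=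
    (hI.div_const 2).add (hsq.div_const 2)
  refine le_trans (norm_integral_le_of_norm_le hi (Eventually.of_forall fun v => ?_)) ?_
  · rw [← integral_mul_const]
    have hG : Integrable (fun w => GG ε (v + w)) μ := (integrable_GG_add hε v).integrableOn
    have hG2 : Integrable (fun w => GG ε (v + w) * ‖g w‖ ^ 2) μ := by
      refine Integrable.bdd_mul (c := 1 / (Real.pi * ε ^ 2)) hsq hG.aestronglyMeasurable
        (Eventually.of_forall fun p => ?_)
      rw [Real.norm_eq_abs, abs_of_nonneg (GG_nonneg _ _)]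
      exact GG_le _ _
    have hj : Integrable (fun w => GG ε (v + w) * ‖g w‖ ^ 2 / 2 +
        GG ε (v + w) * (‖g v‖ ^ 2 / 2)) μ := (hG2.div_const 2).add (hG.mul_const _)
    refine le_trans (norm_integral_le_of_norm_le hj (Eventually.of_forall fun w => ?_)) ?_
    · rw [norm_mul, norm_mul, Complex.norm_real, Real.norm_eq_abs,
        abs_of_nonneg (GG_nonneg _ _)]
      have h5 := GG_nonneg ε (v + w)
      have h6 : ‖g w‖ * ‖g v‖ ≤ ‖g w‖ ^ 2 / 2 + ‖g v‖ ^ 2 / 2 := by
        nlinarith [sq_nonneg (‖g w‖ - ‖g v‖)]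
      have := mul_le_mul_of_nonneg_left h6 h5
      nlinarith
    · rw [integral_add (hG2.div_const 2) (hG.mul_const _), integral_div, integral_mul_const]
      have h1 : ∫ w, GG ε (v + w) ∂μ ≤ 1 := setIntegral_GG_add_le hε v _
      have h2 := sq_nonneg ‖g v‖
      nlinarith
  · rw [integral_add (hI.div_const 2) (hsq.div_const 2), integral_div, integral_div, hsw]
    linarith

end

end Pool.Agent.Lib.MP_cbe5a6_an.ConvAux
end

-- part Pool.Agent.Lib.MP_cbe5a6_an.Conv3
section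

/-! Splitting of the six-fold integral; the null set `|y| = 3`. -/

set_option autoImplicit false

namespace Pool.Agent.Lib.MP_cbe5a6_an.ConvAux

open MeasureTheory Set Filter Topology

noncomputable section

instance finNu : IsFiniteMeasure nu :=
  isFiniteMeasure_restrict.2 isCompact_Icc.measure_lt_top.ne

instance finNu3 : IsFiniteMeasure nu3 := by
  unfold nu3
  infer_instance

lemma pi_nu (n : ℕ) : (Measure.pi fun _ : Fin n => nu) =
    volume.restrict (Set.pi Set.univ fun _ : Fin n => Icc (0 : ℝ) (2 * Real.pi)) := by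
  rw [volume_pi, Measure.restrict_pi_pi]
  rfl

lemma integrable_pi_nu {E : Type*} [NormedAddCommGroup E] {n : ℕ} {f : (Fin n → ℝ) → E}
    (hf : Continuous f) : Integrable f (Measure.pi fun _ : Fin n => nu) := by
  rw [pi_nu]
  exact hf.continuousOn.integrableOn_compact (isCompact_univ_pi fun _ => isCompact_Icc)

lemma integrable_nu3 {E : Type*} [NormedAddCommGroup E] {f : (Fin 3 → ℝ) → E}
    (hf : Continuous f) : Integrable f nu3 := integrable_pi_nu hf

/-- concatenation of two triples -/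
def cat (p : (Fin 3 → ℝ) × (Fin 3 → ℝ)) : Fin 6 → ℝ :=
  ![p.1 0, p.1 1, p.1 2, p.2 0, p.2 1, p.2 2]

lemma cat_continuous : Continuous cat := by
  refine continuous_pi fun i => ?_
  fin_cases i <;> simp only [cat] <;> simp <;> fun_prop

lemma map_cat : (nu3.prod nu3).map cat = Measure.pi fun _ : Fin 6 => nu := by
  symm
  refine Measure.pi_eq fun s hs => ?_
  rw [Measure.map_apply cat_continuous.measurable (MeasurableSet.univ_pi hs)]
  have : cat ⁻¹' Set.pi univ s =
      (Set.pi univ ![s 0, s 1, s 2]) ×ˢ (Set.pi univ ![s 3, s 4, s 5]) := by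
    ext p
    simp only [mem_preimage, Set.mem_pi, mem_univ, forall_true_left, mem_prod, Fin.forall_fin_succ,
      cat]
    simp
    tauto
  rw [this, Measure.prod_prod, nu3, Measure.pi_pi, Measure.pi_pi, Fin.prod_univ_three,
    Fin.prod_univ_three, Fin.prod_univ_six]
  simp [mul_assoc]

lemma integrable_cat {F : (Fin 6 → ℝ) → ℝ} (hF : Continuous F) :
    Integrable (fun p => F (cat p)) (nu3.prod nu3) := by
  have h1 : Integrable F ((nu3.prod nu3).map cat) := by
    rw [map_cat]; exact integrable_pi_nu hF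
  exact h1.comp_measurable cat_continuous.measurable

lemma I6_eq {F : (Fin 6 → ℝ) → ℝ} (hF : Continuous F) :
    I6 F = ∫ x, ∫ x', F (cat (x, x')) ∂nu3 ∂nu3 := by
  unfold I6
  rw [← pi_nu, ← map_cat,
    integral_map cat_continuous.measurable.aemeasurable hF.aestronglyMeasurable,
    integral_prod _ (integrable_cat hF)]

lemma ex_continuous : Continuous ex := by
  unfold ex
  fun_prop

lemma norm_ex (a : ℝ) : ‖ex a‖ = 1 := Complex.norm_exp_ofReal_mul_I a

lemma norm_pr (a b c : ℝ) : ‖pr a b c‖ = 1 := by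
  simp [pr, norm_ex]

lemma norm_yy_le (a b c : ℝ) : ‖yy a b c‖ ≤ 3 := by
  unfold yy
  calc ‖ex a + ex b + ex c‖ ≤ ‖ex a‖ + ‖ex b‖ + ‖ex c‖ := norm_add₃_le
    _ = 3 := by rw [norm_ex, norm_ex, norm_ex]; norm_num

lemma cos_eq_one_of_norm {a b c : ℝ} (h : ¬ ‖yy a b c‖ < 3) : Real.cos (a - b) = 1 := by
  have h1 : 3 ≤ ‖ex a + ex b‖ + 1 := by
    have := norm_add_le (ex a + ex b) (ex c)
    rw [norm_ex] at this
    unfold yy at h
    linarith [not_lt.1 h]
  have h2 : ‖ex a + ex b‖ ^ 2 = 2 + 2 * Real.cos (a - b) := by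
    rw [← Complex.normSq_eq_norm_sq, Complex.normSq_apply]
    simp only [ex, Complex.add_re, Complex.add_im, Complex.exp_ofReal_mul_I_re,
      Complex.exp_ofReal_mul_I_im, Real.cos_sub]
    nlinarith [Real.sin_sq_add_cos_sq a, Real.sin_sq_add_cos_sq b]
  have h3 := Real.cos_le_one (a - b)
  nlinarith

lemma ae_norm_yy_lt : ∀ᵐ x ∂nu3, ‖yy (x 0) (x 1) (x 2)‖ < 3 := by
  have hp := measurePreserving_piFinSuccAbove (fun _ : Fin 3 => nu) 0
  have hm : MeasurableSet {p : ℝ × (Fin 2 → ℝ) | Real.cos (p.1 - p.2 0) ≠ 1} := by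
    have : Continuous fun p : ℝ × (Fin 2 → ℝ) => Real.cos (p.1 - p.2 0) := by fun_prop
    exact (isOpen_ne_fun this continuous_const).measurableSet
  have h1 : ∀ᵐ p ∂(nu.prod (Measure.pi fun _ : Fin 2 => nu)), Real.cos (p.1 - p.2 0) ≠ 1 := by
    rw [Measure.ae_prod_iff_ae_ae hm]
    refine Eventually.of_forall fun a => ?_
    have hc : ({b : ℝ | Real.cos (a - b) = 1}).Countable := by
      refine (countable_range fun n : ℤ => a - n * (2 * Real.pi)).mono fun b hb => ?_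
      obtain ⟨n, hn⟩ := (Real.cos_eq_one_iff _).1 hb
      exact ⟨n, by simp only; linarith⟩
    have h0 : nu {b : ℝ | Real.cos (a - b) = 1} = 0 :=
      le_antisymm (le_trans (Measure.restrict_le_self _) (hc.measure_zero volume).le) zero_le
    have := Measure.pi_eval_preimage_null (fun _ : Fin 2 => nu) (i := 0) h0
    rw [ae_iff]
    simpa using this
  have h2 := hp.quasiMeasurePreserving.ae h1
  filter_upwards [h2] with x hx
  by_contra h
  exact hx (cos_eq_one_of_norm h)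

end

end Pool.Agent.Lib.MP_cbe5a6_an.ConvAux
end

-- part Pool.Agent.Lib.MP_cbe5a6_an.Conv
section

/-! Convergence of the mollified six-fold integrals. -/

set_option autoImplicit false

namespace Pool.Agent.Lib.MP_cbe5a6_an

open MeasureTheory Set Filter Topology

noncomputable section

namespace ConvAux

lemma cat0 (x x' : Fin 3 → ℝ) : cat (x, x') 0 = x 0 := rfl
lemma cat1 (x x' : Fin 3 → ℝ) : cat (x, x') 1 = x 1 := rfl
lemma cat2 (x x' : Fin 3 → ℝ) : cat (x, x') 2 = x 2 := rfl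
lemma cat3 (x x' : Fin 3 → ℝ) : cat (x, x') 3 = x' 0 := rfl
lemma cat4 (x x' : Fin 3 → ℝ) : cat (x, x') 4 = x' 1 := rfl
lemma cat5 (x x' : Fin 3 → ℝ) : cat (x, x') 5 = x' 2 := rfl

lemma yy3_continuous : Continuous fun x : Fin 3 → ℝ => yy (x 0) (x 1) (x 2) := by
  have := ex_continuous
  unfold yy
  fun_prop

lemma pr3_continuous : Continuous fun x : Fin 3 → ℝ => pr (x 0) (x 1) (x 2) := by
  have := ex_continuous
  unfold pr
  fun_prop

lemma zz_continuous : Continuous zz := by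
  have := ex_continuous
  unfold zz yy
  fun_prop

lemma WW_continuous : Continuous WW := by
  have := ex_continuous
  have h2 := Complex.continuous_normSq
  have h3 := Complex.continuous_conj
  unfold WW al be ss pr yy
  fun_prop

lemma abs_al_le {s : ℝ} (hs : s ∈ Icc (-1 : ℝ) 8) : |al s| ≤ 2256 * |s| := by
  have h : al s = (29 * s ^ 2 - 42 * s + 64) * s := by unfold al; ring
  rw [h, abs_mul]
  refine mul_le_mul_of_nonneg_right ?_ (abs_nonneg _)
  rw [abs_le]
  obtain ⟨h1, h2⟩ := hs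
  constructor <;> nlinarith

lemma abs_be_le {s : ℝ} (hs : s ∈ Icc (-1 : ℝ) 8) : |be s| ≤ 2256 * |s| := by
  have h : be s = (27 * s ^ 2 - 18 * s) * s := by unfold be; ring
  rw [h, abs_mul]
  refine mul_le_mul_of_nonneg_right ?_ (abs_nonneg _)
  rw [abs_le]
  obtain ⟨h1, h2⟩ := hs
  constructor <;> nlinarith

/-- mollification -/
def mol (g : ℂ → ℂ) (ε : ℝ) (y : ℂ) : ℂ :=
  ∫ w in Metric.closedBall (0 : ℂ) 3, (GG ε (y + w) : ℂ) * g w

def gS (σ : ℝ → ℝ) (w : ℂ) : ℂ := 1 * (σ (Complex.normSq w - 1) : ℝ)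
def gM (m : ℝ → ℝ) (w : ℂ) : ℂ := (starRingEnd ℂ w) ^ 3 * (m (Complex.normSq w - 1) : ℝ)

lemma GGc_continuous (ε : ℝ) (y : ℂ) : Continuous fun w : ℂ => (GG ε (y + w) : ℂ) :=
  Complex.continuous_ofReal.comp ((GG_continuous ε).comp (continuous_const.add continuous_id))

lemma law1 {σ m : ℝ → ℝ} {c : ℝ} (hL : Law σ m c) (ε : ℝ) (y : ℂ) :
    ∫ x : Fin 3 → ℝ, (GG ε (y + yy (x 0) (x 1) (x 2)) : ℂ) ∂nu3 = c * mol (gS σ) ε y := by
  have := (hL _ (GGc_continuous ε y)).1
  simpa only [mol, gS, one_mul] using this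

lemma law2 {σ m : ℝ → ℝ} {c : ℝ} (hL : Law σ m c) (ε : ℝ) (y : ℂ) :
    ∫ x : Fin 3 → ℝ, (GG ε (y + yy (x 0) (x 1) (x 2)) : ℂ) *
      starRingEnd ℂ (pr (x 0) (x 1) (x 2)) ∂nu3 = c * mol (gM m) ε y := by
  have := (hL _ (GGc_continuous ε y)).2
  simpa only [mol, gM, mul_assoc] using this

lemma inner_eq {σ m : ℝ → ℝ} {c : ℝ} (hL : Law σ m c) (ε : ℝ) (y p : ℂ) (A B φ : ℝ) :
    ∫ x : Fin 3 → ℝ, GG ε (y + yy (x 0) (x 1) (x 2)) *
        (A + B * (p * starRingEnd ℂ (pr (x 0) (x 1) (x 2))).re) * φ ∂nu3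
      = c * ((A * (mol (gS σ) ε y).re + B * (p * mol (gM m) ε y).re) * φ) := by
  have h1 : Continuous fun x : Fin 3 → ℝ => (GG ε (y + yy (x 0) (x 1) (x 2)) : ℂ) :=
    (GGc_continuous ε y).comp yy3_continuous
  have h2 : Continuous fun x : Fin 3 → ℝ => (GG ε (y + yy (x 0) (x 1) (x 2)) : ℂ) *
      starRingEnd ℂ (pr (x 0) (x 1) (x 2)) :=
    h1.mul (Complex.continuous_conj.comp pr3_continuous)
  have i1 := (integrable_nu3 h1).const_mul ((A * φ : ℝ) : ℂ)
  have i2 := (integrable_nu3 h2).const_mul (((B * φ : ℝ) : ℂ) * p)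
  have h3 := Complex.reCLM.integral_comp_comm (i1.add i2)
  simp only [Pi.add_apply] at h3
  rw [integral_add i1 i2, integral_const_mul, integral_const_mul, law1 hL, law2 hL] at h3
  refine Eq.trans (integral_congr_ae (Eventually.of_forall fun x => ?_)) (h3.trans ?_)
  · simp only [Complex.reCLM_apply, Complex.add_re, Complex.mul_re, Complex.mul_im,
      Complex.ofReal_re, Complex.ofReal_im]
    ring
  · simp only [Complex.reCLM_apply, Complex.add_re, Complex.mul_re, Complex.mul_im,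
      Complex.ofReal_re, Complex.ofReal_im]
    ring

lemma part1 {σ m : ℝ → ℝ} {c : ℝ} (hS : Nice (gS σ)) (hM : Nice (gM m)) (hL : Law σ m c)
    (Φ : ℝ → ℝ → ℝ → ℝ) (hΦ : Continuous (fun x : ℝ × ℝ × ℝ => Φ x.1 x.2.1 x.2.2)) :
    Tendsto (fun ε => I6 fun θ => GG ε (zz θ) * WW θ * Φ (θ 0) (θ 1) (θ 2)) (𝓝[>] 0)
      (𝓝 (c * I3 fun a b d => KK σ m a b d * Φ a b d)) := by
  have hΦ6 : Continuous fun θ : Fin 6 → ℝ => Φ (θ 0) (θ 1) (θ 2) :=
    hΦ.comp (f := fun θ : Fin 6 → ℝ => (θ 0, θ 1, θ 2)) (by fun_prop)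
  have hΦ3 : Continuous fun x : Fin 3 → ℝ => Φ (x 0) (x 1) (x 2) :=
    hΦ.comp (f := fun x : Fin 3 → ℝ => (x 0, x 1, x 2)) (by fun_prop)
  have hF : ∀ ε, Continuous fun θ : Fin 6 → ℝ => GG ε (zz θ) * WW θ * Φ (θ 0) (θ 1) (θ 2) :=
    fun ε => (((GG_continuous ε).comp zz_continuous).mul WW_continuous).mul hΦ6
  have hin : ∀ ε (x : Fin 3 → ℝ),
      ∫ x', (fun θ : Fin 6 → ℝ => GG ε (zz θ) * WW θ * Φ (θ 0) (θ 1) (θ 2)) (cat (x, x')) ∂nu3
        = c * ((al (ss (x 0) (x 1) (x 2)) * (mol (gS σ) ε (yy (x 0) (x 1) (x 2))).re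
            + be (ss (x 0) (x 1) (x 2)) *
              (pr (x 0) (x 1) (x 2) * mol (gM m) ε (yy (x 0) (x 1) (x 2))).re)
            * Φ (x 0) (x 1) (x 2)) := by
    intro ε x
    rw [← inner_eq hL ε (yy (x 0) (x 1) (x 2)) (pr (x 0) (x 1) (x 2))
      (al (ss (x 0) (x 1) (x 2))) (be (ss (x 0) (x 1) (x 2))) (Φ (x 0) (x 1) (x 2))]
    refine integral_congr_ae (Eventually.of_forall fun x' => ?_)
    simp only [zz, WW, cat0, cat1, cat2, cat3, cat4, cat5]
  simp_rw [fun ε => I6_eq (hF ε)]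
  unfold I3
  rw [← integral_const_mul]
  obtain ⟨C1, hC1⟩ := hS.bound
  obtain ⟨C2, hC2⟩ := hM.bound
  refine tendsto_integral_filter_of_dominated_convergence
    (fun x : Fin 3 → ℝ => |c| * ((2256 * C1 + 2256 * C2) * |Φ (x 0) (x 1) (x 2)|)) ?_ ?_ ?_ ?_
  · exact Eventually.of_forall fun ε =>
      (integrable_cat (hF ε)).integral_prod_left.aestronglyMeasurable
  · filter_upwards [self_mem_nhdsWithin] with ε (hε : 0 < ε)
    refine Eventually.of_forall fun x => ?_
    rw [hin, Real.norm_eq_abs, abs_mul, abs_mul]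
    refine mul_le_mul_of_nonneg_left (mul_le_mul_of_nonneg_right ?_ (abs_nonneg _))
      (abs_nonneg _)
    have hy : yy (x 0) (x 1) (x 2) ∈ Metric.closedBall (0 : ℂ) 3 :=
      mem_closedBall_zero_iff.2 (norm_yy_le _ _ _)
    have hs : ss (x 0) (x 1) (x 2) ∈ Icc (-1 : ℝ) 8 := mem_Icc_of_ball hy
    have a1 : |ss (x 0) (x 1) (x 2)| * ‖mol (gS σ) ε (yy (x 0) (x 1) (x 2))‖ ≤ C1 :=
      hC1 ε hε _ hy
    have a2 : |ss (x 0) (x 1) (x 2)| * ‖mol (gM m) ε (yy (x 0) (x 1) (x 2))‖ ≤ C2 :=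
      hC2 ε hε _ hy
    have b1 := Complex.abs_re_le_norm (mol (gS σ) ε (yy (x 0) (x 1) (x 2)))
    have b2 := Complex.abs_re_le_norm
      (pr (x 0) (x 1) (x 2) * mol (gM m) ε (yy (x 0) (x 1) (x 2)))
    rw [norm_mul, norm_pr, one_mul] at b2
    refine le_trans (abs_add_le _ _) (add_le_add ?_ ?_)
    · rw [abs_mul]
      calc _ ≤ (2256 * |ss (x 0) (x 1) (x 2)|) * ‖mol (gS σ) ε (yy (x 0) (x 1) (x 2))‖ :=
            mul_le_mul (abs_al_le hs) b1 (abs_nonneg _) (by positivity)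
        _ ≤ _ := by rw [mul_assoc]; linarith
    · rw [abs_mul]
      calc _ ≤ (2256 * |ss (x 0) (x 1) (x 2)|) * ‖mol (gM m) ε (yy (x 0) (x 1) (x 2))‖ :=
            mul_le_mul (abs_be_le hs) b2 (abs_nonneg _) (by positivity)
        _ ≤ _ := by rw [mul_assoc]; linarith
  · exact ((integrable_nu3 hΦ3.abs).const_mul _).const_mul _
  · filter_upwards [ae_norm_yy_lt] with x hx
    simp_rw [hin]
    refine Tendsto.const_mul c (Tendsto.mul_const _ ?_)
    by_cases h1 : Complex.normSq (yy (x 0) (x 1) (x 2)) = 1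
    · have hs : ss (x 0) (x 1) (x 2) = 0 := by unfold ss; rw [h1]; ring
      simp [KK, hs, al, be]
    · have t1 := (Complex.continuous_re.tendsto _).comp (hS.tendsto hx h1)
      have t2 := (Complex.continuous_re.tendsto _).comp
        ((hM.tendsto hx h1).const_mul (pr (x 0) (x 1) (x 2)))
      have t3 := (t1.const_mul (al (ss (x 0) (x 1) (x 2)))).add
        (t2.const_mul (be (ss (x 0) (x 1) (x 2))))
      have e : al (ss (x 0) (x 1) (x 2)) * (gS σ (-yy (x 0) (x 1) (x 2))).re +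
          be (ss (x 0) (x 1) (x 2)) *
            (pr (x 0) (x 1) (x 2) * gM m (-yy (x 0) (x 1) (x 2))).re
          = KK σ m (x 0) (x 1) (x 2) := by
        have e1 : pr (x 0) (x 1) (x 2) * gM m (-yy (x 0) (x 1) (x 2)) =
            -(pr (x 0) (x 1) (x 2) * (starRingEnd ℂ (yy (x 0) (x 1) (x 2))) ^ 3 *
              (m (ss (x 0) (x 1) (x 2)) : ℝ)) := by
          simp only [gM, Complex.normSq_neg, map_neg, ss]
          ring
        rw [e1]
        simp only [gS, KK, XX, Complex.normSq_neg, one_mul, Complex.ofReal_re, Complex.neg_re,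
          Complex.re_mul_ofReal, ss]
        ring
      rw [e] at t3
      exact t3

lemma part2 {σ m : ℝ → ℝ} {c : ℝ} (hS : Nice (gS σ)) (hL : Law σ m c) :
    ∃ C : ℝ, ∀ ε : ℝ, 0 < ε → (I6 fun θ => GG ε (zz θ)) ≤ C := by
  refine ⟨‖(c : ℂ)‖ * (‖(c : ℂ)‖ * ∫ w in Metric.closedBall (0 : ℂ) 3, ‖gS σ w‖ ^ 2),
    fun ε hε => ?_⟩
  have hF : Continuous fun θ : Fin 6 → ℝ => GG ε (zz θ) := (GG_continuous ε).comp zz_continuous
  rw [I6_eq hF]
  set T : ℂ → ℂ := fun y => ∫ x : Fin 3 → ℝ, (GG ε (y + yy (x 0) (x 1) (x 2)) : ℂ) ∂nu3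
    with hT
  have hTc : Continuous T := by
    refine continuous_of_dominated (bound := fun _ => 1 / (Real.pi * ε ^ 2))
      (fun y => ((GGc_continuous ε y).comp yy3_continuous).aestronglyMeasurable)
      (fun y => Eventually.of_forall fun x => ?_) (integrable_const _)
      (Eventually.of_forall fun x => ?_)
    · rw [Complex.norm_real, Real.norm_eq_abs, abs_of_nonneg (GG_nonneg _ _)]
      exact GG_le _ _
    · exact Complex.continuous_ofReal.comp
        ((GG_continuous ε).comp (continuous_id.add continuous_const))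
  have h1 : ((∫ x, ∫ x', GG ε (zz (cat (x, x'))) ∂nu3 ∂nu3 : ℝ) : ℂ)
      = ∫ x : Fin 3 → ℝ, T (yy (x 0) (x 1) (x 2)) ∂nu3 := by
    rw [← integral_complex_ofReal]
    refine integral_congr_ae (Eventually.of_forall fun x => ?_)
    simp only [hT]
    rw [← integral_complex_ofReal]
    rfl
  have h2 : ∫ x : Fin 3 → ℝ, T (yy (x 0) (x 1) (x 2)) ∂nu3 =
      c * (c * ∫ v in Metric.closedBall (0 : ℂ) 3, mol (gS σ) ε v * gS σ v) := by
    rw [(hL T hTc).1, ← integral_const_mul (c : ℂ) (fun v => mol (gS σ) ε v * gS σ v)]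
    congr 1
    refine integral_congr_ae (Eventually.of_forall fun v => ?_)
    simp only [hT]
    rw [law1 hL, gS]
    ring
  refine le_trans (le_abs_self _) ?_
  rw [← Real.norm_eq_abs, ← Complex.norm_real, h1, h2, norm_mul, norm_mul]
  exact mul_le_mul_of_nonneg_left
    (mul_le_mul_of_nonneg_left (hS.double hε) (norm_nonneg _)) (norm_nonneg _)

end ConvAux

theorem stmtConv : StmtConv := by
  intro σ J m c hs _ hL
  have hS : ConvAux.Nice (ConvAux.gS σ) :=
    ConvAux.nice_of σ 1 (by simpa only [one_mul] using hs.cσ) (fun _ => 1) continuous_const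
  have hM : ConvAux.Nice (ConvAux.gM m) :=
    ConvAux.nice_of m (-1) (by simpa only [neg_mul, one_mul, ← sub_eq_add_neg] using hs.cm)
      (fun w => (starRingEnd ℂ w) ^ 3) (Complex.continuous_conj.pow 3)
  exact ⟨ConvAux.part1 hS hM hL, ConvAux.part2 hS hL⟩

end

end Pool.Agent.Lib.MP_cbe5a6_an
end

-- part Pool.Agent.Lib.MP_cbe5a6_an.Law1
section

/-! Moments of the three-step walk on the torus, by integration by parts. -/

set_option autoImplicit false

namespace Pool.Agent.Lib.MP_cbe5a6_an.Law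

open MeasureTheory Set Filter Topology

noncomputable section

/-- conjugate unit vector -/
def eb (a : ℝ) : ℂ := starRingEnd ℂ (ex a)

lemma cont_ex : Continuous ex := by
  unfold ex
  fun_prop

lemma cont_eb : Continuous eb := by
  unfold eb
  exact Complex.continuous_conj.comp cont_ex

lemma ex_mul_eb (a : ℝ) : ex a * eb a = 1 := by
  unfold eb
  rw [Complex.mul_conj, Complex.normSq_eq_norm_sq]
  unfold ex
  rw [Complex.norm_exp_ofReal_mul_I]
  simp

lemma norm_ex (a : ℝ) : ‖ex a‖ = 1 := by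
  unfold ex
  exact Complex.norm_exp_ofReal_mul_I a

lemma eb_eq (a : ℝ) : eb a = Complex.exp (-(a * Complex.I)) := by
  unfold eb ex
  rw [← Complex.exp_conj]
  simp

lemma hd_ex (s : ℝ) : HasDerivAt ex (Complex.I * ex s) s := by
  have h1 : HasDerivAt (fun a : ℝ => (a : ℂ) * Complex.I) (1 * Complex.I) s :=
    (Complex.ofRealCLM.hasDerivAt (x := s)).mul_const Complex.I
  have h2 := h1.cexp
  unfold ex
  refine h2.congr_deriv ?_
  ring

lemma hd_eb (s : ℝ) : HasDerivAt eb (-Complex.I * eb s) s := by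
  have h1 : HasDerivAt (fun a : ℝ => -((a : ℂ) * Complex.I)) (-(1 * Complex.I)) s :=
    ((Complex.ofRealCLM.hasDerivAt (x := s)).mul_const Complex.I).neg
  have h2 := h1.cexp
  have h3 : eb = fun a : ℝ => Complex.exp (-((a : ℂ) * Complex.I)) := funext eb_eq
  rw [h3]
  refine h2.congr_deriv ?_
  ring

lemma ex_two_pi : ex (2 * Real.pi) = ex 0 := by
  unfold ex
  push_cast
  rw [Complex.exp_two_pi_mul_I]
  simp

lemma eb_two_pi : eb (2 * Real.pi) = eb 0 := by
  unfold eb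
  rw [ex_two_pi]

lemma pw (n : ℕ) (z : ℂ) : (n : ℂ) * (z ^ (n - 1) * z) = n * z ^ n := by
  cases n with
  | zero => simp
  | succ k => simp [pow_succ]

/-- the derivative (divided by `i`) of `η ^ γ y ^ a yb ^ b` in one angle -/
def EE (γ a b : ℕ) (w η y yb : ℂ) : ℂ :=
  -(γ : ℂ) * η ^ γ * y ^ a * yb ^ b + a * w * η ^ γ * y ^ (a - 1) * yb ^ b
    - b * η ^ (γ + 1) * y ^ a * yb ^ (b - 1)

lemma nu_int (f : ℝ → ℂ) : ∫ s, f s ∂nu = ∫ s in (0 : ℝ)..(2 * Real.pi), f s := by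
  unfold nu
  rw [intervalIntegral.integral_of_le (by positivity), integral_Icc_eq_integral_Ioc]

lemma core (γ a b : ℕ) (r r' q : ℂ) :
    ∫ s, q * EE γ a b (ex s) (eb s) (ex s + r) (eb s + r') ∂nu = 0 := by
  rw [nu_int]
  have hd : ∀ s : ℝ, HasDerivAt (fun s => -Complex.I * q * (eb s ^ γ * (ex s + r) ^ a * (eb s + r') ^ b))
      (q * EE γ a b (ex s) (eb s) (ex s + r) (eb s + r')) s := by
    intro s
    have h1 := (((hd_eb s).pow γ).mul (((hd_ex s).add_const r).pow a)).mul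
      (((hd_eb s).add_const r').pow b)
    have h2 := h1.const_mul (-Complex.I * q)
    refine h2.congr_deriv ?_
    unfold EE
    simp only [Pi.pow_apply, Pi.mul_apply]
    have e1 := pw γ (eb s)
    have hI : Complex.I * Complex.I = -1 := Complex.I_mul_I
    linear_combination (q * Complex.I * Complex.I * (ex s + r) ^ a * (eb s + r') ^ b) * e1
      + (q * (γ * eb s ^ γ * (ex s + r) ^ a * (eb s + r') ^ b
        - a * ex s * eb s ^ γ * (ex s + r) ^ (a - 1) * (eb s + r') ^ b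
        + b * eb s ^ (γ + 1) * (ex s + r) ^ a * (eb s + r') ^ (b - 1))) * hI
  have hc : Continuous fun s => q * EE γ a b (ex s) (eb s) (ex s + r) (eb s + r') := by
    unfold EE
    have := cont_ex
    have := cont_eb
    fun_prop
  rw [intervalIntegral.integral_eq_sub_of_hasDerivAt (fun s _ => hd s) (hc.intervalIntegrable _ _)]
  rw [ex_two_pi, eb_two_pi, sub_self]

instance : IsFiniteMeasure nu := by
  unfold nu
  infer_instance

instance : IsFiniteMeasure nu3 := by
  unfold nu3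
  infer_instance

lemma nu3_eq : nu3 = (volume : Measure (Fin 3 → ℝ)).restrict
    (Set.univ.pi fun _ => Icc (0 : ℝ) (2 * Real.pi)) := by
  unfold nu3 nu
  rw [volume_pi, Measure.restrict_pi_pi]

lemma integrable_nu3 {Φ : (Fin 3 → ℝ) → ℂ} (h : Continuous Φ) : Integrable Φ nu3 := by
  rw [nu3_eq]
  exact h.continuousOn.integrableOn_compact (isCompact_univ_pi fun _ => isCompact_Icc)

lemma lift (i : Fin 3) {Φ : (Fin 3 → ℝ) → ℂ} (h : Continuous Φ)
    (hz : ∀ z : Fin 2 → ℝ, ∫ a, Φ (Fin.insertNth i a z) ∂nu = 0) : ∫ x, Φ x ∂nu3 = 0 := by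
  have mp := measurePreserving_piFinSuccAbove (fun _ : Fin 3 => nu) i
  have hi := integrable_nu3 h
  have e1 := (mp.symm _).integral_comp' Φ
  unfold nu3 at hi ⊢
  have hi2 : Integrable (fun p => Φ ((MeasurableEquiv.piFinSuccAbove (fun _ : Fin 3 => ℝ) i).symm p))
      (nu.prod (Measure.pi fun _ : Fin 2 => nu)) :=
    ((mp.symm _).integrable_comp_emb (MeasurableEquiv.measurableEmbedding _)).2 hi
  rw [← e1, integral_prod_symm _ hi2]
  have : ∀ z : Fin 2 → ℝ, ∫ a, Φ ((MeasurableEquiv.piFinSuccAbove (fun _ : Fin 3 => ℝ) i).symm (a, z))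
      ∂nu = 0 := fun z => hz z
  simp only [this, integral_zero]

lemma lin4 {X : Type*} [MeasurableSpace X] {μ : Measure X} {f1 f2 f3 f4 : X → ℂ}
    (h1 : Integrable f1 μ) (h2 : Integrable f2 μ) (h3 : Integrable f3 μ) (h4 : Integrable f4 μ)
    (c1 c2 c3 c4 : ℂ) :
    ∫ x, (c1 * f1 x + c2 * f2 x + c3 * f3 x + c4 * f4 x) ∂μ
      = c1 * ∫ x, f1 x ∂μ + c2 * ∫ x, f2 x ∂μ + c3 * ∫ x, f3 x ∂μ + c4 * ∫ x, f4 x ∂μ := by
  have a1 : Integrable (fun x => c1 * f1 x + c2 * f2 x) μ := (h1.const_mul c1).add (h2.const_mul c2)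
  have a2 : Integrable (fun x => c1 * f1 x + c2 * f2 x + c3 * f3 x) μ := a1.add (h3.const_mul c3)
  rw [integral_add a2 (h4.const_mul c4), integral_add a1 (h3.const_mul c3),
    integral_add (h1.const_mul c1) (h2.const_mul c2), integral_const_mul, integral_const_mul,
    integral_const_mul, integral_const_mul]

/-- sum of the conjugate unit vectors -/
def yb (x : Fin 3 → ℝ) : ℂ := eb (x 0) + eb (x 1) + eb (x 2)
/-- sum of the unit vectors -/
def y3 (x : Fin 3 → ℝ) : ℂ := ex (x 0) + ex (x 1) + ex (x 2)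

lemma cont_y3 : Continuous y3 := by
  unfold y3
  have := cont_ex
  fun_prop

lemma cont_yb : Continuous yb := by
  unfold yb
  have := cont_eb
  fun_prop

/-- sum of the three partial derivatives -/
def SE (δ γ a b : ℕ) (x : Fin 3 → ℝ) : ℂ :=
  (eb (x 1) * eb (x 2)) ^ δ * EE γ a b (ex (x 0)) (eb (x 0)) (y3 x) (yb x)
    + (eb (x 0) * eb (x 2)) ^ δ * EE γ a b (ex (x 1)) (eb (x 1)) (y3 x) (yb x)
    + (eb (x 0) * eb (x 1)) ^ δ * EE γ a b (ex (x 2)) (eb (x 2)) (y3 x) (yb x)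

lemma int_SE (δ γ a b : ℕ) : ∫ x, SE δ γ a b x ∂nu3 = 0 := by
  have c1 := cont_ex
  have c2 := cont_eb
  have c3 := cont_y3
  have c4 := cont_yb
  have k0 : Continuous fun x : Fin 3 → ℝ =>
      (eb (x 1) * eb (x 2)) ^ δ * EE γ a b (ex (x 0)) (eb (x 0)) (y3 x) (yb x) := by
    unfold EE; fun_prop
  have k1 : Continuous fun x : Fin 3 → ℝ =>
      (eb (x 0) * eb (x 2)) ^ δ * EE γ a b (ex (x 1)) (eb (x 1)) (y3 x) (yb x) := by
    unfold EE; fun_prop
  have k2 : Continuous fun x : Fin 3 → ℝ =>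
      (eb (x 0) * eb (x 1)) ^ δ * EE γ a b (ex (x 2)) (eb (x 2)) (y3 x) (yb x) := by
    unfold EE; fun_prop
  have z0 := lift 0 k0 (fun z => by
    refine Eq.trans ?_ (core γ a b (ex (z 0) + ex (z 1)) (eb (z 0) + eb (z 1)) ((eb (z 0) * eb (z 1)) ^ δ))
    refine integral_congr_ae (Eventually.of_forall fun s => ?_)
    show (eb (z 0) * eb (z 1)) ^ δ * EE γ a b (ex s) (eb s) (ex s + ex (z 0) + ex (z 1))
      (eb s + eb (z 0) + eb (z 1)) = _
    rw [add_assoc, add_assoc])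
  have z1 := lift 1 k1 (fun z => by
    refine Eq.trans ?_ (core γ a b (ex (z 0) + ex (z 1)) (eb (z 0) + eb (z 1)) ((eb (z 0) * eb (z 1)) ^ δ))
    refine integral_congr_ae (Eventually.of_forall fun s => ?_)
    show (eb (z 0) * eb (z 1)) ^ δ * EE γ a b (ex s) (eb s) (ex (z 0) + ex s + ex (z 1))
      (eb (z 0) + eb s + eb (z 1)) = _
    rw [add_comm (ex (z 0)), add_comm (eb (z 0)), add_assoc, add_assoc])
  have z2 := lift 2 k2 (fun z => by
    refine Eq.trans ?_ (core γ a b (ex (z 0) + ex (z 1)) (eb (z 0) + eb (z 1)) ((eb (z 0) * eb (z 1)) ^ δ))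
    refine integral_congr_ae (Eventually.of_forall fun s => ?_)
    show (eb (z 0) * eb (z 1)) ^ δ * EE γ a b (ex s) (eb s) (ex (z 0) + ex (z 1) + ex s)
      (eb (z 0) + eb (z 1) + eb s) = _
    rw [add_comm _ (ex s), add_comm _ (eb s)])
  unfold SE
  have := lin4 (integrable_nu3 k0) (integrable_nu3 k1) (integrable_nu3 k2) (integrable_nu3 k2) 1 1 1 0
  simp only [one_mul, zero_mul, add_zero] at this
  rw [this, z0, z1, z2]
  simp

/-- conjugate product -/
def pb (x : Fin 3 → ℝ) : ℂ := eb (x 0) * eb (x 1) * eb (x 2)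

lemma cont_pb : Continuous pb := by
  unfold pb
  have := cont_eb
  fun_prop

/-- plain moments -/
def MW (a b : ℕ) : ℂ := ∫ x, y3 x ^ a * yb x ^ b ∂nu3
/-- twisted moments -/
def MU (a b : ℕ) : ℂ := ∫ x, y3 x ^ a * yb x ^ b * pb x ∂nu3

lemma iW (a b : ℕ) : Integrable (fun x => y3 x ^ a * yb x ^ b) nu3 :=
  integrable_nu3 ((cont_y3.pow a).mul (cont_yb.pow b))

lemma iU (a b : ℕ) : Integrable (fun x => y3 x ^ a * yb x ^ b * pb x) nu3 :=
  integrable_nu3 (((cont_y3.pow a).mul (cont_yb.pow b)).mul cont_pb)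

lemma MW_off {a b : ℕ} (h : a ≠ b) : MW a b = 0 := by
  have h0 := int_SE 0 0 a b
  have e : ∀ x, SE 0 0 a b x = ((a : ℂ) - b) * (y3 x ^ a * yb x ^ b) := by
    intro x
    have e1 := pw a (y3 x)
    have e2 := pw b (yb x)
    have hy : y3 x = ex (x 0) + ex (x 1) + ex (x 2) := rfl
    have hb : yb x = eb (x 0) + eb (x 1) + eb (x 2) := rfl
    unfold SE EE
    simp only [pow_zero, zero_add, pow_one, Nat.cast_zero]
    linear_combination yb x ^ b * e1 - y3 x ^ a * e2 - a * y3 x ^ (a - 1) * yb x ^ b * hy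
      + b * y3 x ^ a * yb x ^ (b - 1) * hb
  simp only [e, integral_const_mul] at h0
  have hne : (a : ℂ) - b ≠ 0 := sub_ne_zero.2 (by exact_mod_cast h)
  exact (mul_eq_zero.1 h0).resolve_left hne

lemma MU_off {a b : ℕ} (h : a ≠ b + 3) : MU a b = 0 := by
  have h0 := int_SE 1 1 a b
  have e : ∀ x, SE 1 1 a b x = ((a : ℂ) - (b + 3 : ℕ)) * (y3 x ^ a * yb x ^ b * pb x) := by
    intro x
    have e1 := pw a (y3 x)
    have e2 := pw b (yb x)
    have hy : y3 x = ex (x 0) + ex (x 1) + ex (x 2) := rfl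
    have hb : yb x = eb (x 0) + eb (x 1) + eb (x 2) := rfl
    unfold SE EE pb
    simp only [pow_one, Nat.cast_one]
    push_cast
    linear_combination (eb (x 0) * eb (x 1) * eb (x 2)) * (yb x ^ b * e1 - y3 x ^ a * e2
      - a * y3 x ^ (a - 1) * yb x ^ b * hy + b * y3 x ^ a * yb x ^ (b - 1) * hb)
  simp only [e, integral_const_mul] at h0
  have hne : (a : ℂ) - (b + 3 : ℕ) ≠ 0 := sub_ne_zero.2 (by exact_mod_cast h)
  exact (mul_eq_zero.1 h0).resolve_left hne

lemma sum1 (x : Fin 3 → ℝ) : ex (x 0) * eb (x 0) + ex (x 1) * eb (x 1) + ex (x 2) * eb (x 2) = 3 := by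
  rw [ex_mul_eb, ex_mul_eb, ex_mul_eb]; norm_num

lemma sum2 (x : Fin 3 → ℝ) :
    eb (x 0) ^ 2 + eb (x 1) ^ 2 + eb (x 2) ^ 2 = yb x ^ 2 - 2 * pb x * y3 x := by
  unfold yb pb y3
  linear_combination 2 * eb (x 1) * eb (x 2) * ex_mul_eb (x 0)
    + 2 * eb (x 0) * eb (x 2) * ex_mul_eb (x 1) + 2 * eb (x 0) * eb (x 1) * ex_mul_eb (x 2)

lemma sum3 (x : Fin 3 → ℝ) :
    eb (x 0) ^ 3 + eb (x 1) ^ 3 + eb (x 2) ^ 3 = yb x ^ 3 - 3 * (y3 x * yb x - 1) * pb x := by
  unfold yb pb y3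
  linear_combination 3 * (eb (x 0) + eb (x 1) + eb (x 2)) * (eb (x 1) * eb (x 2) * ex_mul_eb (x 0)
    + eb (x 0) * eb (x 2) * ex_mul_eb (x 1) + eb (x 0) * eb (x 1) * ex_mul_eb (x 2))

lemma sum4 (x : Fin 3 → ℝ) :
    ex (x 0) * eb (x 0) ^ 2 + ex (x 1) * eb (x 1) ^ 2 + ex (x 2) * eb (x 2) ^ 2 = yb x := by
  unfold yb
  linear_combination eb (x 0) * ex_mul_eb (x 0) + eb (x 1) * ex_mul_eb (x 1)
    + eb (x 2) * ex_mul_eb (x 2)

lemma R10 : MW 1 1 = 3 * MW 0 0 := by
  have h0 := int_SE 0 1 1 0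
  have e : ∀ x, SE 0 1 1 0 x = 3 * (y3 x ^ 0 * yb x ^ 0) - y3 x ^ 1 * yb x ^ 1 := by
    intro x
    have hb : yb x = eb (x 0) + eb (x 1) + eb (x 2) := rfl
    unfold SE EE
    simp only [pow_zero, pow_one, Nat.cast_zero, Nat.cast_one, Nat.sub_self]
    linear_combination sum1 x + y3 x * hb
  simp only [e] at h0
  rw [integral_sub ((iW 0 0).const_mul _) (iW 1 1), integral_const_mul] at h0
  unfold MW
  linear_combination -h0

lemma R1 (j : ℕ) : 2 * ((j : ℂ) + 1) * MU (j + 3) j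
    = (j + 2) * (MW (j + 2) (j + 2) - 3 * MW (j + 1) (j + 1)) := by
  have h0 := int_SE 0 1 (j + 2) (j + 1)
  have e : ∀ x, SE 0 1 (j + 2) (j + 1) x = 2 * ((j : ℂ) + 1) * (y3 x ^ (j + 3) * yb x ^ j * pb x)
      + (-(j + 2)) * (y3 x ^ (j + 2) * yb x ^ (j + 2))
      + (j + 2) * 3 * (y3 x ^ (j + 1) * yb x ^ (j + 1)) + 0 * (y3 x ^ 0 * yb x ^ 0) := by
    intro x
    have hb : yb x = eb (x 0) + eb (x 1) + eb (x 2) := rfl
    unfold SE EE
    simp only [pow_zero, pow_one, Nat.cast_one, Nat.add_sub_cancel,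
      show j + 2 - 1 = j + 1 from rfl]
    push_cast
    linear_combination (j + 2) * y3 x ^ (j + 1) * yb x ^ (j + 1) * sum1 x
      - (j + 1) * y3 x ^ (j + 2) * yb x ^ j * sum2 x + y3 x ^ (j + 2) * yb x ^ (j + 1) * hb
  simp only [e] at h0
  rw [lin4 (iU _ _) (iW _ _) (iW _ _) (iW _ _)] at h0
  unfold MW MU
  linear_combination h0

lemma R20 : 2 * (MW 2 2 - MW 1 1) = 4 * MU 3 0 := by
  have h0 := int_SE 0 2 2 0
  have e : ∀ x, SE 0 2 2 0 x = 4 * (y3 x ^ 3 * yb x ^ 0 * pb x)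
      + (-2) * (y3 x ^ 2 * yb x ^ 2) + 2 * (y3 x ^ 1 * yb x ^ 1) + 0 * (y3 x ^ 0 * yb x ^ 0) := by
    intro x
    unfold SE EE
    simp only [pow_zero, pow_one, Nat.cast_zero, show 2 - 1 = 1 from rfl]
    push_cast
    linear_combination 2 * y3 x * sum4 x - 2 * y3 x ^ 2 * sum2 x
  simp only [e] at h0
  rw [lin4 (iU _ _) (iW _ _) (iW _ _) (iW _ _)] at h0
  unfold MW MU
  linear_combination -h0

lemma R2 (j : ℕ) : ((j : ℂ) + 3) * (MW (j + 3) (j + 3) - MW (j + 2) (j + 2))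
    = (3 * j + 7) * MU (j + 4) (j + 1) - 3 * (j + 1) * MU (j + 3) j := by
  have h0 := int_SE 0 2 (j + 3) (j + 1)
  have e : ∀ x, SE 0 2 (j + 3) (j + 1) x =
      (3 * (j : ℂ) + 7) * (y3 x ^ (j + 4) * yb x ^ (j + 1) * pb x)
        + (-(3 * (j + 1))) * (y3 x ^ (j + 3) * yb x ^ j * pb x)
      + (-(j + 3)) * (y3 x ^ (j + 3) * yb x ^ (j + 3))
        + (j + 3) * (y3 x ^ (j + 2) * yb x ^ (j + 2)) := by
    intro x
    unfold SE EE
    simp only [pow_zero, Nat.add_sub_cancel, show j + 3 - 1 = j + 2 from rfl]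
    push_cast
    linear_combination (j + 3) * y3 x ^ (j + 2) * yb x ^ (j + 1) * sum4 x
      - 2 * y3 x ^ (j + 3) * yb x ^ (j + 1) * sum2 x - (j + 1) * y3 x ^ (j + 3) * yb x ^ j * sum3 x
  simp only [e] at h0
  rw [lin4 (iU _ _) (iU _ _) (iW _ _) (iW _ _)] at h0
  unfold MW MU
  linear_combination -h0

lemma MW00 : MW 0 0 = ((nu3.real univ : ℝ) : ℂ) := by
  unfold MW
  simp

lemma nu3_pos : 0 < nu3.real univ := by
  unfold nu3
  rw [Measure.real, Measure.pi_univ]
  simp only [Finset.prod_const, Finset.card_univ, Fintype.card_fin, ENNReal.toReal_pow]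
  refine pow_pos ?_ _
  unfold nu
  rw [Measure.restrict_apply_univ, Real.volume_Icc, ENNReal.toReal_ofReal (by
    have := Real.pi_pos; linarith)]
  have := Real.pi_pos
  linarith

/-- the recurrences determine both sequences -/
lemma uniq (W V : ℕ → ℂ) (h0 : W 0 = 0) (h10 : W 1 = 3 * W 0)
    (h1 : ∀ j : ℕ, 2 * ((j : ℂ) + 1) * V j = (j + 2) * (W (j + 2) - 3 * W (j + 1)))
    (h20 : 2 * (W 2 - W 1) = 4 * V 0)
    (h2 : ∀ j : ℕ, ((j : ℂ) + 3) * (W (j + 3) - W (j + 2))
      = (3 * j + 7) * V (j + 1) - 3 * (j + 1) * V j) :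
    ∀ k, W k = 0 ∧ V k = 0 := by
  have w1 : W 1 = 0 := by rw [h10, h0, mul_zero]
  have w2 : W 2 = 0 := by
    have := h1 0
    simp only [Nat.cast_zero, zero_add] at this
    linear_combination (-1 / 2 : ℂ) * h20 - this + 5 * w1
  have key : ∀ j : ℕ, W (j + 1) = 0 ∧ W (j + 2) = 0 := by
    intro j
    induction j with
    | zero => exact ⟨w1, w2⟩
    | succ j ih =>
      refine ⟨ih.2, ?_⟩
      have a1 := h1 j
      have a2 := h1 (j + 1)
      have a3 := h2 j
      rw [ih.1, ih.2] at a1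
      rw [ih.2] at a3
      push_cast at a2
      rw [show j + 1 + 1 = j + 2 from rfl, show j + 1 + 2 = j + 3 from rfl, ih.2] at a2
      have hne : ((j : ℂ) + 3) ≠ 0 := by exact_mod_cast (by omega : j + 3 ≠ 0)
      have : ((j : ℂ) + 3) ^ 2 * W (j + 3) = 0 := by
        linear_combination (-2 * ((j : ℂ) + 2)) * a3 - (3 * j + 7) * a2 + 3 * (j + 2) * a1
      exact (mul_eq_zero.1 this).resolve_left (pow_ne_zero _ hne)
  intro k
  constructor
  · cases k with
    | zero => exact h0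
    | succ j => exact (key j).1
  · have a1 := h1 k
    rw [(key k).1, (key k).2] at a1
    have hne : 2 * ((k : ℂ) + 1) ≠ 0 := by exact_mod_cast (by omega : 2 * (k + 1) ≠ 0)
    refine (mul_eq_zero.1 ?_).resolve_left hne
    linear_combination a1

end

end Pool.Agent.Lib.MP_cbe5a6_an.Law
end

-- part Pool.Agent.Lib.MP_cbe5a6_an.Law2
section

/-! Moments of the exact densities and integrals of monomials over the disc. -/

set_option autoImplicit false

namespace Pool.Agent.Lib.MP_cbe5a6_an.Law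

open MeasureTheory Set Filter Topology

noncomputable section

variable {σ J m : ℝ → ℝ}

lemma ilog : IntervalIntegrable (fun s : ℝ => Real.log |s|) volume (-1) 8 := by
  simp only [Real.log_abs]
  exact intervalIntegral.intervalIntegrable_log'

lemma uI : uIcc (-1 : ℝ) 8 = Icc (-1 : ℝ) 8 := uIcc_of_le (by norm_num)

lemma iσ (h : Sol σ J m) : IntervalIntegrable σ volume (-1) 8 := by
  have h1 : IntervalIntegrable (fun s => σ s + Real.log |s|) volume (-1) 8 :=
    ContinuousOn.intervalIntegrable (by rw [uI]; exact h.cσ)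
  have h2 := h1.sub ilog
  simpa only [add_sub_cancel_right] using h2

lemma im (h : Sol σ J m) : IntervalIntegrable m volume (-1) 8 := by
  have h1 : IntervalIntegrable (fun s => m s - Real.log |s|) volume (-1) 8 :=
    ContinuousOn.intervalIntegrable (by rw [uI]; exact h.cm)
  have h2 := h1.add ilog
  simpa only [sub_add_cancel] using h2

lemma ipow {g : ℝ → ℝ} (hg : IntervalIntegrable g volume (-1) 8) (k : ℕ) :
    IntervalIntegrable (fun s => (s + 1) ^ k * g s) volume (-1) 8 :=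
  hg.continuousOn_mul (by fun_prop)

/-- moments of a density in the variable `t = s + 1` -/
def mo (g : ℝ → ℝ) (k : ℕ) : ℝ := ∫ s in (-1 : ℝ)..8, (s + 1) ^ k * g s

lemma lin4r {f1 f2 f3 f4 : ℝ → ℝ} (h1 : IntervalIntegrable f1 volume (-1) 8)
    (h2 : IntervalIntegrable f2 volume (-1) 8) (h3 : IntervalIntegrable f3 volume (-1) 8)
    (h4 : IntervalIntegrable f4 volume (-1) 8) (c1 c2 c3 c4 : ℝ) :
    IntervalIntegrable (fun x => c1 * f1 x + c2 * f2 x + c3 * f3 x + c4 * f4 x) volume (-1) 8 ∧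
    ∫ x in (-1 : ℝ)..8, (c1 * f1 x + c2 * f2 x + c3 * f3 x + c4 * f4 x)
      = (c1 * ∫ x in (-1 : ℝ)..8, f1 x) + (c2 * ∫ x in (-1 : ℝ)..8, f2 x)
        + (c3 * ∫ x in (-1 : ℝ)..8, f3 x) + c4 * ∫ x in (-1 : ℝ)..8, f4 x := by
  have a1 : IntervalIntegrable (fun x => c1 * f1 x + c2 * f2 x) volume (-1) 8 :=
    (h1.const_mul c1).add (h2.const_mul c2)
  have a2 : IntervalIntegrable (fun x => c1 * f1 x + c2 * f2 x + c3 * f3 x) volume (-1) 8 :=
    a1.add (h3.const_mul c3)
  refine ⟨a2.add (h4.const_mul c4), ?_⟩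
  rw [intervalIntegral.integral_add a2 (h4.const_mul c4),
    intervalIntegral.integral_add a1 (h3.const_mul c3),
    intervalIntegral.integral_add (h1.const_mul c1) (h2.const_mul c2),
    intervalIntegral.integral_const_mul, intervalIntegral.integral_const_mul,
    intervalIntegral.integral_const_mul, intervalIntegral.integral_const_mul]

lemma ftc (h : Sol σ J m) (f : ℝ → ℝ) (c1 c2 c3 c4 : ℝ) (k1 k2 k3 k4 : ℕ)
    (hc : ContinuousOn f (Icc (-1 : ℝ) 8)) (ha : f (-1) = 0) (hb : f 8 = 0)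
    (hd : ∀ s ∈ Ioo (-1 : ℝ) 8, s ≠ 0 → HasDerivAt f
      (c1 * ((s + 1) ^ k1 * σ s) + c2 * ((s + 1) ^ k2 * σ s) + c3 * ((s + 1) ^ k3 * m s)
        + c4 * ((s + 1) ^ k4 * m s)) s) :
    c1 * mo σ k1 + c2 * mo σ k2 + c3 * mo m k3 + c4 * mo m k4 = 0 := by
  obtain ⟨i1, i2⟩ := lin4r (ipow (iσ h) k1) (ipow (iσ h) k2) (ipow (im h) k3) (ipow (im h) k4)
    c1 c2 c3 c4
  have := integral_eq_of_hasDerivAt_off_countable_of_le f _ (by norm_num : (-1 : ℝ) ≤ 8)
    (countable_singleton (0 : ℝ)) hc (fun s hs => hd s hs.1 hs.2) i1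
  rw [i2, ha, hb, sub_zero] at this
  exact this

lemma hdp (k : ℕ) (s : ℝ) : HasDerivAt (fun s : ℝ => (s + 1) ^ (k + 1)) (((k : ℝ) + 1) * (s + 1) ^ k) s := by
  have := ((hasDerivAt_id s).add_const 1).pow (k + 1)
  refine HasDerivAt.congr_deriv this ?_
  simp

lemma S10 (h : Sol σ J m) : mo σ 1 = 3 * mo σ 0 := by
  have := ftc h J (-1) 3 0 0 1 0 0 0 h.cJ h.J1 h.J8 (fun s hs h0 => by
    refine (h.dJ s hs h0).congr_deriv ?_
    ring)
  linarith

lemma S1 (h : Sol σ J m) (j : ℕ) :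
    2 * ((j : ℝ) + 1) * mo m (j + 3) = (j + 2) * (mo σ (j + 2) - 3 * mo σ (j + 1)) := by
  have := ftc h (fun s => (s + 1) ^ (j + 1) * J s) (-(j + 2)) (3 * (j + 2)) (2 * (j + 1)) 0
    (j + 2) (j + 1) (j + 3) 0 (ContinuousOn.mul (by fun_prop) h.cJ) (by simp [h.J1]) (by simp [h.J8])
    (fun s hs h0 => by
      refine ((hdp j s).mul (h.dJ s hs h0)).congr_deriv ?_
      have e := h.hm s ⟨hs.1.le, hs.2.le⟩ h0
      linear_combination (-(j + 1) * (s + 1) ^ j) * e)
  linarith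

/-- second flux -/
def J2 (σ J : ℝ → ℝ) (s : ℝ) : ℝ := -(PP s * σ s) / 2 - 3 / 2 * (s * J s)

lemma cJ2 (h : Sol σ J m) : ContinuousOn (J2 σ J) (Icc (-1 : ℝ) 8) := by
  have e : J2 σ J = fun s => -((s + 1) * (s - 8) * (s * (σ s + Real.log |s|) - s * Real.log s)) / 2
      - 3 / 2 * (s * J s) := by
    funext s
    unfold J2 PP
    rw [Real.log_abs]
    ring
  rw [e]
  have h1 := h.cσ
  have h2 := h.cJ
  have h3 : ContinuousOn (fun s : ℝ => s * Real.log s) (Icc (-1 : ℝ) 8) :=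
    Real.continuous_mul_log.continuousOn
  refine ContinuousOn.sub (ContinuousOn.div_const (ContinuousOn.neg (ContinuousOn.mul (by fun_prop)
    ((continuousOn_id.mul h1).sub h3))) _) (continuousOn_const.mul (continuousOn_id.mul h2))

lemma dJ2 (h : Sol σ J m) (s : ℝ) (hs : s ∈ Ioo (-1 : ℝ) 8) (h0 : s ≠ 0) :
    HasDerivAt (J2 σ J) (4 * (s + 1) * σ s - 2 * J s) s := by
  have hP : HasDerivAt PP (3 * s ^ 2 - 14 * s - 8) s := by
    have := ((hasDerivAt_id s).mul ((hasDerivAt_id s).add_const 1)).mul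
      ((hasDerivAt_id s).sub_const 8)
    refine HasDerivAt.congr_deriv this ?_
    simp only [id, Pi.mul_apply]
    ring
  have hne : PP s ≠ 0 := by
    unfold PP
    exact mul_ne_zero (mul_ne_zero h0 (by linarith [hs.1])) (by linarith [hs.2])
  have := (((hP.mul (h.dσ s hs h0)).neg).div_const 2).sub
    (((hasDerivAt_id s).mul (h.dJ s hs h0)).const_mul (3 / 2))
  refine HasDerivAt.congr_deriv this ?_
  simp only [id]
  field_simp
  ring

lemma J2a (h : Sol σ J m) : J2 σ J (-1) = 0 := by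
  unfold J2 PP
  rw [h.J1]
  ring

lemma J2b (h : Sol σ J m) : J2 σ J 8 = 0 := by
  unfold J2 PP
  rw [h.J8]
  ring

lemma S20 (h : Sol σ J m) : 2 * (mo σ 2 - mo σ 1) = 4 * mo m 3 := by
  have := ftc h (J2 σ J) 2 (-2) (-4) 0 2 1 3 0 (cJ2 h) (J2a h) (J2b h) (fun s hs h0 => by
    refine (dJ2 h s hs h0).congr_deriv ?_
    have e := h.hm s ⟨hs.1.le, hs.2.le⟩ h0
    linear_combination 2 * e)
  linarith

lemma S2 (h : Sol σ J m) (j : ℕ) : ((j : ℝ) + 3) * (mo σ (j + 3) - mo σ (j + 2))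
    = (3 * j + 7) * mo m (j + 4) - 3 * (j + 1) * mo m (j + 3) := by
  have := ftc h (fun s => (s + 1) ^ (j + 1) * J2 σ J s) (j + 3) (-(j + 3)) (-(3 * j + 7))
    (3 * (j + 1)) (j + 3) (j + 2) (j + 4) (j + 3) (ContinuousOn.mul (by fun_prop) (cJ2 h))
    (by simp [J2a h]) (by simp [J2b h])
    (fun s hs h0 => by
      refine ((hdp j s).mul (dJ2 h s hs h0)).congr_deriv ?_
      have e := h.hm s ⟨hs.1.le, hs.2.le⟩ h0
      unfold J2 PP
      linear_combination (2 * (s + 1) ^ (j + 1) + 3 / 2 * (j + 1) * s * (s + 1) ^ j) * e)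
  linarith

lemma mo_pos (h : Sol σ J m) : 0 < mo σ 0 := by
  unfold mo
  simp only [pow_zero, one_mul]
  have i1 : IntervalIntegrable σ volume (-1) 0 :=
    (iσ h).mono_set (by rw [uI, uIcc_of_le (by norm_num)]; exact Icc_subset_Icc le_rfl (by norm_num))
  have i2 : IntervalIntegrable σ volume 0 8 :=
    (iσ h).mono_set (by rw [uI, uIcc_of_le (by norm_num)]; exact Icc_subset_Icc (by norm_num) le_rfl)
  rw [← intervalIntegral.integral_add_adjacent_intervals i1 i2]
  have p1 := intervalIntegral.intervalIntegral_pos_of_pos_on i1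
    (fun s hs => h.pos s ⟨hs.1, by linarith [hs.2]⟩ hs.2.ne) (by norm_num)
  have p2 := intervalIntegral.intervalIntegral_pos_of_pos_on i2
    (fun s hs => h.pos s ⟨by linarith [hs.1], hs.2⟩ hs.1.ne') (by norm_num)
  linarith

/-! ### the disc -/

/-- profile in the variable `t = |w| ^ 2` -/
def prof (g : ℝ → ℝ) (k : ℕ) : ℝ → ℝ := (Iic (9 : ℝ)).indicator fun t => t ^ k * g (t - 1)

lemma prof_int (g : ℝ → ℝ) (k : ℕ) : ∫ t in Ioi (0 : ℝ), prof g k t = mo g k := by
  unfold prof mo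
  rw [setIntegral_indicator measurableSet_Iic, Ioi_inter_Iic,
    ← intervalIntegral.integral_of_le (by norm_num)]
  have := intervalIntegral.integral_comp_add_right (a := -1) (b := 8)
    (fun t => t ^ k * g (t - 1)) 1
  simp only [add_sub_cancel_right] at this
  rw [this]
  norm_num

lemma prof_integrable {g : ℝ → ℝ} (hg : IntervalIntegrable g volume (-1) 8) :
    IntegrableOn (prof g 0) (Ioi (0 : ℝ)) := by
  unfold prof
  rw [IntegrableOn, integrable_indicator_iff measurableSet_Iic, IntegrableOn,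
    Measure.restrict_restrict measurableSet_Iic, inter_comm, Ioi_inter_Iic]
  have := hg.comp_sub_right 1
  rw [show (-1 : ℝ) + 1 = 0 by norm_num, show (8 : ℝ) + 1 = 9 by norm_num] at this
  simp only [pow_zero, one_mul]
  exact this.1

lemma prof_sq (g : ℝ → ℝ) (k : ℕ) (w : ℂ) : prof g k (‖w‖ ^ 2) =
    (Metric.closedBall (0 : ℂ) 3).indicator
      (fun w => Complex.normSq w ^ k * g (Complex.normSq w - 1)) w := by
  unfold prof
  by_cases hw : w ∈ Metric.closedBall (0 : ℂ) 3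
  · have h1 : ‖w‖ ≤ 3 := by simpa using hw
    rw [indicator_of_mem hw, indicator_of_mem, Complex.normSq_eq_norm_sq]
    show ‖w‖ ^ 2 ≤ 9
    nlinarith [norm_nonneg w]
  · have h1 : 3 < ‖w‖ := by simpa using hw
    rw [indicator_of_notMem hw, indicator_of_notMem]
    show ¬ ‖w‖ ^ 2 ≤ 9
    nlinarith

lemma disc_integrable {g : ℝ → ℝ} (hg : IntervalIntegrable g volume (-1) 8) :
    IntegrableOn (fun w : ℂ => g (Complex.normSq w - 1)) (Metric.closedBall (0 : ℂ) 3) := by
  have h1 := (integrableOn_Ioi_comp_rpow_iff (prof g 0) (two_ne_zero)).2 (prof_integrable hg)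
  have h2 : IntegrableOn (fun y : ℝ => y ^ (Module.finrank ℝ ℂ - 1) • prof g 0 (y ^ 2)) (Ioi 0) := by
    refine (h1.const_mul (1 / 2)).congr (Eventually.of_forall fun y => ?_)
    simp only [Complex.finrank_real_complex, smul_eq_mul, Real.rpow_two]
    norm_num
    ring
  have h3 := (integrable_fun_norm_addHaar (volume : Measure ℂ) (f := fun y => prof g 0 (y ^ 2))).2 h2
  simp only [prof_sq, pow_zero, one_mul] at h3
  exact (integrable_indicator_iff measurableSet_closedBall).1 h3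

lemma disc_diag (g : ℝ → ℝ) (k : ℕ) :
    ∫ w in Metric.closedBall (0 : ℂ) 3, Complex.normSq w ^ k * g (Complex.normSq w - 1)
      = Real.pi * mo g k := by
  have h1 := integral_fun_norm_addHaar (volume : Measure ℂ) (fun y => prof g k (y ^ 2))
  simp only [prof_sq] at h1
  rw [integral_indicator measurableSet_closedBall] at h1
  have h2 := integral_comp_rpow_Ioi_of_pos (g := prof g k) (p := 2) two_pos
  rw [prof_int] at h2
  have h3 : ∫ y in Ioi (0 : ℝ), y ^ (Module.finrank ℝ ℂ - 1) • prof g k (y ^ 2) = mo g k / 2 := by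
    rw [← h2, ← integral_div]
    refine integral_congr_ae (Eventually.of_forall fun y => ?_)
    simp only [Complex.finrank_real_complex, smul_eq_mul, Real.rpow_two]
    norm_num
    ring
  rw [h1, h3, Complex.finrank_real_complex, Measure.real, Complex.volume_ball]
  simp
  ring

lemma disc_rot (f : ℂ → ℂ) (u : Circle) :
    ∫ w in Metric.closedBall (0 : ℂ) 3, f (u * w) = ∫ w in Metric.closedBall (0 : ℂ) 3, f w := by
  have mp := (rotation u).measurePreserving
  have := mp.setIntegral_preimage_emb (rotation u).toHomeomorph.measurableEmbedding f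
    (Metric.closedBall (0 : ℂ) 3)
  have e : (rotation u) ⁻¹' Metric.closedBall (0 : ℂ) 3 = Metric.closedBall (0 : ℂ) 3 := by
    ext w
    simp only [mem_preimage, mem_closedBall_zero_iff, LinearIsometryEquiv.norm_map]
  rw [e] at this
  simpa only [rotation_apply] using this

lemma disc_off (g : ℝ → ℝ) {a b : ℕ} (hab : a ≠ b) :
    ∫ w in Metric.closedBall (0 : ℂ) 3,
      w ^ a * (starRingEnd ℂ w) ^ b * (g (Complex.normSq w - 1) : ℝ) = 0 := by
  have hd : ((a : ℝ) - b) ≠ 0 := sub_ne_zero.2 (by exact_mod_cast hab)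
  set θ : ℝ := Real.pi / ((a : ℝ) - b) with hθ
  have h1 := disc_rot (fun w => w ^ a * (starRingEnd ℂ w) ^ b * (g (Complex.normSq w - 1) : ℝ))
    (Circle.exp θ)
  have hu : ((Circle.exp θ : Circle) : ℂ) ^ a * (starRingEnd ℂ (Circle.exp θ : Circle)) ^ b = -1 := by
    have e1 : ((Circle.exp θ : Circle) : ℂ) = ex θ := rfl
    rw [e1]
    show ex θ ^ a * eb θ ^ b = -1
    rw [eb_eq]
    unfold ex
    rw [← Complex.exp_nat_mul, ← Complex.exp_nat_mul, ← Complex.exp_add, ← Complex.exp_pi_mul_I]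
    congr 1
    have : (θ : ℂ) * ((a : ℂ) - b) = Real.pi := by
      have : θ * ((a : ℝ) - b) = Real.pi := by rw [hθ]; field_simp
      exact_mod_cast this
    linear_combination Complex.I * this
  have h2 : ∀ w : ℂ, ((Circle.exp θ : Circle) * w) ^ a * (starRingEnd ℂ ((Circle.exp θ : Circle) * w)) ^ b
      * (g (Complex.normSq ((Circle.exp θ : Circle) * w) - 1) : ℝ)
      = -(w ^ a * (starRingEnd ℂ w) ^ b * (g (Complex.normSq w - 1) : ℝ)) := by
    intro w
    rw [map_mul, Complex.normSq_mul, Circle.normSq_coe, one_mul, mul_pow, mul_pow]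
    linear_combination (w ^ a * (starRingEnd ℂ w) ^ b * (g (Complex.normSq w - 1) : ℝ)) * hu
  simp only [h2, integral_neg] at h1
  linear_combination (-1 / 2 : ℂ) * h1

lemma disc_on (g : ℝ → ℝ) (k : ℕ) :
    ∫ w in Metric.closedBall (0 : ℂ) 3,
      w ^ k * (starRingEnd ℂ w) ^ k * (g (Complex.normSq w - 1) : ℝ) = (Real.pi * mo g k : ℝ) := by
  rw [← disc_diag, ← integral_complex_ofReal]
  refine integral_congr_ae (Eventually.of_forall fun w => ?_)
  show w ^ k * (starRingEnd ℂ w) ^ k * (g (Complex.normSq w - 1) : ℝ)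
    = ((Complex.normSq w ^ k * g (Complex.normSq w - 1) : ℝ) : ℂ)
  rw [← mul_pow, Complex.mul_conj]
  push_cast
  rfl

end

end Pool.Agent.Lib.MP_cbe5a6_an.Law
end
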