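import Pool.Agent.Lib.MP_cbe5a6_an.Conv1

-- part Pool.Agent.Lib.MP_cbe5a6_an.Can
section

/-! Positivity of the trilinear form from positivity of the two quadratic forms. -/

set_option autoImplicit false

namespace Pool.Agent.Lib.MP_cbe5a6_an

open MeasureTheory Set Filter Topology

noncomputable section

namespace Can

/-- the modulated coefficients -/
def xx (h : ℝ → ℝ) (n : ℤ) (d : ℝ) : ℂ := HH h (2 * n) * ex (((2 * -n : ℤ) : ℝ) * d)
def xi (h : ℝ → ℝ) (d : ℝ) : ℝ := (xx h 1 d).re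
def aa (h : ℝ → ℝ) (n : ℕ) (d : ℝ) : ℝ := if n = 0 then 0 else (xx h n d).re - xi h d
def bb (h : ℝ → ℝ) (n : ℕ) (d : ℝ) : ℝ := if n = 0 then 0 else (xx h n d).im
/-- the positive functional -/
def av (h : ℝ → ℝ) (F : ℝ → ℝ) : ℝ := ∫ d, h d * F d ∂nu
def ta (h : ℝ → ℝ) (p q : ℤ) : ℝ :=
  (HH h (2 * p) * HH h (2 * q) * HH h (2 * (-p - q))).re

theorem xx_cont (h : ℝ → ℝ) (n : ℤ) : Continuous (xx h n) :=
  continuous_const.mul (ex_cont.comp (by fun_prop))

theorem xi_cont (h : ℝ → ℝ) : Continuous (xi h) := Complex.continuous_re.comp (xx_cont h 1)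

theorem aa_cont (h : ℝ → ℝ) (n : ℕ) : Continuous (aa h n) := by
  unfold aa
  split_ifs
  · exact continuous_const
  · exact (Complex.continuous_re.comp (xx_cont h n)).sub (xi_cont h)

theorem bb_cont (h : ℝ → ℝ) (n : ℕ) : Continuous (bb h n) := by
  unfold bb
  split_ifs
  · exact continuous_const
  · exact Complex.continuous_im.comp (xx_cont h n)

theorem xx_neg (h : ℝ → ℝ) (n : ℤ) (d : ℝ) : xx h (-n) d = starRingEnd ℂ (xx h n d) := by
  unfold xx
  rw [map_mul, ex_conj, ← HH_neg]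
  congr 2
  · ring
  · push_cast; ring

theorem xx_bound {h : ℝ → ℝ} {M : ℝ} (hM : ∀ x, |h x| ≤ M) (n : ℤ) (d : ℝ) :
    ‖xx h n d‖ ≤ M * nu.real univ := by
  unfold xx HH
  rw [norm_mul, ex_norm, mul_one]
  refine norm_integral_le_of_norm_le_const (Eventually.of_forall fun a => ?_)
  rw [norm_mul, ex_norm, mul_one, Complex.norm_real, Real.norm_eq_abs]
  exact hM a

theorem xx_re (h : ℝ → ℝ) {p : ℤ} (hp : p ≠ 0) (d : ℝ) :
    (xx h p d).re = xi h d + aa h p.natAbs d := by
  have : p.natAbs ≠ 0 := by omega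
  rw [aa, if_neg this]
  rcases lt_or_gt_of_ne hp with hp | hp
  · have e : ((p.natAbs : ℕ) : ℤ) = -p := by omega
    rw [e, xx_neg, Complex.conj_re]; ring
  · have e : ((p.natAbs : ℕ) : ℤ) = p := by omega
    rw [e]; ring

theorem xx_im (h : ℝ → ℝ) {p : ℤ} (hp : p ≠ 0) (d : ℝ) :
    (xx h p d).im = (p.sign : ℤ) * bb h p.natAbs d := by
  have : p.natAbs ≠ 0 := by omega
  rw [bb, if_neg this]
  rcases lt_or_gt_of_ne hp with hp | hp
  · have e : ((p.natAbs : ℕ) : ℤ) = -p := by omega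
    rw [e, xx_neg, Complex.conj_im, Int.sign_eq_neg_one_of_neg hp]; push_cast; ring
  · have e : ((p.natAbs : ℕ) : ℤ) = p := by omega
    rw [e, Int.sign_eq_one_of_pos hp]; push_cast; ring

theorem ta_eq {h : ℝ → ℝ} (hc : Continuous h) (p q : ℤ) :
    ta h p q = av h fun d => (xx h p d * xx h q d).re := by
  have hi : Integrable (fun d => (h d : ℂ) * (xx h p d * xx h q d)) nu :=
    nu_integrable ((Complex.continuous_ofReal.comp hc).mul ((xx_cont h p).mul (xx_cont h q)))
  have e1 : av h (fun d => (xx h p d * xx h q d).re)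
      = (∫ d, (h d : ℂ) * (xx h p d * xx h q d) ∂nu).re := by
    have := integral_re hi
    simp only [RCLike.re_to_complex, Complex.re_ofReal_mul] at this
    exact this
  rw [e1, ta]
  congr 1
  conv_lhs => rw [HH.eq_1 h (2 * (-p - q))]
  rw [← integral_const_mul]
  refine integral_congr_ae (Eventually.of_forall fun d => ?_)
  have e : ((2 * (-p - q) : ℤ) : ℝ) * d = ((2 * -p : ℤ) : ℝ) * d + ((2 * -q : ℤ) : ℝ) * d := by
    push_cast; ring
  simp only [xx, e, ex_add]
  ring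

theorem av_add {h F G : ℝ → ℝ} (hc : Continuous h) (hF : Continuous F) (hG : Continuous G) :
    av h (fun d => F d + G d) = av h F + av h G := by
  unfold av
  rw [← integral_add (f := fun d => h d * F d) (g := fun d => h d * G d)
    (nu_integrable (hc.mul hF)) (nu_integrable (hc.mul hG))]
  exact integral_congr_ae (Eventually.of_forall fun d => by ring)

theorem av_smul (h F : ℝ → ℝ) (r : ℝ) : av h (fun d => r * F d) = r * av h F := by
  unfold av
  rw [← integral_const_mul]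
  exact integral_congr_ae (Eventually.of_forall fun d => by ring)

theorem av_bound {h F : ℝ → ℝ} {M N : ℝ} (hM : ∀ x, |h x| ≤ M) (hN : ∀ x, |F x| ≤ N) :
    |av h F| ≤ M * N * nu.real univ := by
  unfold av
  rw [← Real.norm_eq_abs]
  refine norm_integral_le_of_norm_le_const (Eventually.of_forall fun a => ?_)
  rw [Real.norm_eq_abs, abs_mul]
  exact mul_le_mul (hM a) (hN a) (abs_nonneg _) ((abs_nonneg _).trans (hM 0))

theorem ta_split {h : ℝ → ℝ} (hc : Continuous h) (p q : ℤ) (hp : p ≠ 0) (hq : q ≠ 0) :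
    ta h p q = av h (fun d => xi h d * xi h d) + av h (fun d => xi h d * aa h p.natAbs d)
      + av h (fun d => xi h d * aa h q.natAbs d)
      + av h (fun d => aa h p.natAbs d * aa h q.natAbs d)
      - (p.sign * q.sign : ℤ) * av h (fun d => bb h p.natAbs d * bb h q.natAbs d) := by
  have c1 := xi_cont h
  have c2 := aa_cont h p.natAbs
  have c3 := aa_cont h q.natAbs
  have c4 := bb_cont h p.natAbs
  have c5 := bb_cont h q.natAbs
  rw [ta_eq hc, sub_eq_add_neg, ← neg_mul, ← av_smul, ← av_add hc (by fun_prop) (by fun_prop),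
    ← av_add hc (by fun_prop) (by fun_prop), ← av_add hc (by fun_prop) (by fun_prop),
    ← av_add hc (by fun_prop) (by fun_prop)]
  congr 1
  funext d
  rw [Complex.mul_re, xx_re h hp, xx_re h hq, xx_im h hp, xx_im h hq]
  push_cast
  ring

theorem form_nonneg {h : ℝ → ℝ} (hc : Continuous h) (h0 : ∀ x, 0 ≤ h x) {M N : ℝ}
    (hM : ∀ x, |h x| ≤ M) {R : ℕ → ℕ → ℝ} (hR : Summable fun k : ℕ × ℕ => R k.1 k.2)
    (v : ℕ → ℝ → ℝ) (vc : ∀ n, Continuous (v n)) (vb : ∀ n d, |v n d| ≤ N)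
    (hp : ∀ d, 0 ≤ ∑' k : ℕ × ℕ, R k.1 k.2 * (v k.1 d * v k.2 d)) :
    0 ≤ ∑' k : ℕ × ℕ, R k.1 k.2 * av h (fun d => v k.1 d * v k.2 d) := by
  have N0 : 0 ≤ N := (abs_nonneg _).trans (vb 0 0)
  have h1 := swap_sum nu hR (fun k d => h d * (v k.1 d * v k.2 d)) (M * (N * N))
    (fun k => (hc.mul ((vc _).mul (vc _))).aestronglyMeasurable)
    (fun k d => by
      rw [Real.norm_eq_abs, abs_mul, abs_mul]
      exact mul_le_mul (hM d) (mul_le_mul (vb _ _) (vb _ _) (abs_nonneg _) N0)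
        (mul_nonneg (abs_nonneg _) (abs_nonneg _)) ((abs_nonneg _).trans (hM 0)))
  simp only [smul_eq_mul] at h1
  unfold av
  rw [h1.tsum_eq]
  refine integral_nonneg fun d => ?_
  have e : ∑' k : ℕ × ℕ, R k.1 k.2 * (h d * (v k.1 d * v k.2 d))
      = h d * ∑' k : ℕ × ℕ, R k.1 k.2 * (v k.1 d * v k.2 d) := by
    rw [← tsum_mul_left]
    exact tsum_congr fun k => by ring
  simp only [e]
  exact mul_nonneg (h0 d) (hp d)

end Can

open Can in
theorem stmtCan : StmtCan := by
  intro K C hS hK hI h4 hQ h hc hp h0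
  obtain ⟨M, hM⟩ := per_bound hc hp
  have M0 : 0 ≤ M := (abs_nonneg _).trans (hM 0)
  set N := M * nu.real univ with hN
  have N0 : 0 ≤ N := mul_nonneg M0 measureReal_nonneg
  have bxi : ∀ d, |xi h d| ≤ 2 * N := fun d => by
    have := (Complex.abs_re_le_norm _).trans (xx_bound hM 1 d)
    unfold xi; linarith
  have baa : ∀ n d, |aa h n d| ≤ 2 * N := fun n d => by
    unfold aa
    split_ifs
    · rw [abs_zero]; linarith
    · have a1 := (Complex.abs_re_le_norm _).trans (xx_bound hM 1 d)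
      have a2 := (Complex.abs_re_le_norm _).trans (xx_bound hM n d)
      have a3 := abs_sub (xx h n d).re (xi h d)
      unfold xi at *
      linarith
  have bbb : ∀ n d, |bb h n d| ≤ 2 * N := fun n d => by
    unfold bb
    split_ifs
    · rw [abs_zero]; linarith
    · have a2 := (Complex.abs_im_le_norm _).trans (xx_bound hM n d)
      linarith
  have bm : ∀ F G : ℝ → ℝ, (∀ d, |F d| ≤ 2 * N) → (∀ d, |G d| ≤ 2 * N) →
      |av h fun d => F d * G d| ≤ M * (2 * N * (2 * N)) * nu.real univ := by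
    intro F G hF hG
    refine av_bound hM fun d => ?_
    rw [abs_mul]
    exact mul_le_mul (hF d) (hG d) (abs_nonneg _) (by linarith)
  have a0 : ∀ d, aa h 0 d = 0 := fun d => by simp [aa]
  have a1 : ∀ d, aa h 1 d = 0 := fun d => by simp [aa, xi]
  have b0 : ∀ d, bb h 0 d = 0 := fun d => by simp [bb]
  have hcs := csum hS h4
  have key := canon (c := fun p q => C (2 * p, 2 * q)) hcs (fun p q => hS.sw _ _)
    (fun p q => by
      have := hS.ng (2 * p) (2 * q)
      simpa only [mul_neg] using this)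
    (by simpa using c00 hS hK hI)
    (fun n m => av h fun d => aa h n d * aa h m d) (fun n m => av h fun d => bb h n d * bb h m d)
    (fun n => av h fun d => xi h d * aa h n d) (av h fun d => xi h d * xi h d)
    (M * (2 * N * (2 * N)) * nu.real univ) (ta h)
    (fun n m => bm _ _ (baa n) (baa m)) (fun n m => bm _ _ (bbb n) (bbb m))
    (fun n => bm _ _ bxi (baa n))
    (fun n m => by simp only [mul_comm]) (fun n m => by simp only [mul_comm])
    (fun m => by simp [a0, av]) (fun m => by simp [a1, av]) (fun m => by simp [b0, av])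
    (by simp [a0, av]) (by simp [a1, av]) (ta_split hc)
    (fun p q => by
      unfold ta
      have : -p - q = -q - p := by ring
      rw [this, mul_comm (HH h (2 * p))])
    (fun p q => by
      unfold ta
      have : -p - (-p - q) = q := by ring
      rw [this, mul_right_comm])
  have hT := (tri_even hS hK hc hp).tsum_eq
  have e : (∑' k : ℤ × ℤ, C (2 * k.1, 2 * k.2) * ta h k.1 k.2)
      = I3 fun a b d => K a b d * (h a * h b * h d) := hT
  rw [← e, key]
  refine add_nonneg ?_ ?_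
  · exact form_nonneg hc h0 hM (rr_summable hcs.summable 1) (aa h) (aa_cont h) baa
      fun d => (hQ (fun n => aa h n d) (2 * N) (fun n => baa n d) (a0 d)).1 (a1 d)
  · exact form_nonneg hc h0 hM (rr_summable hcs.summable (-1)) (bb h) (bb_cont h) bbb
      fun d => (hQ (fun n => bb h n d) (2 * N) (fun n => bbb n d) (b0 d)).2

end

end Pool.Agent.Lib.MP_cbe5a6_an
end

-- part Pool.Agent.Lib.MP_cbe5a6_an.Sol1
section

/-! The hypergeometric series behind the exact densities. -/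

set_option autoImplicit false

namespace Pool.Agent.Lib.MP_cbe5a6_an

namespace Sol

open Set Filter Topology

noncomputable section

def aa : ℕ → ℝ
  | 0 => 1
  | n + 1 => aa n * (((n : ℝ) ^ 2 + n + 2 / 9) / ((n : ℝ) + 1) ^ 2)

def bb (n : ℕ) : ℝ := n * aa n

def cc (n : ℕ) : ℝ := 2 / 9 * aa n / ((n : ℝ) + 1)

lemma aa_pos (n : ℕ) : 0 < aa n := by
  induction n with
  | zero => simp [aa]
  | succ n ih =>
    rw [aa]
    positivity

lemma cc_pos (n : ℕ) : 0 < cc n := by
  have := aa_pos n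
  unfold cc
  positivity

lemma bb_succ (n : ℕ) : bb (n + 1) = bb n + cc n := by
  unfold bb cc
  rw [aa]
  push_cast
  have : (n : ℝ) + 1 ≠ 0 := by positivity
  field_simp

lemma bb_zero : bb 0 = 0 := by simp [bb]

lemma cc_succ_le (n : ℕ) (h : bb (n + 1) ≤ 1) :
    cc (n + 1) ≤ 2 / 9 / ((n : ℝ) + 1) - 2 / 9 / ((n : ℝ) + 2) := by
  unfold bb at h
  unfold cc
  push_cast at h ⊢
  have h1 : (0 : ℝ) < (n : ℝ) + 1 := by positivity
  have h2 : (0 : ℝ) < (n : ℝ) + 2 := by positivity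
  have h3 : aa (n + 1) ≤ 1 / ((n : ℝ) + 1) := by
    rw [le_div_iff₀ h1]; linarith
  have e : 2 / 9 / ((n : ℝ) + 1) - 2 / 9 / ((n : ℝ) + 2)
      = 2 / 9 * (1 / ((n : ℝ) + 1)) / ((n : ℝ) + 1 + 1) := by
    field_simp
    ring
  rw [e]
  gcongr

lemma bb_le (n : ℕ) : bb (n + 1) ≤ 1 - 2 / 9 / ((n : ℝ) + 1) := by
  induction n with
  | zero =>
    rw [bb_succ, bb_zero]
    simp [cc, aa]
    norm_num
  | succ n ih =>
    have h0 : (0 : ℝ) ≤ 2 / 9 / ((n : ℝ) + 1) := by positivity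
    have := cc_succ_le n (by linarith)
    rw [bb_succ]
    push_cast
    have e : (n : ℝ) + 1 + 1 = (n : ℝ) + 2 := by ring
    rw [e]
    linarith

lemma bb_le_one (n : ℕ) : bb n ≤ 1 := by
  cases n with
  | zero => simp [bb_zero]
  | succ n =>
    have h0 : (0 : ℝ) ≤ 2 / 9 / ((n : ℝ) + 1) := by positivity
    have := bb_le n
    linarith

lemma bb_nonneg (n : ℕ) : 0 ≤ bb n := by
  have := aa_pos n
  unfold bb
  positivity

lemma aa_le_one (n : ℕ) : aa n ≤ 1 := by
  cases n with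
  | zero => simp [aa]
  | succ n =>
    have h := bb_le_one (n + 1)
    have h1 := aa_pos (n + 1)
    unfold bb at h
    push_cast at h
    have : (0 : ℝ) ≤ n := by positivity
    nlinarith

lemma sum_cc (N : ℕ) : ∑ n ∈ Finset.range N, cc n = bb N := by
  induction N with
  | zero => simp [bb_zero]
  | succ N ih => rw [Finset.sum_range_succ, ih, bb_succ]

lemma summable_cc : Summable cc :=
  summable_of_sum_range_le (c := 1) (fun n => (cc_pos n).le)
    (fun n => by rw [sum_cc]; exact bb_le_one n)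

def kap : ℝ := ∑' n, cc n

lemma bb_le_kap (N : ℕ) : bb N ≤ kap := by
  rw [← sum_cc]
  exact summable_cc.sum_le_tsum _ (fun n _ => (cc_pos n).le)

lemma kap_pos : 0 < kap := by
  have h := bb_le_kap 1
  rw [bb_succ, bb_zero] at h
  have := cc_pos 0
  linarith

lemma bb_add_le (N M : ℕ) :
    bb (N + 1 + M) ≤ bb (N + 1) + 2 / 9 / ((N : ℝ) + 1) - 2 / 9 / ((N : ℝ) + 1 + M) := by
  induction M with
  | zero => simp
  | succ M ih =>
    have h := cc_succ_le (N + M) (bb_le_one _)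
    have e1 : N + 1 + (M + 1) = (N + 1 + M) + 1 := by ring
    have e2 : N + M + 1 = N + 1 + M := by ring
    rw [e1, bb_succ]
    rw [e2] at h
    push_cast at h ⊢
    have e3 : (N : ℝ) + M + 1 = N + 1 + M := by ring
    have e4 : (N : ℝ) + M + 2 = N + 1 + (M + 1) := by ring
    rw [e3, e4] at h
    linarith

lemma kap_le (N : ℕ) : kap ≤ bb (N + 1) + 2 / 9 / ((N : ℝ) + 1) := by
  refine Real.tsum_le_of_sum_range_le (fun n => (cc_pos n).le) (fun M => ?_)
  have h1 : ∑ n ∈ Finset.range M, cc n ≤ ∑ n ∈ Finset.range (N + 1 + M), cc n :=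
    Finset.sum_le_sum_of_subset_of_nonneg
      (Finset.range_subset_range.2 (by omega)) (fun n _ _ => (cc_pos n).le)
  rw [sum_cc (N + 1 + M)] at h1
  have h2 := bb_add_le N M
  have h3 : (0 : ℝ) ≤ 2 / 9 / ((N : ℝ) + 1 + M) := by positivity
  linarith

def dd (n : ℕ) : ℝ := aa n - kap / n

lemma abs_dd_succ (n : ℕ) : |dd (n + 1)| ≤ 1 / ((n : ℝ) + 1) ^ 2 := by
  have h1 := bb_le_kap (n + 1)
  have h2 := kap_le n
  have h0 : (0 : ℝ) < (n : ℝ) + 1 := by positivity
  have e : dd (n + 1) = -((kap - bb (n + 1)) / ((n : ℝ) + 1)) := by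
    unfold dd bb
    push_cast
    field_simp
    ring
  rw [e, abs_neg, abs_of_nonneg (by apply div_nonneg <;> linarith)]
  have e2 : 1 / ((n : ℝ) + 1) ^ 2 = 1 / ((n : ℝ) + 1) / ((n : ℝ) + 1) := by
    field_simp
  rw [e2]
  have h3 : 2 / 9 / ((n : ℝ) + 1) ≤ 1 / ((n : ℝ) + 1) := by gcongr; norm_num
  gcongr
  linarith

lemma summable_dd : Summable fun n => |dd n| := by
  rw [← summable_nat_add_iff 1]
  have h : Summable fun n : ℕ => 1 / ((n : ℝ) + 1) ^ 2 := by
    have := (summable_nat_add_iff 1).2 (Real.summable_one_div_nat_pow.2 (by norm_num : 1 < 2))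
    simpa using this
  exact Summable.of_nonneg_of_le (fun n => abs_nonneg _) abs_dd_succ h

lemma cont_series (u : ℕ → ℝ) (hu : Summable fun n => |u n|) :
    ContinuousOn (fun z : ℝ => ∑' n, u n * z ^ n) (Icc 0 1) := by
  refine continuousOn_tsum (u := fun n => |u n|) (fun n => by fun_prop) hu ?_
  intro n z hz
  rw [Real.norm_eq_abs, abs_mul, abs_pow, abs_of_nonneg hz.1]
  have : z ^ n ≤ 1 := pow_le_one₀ hz.1 hz.2
  have h0 := abs_nonneg (u n)
  nlinarith

lemma summable_series (u : ℕ → ℝ) (hu : ∀ n, |u n| ≤ 1) {z : ℝ} (hz : |z| < 1) :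
    Summable fun n => u n * z ^ n := by
  refine Summable.of_norm_bounded (summable_geometric_of_lt_one (abs_nonneg z) hz) (fun n => ?_)
  rw [Real.norm_eq_abs, abs_mul, abs_pow]
  have := hu n
  have h0 : 0 ≤ |z| ^ n := by positivity
  nlinarith

lemma summable_lin {r : ℝ} (h0 : 0 ≤ r) (hr : r < 1) :
    Summable fun n : ℕ => (n : ℝ) * r ^ (n - 1) := by
  rw [← summable_nat_add_iff 1]
  have h1 : Summable fun n : ℕ => (n : ℝ) ^ 1 * r ^ n :=
    summable_pow_mul_geometric_of_norm_lt_one 1 (by rw [Real.norm_eq_abs, abs_of_nonneg h0]; exact hr)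
  have h2 := summable_geometric_of_lt_one h0 hr
  refine (h1.add h2).congr (fun n => ?_)
  simp only [Nat.add_sub_cancel]
  push_cast
  ring

lemma deriv_series (u : ℕ → ℝ) (hu : ∀ n, |u n| ≤ 1) {z : ℝ} (hz : |z| < 1) :
    HasDerivAt (fun z : ℝ => ∑' n, u n * z ^ n) (∑' n, u (n + 1) * ((n : ℝ) + 1) * z ^ n) z := by
  obtain ⟨r, hr1, hr2⟩ := exists_between hz
  have hr0 : 0 ≤ r := (abs_nonneg z).trans hr1.le
  have hb : ∀ (n : ℕ) (y : ℝ), y ∈ Ioo (-r) r → ‖u n * ((n : ℝ) * y ^ (n - 1))‖ ≤ n * r ^ (n - 1) := by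
    intro n y hy
    have hy' : |y| ≤ r := (abs_lt.2 ⟨hy.1, hy.2⟩).le
    rw [Real.norm_eq_abs, abs_mul, abs_mul, abs_pow, Nat.abs_cast]
    have h1 : |y| ^ (n - 1) ≤ r ^ (n - 1) := by gcongr
    have h2 : (n : ℝ) * |y| ^ (n - 1) ≤ n * r ^ (n - 1) := by gcongr
    have h3 : 0 ≤ (n : ℝ) * |y| ^ (n - 1) := by positivity
    have := hu n
    nlinarith
  have hz' : z ∈ Ioo (-r) r := ⟨(abs_lt.1 hr1).1, (abs_lt.1 hr1).2⟩
  have key := hasDerivAt_tsum_of_isPreconnected (g := fun n (y : ℝ) => u n * y ^ n)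
    (g' := fun n y => u n * ((n : ℝ) * y ^ (n - 1))) (summable_lin hr0 hr2) isOpen_Ioo
    isPreconnected_Ioo (fun n y _ => (hasDerivAt_pow n y).const_mul (u n)) hb hz'
    (summable_series u hu hz) hz'
  have hs : Summable fun n : ℕ => u n * ((n : ℝ) * z ^ (n - 1)) :=
    Summable.of_norm_bounded (summable_lin hr0 hr2) (fun n => hb n z hz')
  have e : ∑' n : ℕ, u n * ((n : ℝ) * z ^ (n - 1)) = ∑' n, u (n + 1) * ((n : ℝ) + 1) * z ^ n := by
    rw [hs.tsum_eq_zero_add]
    simp only [Nat.cast_zero, zero_mul, mul_zero, zero_add, Nat.add_sub_cancel]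
    refine tsum_congr (fun n => ?_)
    push_cast
    ring
  rw [e] at key
  exact key

def hh : ℕ → ℝ
  | 0 => 0
  | n + 1 => cc n

lemma cc_le_one (n : ℕ) : cc n ≤ 1 := by
  have h1 := bb_succ n
  have h2 := bb_le_one (n + 1)
  have h3 := bb_nonneg n
  linarith

lemma abs_hh (n : ℕ) : |hh n| ≤ 1 := by
  cases n with
  | zero => simp [hh]
  | succ n => rw [hh, abs_of_pos (cc_pos n)]; exact cc_le_one n

lemma abs_aa (n : ℕ) : |aa n| ≤ 1 := by
  rw [abs_of_pos (aa_pos n)]; exact aa_le_one n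

lemma abs_bb (n : ℕ) : |bb n| ≤ 1 := by
  rw [abs_of_nonneg (bb_nonneg n)]; exact bb_le_one n

lemma summable_hh : Summable fun n => |hh n| := by
  rw [← summable_nat_add_iff 1]
  refine summable_cc.congr (fun n => ?_)
  rw [hh, abs_of_pos (cc_pos n)]

def FF (z : ℝ) : ℝ := ∑' n, aa n * z ^ n
def HH (z : ℝ) : ℝ := ∑' n, hh n * z ^ n
def Ph (z : ℝ) : ℝ := ∑' n, dd n * z ^ n

lemma HH_zero : HH 0 = 0 := by
  unfold HH
  have : (fun n => hh n * (0 : ℝ) ^ n) = fun _ => 0 := by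
    funext n
    cases n with
    | zero => simp [hh]
    | succ n => simp
  rw [this, tsum_zero]

lemma HH_one : HH 1 = kap := by
  unfold HH kap
  have hs : Summable fun n => hh n * (1 : ℝ) ^ n := by
    simpa using summable_hh.of_abs
  rw [hs.tsum_eq_zero_add]
  simp [hh]

lemma FF_pos {z : ℝ} (h0 : 0 ≤ z) (h1 : z < 1) : 0 < FF z := by
  have hs := summable_series aa abs_aa (z := z) (by rwa [abs_of_nonneg h0])
  refine hs.tsum_pos (fun n => ?_) 0 (by simp [aa])
  have := aa_pos n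
  positivity

lemma FF_eq {z : ℝ} (hz : |z| < 1) : FF z = Ph z - kap * Real.log (1 - z) := by
  have h1 := Real.hasSum_pow_div_log_of_abs_lt_one hz
  have h2 : HasSum (fun n : ℕ => kap / n * z ^ n) (kap * -Real.log (1 - z)) := by
    rw [← hasSum_nat_add_iff' 1]
    simp only [Finset.range_one, Finset.sum_singleton, Nat.cast_zero, div_zero, zero_mul, sub_zero]
    have e : (fun n : ℕ => kap / ((n + 1 : ℕ) : ℝ) * z ^ (n + 1))
        = fun n : ℕ => kap * (z ^ (n + 1) / ((n : ℝ) + 1)) := by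
      funext n
      push_cast
      ring
    rw [e]
    exact h1.mul_left kap
  have h3 := (summable_series aa abs_aa hz).hasSum
  have h4 := h3.sub h2
  have h5 : Ph z = FF z - kap * -Real.log (1 - z) := by
    unfold Ph FF
    rw [← h4.tsum_eq]
    refine tsum_congr (fun n => ?_)
    unfold dd
    ring
  rw [h5]
  ring

lemma deriv_HH {z : ℝ} (hz : |z| < 1) : HasDerivAt HH (2 / 9 * FF z) z := by
  have h := deriv_series hh abs_hh hz
  have e : ∑' n, hh (n + 1) * ((n : ℝ) + 1) * z ^ n = 2 / 9 * FF z := by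
    unfold FF
    rw [← tsum_mul_left]
    refine tsum_congr (fun n => ?_)
    rw [hh]
    unfold cc
    have : (n : ℝ) + 1 ≠ 0 := by positivity
    field_simp
  rw [e] at h
  exact h

lemma deriv_FF {z : ℝ} (h0 : 0 < z) (h1 : z < 1) : HasDerivAt FF (HH z / (z * (1 - z))) z := by
  have hz : |z| < 1 := by rwa [abs_of_pos h0]
  have h := deriv_series aa abs_aa hz
  have hB := (summable_series bb abs_bb hz).hasSum
  have hB1 := (summable_series (fun n => bb (n + 1)) (fun n => abs_bb _) hz).hasSum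
  have e1 : ∑' n, aa (n + 1) * ((n : ℝ) + 1) * z ^ n = ∑' n, bb (n + 1) * z ^ n := by
    refine tsum_congr (fun n => ?_)
    unfold bb
    push_cast
    ring
  have e2 : ∑' n, bb n * z ^ n = z * ∑' n, bb (n + 1) * z ^ n := by
    rw [hB.summable.tsum_eq_zero_add, ← tsum_mul_left]
    simp only [bb_zero, zero_mul, zero_add]
    refine tsum_congr (fun n => ?_)
    ring
  have e3 : HH z = z * (∑' n, bb (n + 1) * z ^ n - ∑' n, bb n * z ^ n) := by
    unfold HH
    rw [(summable_series hh abs_hh hz).tsum_eq_zero_add, ← (hB1.sub hB).tsum_eq, ← tsum_mul_left]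
    simp only [hh, zero_mul, zero_add]
    refine tsum_congr (fun n => ?_)
    rw [bb_succ]
    ring
  have e4 : HH z / (z * (1 - z)) = ∑' n, aa (n + 1) * ((n : ℝ) + 1) * z ^ n := by
    rw [e1, e3, e2]
    have : 1 - z ≠ 0 := by linarith
    field_simp
  rw [e4]
  exact h

end

end Sol

end Pool.Agent.Lib.MP_cbe5a6_an
end

-- part Pool.Agent.Lib.MP_cbe5a6_an.Sol
section

/-! Existence of the exact densities. -/

set_option autoImplicit false

namespace Pool.Agent.Lib.MP_cbe5a6_an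

namespace Sol

open Set Filter Topology

noncomputable section

def zf (s : ℝ) : ℝ := (s + 1) * (s - 8) ^ 2 / (s + 4) ^ 3

def rg (s : ℝ) : ℝ :=
  2 / (kap * (s + 4)) * (Ph (zf s) - kap * (Real.log 27 - 3 * Real.log (s + 4)))

def sg (s : ℝ) : ℝ := rg s - 4 * Real.log s / (s + 4)

def JJ (s : ℝ) : ℝ := -(PP s * sg s) / (s + 4) + 2 / kap * (s + 4) * HH (zf s)

def mm (s : ℝ) : ℝ :=
  if s = -1 then -2 * sg (-1) / 27 else ((s + 1) * (s - 2) * sg s + JJ s) / (2 * (s + 1) ^ 3)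

lemma one_sub_zf {s : ℝ} (h : -1 ≤ s) : 1 - zf s = 27 * s ^ 2 / (s + 4) ^ 3 := by
  unfold zf
  have : s + 4 ≠ 0 := by linarith
  field_simp
  ring

lemma zf_mem {s : ℝ} (h : s ∈ Icc (-1 : ℝ) 8) : zf s ∈ Icc (0 : ℝ) 1 := by
  have h1 : 0 ≤ s + 1 := by linarith [h.1]
  have h4 : 0 < s + 4 := by linarith [h.1]
  refine ⟨by unfold zf; positivity, ?_⟩
  have := one_sub_zf h.1
  have h2 : 0 ≤ 27 * s ^ 2 / (s + 4) ^ 3 := by positivity
  linarith

lemma zf_lt_one {s : ℝ} (h : -1 ≤ s) (h0 : s ≠ 0) : zf s < 1 := by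
  have h4 : 0 < s + 4 := by linarith
  have := one_sub_zf h
  have h2 : 0 < 27 * s ^ 2 / (s + 4) ^ 3 := by positivity
  linarith

lemma zf_pos {s : ℝ} (h : s ∈ Ioo (-1 : ℝ) 8) : 0 < zf s := by
  have h1 : 0 < s + 1 := by linarith [h.1]
  have h4 : 0 < s + 4 := by linarith [h.1]
  have h8 : s - 8 ≠ 0 := by linarith [h.2]
  unfold zf
  positivity

lemma sg_eq {s : ℝ} (h : s ∈ Icc (-1 : ℝ) 8) (h0 : s ≠ 0) :
    sg s = 2 / kap * FF (zf s) / (s + 4) := by
  have h4 : 0 < s + 4 := by linarith [h.1]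
  have hz : |zf s| < 1 := by
    rw [abs_of_nonneg (zf_mem h).1]; exact zf_lt_one h.1 h0
  have hl : Real.log (1 - zf s) = Real.log 27 + 2 * Real.log s - 3 * Real.log (s + 4) := by
    rw [one_sub_zf h.1, Real.log_div (by positivity) (by positivity),
      Real.log_mul (by norm_num) (by positivity), Real.log_pow, Real.log_pow]
    push_cast
    ring
  have hk := kap_pos
  unfold sg rg
  rw [FF_eq hz, hl]
  field_simp
  ring

lemma cont_zf : ContinuousOn zf (Icc (-1 : ℝ) 8) := by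
  unfold zf
  refine ContinuousOn.div (by fun_prop) (by fun_prop) (fun s hs => ?_)
  have h4 : 0 < s + 4 := by linarith [hs.1]
  positivity

lemma cont_Ph : ContinuousOn (fun s => Ph (zf s)) (Icc (-1 : ℝ) 8) :=
  (cont_series dd summable_dd).comp cont_zf (fun _ hs => zf_mem hs)

lemma cont_HH : ContinuousOn (fun s => HH (zf s)) (Icc (-1 : ℝ) 8) :=
  (cont_series hh summable_hh).comp cont_zf (fun _ hs => zf_mem hs)

lemma ne4 {s : ℝ} (hs : s ∈ Icc (-1 : ℝ) 8) : s + 4 ≠ 0 := by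
  have h4 : 0 < s + 4 := by linarith [hs.1]
  exact h4.ne'

lemma cont_rg : ContinuousOn rg (Icc (-1 : ℝ) 8) := by
  unfold rg
  have hk := kap_pos
  refine ContinuousOn.mul (ContinuousOn.div (by fun_prop) (by fun_prop) (fun s hs => ?_))
    (cont_Ph.sub (continuousOn_const.mul (continuousOn_const.sub (continuousOn_const.mul
      (ContinuousOn.log (by fun_prop) (fun s hs => ne4 hs))))))
  exact mul_ne_zero hk.ne' (ne4 hs)

lemma cont_ml : ContinuousOn (fun s : ℝ => s * Real.log s) (Icc (-1 : ℝ) 8) :=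
  Real.continuous_mul_log.continuousOn

lemma cont_sgL : ContinuousOn (fun s => sg s + Real.log s) (Icc (-1 : ℝ) 8) := by
  have h : ContinuousOn (fun s => rg s + s * Real.log s / (s + 4)) (Icc (-1 : ℝ) 8) :=
    cont_rg.add (cont_ml.div (by fun_prop) (fun s hs => ne4 hs))
  refine h.congr (fun s hs => ?_)
  have := ne4 hs
  unfold sg
  field_simp
  ring

lemma cont_JJ : ContinuousOn JJ (Icc (-1 : ℝ) 8) := by
  have h : ContinuousOn (fun s => -((s + 1) * (s - 8) * (s * (sg s + Real.log s) - s * Real.log s))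
      / (s + 4) + 2 / kap * (s + 4) * HH (zf s)) (Icc (-1 : ℝ) 8) := by
    refine ContinuousOn.add (ContinuousOn.div (ContinuousOn.neg (ContinuousOn.mul (by fun_prop)
      ((continuousOn_id.mul cont_sgL).sub cont_ml))) (by fun_prop) (fun s hs => ne4 hs))
      (ContinuousOn.mul (by fun_prop) cont_HH)
  refine h.congr (fun s _ => ?_)
  unfold JJ PP
  ring

lemma dpow (c x : ℝ) (n : ℕ) :
    HasDerivAt (fun s : ℝ => (s + c) ^ (n + 1)) (((n : ℝ) + 1) * (x + c) ^ n) x := by
  have h := ((hasDerivAt_id x).add_const c).fun_pow (n + 1)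
  refine HasDerivAt.congr_deriv h ?_
  simp

lemma deriv_zf {s : ℝ} (h : -1 < s) : HasDerivAt zf (27 * s * (s - 8) / (s + 4) ^ 4) s := by
  have h4 : s + 4 ≠ 0 := by linarith
  have h1 : HasDerivAt (fun s : ℝ => (s + 1) * (s - 8) ^ 2)
      (1 * (s - 8) ^ 2 + (s + 1) * (2 * (s - 8))) s := by
    have a1 : HasDerivAt (fun s : ℝ => s + 1) 1 s := (hasDerivAt_id s).add_const 1
    have a2 : HasDerivAt (fun s : ℝ => (s - 8) ^ 2) (2 * (s - 8)) s := by
      refine HasDerivAt.congr_deriv (dpow (-8) s 1) ?_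
      norm_num
      ring
    exact a1.mul a2
  have h2 : HasDerivAt (fun s : ℝ => (s + 4) ^ 3) (3 * (s + 4) ^ 2) s := by
    refine HasDerivAt.congr_deriv (dpow 4 s 2) ?_
    norm_num
  have h3 := h1.div h2 (pow_ne_zero 3 h4)
  refine HasDerivAt.congr_deriv h3 ?_
  field_simp
  ring

lemma nhds_good {s : ℝ} (h : s ∈ Ioo (-1 : ℝ) 8) (h0 : s ≠ 0) :
    ∀ᶠ x in 𝓝 s, x ∈ Ioo (-1 : ℝ) 8 ∧ x ≠ 0 :=
  (isOpen_Ioo.eventually_mem h).and (isOpen_ne.eventually_mem h0)

lemma deriv_sg {s : ℝ} (h : s ∈ Ioo (-1 : ℝ) 8) (h0 : s ≠ 0) :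
    HasDerivAt sg (JJ s / PP s) s := by
  have h4 : s + 4 ≠ 0 := by linarith [h.1]
  have h1 : s + 1 ≠ 0 := by linarith [h.1]
  have h8 : s - 8 ≠ 0 := by linarith [h.2]
  have hk := kap_pos
  have hF := (deriv_FF (zf_pos h) (zf_lt_one h.1.le h0)).comp s (deriv_zf h.1)
  have a4 : HasDerivAt (fun s : ℝ => s + 4) 1 s := (hasDerivAt_id s).add_const 4
  have hd := (hF.const_mul (2 / kap)).div a4 h4
  have he : sg =ᶠ[𝓝 s] fun x => 2 / kap * FF (zf x) / (x + 4) :=
    (nhds_good h h0).mono (fun x hx => sg_eq (Ioo_subset_Icc_self hx.1) hx.2)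
  refine HasDerivAt.congr_deriv (HasDerivAt.congr_of_eventuallyEq hd he) ?_
  unfold JJ
  rw [sg_eq (Ioo_subset_Icc_self h) h0, one_sub_zf h.1.le]
  simp only [Function.comp]
  generalize HH (zf s) = H
  generalize FF (zf s) = F
  unfold zf PP
  field_simp
  ring

lemma deriv_JJ {s : ℝ} (h : s ∈ Ioo (-1 : ℝ) 8) (h0 : s ≠ 0) :
    HasDerivAt JJ (-((s - 2) * sg s)) s := by
  have h4 : s + 4 ≠ 0 := by linarith [h.1]
  have h1 : s + 1 ≠ 0 := by linarith [h.1]
  have h8 : s - 8 ≠ 0 := by linarith [h.2]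
  have hk := kap_pos
  have hz : |zf s| < 1 := by
    rw [abs_of_pos (zf_pos h)]; exact zf_lt_one h.1.le h0
  have hH := (deriv_HH hz).comp s (deriv_zf h.1)
  have a4 : HasDerivAt (fun s : ℝ => s + 4) 1 s := (hasDerivAt_id s).add_const 4
  have hP : HasDerivAt PP ((1 * (s + 1) + s * 1) * (s - 8) + s * (s + 1) * 1) s :=
    ((hasDerivAt_id s).mul ((hasDerivAt_id s).add_const 1)).mul ((hasDerivAt_id s).sub_const 8)
  have hd := (((hP.mul (deriv_sg h h0)).neg).div a4 h4).add ((a4.const_mul (2 / kap)).mul hH)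
  refine HasDerivAt.congr_deriv hd ?_
  simp only [Function.comp, Pi.neg_apply, Pi.mul_apply]
  unfold JJ
  rw [sg_eq (Ioo_subset_Icc_self h) h0]
  generalize HH (zf s) = H
  generalize FF (zf s) = F
  unfold PP
  field_simp
  ring

lemma JJ_neg_one : JJ (-1) = 0 := by
  have : zf (-1) = 0 := by simp [zf]
  unfold JJ
  rw [this, HH_zero]
  simp [PP]

lemma JJ_eight : JJ 8 = 0 := by
  have : zf 8 = 0 := by simp [zf]
  unfold JJ
  rw [this, HH_zero]
  simp [PP]

lemma JJ_zero : JJ 0 = 8 := by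
  have : zf 0 = 1 := by unfold zf; norm_num
  have hk := kap_pos
  unfold JJ
  rw [this, HH_one]
  simp only [PP, zero_mul, neg_zero, zero_div, zero_add]
  field_simp
  norm_num

lemma ev_right : ∀ᶠ x in 𝓝[>] (-1 : ℝ), x ∈ Ioo (-1 : ℝ) 0 :=
  Ioo_mem_nhdsGT (by norm_num)

lemma good_of {x : ℝ} (hx : x ∈ Ioo (-1 : ℝ) 0) : x ∈ Ioo (-1 : ℝ) 8 :=
  ⟨hx.1, by linarith [hx.2]⟩

lemma tendsto_of_cont {g : ℝ → ℝ} (hg : ContinuousOn g (Icc (-1 : ℝ) 8)) :
    Tendsto g (𝓝[>] (-1 : ℝ)) (𝓝 (g (-1))) := by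
  have h := hg (-1) ⟨le_rfl, by norm_num⟩
  refine h.tendsto.mono_left ?_
  rw [← nhdsWithin_Ioo_eq_nhdsGT (by norm_num : (-1 : ℝ) < 8)]
  exact nhdsWithin_mono _ Ioo_subset_Icc_self

lemma tendsto_poly {g : ℝ → ℝ} (hg : Continuous g) :
    Tendsto g (𝓝[>] (-1 : ℝ)) (𝓝 (g (-1))) :=
  (hg.tendsto _).mono_left nhdsWithin_le_nhds

lemma tendsto_log : Tendsto Real.log (𝓝[>] (-1 : ℝ)) (𝓝 (Real.log (-1))) :=
  (Real.continuousAt_log (by norm_num)).tendsto.mono_left nhdsWithin_le_nhds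

lemma tendsto_sg : Tendsto sg (𝓝[>] (-1 : ℝ)) (𝓝 (sg (-1))) := by
  have h := (tendsto_of_cont cont_sgL).sub tendsto_log
  simpa using h

lemma tendsto_JJ : Tendsto JJ (𝓝[>] (-1 : ℝ)) (𝓝 0) := by
  have h := tendsto_of_cont cont_JJ
  rwa [JJ_neg_one] at h

lemma lim1 : Tendsto (fun s => JJ s / (s + 1)) (𝓝[>] (-1 : ℝ)) (𝓝 (3 * sg (-1))) := by
  refine HasDerivAt.lhopital_zero_nhdsGT (f' := fun s => -((s - 2) * sg s)) (g' := fun _ => 1)
    (ev_right.mono fun x hx => deriv_JJ (good_of hx) hx.2.ne)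
    (Eventually.of_forall fun x => (hasDerivAt_id x).add_const 1)
    (Eventually.of_forall fun _ => one_ne_zero) tendsto_JJ ?_ ?_
  · simpa using tendsto_poly (g := fun s => s + 1) (by fun_prop)
  · have h := ((tendsto_poly (g := fun s => s - 2) (by fun_prop)).mul tendsto_sg).neg
    have e : -(((-1 : ℝ) - 2) * sg (-1)) = 3 * sg (-1) := by ring
    rw [e] at h
    simpa using h

lemma deriv_PP (s : ℝ) : HasDerivAt PP ((1 * (s + 1) + s * 1) * (s - 8) + s * (s + 1) * 1) s :=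
  ((hasDerivAt_id s).mul ((hasDerivAt_id s).add_const 1)).mul ((hasDerivAt_id s).sub_const 8)

lemma cont_PP : Continuous PP := by
  unfold PP
  fun_prop

lemma lim2 : Tendsto (fun s => (PP s * sg s + (s - 2) * JJ s) / (s + 1) ^ 2) (𝓝[>] (-1 : ℝ))
    (𝓝 (-4 * sg (-1))) := by
  refine HasDerivAt.lhopital_zero_nhdsGT
    (f' := fun s => 2 * (s - 6) * (s + 1) * sg s + 2 * JJ s) (g' := fun s => 2 * (s + 1))
    (ev_right.mono fun x hx => ?_)
    (Eventually.of_forall fun x => ?_)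
    (ev_right.mono fun x hx => ?_) ?_ ?_ ?_
  · have h := ((deriv_PP x).mul (deriv_sg (good_of hx) hx.2.ne)).add
      (((hasDerivAt_id x).sub_const 2).mul (deriv_JJ (good_of hx) hx.2.ne))
    refine HasDerivAt.congr_deriv h ?_
    have h1 : x + 1 ≠ 0 := by linarith [hx.1]
    have h8 : x - 8 ≠ 0 := by linarith [hx.2]
    have h0 : x ≠ 0 := hx.2.ne
    simp only [id]
    unfold PP
    field_simp
    ring
  · refine HasDerivAt.congr_deriv (dpow 1 x 1) ?_
    norm_num
  · have h1 : 0 < x + 1 := by linarith [hx.1]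
    positivity
  · have h := ((tendsto_poly cont_PP).mul tendsto_sg).add
      ((tendsto_poly (g := fun s => s - 2) (by fun_prop)).mul tendsto_JJ)
    simpa [PP] using h
  · have h := tendsto_poly (g := fun s => (s + 1) ^ 2) (by fun_prop)
    norm_num at h
    exact h
  · have h := ((tendsto_poly (g := fun s => s - 6) (by fun_prop)).mul tendsto_sg).add lim1
    have e : ((-1 : ℝ) - 6) * sg (-1) + 3 * sg (-1) = -4 * sg (-1) := by ring
    rw [e] at h
    refine h.congr' (ev_right.mono fun x hx => ?_)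
    have h1 : x + 1 ≠ 0 := by linarith [hx.1]
    simp only
    field_simp

lemma lim3 : Tendsto (fun s => ((s + 1) * (s - 2) * sg s + JJ s) / (2 * (s + 1) ^ 3))
    (𝓝[>] (-1 : ℝ)) (𝓝 (-2 * sg (-1) / 27)) := by
  refine HasDerivAt.lhopital_zero_nhdsGT
    (f' := fun s => (s + 1) * (PP s * sg s + (s - 2) * JJ s) / PP s)
    (g' := fun s => 2 * (3 * (s + 1) ^ 2))
    (ev_right.mono fun x hx => ?_)
    (Eventually.of_forall fun x => ?_)
    (ev_right.mono fun x hx => ?_) ?_ ?_ ?_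
  · have h := ((((hasDerivAt_id x).add_const 1).mul ((hasDerivAt_id x).sub_const 2)).mul
      (deriv_sg (good_of hx) hx.2.ne)).add (deriv_JJ (good_of hx) hx.2.ne)
    refine HasDerivAt.congr_deriv h ?_
    have h1 : x + 1 ≠ 0 := by linarith [hx.1]
    have h8 : x - 8 ≠ 0 := by linarith [hx.2]
    have h0 : x ≠ 0 := hx.2.ne
    simp only [id, Pi.mul_apply]
    unfold PP
    field_simp
    ring
  · have h : HasDerivAt (fun s : ℝ => (s + 1) ^ 3) (3 * (x + 1) ^ 2) x := by
      refine HasDerivAt.congr_deriv (dpow 1 x 2) ?_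
      norm_num
    exact h.const_mul 2
  · have h1 : 0 < x + 1 := by linarith [hx.1]
    positivity
  · have h := ((tendsto_poly (g := fun s => (s + 1) * (s - 2)) (by fun_prop)).mul tendsto_sg).add
      tendsto_JJ
    simpa using h
  · have h := tendsto_poly (g := fun s => 2 * (s + 1) ^ 3) (by fun_prop)
    norm_num at h
    exact h
  · have h := lim2.div (tendsto_poly (g := fun s => 6 * (s * (s - 8))) (by fun_prop)) (by norm_num)
    have e : -4 * sg (-1) / (6 * ((-1 : ℝ) * (-1 - 8))) = -2 * sg (-1) / 27 := by ring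
    rw [e] at h
    refine h.congr' (ev_right.mono fun x hx => ?_)
    have h1 : x + 1 ≠ 0 := by linarith [hx.1]
    have h8 : x - 8 ≠ 0 := by linarith [hx.2]
    have h0 : x ≠ 0 := hx.2.ne
    simp only [Pi.div_apply]
    generalize PP x * sg x + (x - 2) * JJ x = g
    unfold PP
    field_simp
    ring

lemma cont_mm : ContinuousOn (fun s => mm s - Real.log s) (Icc (-1 : ℝ) 8) := by
  intro s hs
  by_cases h1 : s = -1
  · subst h1
    rw [← continuousWithinAt_sdiff_self]
    have e : Icc (-1 : ℝ) 8 \ {-1} = Ioc (-1 : ℝ) 8 := Icc_sdiff_left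
    rw [e]
    have h : Tendsto (fun s => mm s - Real.log s) (𝓝[>] (-1 : ℝ)) (𝓝 (mm (-1) - Real.log (-1))) := by
      refine Tendsto.sub ?_ tendsto_log
      have e2 : mm (-1) = -2 * sg (-1) / 27 := by simp [mm]
      rw [e2]
      refine lim3.congr' (ev_right.mono fun x hx => ?_)
      simp only [mm, if_neg hx.1.ne']
    exact h.mono_left (nhdsWithin_mono _ Ioc_subset_Ioi_self)
  · have hs1 : s + 1 ≠ 0 := fun h => h1 (by linarith)
    have hn : ContinuousOn (fun s => (s + 1) * (s - 2) * (sg s + Real.log s) + JJ s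
        - (s + 1) * (2 * s + 5) * (s * Real.log s)) (Icc (-1 : ℝ) 8) :=
      ((ContinuousOn.mul (by fun_prop) cont_sgL).add cont_JJ).sub
        (ContinuousOn.mul (by fun_prop) cont_ml)
    have hd : ContinuousWithinAt (fun s : ℝ => 2 * (s + 1) ^ 3) (Icc (-1 : ℝ) 8) s :=
      Continuous.continuousWithinAt (by fun_prop)
    have h := (hn s hs).div hd (mul_ne_zero two_ne_zero (pow_ne_zero 3 hs1))
    have key : ∀ x : ℝ, x ≠ -1 → mm x - Real.log x = ((x + 1) * (x - 2) * (sg x + Real.log x) + JJ x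
        - (x + 1) * (2 * x + 5) * (x * Real.log x)) / (2 * (x + 1) ^ 3) := by
      intro x hx
      have hx1 : x + 1 ≠ 0 := fun h => hx (by linarith)
      simp only [mm, if_neg hx]
      field_simp
      ring
    refine h.congr_of_eventuallyEq ?_ (key s h1)
    exact ((isOpen_ne.eventually_mem h1).filter_mono nhdsWithin_le_nhds).mono fun x hx => key x hx

end

end Sol

open Sol in
theorem stmtSol : StmtSol := by
  refine ⟨sg, JJ, mm, ⟨fun s hs h0 => deriv_sg hs h0, fun s hs h0 => deriv_JJ hs h0, ?_, ?_, ?_,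
    cont_JJ, JJ_neg_one, JJ_eight, JJ_zero, ?_⟩⟩
  · intro s _ _
    by_cases h1 : s = -1
    · subst h1
      simp [JJ_neg_one]
    · have hs1 : s + 1 ≠ 0 := fun h => h1 (by linarith)
      simp only [mm, if_neg h1]
      field_simp
  · simpa only [Real.log_abs] using cont_sgL
  · simpa only [Real.log_abs] using cont_mm
  · intro s hs h0
    rw [sg_eq (Set.Ioo_subset_Icc_self hs) h0]
    have h1 := FF_pos (zf_pos hs).le (zf_lt_one hs.1.le h0)
    have hk := kap_pos
    have h4 : 0 < s + 4 := by linarith [hs.1]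
    positivity

end Pool.Agent.Lib.MP_cbe5a6_an
end
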