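import Pool.Agent.Lib.MP_cbe5a6_an.Row3
import Pool.Agent.Lib.MP_cbe5a6_an.Sol
import Pool.Agent.Lib.MP_cbe5a6_an.Law
import Pool.Agent.Lib.MP_cbe5a6_an.Law2
import Pool.Agent.Lib.MP_cbe5a6_an.Fou
import Pool.Agent.Lib.MP_cbe5a6_an.Boot


import Pool.Agent.Lib.MP_cbe5a6_an.Dom

/-! Assembly. -/

set_option autoImplicit false

namespace Pool.Agent.Lib.MP_cbe5a6_an

open Set

lemma ex_pi : ex Real.pi = -1 := by simp [ex]

lemma four_pts (σ J m : ℝ → ℝ) (hS : Sol σ J m) :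
    KK σ m 0 0 0 + KK σ m Real.pi 0 0 + KK σ m 0 Real.pi 0 + KK σ m Real.pi Real.pi 0 = 0 := by
  have y0 : yy 0 0 0 = 3 := by simp only [yy, Can.ex_zero]; norm_num
  have s0 : ss 0 0 0 = 8 := by rw [ss, y0]; simp; norm_num
  have x0 : XX 0 0 0 = 27 := by
    rw [XX, y0, pr, Can.ex_zero, show (3 : ℂ) = ((3 : ℝ) : ℂ) by norm_num, Complex.conj_ofReal,
      one_mul, one_mul, one_mul, ← Complex.ofReal_pow, Complex.ofReal_re]
    norm_num
  have s1 : ss Real.pi 0 0 = 0 := by simp [ss, yy, Can.ex_zero, ex_pi]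
  have s2 : ss 0 Real.pi 0 = 0 := by simp [ss, yy, Can.ex_zero, ex_pi]
  have s3 : ss Real.pi Real.pi 0 = 0 := by simp [ss, yy, Can.ex_zero, ex_pi]
  have h8 := hS.hm 8 ⟨by norm_num, le_rfl⟩ (by norm_num)
  rw [hS.J8] at h8
  simp only [KK, s0, s1, s2, s3, x0, al, be]
  linarith

theorem target : Target := by
  obtain ⟨σ, J, m, hS⟩ := stmtSol
  obtain ⟨c, hc, hL⟩ := stmtLaw σ J m hS
  obtain ⟨h0, hP⟩ := stmtRed σ m c hc (stmtConv σ J m c hS hc hL)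
  apply hP
  obtain ⟨⟨e1, e2, e3, he⟩, ⟨f1, f2, f3, hf⟩⟩ :=
    stmtBoot σ J m _ _ _ _ _ _ _ _ _ _ _ _ hS appS appM appT
  obtain ⟨E, hE, hE1, hE2⟩ := stmtFou _ _ _ _ _ _ _ _ he hf
  have hser : Ser (KK σ m) (fun k => CA k + E k) := by
    refine ⟨serA.sm.add hE.sm, fun a b => ?_, fun p q => ?_, fun p q => ?_⟩
    · refine hsc (hsv ((serA.hs a b).add (hE.hs a b)) ?_) fun k => by push_cast; ring
      rw [← Complex.ofReal_add]
      congr 1
      simp only [KK]; ring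
    · simp only [serA.sw p q, hE.sw p q]
    · simp only [serA.ng p q, hE.ng p q]
  refine stmtCan _ _ hser (KK_shift σ m) h0 (four_pts σ J m hS) ?_
  refine stmtDom cA (fun p q => E (2 * p, 2 * q)) wA (fun n => om n) (3 / 16) 8
    (serA.sm.comp_injective Can.dbl_inj) (hE.sm.comp_injective Can.dbl_inj) cA_sw cA_ng
    (fun p q => hE.sw _ _) (fun p q => ?_) (fun S => ?_) (fun p => ?_) ?_ ?_ wA_close
    (by norm_num) rowsP rowsM
  · simp only [mul_neg, hE.ng]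
  · have h1 := hE1 (S.image fun k : ℤ × ℤ => ((2 * k.1, 2 * k.2) : ℤ × ℤ))
    rw [Finset.sum_image fun x _ y _ h => Can.dbl_inj h] at h1
    have e : ∑ k ∈ S, (((2 * k.1 : ℤ) : ℝ)) ^ 6 * E (2 * k.1, 2 * k.2) ^ 2
        = 64 * ∑ k ∈ S, (k.1 : ℝ) ^ 6 * E (2 * k.1, 2 * k.2) ^ 2 := by
      rw [Finset.mul_sum]
      refine Finset.sum_congr rfl fun k _ => ?_
      push_cast; ring
    rw [e] at h1
    linarith
  · have h1 := hE2 (2 * p)
    rw [Int.cast_mul, abs_mul, Int.cast_ofNat, abs_two, mul_pow] at h1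
    linarith
  · simp [wA, ww]
  · simp [wA, ww]

end Pool.Agent.Lib.MP_cbe5a6_an
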