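import Pool.Agent.Lib.MP_cbe5a6_an.ChkT
import Pool.Agent.Lib.MP_cbe5a6_an.AppI

-- part Pool.Agent.Lib.MP_cbe5a6_an.Row1
section

/-! The integer tables represent the Fourier coefficients of the approximate kernel. -/

set_option autoImplicit false

namespace Pool.Agent.Lib.MP_cbe5a6_an

open Polynomial

noncomputable section

def CA : ℤ × ℤ → ℝ := capp T0 T1 151 75 73 36 (gg : ℤ) DD
def cA (p q : ℤ) : ℝ := CA (2 * p, 2 * q)
def Gam (P Q : ℤ) : ℝ := cv T1 73 36 lc P Q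

theorem serA : Ser (KK (vA dAs dps DD) (vA dAm dpm DD)) CA :=
  ser_app dAs dps dAm dpm dAs' dAm' gg DD T0 T1 73 151 33 73 kAs kAm
    (ent_sum false a0L b0L 73 455 151 kLen.1 kLen.2.1 kP0 kM0)
    (ent_sum true a1L b1L 33 560 73 kLen.2.2.1 kLen.2.2.2 kP1 kM1)

lemma t0_eq (P Q : ℤ) : cv T0 151 75 dl P Q = t0I P Q := by
  unfold cv t0I
  simp only [Nat.cast_ofNat]
  split_ifs with h1 h2
  · rw [Finset.sum_eq_single (P + 75).toNat]
    · rw [dl, if_pos (by omega), mul_one]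
    · intro i _ hi; rw [dl, if_neg (by omega), mul_zero]
    · intro hi; exact absurd (Finset.mem_range.2 (by omega)) hi
  · rw [Int.cast_zero]
    refine Finset.sum_eq_zero fun i hi => ?_
    have := Finset.mem_range.1 hi
    rw [dl, if_neg (by omega), mul_zero]
  · simp

lemma lcOK_spec : ∀ n, lcOK n = true → ∀ k < n, 2 * ((k + 2) * (k + 1)) ∣ Lc
  | 0, _, _, h => by omega
  | n + 1, h, k, hk => by
    simp only [lcOK, Bool.and_eq_true, Nat.beq_eq] at h
    rcases Nat.lt_succ_iff_lt_or_eq.1 hk with h1 | rfl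
    · exact lcOK_spec n h.2 k h1
    · exact Nat.dvd_of_mod_eq_zero h.1

lemma lI_eq (k : ℤ) (h1 : -155 ≤ k) (h2 : k ≤ 155) : (lI k : ℝ) = Lc * lc k := by
  unfold lI lc
  have hm1 : 1 ≤ (max k (1 - k)).toNat := by omega
  have hm2 : (max k (1 - k)).toNat ≤ 156 := by omega
  generalize (max k (1 - k)).toNat = m at hm1 hm2
  by_cases h : m = 1
  · subst h
    have : (2 : ℕ) ∣ Lc := (Dvd.intro _ rfl).trans (lcOK_spec _ kLc 0 (by norm_num))
    rw [if_pos rfl, Int.ofNat_eq_natCast, Int.cast_natCast, Nat.cast_div this (by norm_num)]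
    simp [cn]; ring
  · obtain ⟨j, rfl⟩ : ∃ j, m = j + 2 := ⟨m - 2, by omega⟩
    have hd := lcOK_spec _ kLc j (by omega)
    have e : ((Int.ofNat (Lc / (2 * ((j + 2) * (j + 2 - 1)))) : ℤ) : ℝ)
        = Lc / (2 * ((j + 2) * (j + 1))) := by
      rw [Int.ofNat_eq_natCast, Int.cast_natCast, show j + 2 - 1 = j + 1 from rfl,
        Nat.cast_div hd (by positivity)]
      push_cast; ring
    have e2 : ((j : ℝ) + 2) - 1 = j + 1 := by ring
    rw [if_neg h, cn, if_neg (show ¬ (j + 2 = 0) by omega), if_neg h]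
    split_ifs with h3
    · rw [e, (Nat.even_iff.2 h3).neg_one_pow]; push_cast; rw [e2]; field_simp
    · rw [Int.cast_neg, e, (Nat.odd_iff.2 (by omega)).neg_one_pow]; push_cast; rw [e2]; field_simp

lemma tb_rows (pre : Bool) (a b : List ℤ) (d bb W : ℕ) (h : tbOK pre a b d bb W = true) (j : ℕ)
    (hj : j < W) : ∃ g : ℕ[X], (rowsOf pre a b d bb W).getD j 0 = g.eval (2 ^ bb) ∧
      g.eval 1 ≤ tbN pre a b d 1 1 ∧ g.eval 1 < 2 ^ bb ∧ ∀ i, W ≤ i → g.coeff i = 0 := by
  simp only [tbOK, Bool.and_eq_true, Nat.blt_eq, tbN_eq] at h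
  set P : ℕ[X][X] := tbG pre a b d (C X) X with hP
  have e : ∀ x y : ℕ, (P.map (evalRingHom x)).eval y = tbG pre a b d x y := fun x y => by
    rw [← eval₂_eq_eval_map]
    refine (map_tbG (R := ℕ[X][X]) (S := ℕ) (eval₂RingHom (evalRingHom x) y) pre a b d
      (C X) X).trans ?_
    simp
  have h1 : (P.coeff j).eval 1 ≤ tbG pre a b d 1 1 := by
    have := coeff_le_eval_one (P.map (evalRingHom 1)) j
    rwa [coeff_map, e] at this
  have h2 : (P.coeff j).eval (2 ^ bb) < (2 ^ bb) ^ W := by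
    have := coeff_le_eval_one (P.map (evalRingHom (2 ^ bb))) j
    rw [coeff_map, e] at this
    exact lt_of_le_of_lt this h.1.2
  refine ⟨P.coeff j, ?_, by rwa [tbN_eq], h1.trans_lt h.1.1, fun i hi => ?_⟩
  · rw [rowsOf, peel_getD _ _ _ _ hj, tbN_eq, pow_mul, ← e,
      digit_coeff _ j _ (by rw [e]; exact h.1.2), coeff_map]; rfl
  · rw [← digit_coeff (2 ^ bb) i _ (h1.trans_lt h.1.1), Nat.div_eq_of_lt
      (h2.trans_le (Nat.pow_le_pow_right (by positivity) hi)), Nat.zero_mod]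

lemma coeff_hG : ∀ (d : ℕ) (l : List ℤ) (t : ℕ), l.length ≤ d + 1 →
    (hG (X : ℕ[X]) 1 d l).coeff t = (l.getD t 0).toNat
  | _, [], _, _ => by simp [hG]
  | 0, [a], t, _ => by
    rw [hG, ← C_eq_natCast, coeff_C]; cases t <;> simp
  | 0, _ :: _ :: _, _, h => by simp at h
  | d + 1, a :: l, 0, _ => by
    rw [hG, one_pow, mul_one, coeff_add, coeff_X_mul_zero, ← C_eq_natCast, coeff_C]; simp
  | d + 1, a :: l, t + 1, h => by
    rw [hG, one_pow, mul_one, coeff_add, coeff_X_mul, coeff_hG d l t (by simpa using h),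
      ← C_eq_natCast, coeff_C, if_neg (by omega)]
    simp

lemma eval_hG (x d : ℕ) (l : List ℤ) : (hG (X : ℕ[X]) 1 d l).eval x = hN x 1 d l := by
  rw [hN_eq]
  refine (map_hG (evalRingHom x) X 1 d l).trans ?_
  simp

lemma getD_psm (c : ℤ) : ∀ (l : List ℤ) (t : ℕ), (psm c l).getD t 0 = c * l.getD t 0
  | [], _ => by simp [psm]
  | _ :: _, 0 => by simp [psm]
  | _ :: l, t + 1 => by simp only [psm, List.getD_cons_succ, getD_psm c l t]

lemma length_psm (c : ℤ) : ∀ l : List ℤ, (psm c l).length = l.length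
  | [] => rfl
  | _ :: l => by simp [psm, length_psm c l]

lemma getD_map_range {α : Type} (f : ℕ → α) (n i : ℕ) (a : α) (h : i < n) :
    ((List.range n).map f).getD i a = f i := by
  rw [List.getD_eq_getElem _ _ (by simpa using h)]; simp

lemma conv_int (j n : ℕ) (hj : j < 73) (hn1 : 72 ≤ n) (hn2 : n ≤ 310) :
    ent gmP gmM 560 n j = ∑ i ∈ Finset.range 73, T1 i j * lI ((n : ℤ) - i - 155) := by
  obtain ⟨u, u1, u2, u3, u4⟩ := tb_rows _ _ _ _ _ _ kP1 j hj
  obtain ⟨v, v1, v2, v3, v4⟩ := tb_rows _ _ _ _ _ _ kM1 j hj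
  have hlen : lcL.length ≤ 310 + 1 := by simp [lcL]
  set p : ℕ[X] := hG X 1 310 lcL
  set q : ℕ[X] := hG X 1 310 (psm (-1) lcL)
  have hp : ∀ x, p.eval x = hN x 1 310 lcL := fun x => eval_hG _ _ _
  have hq : ∀ x, q.eval x = hN x 1 310 (psm (-1) lcL) := fun x => eval_hG _ _ _
  have hk := kCv
  rw [← hp, ← hq] at hk
  have b1 : (u * p + v * q).eval 1 < 2 ^ 560 := by
    rw [eval_add, eval_mul, eval_mul]
    refine lt_of_le_of_lt ?_ hk
    calc _ ≤ (u.eval 1 + v.eval 1) * (p.eval 1 + q.eval 1) := by nlinarith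
      _ ≤ _ := Nat.mul_le_mul_right _ (add_le_add u2 v2)
  have b2 : (u * q + v * p).eval 1 < 2 ^ 560 := by
    rw [eval_add, eval_mul, eval_mul]
    refine lt_of_le_of_lt ?_ hk
    calc _ ≤ (u.eval 1 + v.eval 1) * (p.eval 1 + q.eval 1) := by nlinarith
      _ ≤ _ := Nat.mul_le_mul_right _ (add_le_add u2 v2)
  have e1 : gmP.getD j 0 = (u * p + v * q).eval (2 ^ 560) := by
    rw [gmP, getD_map_range _ _ _ _ hj, eval_add, eval_mul, eval_mul, hp, hq, ← u1, ← v1]; rfl
  have e2 : gmM.getD j 0 = (u * q + v * p).eval (2 ^ 560) := by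
    rw [gmM, getD_map_range _ _ _ _ hj, eval_add, eval_mul, eval_mul, hp, hq, ← u1, ← v1]; rfl
  have hT : ∀ i, T1 i j = (u.coeff i : ℤ) - v.coeff i := fun i => by
    rw [T1, ent, Int.subNatNat_eq_coe, dig_eq, dig_eq, rp1, rn1, u1, v1, digit_coeff _ _ _ u3,
      digit_coeff _ _ _ v3]
  have hL : ∀ t, t ≤ 310 → (p.coeff t : ℤ) - q.coeff t = lI ((t : ℤ) - 155) := fun t ht => by
    rw [coeff_hG _ _ _ hlen, coeff_hG _ _ _ (by rwa [length_psm]), getD_psm, lcL,
      getD_map_range _ _ _ _ (by omega)]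
    simp only [Int.ofNat_eq_natCast]; omega
  rw [ent, Int.subNatNat_eq_coe, dig_eq, dig_eq, e1, e2, digit_coeff _ _ _ b1,
    digit_coeff _ _ _ b2, coeff_add, coeff_add, coeff_mul, coeff_mul, coeff_mul, coeff_mul]
  simp only [Finset.Nat.sum_antidiagonal_eq_sum_range_succ_mk]
  push_cast
  rw [← Finset.sum_add_distrib, ← Finset.sum_add_distrib, ← Finset.sum_sub_distrib]
  symm
  refine Finset.sum_subset_zero_on_sdiff (Finset.range_subset_range.2 (by omega)) (fun i hi => ?_)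
    (fun i hi => ?_)
  · have : 73 ≤ i := by simp at hi; omega
    rw [u4 i this, v4 i this, Nat.cast_zero]; ring
  · have hi' := Finset.mem_range.1 hi
    have := hL (n - i) (by omega)
    rw [Nat.cast_sub (by omega)] at this
    rw [hT, ← this]; ring

lemma GI_eq (P Q : ℤ) (h1 : -118 ≤ P) (h2 : P ≤ 118) : (GI P Q : ℝ) = Lc * Gam P Q := by
  unfold GI Gam cv
  simp only [Nat.cast_ofNat]
  split_ifs with h
  · rw [conv_int _ _ (by omega) (by omega) (by omega), Finset.mul_sum]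
    push_cast
    refine Finset.sum_congr rfl fun i hi => ?_
    have := Finset.mem_range.1 hi
    rw [lI_eq _ (by omega) (by omega), show ((P + 191).toNat : ℤ) - i - 155 = P - (i - 36) by omega]
    ring
  · simp

lemma cA_eq (p q : ℤ) : cA p q = (t0I (2 * p) (2 * q) + gg * (Gam (2 * p) (2 * q)
    + Gam (2 * q) (2 * p) + Gam (2 * p) (-(2 * p) - 2 * q))) / (2 * DD) := by
  rw [cA, CA, capp, t0_eq]; rfl

lemma cI_eq (p q : ℤ) (h1 : -59 ≤ p) (h2 : p ≤ 59) (h3 : -59 ≤ q) (h4 : q ≤ 59) :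
    (cI p q : ℝ) = Lc * (2 * DD) * cA p q := by
  have := DD_pos
  rw [cA_eq, cI]
  push_cast [Int.ofNat_eq_natCast]
  rw [GI_eq _ _ (by omega) (by omega), GI_eq _ _ (by omega) (by omega),
    GI_eq _ _ (by omega) (by omega)]
  field_simp

lemma hasSum_window (f : ℤ → ℝ) (a : ℤ) (k : ℕ) (h : ∀ q, q < -a ∨ (k : ℤ) - a ≤ q → f q = 0) :
    HasSum f (∑ i ∈ Finset.range k, f ((i : ℤ) - a)) := by
  have e : ∑ i ∈ Finset.range k, f ((i : ℤ) - a)
      = ∑ q ∈ (Finset.range k).image (fun i : ℕ => (i : ℤ) - a), f q := by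
    rw [Finset.sum_image]; intro x _ y _ hxy; simpa using hxy
  rw [e]
  refine hasSum_sum_of_ne_finset_zero fun q hq => h q ?_
  by_contra hc
  exact hq (Finset.mem_image.2 ⟨(q + a).toNat, Finset.mem_range.2 (by omega), by omega⟩)

lemma sumL_eq : ∀ l : List ℤ, sumL l = ∑ i ∈ Finset.range l.length, l.getD i 0
  | [] => rfl
  | a :: l => by
    rw [sumL, List.length_cons, Finset.sum_range_succ', sumL_eq l]
    simp only [List.getD_cons_succ, List.getD_cons_zero]
    exact add_comm _ _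

lemma sumR_eq (f : ℕ → ℤ) : ∀ k, sumR f k = ∑ i ∈ Finset.range k, f i
  | 0 => rfl
  | k + 1 => by rw [sumR, sumR_eq f k, Finset.sum_range_succ]; rfl

lemma rows1_getD (j : ℕ) (hj : j < 73) : rows1.getD j [] = row1 j := getD_map_range _ _ _ _ hj

lemma Gam_zero (P Q : ℤ) (h : Q < -36 ∨ 36 < Q) : Gam P Q = 0 := by
  unfold Gam cv; rw [if_neg (by simp only [Nat.cast_ofNat]; omega)]

lemma t0I_zero (P Q : ℤ) (h : Q < -75 ∨ 75 < Q ∨ P < -75 ∨ 75 < P) : t0I P Q = 0 := by
  unfold t0I; split_ifs <;> first | rfl | omega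

lemma tau_hasSum (n : ℕ) : HasSum (fun q : ℤ => Gam (2 * q) (2 * n)) (tauI n * Real.log 2) := by
  unfold tauI
  split_ifs with h
  · rw [rows1_getD _ h, sumL_eq, row1]
    simp only [List.length_map, List.length_range]
    push_cast
    rw [Finset.sum_mul]
    refine hsc (hasSum_sum fun i hi => (hasSum_lc_even ((i : ℤ) - 36)).mul_left _) fun q => ?_
    unfold Gam cv
    simp only [Nat.cast_ofNat]
    rw [if_pos (by omega)]
    refine Finset.sum_congr rfl fun i hi => ?_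
    rw [getD_map_range _ _ _ _ (Finset.mem_range.1 hi),
      show (2 * (n : ℤ) + 36).toNat = 2 * n + 36 by omega]
  · simp only [Int.cast_zero, zero_mul]
    refine hsc hasSum_zero fun q => (Gam_zero _ _ (by omega)).symm

lemma ksum (n : ℕ) : ∑' q : ℤ, cA n q
    = (∑ q ∈ Finset.range 75, (t0I (2 * n) (2 * ((q : ℤ) - 37)) : ℝ)
      + gg * (2 * ∑ j ∈ Finset.range 37, Gam (2 * n) (2 * ((j : ℤ) - 18)) + tauI n * Real.log 2))
      / (2 * DD) := by
  have h1 := hasSum_window (fun q => (t0I (2 * n) (2 * q) : ℝ)) 37 75 (fun q hq => by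
    rw [t0I_zero _ _ (by omega)]; simp)
  have h2 := hasSum_window (fun q => Gam (2 * n) (2 * q)) 18 37 (fun q hq =>
    Gam_zero _ _ (by omega))
  have h3 : HasSum (fun q : ℤ => Gam (2 * n) (-(2 * n) - 2 * q)) _ :=
    hsc ((Equiv.subLeft (-(n : ℤ))).hasSum_iff.2 h2) fun q => by
      simp only [Function.comp, Equiv.subLeft_apply]; congr 1; ring
  have h4 := (h1.add (((h2.add (tau_hasSum n)).add h3).mul_left (gg : ℝ))).div_const (2 * DD)
  refine HasSum.tsum_eq (hsc (hsv h4 (by ring)) fun q => ?_)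
  rw [cA_eq]

def wA (n : ℕ) : ℝ := ww cA n -
  if n < 2 then 0 else 4 * gg * (Real.log 2 - l2 / 2 ^ 192) * tauI n / (2 * DD)

lemma T192_eq : (T192 : ℝ) = 2 ^ 192 := by unfold T192; norm_num

lemma wI_eq (n : ℕ) (hn : n ≤ 59) : (wI n : ℝ) = Lc * (2 * DD) * 2 ^ 192 * wA n := by
  have := DD_pos
  unfold wI wA ww
  split_ifs with h
  · simp
  · rw [ksum, kI, sumR_eq, sumR_eq]
    simp only [Int.ofNat_eq_natCast, Int.cast_add, Int.cast_mul, Int.cast_sum, Int.cast_natCast,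
      Int.cast_ofNat, T192_eq]
    rw [cI_eq _ _ (by omega) (by omega) (by omega) (by omega),
      Finset.sum_congr rfl fun (j : ℕ) _ => GI_eq (2 * n) (2 * ((j : ℤ) - 18)) (by omega) (by omega),
      ← Finset.mul_sum]
    field_simp
    ring

lemma tauOK_spec : ∀ n, tauOK n = true → ∀ k < n,
    64 * k ^ 3 * gg.toNat * (tauI k).natAbs ≤ 2 ^ 320 * 2 ^ 192
  | 0, _, _, h => by omega
  | n + 1, h, k, hk => by
    simp only [tauOK, Bool.and_eq_true, Nat.ble_eq] at h
    rcases Nat.lt_succ_iff_lt_or_eq.1 hk with h1 | rfl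
    · exact tauOK_spec n h.2 k h1
    · exact h.1

lemma gg_toNat : ((gg.toNat : ℕ) : ℝ) = (gg : ℝ) := by
  rw [← Int.cast_natCast, Int.toNat_of_nonneg (by decide)]

lemma gg_pos : (0 : ℝ) < gg := by exact_mod_cast (by decide : 0 < gg)

lemma wA_close (n : ℕ) : (n : ℝ) ^ 3 * |ww cA n - wA n| ≤ 3 / 16 := by
  rw [wA, sub_sub_cancel]
  split_ifs with h
  · simp; norm_num
  · by_cases h2 : n < 19
    · have h3 := (Nat.cast_le (α := ℝ)).2 (tauOK_spec _ kTau n h2)
      rw [Nat.cast_mul, Nat.cast_mul, Nat.cast_mul, Nat.cast_mul, gg_toNat, Nat.cast_natAbs,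
        Int.cast_abs, Nat.cast_pow n, Nat.cast_pow 2 192, ← DD] at h3
      simp only [Nat.cast_ofNat] at h3
      have h4 : |Real.log 2 - l2 / 2 ^ 192| ≤ 2 / 2 ^ 192 := by
        have h5 := l2_spec
        generalize (l2 : ℝ) = y at h5 ⊢
        have e : Real.log 2 - y / 2 ^ 192 = (2 ^ 192 * Real.log 2 - y) / 2 ^ 192 := by
          field_simp
        rw [e, abs_div, abs_of_pos (by positivity : (0 : ℝ) < 2 ^ 192)]
        exact div_le_div_of_nonneg_right h5 (by positivity)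
      have := DD_pos
      have := gg_pos
      rw [abs_div, abs_mul, abs_mul, abs_of_pos (by positivity : (0 : ℝ) < 4 * gg),
        abs_of_pos (by positivity : 0 < 2 * DD)]
      calc (n : ℝ) ^ 3 * (4 * gg * |Real.log 2 - l2 / 2 ^ 192| * |(tauI n : ℝ)| / (2 * DD))
          ≤ (n : ℝ) ^ 3 * (4 * gg * (2 / 2 ^ 192) * |(tauI n : ℝ)| / (2 * DD)) := by gcongr
        _ = (64 * (n : ℝ) ^ 3 * gg * |(tauI n : ℝ)|) / (DD * 2 ^ 192) / 16 := by field_simp; ring
        _ ≤ 1 / 16 := by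
          gcongr
          exact (div_le_one (by positivity)).2 h3
        _ ≤ 3 / 16 := by norm_num
    · rw [tauI, if_neg (by omega), Int.cast_zero, mul_zero, zero_div, abs_zero, mul_zero]
      norm_num

lemma RI_eq (s : ℤ) (n m : ℕ) (hn : n ≤ 58) (hm : m ≤ 58) :
    (RI s n m : ℝ) = Sc4 * RR s cA wA n m := by
  have hw : ∀ k, k ≤ 59 → ((wL.getD k 0 : ℤ) : ℝ) = Lc * (2 * DD) * 2 ^ 192 * wA k := fun k hk => by
    rw [wL, getD_map_range _ _ _ _ (by omega), wI_eq k hk]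
  have hS : (Sc4 : ℝ) = 4 * (Lc * (2 * DD) * 2 ^ 192) := by
    unfold Sc4 DD
    generalize 2 ^ 320 = y
    rw [Nat.cast_mul, Nat.cast_mul, Nat.cast_mul, Nat.cast_mul, Nat.cast_pow 2 192]
    simp only [Nat.cast_ofNat]
  unfold RI ldI RR
  simp only [Int.ofNat_eq_natCast, Int.cast_add, Int.cast_mul, Int.cast_sub, Int.cast_ite,
    Int.cast_ofNat, T192_eq, Int.cast_zero]
  rw [cI_eq _ _ (by omega) (by omega) (by omega) (by omega),
    cI_eq _ _ (by omega) (by omega) (by omega) (by omega),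
    cI_eq _ _ (by omega) (by omega) (by omega) (by omega),
    hw _ (by omega), hw _ (by omega), hw _ (by omega), hw _ (by omega), hw _ (by omega),
    hw _ (by omega), hS]
  split_ifs <;> ring

end

end Pool.Agent.Lib.MP_cbe5a6_an
end

-- part Pool.Agent.Lib.MP_cbe5a6_an.Row2
section

/-! Asymptotics of the coefficients for large frequency. -/

set_option autoImplicit false

namespace Pool.Agent.Lib.MP_cbe5a6_an

open Polynomial

lemma getD_padd : ∀ (l k : List ℤ) (t : ℕ), (padd l k).getD t 0 = l.getD t 0 + k.getD t 0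
  | [], k, t => by simp [padd]
  | a :: l, [], t => by simp [padd]
  | _ :: _, _ :: _, 0 => by simp [padd]
  | _ :: l, _ :: k, t + 1 => by simp only [padd, List.getD_cons_succ, getD_padd l k t]

lemma length_padd : ∀ (l k : List ℤ), (padd l k).length = max l.length k.length
  | [], k => by simp [padd]
  | a :: l, [] => by simp [padd]
  | _ :: l, _ :: k => by simp [padd, length_padd l k]

lemma getD_palt : ∀ (l : List ℤ) (t : ℕ), (palt l).getD t 0 = (-1) ^ t * l.getD t 0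
  | [], _ => by simp [palt]
  | [a], 0 => by simp [palt]
  | [a], t + 1 => by simp [palt]
  | _ :: _ :: _, 0 => by simp [palt]
  | _ :: _ :: _, 1 => by simp [palt]
  | _ :: _ :: l, t + 2 => by
    simp only [palt, List.getD_cons_succ, getD_palt l t]; ring

lemma dotI_eq : ∀ l k : List ℤ, dotI l k = ∑ i ∈ Finset.range l.length, l.getD i 0 * k.getD i 0
  | [], _ => by simp [dotI]
  | _ :: _, [] => by simp [dotI]
  | a :: l, b :: k => by
    rw [dotI, List.length_cons, Finset.sum_range_succ', dotI_eq l k]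
    simp only [List.getD_cons_succ, List.getD_cons_zero]
    exact add_comm _ _

lemma dot2_eq : ∀ (l : List ℤ) (p m : List ℕ), l.length ≤ p.length → l.length ≤ m.length →
    dot2 l p m = ∑ i ∈ Finset.range l.length,
      ((l.getD i 0).toNat * p.getD i 0 + (-l.getD i 0).toNat * m.getD i 0)
  | [], _, _, _, _ => by simp [dot2]
  | _ :: _, [], _, h, _ => by simp at h
  | _ :: _, _ :: _, [], _, h => by simp at h
  | a :: l, u :: p, v :: m, h1, h2 => by
    rw [dot2, List.length_cons, Finset.sum_range_succ',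
      dot2_eq l p m (by simpa using h1) (by simpa using h2)]
    simp only [List.getD_cons_succ, List.getD_cons_zero]
    exact add_comm _ _

lemma geoPN_eq (z i : ℕ) : geoPN z i = geoP z i := by
  simp only [geoPN, geoP, hN_eq, Nat.cast_id]

lemma geoMN_eq (z i : ℕ) : geoMN z i = geoM z i := by
  simp only [geoMN, geoM, hN_eq, Nat.cast_id]

def FT {R : Type*} [CommSemiring R] (L : List ℤ) (f g : ℕ → R) : R :=
  ∑ i ∈ Finset.range 74, (((L.getD i 0).toNat : R) * f i + ((-L.getD i 0).toNat : R) * g i)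

lemma map_geoP {R S : Type*} [CommSemiring R] [CommSemiring S] (f : R →+* S) (z : R) (i : ℕ) :
    f (geoP z i) = geoP (f z) i := by
  unfold geoP; split_ifs <;> simp only [map_mul, map_pow, map_natCast, map_hG]

lemma map_geoM {R S : Type*} [CommSemiring R] [CommSemiring S] (f : R →+* S) (z : R) (i : ℕ) :
    f (geoM z i) = geoM (f z) i := by
  unfold geoM; split_ifs <;> simp only [map_mul, map_pow, map_natCast, map_hG, map_zero]

lemma map_FT {R S : Type*} [CommSemiring R] [CommSemiring S] (φ : R →+* S) (L : List ℤ)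
    (f g : ℕ → R) : φ (FT L f g) = FT L (fun i => φ (f i)) (fun i => φ (g i)) := by
  simp only [FT, map_sum, map_add, map_mul, map_natCast]

lemma dot2_FT (L : List ℤ) (hL : L.length = 74) (f g : ℕ → ℕ) :
    dot2 L ((List.range 74).map f) ((List.range 74).map g) = FT L f g := by
  rw [dot2_eq _ _ _ (by simp [hL]) (by simp [hL]), hL, FT]
  refine Finset.sum_congr rfl fun i hi => ?_
  have := Finset.mem_range.1 hi
  rw [getD_map_range _ _ _ _ this, getD_map_range _ _ _ _ this]; rfl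

lemma ev_rep (y : ℝ) : ∀ k, (1 - y) * ev (List.replicate k 1) y = 1 - y ^ k
  | 0 => by simp
  | k + 1 => by
    rw [List.replicate_succ, ev_cons, pow_succ]
    push_cast
    linear_combination y * ev_rep y k

lemma geo_sub (z : ℝ) (i : ℕ) : geoP z i - geoM z i
    = ((i : ℝ) - 36) ^ 3 * (80 ^ 66 * ev ones (((i : ℝ) - 36) * z / 80)) := by
  have hl : ones.length ≤ 66 + 1 := by simp [ones]
  unfold geoP geoM
  split_ifs with h
  · have h1 := hG_sub (((i : ℝ) - 36) * z / 80) 80 66 ones hl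
    rw [hG_psm_zero _ _ _ _ (by intro a ha; rw [List.eq_of_mem_replicate ha]; norm_num),
      div_mul_cancel₀ _ (by norm_num), sub_zero] at h1
    rw [Nat.cast_sub h, Nat.cast_ofNat, Nat.cast_ofNat, h1, sub_zero]
  · have h1 := hG_sub ((36 - (i : ℝ)) * z / 80) 80 66 (palt ones) (by rwa [length_palt])
    rw [div_mul_cancel₀ _ (by norm_num), ev_palt] at h1
    rw [Nat.cast_sub (by omega), Nat.cast_ofNat, Nat.cast_ofNat,
      show ((i : ℝ) - 36) * z / 80 = -((36 - (i : ℝ)) * z / 80) by ring]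
    linear_combination (-(36 - (i : ℝ)) ^ 3) * h1

lemma toNat_sub_real (a : ℤ) : ((a.toNat : ℕ) : ℝ) - ((-a).toNat : ℕ) = a := by
  have := toNat_sub_cast (R := ℝ) a
  rwa [neg_one_mul] at this

lemma toNat_add_real (a : ℤ) : ((a.toNat : ℕ) : ℝ) + ((-a).toNat : ℕ) = |(a : ℝ)| := by
  have : (a.toNat : ℤ) + ((-a).toNat : ℤ) = |a| := by
    rcases abs_cases a with h | h <;> omega
  have h2 := congrArg (Int.cast : ℤ → ℝ) this
  push_cast at h2
  exact h2

lemma tailC_sound (j : ℤ) (L : List ℤ) (hL : L.length = 74) (h : tailC j L = true) (P : ℝ)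
    (hP : 80 ≤ P) :
    |gg * (P ^ 3 * ∑ i ∈ Finset.range 74, (L.getD i 0 : ℝ) / (P - ((i : ℝ) - 36)))
      - 4 * gq j * DD| ≤ (ddq j : ℝ) / 1000 * (32 * DD) := by
  simp only [tailC, Bool.and_eq_true, decide_eq_true_eq, Nat.blt_eq, Nat.ble_eq] at h
  obtain ⟨⟨⟨⟨⟨h0, h1⟩, h2⟩, h3⟩, h4⟩, h5⟩ := h
  rw [sumL_eq, hL] at h0
  rw [dotI_eq, hL] at h1 h2
  have m0 : ∑ i ∈ Finset.range 74, (L.getD i 0 : ℝ) = 0 := by exact_mod_cast h0
  have m1 : ∑ i ∈ Finset.range 74, (L.getD i 0 : ℝ) * ((i : ℝ) - 36) = 0 := by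
    have := congrArg (Int.cast : ℤ → ℝ) h1
    rw [Int.cast_sum, Int.cast_zero] at this
    rw [← this]
    refine Finset.sum_congr rfl fun i hi => ?_
    rw [xL1, getD_map_range _ _ _ _ (Finset.mem_range.1 hi), Int.ofNat_eq_natCast]
    push_cast; ring
  have m2 : gg * ∑ i ∈ Finset.range 74, (L.getD i 0 : ℝ) * ((i : ℝ) - 36) ^ 2 = 4 * gq j * DD := by
    have := congrArg (Int.cast : ℤ → ℝ) h2
    rw [Int.cast_mul, Int.cast_sum, Int.cast_mul, Int.cast_mul, Int.ofNat_eq_natCast,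
      Int.cast_natCast, ← DD, Int.cast_ofNat] at this
    rw [← this]
    congr 1
    refine Finset.sum_congr rfl fun i hi => ?_
    rw [xL2, getD_map_range _ _ _ _ (Finset.mem_range.1 hi), Int.ofNat_eq_natCast]
    push_cast; ring
  have hP0 : 0 < P := by linarith
  set z : ℝ := 80 / P with hz
  have hz1 : |z| ≤ 1 := by
    rw [abs_of_pos (by positivity), hz, div_le_one hP0]; exact hP
  simp only [gP1, gM1, gPB, gMB, x70, dot2_FT L hL, funext (geoPN_eq _), funext (geoMN_eq _)]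
    at h3 h4 h5
  have k1 := l1d_bound 800 z hz1 67 (FT L (geoP X) (geoM X)) (FT L (geoM X) (geoP X))
  simp only [← coe_evalRingHom, ← coe_eval₂RingHom, map_FT, map_geoP, map_geoM] at k1
  simp only [coe_evalRingHom, coe_eval₂RingHom, eval_X, eval₂_X] at k1
  have k2 := k1 h3 h4
  clear k1 h3 h4 h0 h1 h2
  generalize l1d 800 67 _ _ = l1 at k2 h5
  have e1 : FT L (fun i => geoP z i) (fun i => geoM z i) - FT L (fun i => geoM z i) (fun i => geoP z i)
      = ∑ i ∈ Finset.range 74, (L.getD i 0 : ℝ)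
        * (((i : ℝ) - 36) ^ 3 * (80 ^ 66 * ev ones (((i : ℝ) - 36) / P))) := by
    rw [FT, FT, ← Finset.sum_sub_distrib]
    refine Finset.sum_congr rfl fun i _ => ?_
    have a1 := geo_sub z i
    rw [show ((i : ℝ) - 36) * z / 80 = ((i : ℝ) - 36) / P by rw [hz]; field_simp] at a1
    rw [← a1, ← toNat_sub_real (L.getD i 0)]; ring
  rw [e1] at k2
  set Rm := FT L (fun i => (Int.ofNat i - 36).natAbs ^ 70) (fun i => (Int.ofNat i - 36).natAbs ^ 70)
    with hRm
  have e2 : (Rm : ℝ) = ∑ i ∈ Finset.range 74, |(L.getD i 0 : ℝ)| * |(i : ℝ) - 36| ^ 70 := by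
    rw [hRm, FT, Nat.cast_sum]
    refine Finset.sum_congr rfl fun i _ => ?_
    rw [← toNat_add_real, Nat.cast_add, Nat.cast_mul, Nat.cast_mul, Nat.cast_pow, Nat.cast_natAbs,
      Int.ofNat_eq_natCast, Nat.cast_id, Nat.cast_id]
    push_cast; ring
  clear_value Rm
  have e3 : P ^ 3 * ∑ i ∈ Finset.range 74, (L.getD i 0 : ℝ) / (P - ((i : ℝ) - 36))
      = P ^ 2 * ∑ i ∈ Finset.range 74, (L.getD i 0 : ℝ)
        + P * ∑ i ∈ Finset.range 74, (L.getD i 0 : ℝ) * ((i : ℝ) - 36)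
        + ∑ i ∈ Finset.range 74, (L.getD i 0 : ℝ) * ((i : ℝ) - 36) ^ 2
        + ((∑ i ∈ Finset.range 74, (L.getD i 0 : ℝ)
          * (((i : ℝ) - 36) ^ 3 * (80 ^ 66 * ev ones (((i : ℝ) - 36) / P)))) / (80 ^ 66 * P)
        + ∑ i ∈ Finset.range 74, (L.getD i 0 : ℝ) * ((i : ℝ) - 36) ^ 70
          / (P ^ 67 * (P - ((i : ℝ) - 36)))) := by
    simp only [Finset.mul_sum, Finset.sum_div, ← Finset.sum_add_distrib]
    refine Finset.sum_congr rfl fun i hi => ?_
    have hi' : (i : ℝ) ≤ 73 := by exact_mod_cast Nat.lt_succ_iff.1 (Finset.mem_range.1 hi)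
    generalize (L.getD i 0 : ℝ) = a
    have hx : P - ((i : ℝ) - 36) ≠ 0 := by linarith
    generalize (i : ℝ) - 36 = x at hx
    have a1 := ev_rep (x / P) 67
    rw [← ones] at a1
    have a2 : ev ones (x / P) = (1 - (x / P) ^ 67) * P / (P - x) := by
      rw [← a1]; field_simp
    rw [a2, div_pow]
    field_simp
    ring
  have b1 : |(∑ i ∈ Finset.range 74, (L.getD i 0 : ℝ)
          * (((i : ℝ) - 36) ^ 3 * (80 ^ 66 * ev ones (((i : ℝ) - 36) / P)))) / (80 ^ 66 * P)|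
      ≤ (l1 : ℝ) / (80 ^ 66 * 80) := by
    rw [abs_div, abs_of_pos (by positivity : (0 : ℝ) < 80 ^ 66 * P)]
    exact div_le_div₀ (Nat.cast_nonneg _) k2 (by positivity)
      (mul_le_mul_of_nonneg_left hP (by positivity))
  have b2 : |∑ i ∈ Finset.range 74, (L.getD i 0 : ℝ) * ((i : ℝ) - 36) ^ 70
          / (P ^ 67 * (P - ((i : ℝ) - 36)))| ≤ (Rm : ℝ) / (80 ^ 67 * 43) := by
    rw [e2, Finset.sum_div]
    refine (Finset.abs_sum_le_sum_abs _ _).trans (Finset.sum_le_sum fun i hi => ?_)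
    have hi' : (i : ℝ) ≤ 73 := by exact_mod_cast Nat.lt_succ_iff.1 (Finset.mem_range.1 hi)
    have hx : 43 ≤ P - ((i : ℝ) - 36) := by linarith
    rw [abs_div, abs_mul, abs_pow, abs_of_pos (by positivity : 0 < P ^ 67 * (P - ((i : ℝ) - 36)))]
    gcongr
  have b3 := (Nat.cast_le (α := ℝ)).2 h5
  rw [Nat.cast_mul, Nat.cast_mul, Nat.cast_mul, Nat.cast_mul, Nat.cast_mul, Nat.cast_mul,
    Nat.cast_add, Nat.cast_mul, gg_toNat, ← DD, Nat.cast_pow] at b3
  simp only [Nat.cast_ofNat] at b3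
  have hg := gg_pos
  rw [e3, m0, m1, mul_zero, mul_zero, zero_add, zero_add, mul_add, m2, add_sub_cancel_left,
    abs_mul, abs_of_pos hg]
  have b4 := (abs_add_le _ _).trans (add_le_add b1 b2)
  refine (mul_le_mul_of_nonneg_left b4 hg.le).trans ?_
  have e4 : (gg : ℝ) * (l1 / (80 ^ 66 * 80) + Rm / (80 ^ 67 * 43))
      = 1000 * gg * (43 * l1 + Rm) / (1000 * (43 * 80 ^ 67)) := by
    field_simp
  rw [e4, div_le_iff₀ (by positivity)]
  refine b3.trans (le_of_eq ?_)
  ring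

lemma tailOK_spec : ∀ n, tailOK n = true → ∀ k < n,
    tailC (Int.ofNat k - 18) (mrg (rows1.getD (2 * k) [])) = true
  | 0, _, _, h => by omega
  | n + 1, h, k, hk => by
    simp only [tailOK, Bool.and_eq_true] at h
    rcases Nat.lt_succ_iff_lt_or_eq.1 hk with h1 | rfl
    · exact tailOK_spec n h.2 k h1
    · exact h.1

lemma lc_big (n i : ℕ) (hn : 40 ≤ n) (hi : i < 73) : 2 * lc (2 * (n : ℤ) - ((i : ℤ) - 36))
    = (-1) ^ i * (1 / (2 * (n : ℝ) - ((i : ℝ) + 1 - 36)) - 1 / (2 * (n : ℝ) - ((i : ℝ) - 36))) := by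
  obtain ⟨m, hm⟩ : ∃ m, 2 * n + 36 = i + m := ⟨2 * n + 36 - i, by omega⟩
  have e : (max (2 * (n : ℤ) - ((i : ℤ) - 36)) (1 - (2 * (n : ℤ) - ((i : ℤ) - 36)))).toNat = m := by
    omega
  have hm' : (2 * (n : ℝ) + 36) = i + m := by exact_mod_cast hm
  have hm2 : (2 : ℝ) ≤ m := by exact_mod_cast (by omega : 2 ≤ m)
  have e2 : ((-1 : ℝ)) ^ m = (-1) ^ i := by
    rcases Nat.even_or_odd i with h | h
    · rw [h.neg_one_pow, Even.neg_one_pow (by rw [Nat.even_iff] at *; omega)]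
    · rw [h.neg_one_pow, Odd.neg_one_pow (by rw [Nat.odd_iff] at *; omega)]
  rw [lc, e, cn, if_neg (by omega), if_neg (by omega), e2,
    show 2 * (n : ℝ) - ((i : ℝ) + 1 - 36) = m - 1 by linarith,
    show 2 * (n : ℝ) - ((i : ℝ) - 36) = m by linarith]
  have : (m : ℝ) - 1 ≠ 0 := by linarith
  field_simp
  ring

noncomputable def gam (n : ℕ) (j : ℤ) : ℝ := gg * Gam (2 * n) (2 * j) / (2 * DD)

lemma gam_zero (n : ℕ) (j : ℤ) (h : j < -18 ∨ 18 < j) : gam n j = 0 := by
  rw [gam, Gam_zero _ _ (by omega), mul_zero, zero_div]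

lemma gam_tail (n : ℕ) (hn : 40 ≤ n) (j : ℤ) :
    |(n : ℝ) ^ 3 * gam n j - gq j / 8| ≤ (ddq j : ℝ) / 1000 := by
  by_cases hj : j < -18 ∨ 18 < j
  · rw [gam_zero n j hj, gq, if_neg (by omega), if_neg (by omega), if_neg (by omega)]
    simp; positivity
  obtain ⟨k, rfl⟩ : ∃ k : ℕ, j = (k : ℤ) - 18 := ⟨(j + 18).toNat, by omega⟩
  have hk : k < 37 := by omega
  have h1 := tailOK_spec _ kTail k hk
  rw [rows1_getD _ (by omega), Int.ofNat_eq_natCast] at h1
  have hl : (row1 (2 * k)).length = 73 := by simp [row1]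
  have hn' : (40 : ℝ) ≤ n := by exact_mod_cast hn
  have h2 := tailC_sound _ _ (by simp [mrg, length_padd, length_psm, length_palt, hl]) h1
    (2 * n) (by linarith)
  have e : ∑ i ∈ Finset.range 74, ((mrg (row1 (2 * k))).getD i 0 : ℝ) / (2 * n - ((i : ℝ) - 36))
      = 2 * Gam (2 * n) (2 * ((k : ℤ) - 18)) := by
    simp only [mrg, getD_padd, getD_psm, Int.cast_add, add_div, Finset.sum_add_distrib]
    rw [Finset.sum_range_succ', Finset.sum_range_succ (n := 73),
      List.getD_eq_default (palt _) _ (by rw [length_palt, hl])]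
    unfold Gam cv
    simp only [Nat.cast_ofNat, List.getD_cons_succ, List.getD_cons_zero, getD_palt]
    rw [if_pos (by omega), show (2 * ((k : ℤ) - 18) + 36).toNat = 2 * k by omega, Finset.mul_sum,
      mul_zero, Int.cast_zero, zero_div, zero_div, add_zero, add_zero, ← Finset.sum_add_distrib]
    refine Finset.sum_congr rfl fun i hi => ?_
    have hi' := Finset.mem_range.1 hi
    rw [mul_left_comm (2 : ℝ), lc_big n i hn hi', row1, getD_map_range _ _ _ _ hi']
    push_cast; ring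
  rw [e] at h2
  have := DD_pos
  have e2 : (n : ℝ) ^ 3 * gam n ((k : ℤ) - 18) - gq ((k : ℤ) - 18) / 8
      = (gg * ((2 * n) ^ 3 * (2 * Gam (2 * n) (2 * ((k : ℤ) - 18)))) - 4 * gq ((k : ℤ) - 18) * DD)
        / (32 * DD) := by
    rw [gam]; field_simp; ring
  rw [e2, abs_div, abs_of_pos (by positivity : 0 < 32 * DD), div_le_iff₀ (by positivity)]
  exact h2

end Pool.Agent.Lib.MP_cbe5a6_an
end
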