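import Pool.Agent.Lib.MP_cbe5a6_an.Row2
import Pool.Agent.Lib.MP_cbe5a6_an.ChkR

/-! Diagonal dominance of the approximate matrices. -/

set_option autoImplicit false

namespace Pool.Agent.Lib.MP_cbe5a6_an

lemma cA_sw (p q : ℤ) : cA p q = cA q p := serA.sw _ _

lemma cA_ng (p q : ℤ) : cA (-p) (-q) = cA p q := by
  have := serA.ng (2 * p) (2 * q)
  rw [cA, cA, mul_neg, mul_neg, this]

lemma cA_big (n : ℕ) (hn : 38 ≤ n) (q : ℤ) : cA n q = gam n q + gam n (-n - q) := by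
  rw [cA_eq, t0I_zero _ _ (by omega), Gam_zero (2 * q) _ (by omega), gam, gam,
    show 2 * (-(n : ℤ) - q) = -(2 * n) - 2 * q by ring]
  push_cast; ring

lemma wA_big (n : ℕ) (hn : 38 ≤ n) :
    wA n = 8 * ∑ j ∈ Finset.range 37, gam n ((j : ℤ) - 18) + 4 * gam n 0 := by
  have ht : tauI n = 0 := by rw [tauI, if_neg (by omega)]
  rw [wA, ww, if_neg (by omega), if_neg (by omega), ksum, ht, cA_sw, cA_big n hn,
    gam_zero n (-n - 0) (by omega),
    Finset.sum_eq_zero fun q _ => by rw [t0I_zero _ _ (by omega), Int.cast_zero]]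
  simp only [gam, ← Finset.sum_div, ← Finset.mul_sum, Int.cast_zero]
  ring

lemma wA_bd (n : ℕ) (hn : 40 ≤ n) : -38.5 ≤ (n : ℝ) ^ 3 * wA n ∧ (n : ℝ) ^ 3 * wA n ≤ -19.5 := by
  have h1 : |∑ j ∈ Finset.range 37, ((n : ℝ) ^ 3 * gam n ((j : ℤ) - 18) - gq ((j : ℤ) - 18) / 8)|
      ≤ ∑ j ∈ Finset.range 37, (ddq ((j : ℤ) - 18) : ℝ) / 1000 :=
    (Finset.abs_sum_le_sum_abs _ _).trans (Finset.sum_le_sum fun j _ => gam_tail n hn _)
  have e1 : ∑ j ∈ Finset.range 37, (ddq ((j : ℤ) - 18) : ℝ) / 1000 = 1.17 := by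
    simp [Finset.sum_range_succ, ddq]; norm_num
  have e2 : ∑ j ∈ Finset.range 37, (gq ((j : ℤ) - 18) : ℝ) / 8 = -8 := by
    simp [Finset.sum_range_succ, gq]; norm_num
  rw [e1, Finset.sum_sub_distrib, e2, ← Finset.mul_sum, abs_le] at h1
  have h2 := gam_tail n hn 0
  simp only [gq, ddq, if_true, abs_le] at h2
  push_cast at h2
  rw [wA_big n (by omega)]
  constructor <;> nlinarith [h1.1, h1.2, h2.1, h2.2]

lemma wA_nb (n k : ℕ) (hn : 41 ≤ n) (h1 : n ≤ k + 1) (h2 : k ≤ n + 1) :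
    -41.5 ≤ (n : ℝ) ^ 3 * wA k ∧ (n : ℝ) ^ 3 * wA k ≤ -18.1 := by
  obtain ⟨a1, a2⟩ := wA_bd k (by omega)
  have hn' : (41 : ℝ) ≤ n := by exact_mod_cast hn
  have h1' : (n : ℝ) ≤ k + 1 := by exact_mod_cast h1
  have h2' : (k : ℝ) ≤ n + 1 := by exact_mod_cast h2
  have hk : (0 : ℝ) < (k : ℝ) ^ 3 := by have : (0 : ℝ) < k := by linarith
                                        positivity
  have hw : wA k ≤ 0 := by
    by_contra hc
    have := mul_pos hk (not_le.1 hc)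
    linarith
  have b1 : (n : ℝ) ^ 3 ≤ (41 / 40 * k) ^ 3 := pow_le_pow_left₀ (by linarith) (by linarith) 3
  have b2 : (41 / 42 * (k : ℝ)) ^ 3 ≤ (n : ℝ) ^ 3 := pow_le_pow_left₀ (by positivity) (by linarith) 3
  constructor
  · nlinarith [mul_le_mul_of_nonpos_right b1 hw]
  · nlinarith [mul_le_mul_of_nonpos_right b2 hw]

noncomputable def GB (j : ℤ) : ℝ := |(gq j : ℝ)| / 8 + (ddq j : ℝ) / 1000

lemma GB_nonneg (j : ℤ) : 0 ≤ GB j := by unfold GB; positivity

lemma GB_zero (j : ℤ) (h : j < -18 ∨ 18 < j) : GB j = 0 := by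
  rw [GB, gq, ddq, if_neg (by omega), if_neg (by omega), if_neg (by omega), if_neg (by omega),
    if_neg (by omega), if_neg (by omega), if_neg (by omega), if_neg (by omega)]
  simp

lemma GB_neg (j : ℤ) : GB (-j) = GB j := by
  have e1 : gq (-j) = gq j := by unfold gq; split_ifs <;> omega
  have e2 : ddq (-j) = ddq j := by unfold ddq; split_ifs <;> omega
  rw [GB, GB, e1, e2]

lemma gam_bd (n : ℕ) (hn : 40 ≤ n) (j : ℤ) : |(n : ℝ) ^ 3 * gam n j| ≤ GB j := by
  have h := gam_tail n hn j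
  have := abs_add_le ((n : ℝ) ^ 3 * gam n j - (gq j : ℝ) / 8) ((gq j : ℝ) / 8)
  rw [sub_add_cancel, abs_div, abs_of_pos (by norm_num : (0 : ℝ) < 8)] at this
  rw [GB]; linarith

lemma sum_le_win (f : ℤ → ℝ) (h0 : ∀ j, 0 ≤ f j) (hz : ∀ j, j < -18 ∨ 18 < j → f j = 0)
    (S : Finset ℕ) (n : ℤ) :
    ∑ m ∈ S, f ((m : ℤ) - n) ≤ ∑ i ∈ Finset.range 37, f ((i : ℤ) - 18) := by
  have h := hasSum_window f 18 37 (fun q hq => hz q (by omega))
  have e : ∑ m ∈ S, f ((m : ℤ) - n) = ∑ q ∈ S.image (fun i : ℕ => (i : ℤ) - n), f q := by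
    rw [Finset.sum_image]; intro x _ y _ hxy; simpa using hxy
  rw [e]
  exact sum_le_hasSum _ (fun j _ => h0 j) h

noncomputable def aB (j : ℤ) : ℝ :=
  if j < 1 then 0 else (4 * GB j + if j = 1 then 6 else 0) * om j.toNat
noncomputable def bB (j : ℤ) : ℝ :=
  if j = 0 then 0 else if j = 1 ∨ j = -1 then 10.4 else 2 * GB j

lemma om_pos (n : ℕ) : (0 : ℝ) < om n := by
  have : 0 < om n := by
    unfold om; split_ifs with h
    · interval_cases n <;> decide
    · omega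
  exact_mod_cast this

lemma om_big (n : ℕ) (h : 8 ≤ n) : (om n : ℝ) = 10 * n := by
  rw [om, if_neg (by omega)]; push_cast; ring

lemma aB_nonneg (j : ℤ) : 0 ≤ aB j := by
  have := GB_nonneg j
  unfold aB; split_ifs <;> positivity

lemma bB_nonneg (j : ℤ) : 0 ≤ bB j := by
  have := GB_nonneg j
  unfold bB; split_ifs <;> positivity

lemma aB_sum (S : Finset ℕ) : ∑ m ∈ S, aB ((m : ℤ) - 0) ≤ 540 := by
  refine (sum_le_win aB aB_nonneg (fun j hj => ?_) S 0).trans ?_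
  · unfold aB
    split_ifs with h1 h2
    · rfl
    · omega
    · rw [GB_zero j hj]; simp
  · simp [Finset.sum_range_succ, aB, GB, gq, ddq, om]; norm_num

lemma bB_sum (S : Finset ℕ) (n : ℤ) : ∑ m ∈ S, bB ((m : ℤ) - n) ≤ 26.2 := by
  refine (sum_le_win bB bB_nonneg (fun j hj => ?_) S n).trans ?_
  · rw [bB, if_neg (by omega), if_neg (by omega), GB_zero j hj, mul_zero]
  · simp [Finset.sum_range_succ, bB, GB, gq, ddq]; norm_num

lemma off_big (s : ℝ) (hs : |s| ≤ 1) (n m : ℕ) (hn : 41 ≤ n) (hm : 1 ≤ m) (hmn : m ≠ n) :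
    (n : ℝ) ^ 3 * (|RR s cA wA n m| * om m)
      ≤ aB ((m : ℤ) - 0) + 10 * ((n : ℝ) + 18) * bB ((m : ℤ) - n) := by
  have hn3 : (0 : ℝ) < (n : ℝ) ^ 3 := by positivity
  have g1 := gam_bd n (by omega) (-(m : ℤ))
  rw [GB_neg] at g1
  have g2 := gam_bd n (by omega) (m : ℤ)
  have g2' : |s * ((n : ℝ) ^ 3 * gam n m)| ≤ GB m := by
    rw [abs_mul]; nlinarith [abs_nonneg s, abs_nonneg ((n : ℝ) ^ 3 * gam n m)]
  have g3 : |(n : ℝ) ^ 3 * (if m = 1 then (wA (n - 1) - wA (n + 1)) / 4 else 0)|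
      ≤ if (m : ℤ) = 1 then 6 else 0 := by
    by_cases h : m = 1
    · have a1 := wA_nb n (n - 1) hn (by omega) (by omega)
      have a2 := wA_nb n (n + 1) hn (by omega) (by omega)
      rw [if_pos h, if_pos (by omega), abs_le]
      constructor <;> nlinarith [a1.1, a1.2, a2.1, a2.2]
    · rw [if_neg h, if_neg (by omega)]; simp
  have g4 : |(n : ℝ) ^ 3 * (2 * gam n ((m : ℤ) - n)
      - if m = n + 1 ∨ n = m + 1 then (wA n + wA m) / 4 else 0)| ≤ bB ((m : ℤ) - n) := by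
    rw [bB, if_neg (by omega : ¬ ((m : ℤ) - n = 0))]
    by_cases h : m = n + 1 ∨ n = m + 1
    · have a1 := wA_bd n (by omega)
      have a2 := wA_nb n m hn (by omega) (by omega)
      have a3 := gam_tail n (by omega) ((m : ℤ) - n)
      rw [gq, ddq, if_neg (by omega), if_pos (by omega), if_neg (by omega), if_pos (by omega),
        abs_le] at a3
      push_cast at a3
      rw [if_pos h, if_pos (by omega), abs_le]
      constructor <;> nlinarith [a1.1, a1.2, a2.1, a2.2, a3.1, a3.2]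
    · rw [if_neg h, if_neg (by omega), sub_zero, mul_left_comm, abs_mul, abs_two]
      have := gam_bd n (by omega) ((m : ℤ) - n)
      linarith
  have e : (n : ℝ) ^ 3 * RR s cA wA n m = (2 * ((n : ℝ) ^ 3 * gam n (-(m : ℤ)))
      + 2 * (s * ((n : ℝ) ^ 3 * gam n m))
      + (n : ℝ) ^ 3 * (if m = 1 then (wA (n - 1) - wA (n + 1)) / 4 else 0))
      + (n : ℝ) ^ 3 * (2 * gam n ((m : ℤ) - n)
        - if m = n + 1 ∨ n = m + 1 then (wA n + wA m) / 4 else 0) := by
    rw [RR, cA_big n (by omega), cA_big n (by omega), if_neg (Ne.symm hmn),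
      if_neg (by omega : ¬ n = 1), gam_zero n (-n - m) (by omega),
      show -(n : ℤ) - -m = m - n by ring]
    ring
  have ho := om_pos m
  have b1 : |2 * ((n : ℝ) ^ 3 * gam n (-(m : ℤ))) + 2 * (s * ((n : ℝ) ^ 3 * gam n m))
      + (n : ℝ) ^ 3 * (if m = 1 then (wA (n - 1) - wA (n + 1)) / 4 else 0)| * om m
      ≤ aB ((m : ℤ) - 0) := by
    rw [sub_zero, aB, if_neg (by omega : ¬ (m : ℤ) < 1), Int.toNat_natCast]
    refine mul_le_mul_of_nonneg_right ?_ ho.le
    rw [abs_le] at g1 g2' g3 ⊢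
    constructor <;> linarith [g1.1, g1.2, g2'.1, g2'.2, g3.1, g3.2]
  have b2 : bB ((m : ℤ) - n) * om m ≤ 10 * ((n : ℝ) + 18) * bB ((m : ℤ) - n) := by
    by_cases h : (m : ℤ) - n < -18 ∨ 18 < (m : ℤ) - n
    · rw [bB, if_neg (by omega), if_neg (by omega), GB_zero _ h]; simp
    · rw [om_big m (by omega), mul_comm]
      have : (m : ℝ) ≤ n + 18 := by exact_mod_cast (by omega : m ≤ n + 18)
      exact mul_le_mul_of_nonneg_right (by linarith) (bB_nonneg _)
  rw [← mul_assoc, ← abs_of_pos hn3, ← abs_mul, e]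
  refine (mul_le_mul_of_nonneg_right (abs_add_le _ _) ho.le).trans ?_
  rw [add_mul]
  exact add_le_add b1 ((mul_le_mul_of_nonneg_right g4 ho.le).trans b2)

lemma row_big (s : ℝ) (hs : |s| ≤ 1) (lo n : ℕ) (hlo : 1 ≤ lo) (hn : 41 ≤ n) (N : ℕ) :
    ∑ m ∈ (Finset.range N).filter (fun m => lo ≤ m ∧ m ≠ n), |RR s cA wA n m| * (om m : ℝ)
      ≤ (RR s cA wA n n - 8 / (n : ℝ) ^ 3) * om n := by
  have hn3 : (0 : ℝ) < (n : ℝ) ^ 3 := by positivity
  have hn' : (41 : ℝ) ≤ n := by exact_mod_cast hn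
  have e : RR s cA wA n n = 6 * gam n 0 := by
    rw [RR, cA_sw 0, cA_big n (by omega), cA_big n (by omega), cA_big n (by omega), if_pos rfl,
      if_neg (by omega), if_neg (by omega : ¬ n = 1), gam_zero n (-n - n) (by omega),
      gam_zero n (-n - 0) (by omega), gam_zero n (-n) (by omega), gam_zero n n (by omega),
      show -(n : ℤ) - -n = 0 by ring]
    ring
  have h2 := gam_tail n (by omega) 0
  simp only [gq, ddq, if_true, abs_le] at h2
  push_cast at h2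
  refine le_of_mul_le_mul_left ?_ hn3
  rw [Finset.mul_sum]
  refine (Finset.sum_le_sum fun m hm => off_big s hs n m hn
    (hlo.trans (Finset.mem_filter.1 hm).2.1) (Finset.mem_filter.1 hm).2.2).trans ?_
  rw [Finset.sum_add_distrib, ← Finset.mul_sum, e, om_big n (by omega), ← mul_assoc, mul_sub,
    mul_div_cancel₀ _ hn3.ne']
  have a1 := aB_sum ((Finset.range N).filter (fun m => lo ≤ m ∧ m ≠ n))
  have a2 := mul_le_mul_of_nonneg_left
    (bB_sum ((Finset.range N).filter (fun m => lo ≤ m ∧ m ≠ n)) n)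
    (by positivity : 0 ≤ 10 * ((n : ℝ) + 18))
  nlinarith [h2.1]

lemma Sc4_pos : (0 : ℝ) < Sc4 := by
  have : 0 < Sc4 := by decide +kernel
  exact Nat.cast_pos.2 this

lemma rowS_eq (n : ℕ) (hn : n ≤ 58) : ∀ k ≤ 58,
    (((rowS n k).1 : ℕ) : ℝ) = Sc4 * ∑ m ∈ Finset.range (k + 1),
      (if 2 ≤ m ∧ m ≠ n then |RR 1 cA wA n m| * (om m : ℝ) else 0) ∧
    (((rowS n k).2 : ℕ) : ℝ) = Sc4 * ∑ m ∈ Finset.range (k + 1),
      (if 1 ≤ m ∧ m ≠ n then |RR (-1) cA wA n m| * (om m : ℝ) else 0)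
  | 0, _ => by simp [rowS]
  | k + 1, hk => by
    obtain ⟨i1, i2⟩ := rowS_eq n hn k (by omega)
    have hp := Sc4_pos
    rw [Finset.sum_range_succ _ (k + 1), Finset.sum_range_succ _ (k + 1), rowS, mul_add, mul_add,
      ← i1, ← i2]
    by_cases h : k + 1 = n
    · rw [if_pos h, if_neg (by omega), if_neg (by omega), mul_zero, add_zero, add_zero]
      exact ⟨rfl, rfl⟩
    · have r1 := RI_eq 1 n (k + 1) hn hk
      have r2 := RI_eq (-1) n (k + 1) hn hk
      rw [Int.cast_one] at r1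
      rw [Int.cast_neg, Int.cast_one] at r2
      rw [if_neg h, pairAbs, ← RI, ← RI, if_pos (by omega : 1 ≤ k + 1 ∧ k + 1 ≠ n)]
      simp only [Nat.add_eq, Nat.mul_eq, Nat.cast_add, Nat.cast_mul, Nat.cast_natAbs, Int.cast_abs]
      refine ⟨?_, by rw [r2, abs_mul, abs_of_pos hp, mul_assoc]⟩
      by_cases h2 : 1 ≤ k
      · rw [Nat.ble_eq_true_of_le h2, cond_true, if_pos (by omega), Nat.cast_mul, Nat.cast_natAbs,
          Int.cast_abs, r1, abs_mul, abs_of_pos hp, mul_assoc]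
      · obtain rfl : k = 0 := by omega
        rw [if_neg (by omega), mul_zero]
        simp

lemma off_far (s : ℝ) (hs : |s| ≤ 1) (n m : ℕ) (hn1 : 1 ≤ n) (hn : n ≤ 40) (hm : 59 ≤ m) :
    |RR s cA wA n m| * om m ≤ (tl n : ℝ) / 1000 * 58 * ((m : ℝ) ^ 2)⁻¹ := by
  have hm0 : (0 : ℝ) < m := by positivity
  have hm3 : (0 : ℝ) < (m : ℝ) ^ 3 := by positivity
  have g1 := gam_bd m (by omega) (-(n : ℤ))
  rw [GB_neg] at g1
  have g2 := gam_bd m (by omega) (n : ℤ)
  have g2' : |s * ((m : ℝ) ^ 3 * gam m n)| ≤ GB n := by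
    rw [abs_mul]; nlinarith [abs_nonneg s, abs_nonneg ((m : ℝ) ^ 3 * gam m n)]
  have g3 : |(m : ℝ) ^ 3 * (if n = 1 then (wA (m - 1) - wA (m + 1)) / 4 else 0)|
      ≤ if n = 1 then 6 else 0 := by
    by_cases h : n = 1
    · have a1 := wA_nb m (m - 1) (by omega) (by omega) (by omega)
      have a2 := wA_nb m (m + 1) (by omega) (by omega) (by omega)
      rw [if_pos h, if_pos h, abs_le]
      constructor <;> nlinarith [a1.1, a1.2, a2.1, a2.2]
    · rw [if_neg h, if_neg h]; simp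
  have e1 : cA n (-(m : ℤ)) = gam m (-(n : ℤ)) := by
    rw [← cA_ng, neg_neg, cA_sw, cA_big m (by omega), gam_zero m (-m - -n) (by omega), add_zero]
  have e2 : cA n (m : ℤ) = gam m (n : ℤ) := by
    rw [cA_sw, cA_big m (by omega), gam_zero m (-m - n) (by omega), add_zero]
  have e : (m : ℝ) ^ 3 * RR s cA wA n m = 2 * ((m : ℝ) ^ 3 * gam m (-(n : ℤ)))
      + 2 * (s * ((m : ℝ) ^ 3 * gam m n))
      + (m : ℝ) ^ 3 * (if n = 1 then (wA (m - 1) - wA (m + 1)) / 4 else 0) := by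
    rw [RR, e1, e2, if_neg (by omega : ¬ n = m), if_neg (by omega : ¬ (m = n + 1 ∨ n = m + 1)),
      if_neg (by omega : ¬ m = 1)]
    ring
  have b1 : |(m : ℝ) ^ 3 * RR s cA wA n m| ≤ 4 * GB n + if n = 1 then 6 else 0 := by
    rw [e]
    rw [abs_le] at g1 g2' g3 ⊢
    constructor <;> linarith [g1.1, g1.2, g2'.1, g2'.2, g3.1, g3.2]
  have b2 : (4 * GB n + if n = 1 then 6 else 0) * 10 ≤ (tl n : ℝ) / 1000 * 58 := by
    by_cases h : 18 < n
    · rw [GB_zero _ (by omega), if_neg (by omega)]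
      simp; positivity
    · interval_cases n <;> simp [GB, gq, ddq, tl] <;> norm_num
  rw [abs_mul, abs_of_pos hm3] at b1
  rw [om_big m (by omega), ← div_eq_mul_inv, le_div_iff₀ (by positivity)]
  nlinarith

lemma row_small (s : ℤ) (hs : |(s : ℝ)| ≤ 1) (lo n S : ℕ) (hn1 : 1 ≤ n) (hn : n ≤ 40)
    (hS : (S : ℝ) = Sc4 * ∑ m ∈ Finset.range (58 + 1),
      (if lo ≤ m ∧ m ≠ n then |RR s cA wA n m| * (om m : ℝ) else 0))
    (hc : Int.ofNat (n ^ 3 * (1000 * S + tl n * Sc4))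
      ≤ 1000 * (Int.ofNat (n ^ 3) * RI s n n - Int.ofNat (8 * Sc4)) * Int.ofNat (om n)) (N : ℕ) :
    ∑ m ∈ (Finset.range N).filter (fun m => lo ≤ m ∧ m ≠ n), |RR s cA wA n m| * (om m : ℝ)
      ≤ (RR s cA wA n n - 8 / (n : ℝ) ^ 3) * om n := by
  have hp := Sc4_pos
  have hn3 : (0 : ℝ) < (n : ℝ) ^ 3 := by positivity
  have h1 := (Int.cast_le (R := ℝ)).2 hc
  simp only [Int.ofNat_eq_natCast, Int.cast_mul, Int.cast_sub, Int.cast_natCast, Nat.cast_mul,
    Nat.cast_add, Nat.cast_pow, Nat.cast_ofNat, Int.cast_ofNat, Int.cast_add, Int.cast_pow] at h1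
  rw [RI_eq s n n (by omega) (by omega), hS] at h1
  set T := ∑ m ∈ Finset.range (58 + 1),
      (if lo ≤ m ∧ m ≠ n then |RR s cA wA n m| * (om m : ℝ) else 0) with hT
  have h2 : T + (tl n : ℝ) / 1000 ≤ (RR s cA wA n n - 8 / (n : ℝ) ^ 3) * om n := by
    refine le_of_mul_le_mul_left ?_ (by positivity : 0 < 1000 * (n : ℝ) ^ 3 * Sc4)
    refine le_of_eq_of_le ?_ (h1.trans (le_of_eq ?_))
    · ring
    · field_simp
  refine le_trans ?_ h2
  rw [Finset.sum_filter]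
  have hnn : ∀ m, 0 ≤ (if lo ≤ m ∧ m ≠ n then |RR s cA wA n m| * (om m : ℝ) else 0) := fun m => by
    split_ifs <;> positivity
  calc _ ≤ ∑ m ∈ Finset.range (58 + 1) ∪ Finset.Ioc 58 (N + 58),
        (if lo ≤ m ∧ m ≠ n then |RR s cA wA n m| * (om m : ℝ) else 0) := by
        refine Finset.sum_le_sum_of_subset_of_nonneg (fun m hm => ?_) fun m _ _ => hnn m
        simp only [Finset.mem_union, Finset.mem_range, Finset.mem_Ioc] at hm ⊢
        omega
    _ = T + ∑ m ∈ Finset.Ioc 58 (N + 58),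
        (if lo ≤ m ∧ m ≠ n then |RR s cA wA n m| * (om m : ℝ) else 0) := by
        rw [Finset.sum_union]
        simp only [Finset.disjoint_left, Finset.mem_range, Finset.mem_Ioc]
        omega
    _ ≤ T + ∑ m ∈ Finset.Ioc 58 (N + 58), (tl n : ℝ) / 1000 * 58 * ((m : ℝ) ^ 2)⁻¹ := by
        refine add_le_add le_rfl (Finset.sum_le_sum fun m hm => ?_)
        split_ifs
        · exact off_far s hs n m hn1 hn (Finset.mem_Ioc.1 hm).1
        · positivity
    _ ≤ _ := by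
        rw [← Finset.mul_sum]
        have a1 := sum_Ioc_inv_sq_le_sub (α := ℝ) (k := 58) (n := N + 58) (by norm_num) (by omega)
        have a2 : (0 : ℝ) ≤ (((N + 58 : ℕ) : ℝ))⁻¹ := by positivity
        have a3 : (0 : ℝ) ≤ (tl n : ℝ) / 1000 * 58 := by positivity
        rw [Nat.cast_ofNat] at a1
        nlinarith [mul_le_mul_of_nonneg_left a1 a3]

lemma rowsOK_spec (lo : ℕ) : ∀ n, rowsOK lo n = true → ∀ k < n,
    rowC (lo + k) (rowS (lo + k) 58) = true
  | 0, _, _, h => by omega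
  | n + 1, h, k, hk => by
    simp only [rowsOK, Bool.and_eq_true] at h
    rcases Nat.lt_succ_iff_lt_or_eq.1 hk with h1 | rfl
    · exact rowsOK_spec lo n h.2 k h1
    · exact h.1

lemma rowC_all (n : ℕ) (h1 : 1 ≤ n) (h2 : n ≤ 40) : rowC n (rowS n 58) = true := by
  by_cases h : n ≤ 10
  · obtain ⟨k, rfl⟩ : ∃ k, n = 1 + k := ⟨n - 1, by omega⟩
    exact rowsOK_spec 1 10 kR1 k (by omega)
  · obtain ⟨k, rfl⟩ : ∃ k, n = 11 + k := ⟨n - 11, by omega⟩
    exact rowsOK_spec 11 30 kR2 k (by omega)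

theorem rowsP : Rows (RR 1 cA wA) (fun n => om n) 2 8 := by
  intro n hn
  refine ⟨om_pos n, fun N => ?_⟩
  by_cases h : n ≤ 40
  · have h1 := rowC_all n (by omega) h
    simp only [rowC, Bool.and_eq_true, Bool.or_eq_true, decide_eq_true_eq] at h1
    have h2 := row_small 1 (by simp) 2 n _ (by omega) h
      (by rw [Int.cast_one]; exact (rowS_eq n (by omega) 58 le_rfl).1)
      (h1.1.resolve_left (by omega)) N
    rwa [Int.cast_one] at h2
  · exact row_big 1 (by simp) 2 n (by norm_num) (by omega) N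

theorem rowsM : Rows (RR (-1) cA wA) (fun n => om n) 1 8 := by
  intro n hn
  refine ⟨om_pos n, fun N => ?_⟩
  by_cases h : n ≤ 40
  · have h1 := rowC_all n (by omega) h
    simp only [rowC, Bool.and_eq_true, Bool.or_eq_true, decide_eq_true_eq] at h1
    have h2 := row_small (-1) (by simp) 1 n _ (by omega) h
      (by rw [Int.cast_neg, Int.cast_one]; exact (rowS_eq n (by omega) 58 le_rfl).2) h1.2 N
    rwa [Int.cast_neg, Int.cast_one] at h2
  · exact row_big (-1) (by simp) 1 n le_rfl (by omega) N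

end Pool.Agent.Lib.MP_cbe5a6_an
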