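import Pool.Agent.Lib.MP_cbe5a6_an.Conv1
import Pool.Agent.Lib.MP_cbe5a6_an.Data

-- part Pool.Agent.Lib.MP_cbe5a6_an.Poly
section

/-! List polynomials, homogeneous Horner evaluation, Kronecker digits. -/

set_option autoImplicit false

namespace Pool.Agent.Lib.MP_cbe5a6_an

open Polynomial

/-- evaluation of an integer list polynomial in a commutative ring -/
def ev {R : Type*} [CommRing R] : List ℤ → R → R
  | [], _ => 0
  | a :: l, x => (a : R) + x * ev l x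

def padd : List ℤ → List ℤ → List ℤ
  | [], l => l
  | a :: l, [] => a :: l
  | a :: l, b :: k => (a + b) :: padd l k

def psm (c : ℤ) : List ℤ → List ℤ
  | [] => []
  | a :: l => (c * a) :: psm c l

def pmul : List ℤ → List ℤ → List ℤ
  | [], _ => []
  | a :: l, k => padd (psm a k) (0 :: pmul l k)

def pdA : ℤ → List ℤ → List ℤ
  | _, [] => []
  | k, a :: l => (k * a) :: pdA (k + 1) l

def pder (l : List ℤ) : List ℤ := pdA 1 l.tail

def palt : List ℤ → List ℤ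
  | [] => []
  | [a] => [a]
  | a :: b :: l => a :: (-b) :: palt l

section
variable {R : Type*} [CommRing R]

@[simp] lemma ev_nil (x : R) : ev [] x = 0 := rfl
@[simp] lemma ev_cons (a : ℤ) (l : List ℤ) (x : R) : ev (a :: l) x = (a : R) + x * ev l x := rfl

lemma ev_padd : ∀ (l k : List ℤ) (x : R), ev (padd l k) x = ev l x + ev k x
  | [], k, x => by simp [padd]
  | a :: l, [], x => by simp [padd]
  | a :: l, b :: k, x => by simp only [padd, ev_cons, ev_padd l k x]; push_cast; ring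

lemma ev_psm (c : ℤ) : ∀ (l : List ℤ) (x : R), ev (psm c l) x = (c : R) * ev l x
  | [], x => by simp [psm]
  | a :: l, x => by simp only [psm, ev_cons, ev_psm c l x]; push_cast; ring

lemma ev_pmul : ∀ (l k : List ℤ) (x : R), ev (pmul l k) x = ev l x * ev k x
  | [], k, x => by simp [pmul]
  | a :: l, k, x => by
    simp only [pmul, ev_padd, ev_psm, ev_cons, ev_pmul l k x]; push_cast; ring

lemma ev_palt : ∀ (l : List ℤ) (x : R), ev (palt l) x = ev l (-x)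
  | [], x => by simp [palt]
  | [a], x => by simp [palt]
  | a :: b :: l, x => by simp only [palt, ev_cons, ev_palt l x]; push_cast; ring

lemma ev_pdA_succ : ∀ (l : List ℤ) (k : ℤ) (x : R), ev (pdA (k + 1) l) x = ev (pdA k l) x + ev l x
  | [], k, x => by simp [pdA]
  | a :: l, k, x => by
    simp only [pdA, ev_cons, ev_pdA_succ l (k + 1) x]; push_cast; ring

lemma ev_tail (l : List ℤ) (h : l.headD 0 = 0) (x : R) : ev l x = x * ev l.tail x := by
  cases l with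
  | nil => simp
  | cons a l => simp at h; simp [h]

lemma map_ev {S : Type*} [CommRing S] (f : R →+* S) : ∀ (l : List ℤ) (x : R),
    f (ev l x) = ev l (f x)
  | [], x => by simp
  | a :: l, x => by simp [map_ev f l x]

end

lemma hasDerivAt_ev_aux : ∀ (l : List ℤ) (x : ℝ),
    HasDerivAt (fun y : ℝ => y * ev l y) (ev (pdA 1 l) x) x
  | [], x => by simpa [pdA] using hasDerivAt_const x (0 : ℝ)
  | a :: l, x => by
    have h := hasDerivAt_ev_aux l x
    have h2 := (hasDerivAt_id x).mul ((hasDerivAt_const x (a : ℝ)).add h)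
    have e : ev (pdA 1 (a :: l)) x = 1 * ((a : ℝ) + x * ev l x) + x * (0 + ev (pdA 1 l) x) := by
      simp only [pdA, ev_cons, ev_pdA_succ]; push_cast; ring
    rw [e]; exact h2

lemma hasDerivAt_ev (l : List ℤ) (x : ℝ) : HasDerivAt (fun y : ℝ => ev l y) (ev (pder l) x) x := by
  cases l with
  | nil => simpa [pder, pdA] using hasDerivAt_const x (0 : ℝ)
  | cons a l =>
    have h := (hasDerivAt_const x (a : ℝ)).add (hasDerivAt_ev_aux l x)
    simp only [zero_add] at h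
    exact h

lemma continuous_ev (l : List ℤ) : Continuous (fun y : ℝ => ev l y) :=
  continuous_iff_continuousAt.2 fun x => (hasDerivAt_ev l x).continuousAt

/-- homogeneous Horner evaluation, positive part of the coefficients -/
def hG {R : Type*} [CommSemiring R] (X Z : R) : ℕ → List ℤ → R
  | _, [] => 0
  | 0, a :: _ => (a.toNat : R)
  | d + 1, a :: l => (a.toNat : R) * Z ^ (d + 1) + X * hG X Z d l

/-- the same on naturals, for the kernel -/
def hN (X Z : ℕ) : ℕ → List ℤ → ℕ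
  | _, [] => 0
  | 0, a :: _ => a.toNat
  | d + 1, a :: l => Nat.add (Nat.mul a.toNat (Nat.pow Z (d + 1))) (Nat.mul X (hN X Z d l))

lemma hN_eq (X Z : ℕ) : ∀ (d : ℕ) (l : List ℤ), hN X Z d l = hG X Z d l
  | _, [] => by simp [hN, hG]
  | 0, a :: _ => by simp [hN, hG]
  | d + 1, a :: l => by
    simp only [hN, hG, hN_eq X Z d l, Nat.add_eq, Nat.mul_eq, Nat.pow_eq, Nat.cast_id]

lemma map_hG {R S : Type*} [CommSemiring R] [CommSemiring S] (f : R →+* S) (X Z : R) :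
    ∀ (d : ℕ) (l : List ℤ), f (hG X Z d l) = hG (f X) (f Z) d l
  | _, [] => by simp [hG]
  | 0, a :: _ => by simp [hG]
  | d + 1, a :: l => by simp [hG, map_hG f X Z d l]

lemma toNat_sub_cast {R : Type*} [CommRing R] (a : ℤ) :
    (a.toNat : R) - ((-1 * a).toNat : R) = (a : R) := by
  have : (a.toNat : ℤ) - ((-1 * a).toNat : ℤ) = a := by omega
  have h2 := congrArg (Int.cast : ℤ → R) this
  push_cast at h2
  exact h2

lemma hG_sub {R : Type*} [CommRing R] (x Z : R) : ∀ (d : ℕ) (l : List ℤ), l.length ≤ d + 1 →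
    hG (x * Z) Z d l - hG (x * Z) Z d (psm (-1) l) = Z ^ d * ev l x
  | _, [], _ => by simp [hG, psm]
  | 0, [a], _ => by simp only [hG, psm, toNat_sub_cast]; simp
  | 0, a :: b :: l, h => by simp at h
  | d + 1, a :: l, h => by
    have ih := hG_sub x Z d l (by simpa using h)
    have e := toNat_sub_cast (R := R) a
    simp only [hG, psm, ev_cons]
    linear_combination (Z ^ (d + 1)) * e + (x * Z) * ih

lemma eval_one_le (p : ℕ[X]) (B : ℕ) (hB : 1 ≤ B) : p.eval 1 ≤ p.eval B := by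
  rw [eval_eq_sum_range, eval_eq_sum_range]
  exact Finset.sum_le_sum fun i _ => Nat.mul_le_mul_left _ (Nat.pow_le_pow_left hB i)

lemma eval_divX (p : ℕ[X]) (B : ℕ) : p.eval B = p.coeff 0 + B * (divX p).eval B := by
  conv_lhs => rw [← X_mul_divX_add p]
  simp; ring

lemma abs_ev2_le (p : ℕ[X]) (z : ℝ) (hz : |z| ≤ 1) :
    |p.eval₂ (Nat.castRingHom ℝ) z| ≤ (p.eval 1 : ℕ) := by
  rw [eval₂_eq_sum_range, eval_eq_sum_range]
  push_cast
  refine (Finset.abs_sum_le_sum_abs _ _).trans (Finset.sum_le_sum fun i _ => ?_)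
  rw [abs_mul, abs_pow]
  simp only [Nat.abs_cast, one_pow]
  exact mul_le_mul_of_nonneg_left (pow_le_one₀ (abs_nonneg _) hz) (Nat.cast_nonneg _)

/-- `l1` norm of the difference of two digit strings in base `2^b` -/
def l1d (b : ℕ) : ℕ → ℕ → ℕ → ℕ
  | 0, U, V => Nat.add U V
  | k + 1, U, V =>
    Nat.add (Nat.add (Nat.sub (Nat.land U (Nat.pow 2 b - 1)) (Nat.land V (Nat.pow 2 b - 1)))
        (Nat.sub (Nat.land V (Nat.pow 2 b - 1)) (Nat.land U (Nat.pow 2 b - 1))))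
      (l1d b k (Nat.shiftRight U b) (Nat.shiftRight V b))

lemma land_eq (U b : ℕ) : Nat.land U (Nat.pow 2 b - 1) = U % 2 ^ b :=
  Nat.and_two_pow_sub_one_eq_mod U b

lemma shr_eq (U b : ℕ) : Nat.shiftRight U b = U / 2 ^ b := Nat.shiftRight_eq_div_pow U b

lemma digit0 (p : ℕ[X]) (B : ℕ) (h : p.eval 1 < B) :
    p.eval B % B = p.coeff 0 ∧ p.eval B / B = (divX p).eval B ∧ (divX p).eval 1 < B := by
  have h1 := eval_divX p 1
  have h0 : p.coeff 0 < B := by omega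
  refine ⟨?_, ?_, by omega⟩
  · rw [eval_divX p B, Nat.add_mul_mod_self_left, Nat.mod_eq_of_lt h0]
  · rw [eval_divX p B, Nat.add_mul_div_left _ _ (by omega), Nat.div_eq_of_lt h0, zero_add]

lemma ev2_divX {S : Type*} [CommSemiring S] (p : ℕ[X]) (z : S) :
    p.eval₂ (Nat.castRingHom S) z = (p.coeff 0 : S) + z * (divX p).eval₂ (Nat.castRingHom S) z := by
  conv_lhs => rw [← X_mul_divX_add p]
  simp [eval₂_add, eval₂_mul]; ring

lemma l1d_bound (b : ℕ) (z : ℝ) (hz : |z| ≤ 1) : ∀ (k : ℕ) (p q : ℕ[X]),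
    p.eval 1 < 2 ^ b → q.eval 1 < 2 ^ b →
    |p.eval₂ (Nat.castRingHom ℝ) z - q.eval₂ (Nat.castRingHom ℝ) z|
      ≤ (l1d b k (p.eval (2 ^ b)) (q.eval (2 ^ b)) : ℕ)
  | 0, p, q, _, _ => by
    have h1 := abs_ev2_le p z hz
    have h2 := abs_ev2_le q z hz
    have h3 : ((p.eval 1 : ℕ) : ℝ) ≤ (p.eval (2 ^ b) : ℕ) := by
      exact_mod_cast eval_one_le p _ Nat.one_le_two_pow
    have h4 : ((q.eval 1 : ℕ) : ℝ) ≤ (q.eval (2 ^ b) : ℕ) := by
      exact_mod_cast eval_one_le q _ Nat.one_le_two_pow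
    simp only [l1d, Nat.add_eq]
    push_cast
    refine (abs_sub _ _).trans ?_
    linarith
  | k + 1, p, q, hp, hq => by
    obtain ⟨p0, p1, p2⟩ := digit0 p _ hp
    obtain ⟨q0, q1, q2⟩ := digit0 q _ hq
    have ih := l1d_bound b z hz k _ _ p2 q2
    simp only [l1d, land_eq, shr_eq, p0, p1, q0, q1, Nat.add_eq, Nat.sub_eq]
    rw [ev2_divX p, ev2_divX q]
    have e : |((p.coeff 0 : ℕ) : ℝ) - (q.coeff 0 : ℕ)|
        = ((p.coeff 0 - q.coeff 0 + (q.coeff 0 - p.coeff 0) : ℕ) : ℝ) := by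
      rcases le_total (p.coeff 0) (q.coeff 0) with h | h
      · rw [Nat.sub_eq_zero_of_le h, zero_add, Nat.cast_sub h, abs_sub_comm,
          abs_of_nonneg (sub_nonneg.2 (by exact_mod_cast h))]
      · rw [Nat.sub_eq_zero_of_le h, add_zero, Nat.cast_sub h,
          abs_of_nonneg (sub_nonneg.2 (by exact_mod_cast h))]
    rw [Nat.cast_add, ← e]
    set u := eval₂ (Nat.castRingHom ℝ) z p.divX
    set v := eval₂ (Nat.castRingHom ℝ) z q.divX
    have e2 : ((p.coeff 0 : ℕ) : ℝ) + z * u - ((q.coeff 0 : ℕ) + z * v)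
        = (((p.coeff 0 : ℕ) : ℝ) - (q.coeff 0 : ℕ)) + z * (u - v) := by ring
    rw [e2]
    refine (abs_add_le _ _).trans ?_
    rw [abs_mul]
    have : |z| * |u - v| ≤ 1 * |u - v| := mul_le_mul_of_nonneg_right hz (abs_nonneg _)
    linarith

lemma digit_coeff (B : ℕ) : ∀ (i : ℕ) (p : ℕ[X]), p.eval 1 < B →
    p.eval B / B ^ i % B = p.coeff i
  | 0, p, h => by simpa using (digit0 p B h).1
  | i + 1, p, h => by
    obtain ⟨_, p1, p2⟩ := digit0 p B h
    rw [pow_succ', ← Nat.div_div_eq_div_mul, p1, digit_coeff B i _ p2, coeff_divX]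

lemma ev2_digits {S : Type*} [CommSemiring S] (B : ℕ) (z : S) : ∀ (k : ℕ) (p : ℕ[X]),
    p.eval 1 < B → p.eval B < B ^ k →
    p.eval₂ (Nat.castRingHom S) z
      = ∑ i ∈ Finset.range k, ((p.eval B / B ^ i % B : ℕ) : S) * z ^ i := by
  intro k p h hk
  have hd : p.natDegree < k ∨ p = 0 := by
    by_cases hp : p = 0
    · exact Or.inr hp
    · left
      by_contra hc
      have h2 := digit_coeff B p.natDegree p h
      have h3 : p.eval B / B ^ p.natDegree = 0 :=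
        Nat.div_eq_of_lt (hk.trans_le (Nat.pow_le_pow_right (by omega) (by omega)))
      rw [h3] at h2
      exact (leadingCoeff_ne_zero.2 hp) (by simpa using h2.symm)
  rcases hd with hd | rfl
  · rw [eval₂_eq_sum_range' _ hd]
    exact Finset.sum_congr rfl fun i _ => by rw [digit_coeff B i p h]; rfl
  · simp

lemma coeff_le_eval_one (p : ℕ[X]) (j : ℕ) : p.coeff j ≤ p.eval 1 := by
  by_cases hj : j ≤ p.natDegree
  · rw [eval_eq_sum_range]
    simp only [one_pow, mul_one]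
    exact Finset.single_le_sum (f := fun i => p.coeff i) (fun _ _ => Nat.zero_le _)
      (Finset.mem_range.2 (by omega))
  · rw [coeff_eq_zero_of_natDegree_lt (by omega)]; exact Nat.zero_le _

/-- two-variable Kronecker substitution -/
lemma kron2 (P : ℕ[X][X]) (B W W' : ℕ)
    (h1 : P.eval₂ (evalRingHom 1) 1 < B) (h2 : P.eval₂ (evalRingHom B) 1 < B ^ W)
    (h3 : P.eval₂ (evalRingHom B) (B ^ W) < (B ^ W) ^ W') (x y : ℂ) :
    P.eval₂ (eval₂RingHom (Nat.castRingHom ℂ) x) y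
      = ∑ j ∈ Finset.range W', ∑ i ∈ Finset.range W,
        ((P.eval₂ (evalRingHom B) (B ^ W) / (B ^ W) ^ j % B ^ W / B ^ i % B : ℕ) : ℂ)
          * x ^ i * y ^ j := by
  rw [eval₂_eq_eval_map] at h1 h2 h3
  rw [eval₂_eq_eval_map (evalRingHom B)]
  have hc : ∀ j, (P.map (evalRingHom B)).eval (B ^ W) / (B ^ W) ^ j % B ^ W
      = (P.coeff j).eval B := fun j => by
    rw [digit_coeff _ j _ h2, coeff_map]; rfl
  have hb1 : ∀ j, (P.coeff j).eval 1 < B := fun j => by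
    have := coeff_le_eval_one (P.map (evalRingHom 1)) j
    rw [coeff_map] at this
    exact lt_of_le_of_lt this h1
  have hb2 : ∀ j, (P.coeff j).eval B < B ^ W := fun j => by
    have := coeff_le_eval_one (P.map (evalRingHom B)) j
    rw [coeff_map] at this
    exact lt_of_le_of_lt this h2
  have hB : 1 ≤ B := by omega
  have hd : P.natDegree < W' ∨ P = 0 := by
    by_cases hp : P = 0
    · exact Or.inr hp
    · left
      by_contra hcon
      have h4 := hc P.natDegree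
      rw [Nat.div_eq_of_lt (h3.trans_le (Nat.pow_le_pow_right (by omega) (by omega)))] at h4
      have h5 : (P.coeff P.natDegree).eval 1 = 0 := by
        have := eval_one_le (P.coeff P.natDegree) B hB
        rw [Nat.zero_mod] at h4; omega
      apply leadingCoeff_ne_zero.2 hp
      ext i
      have := coeff_le_eval_one (P.coeff P.natDegree) i
      simp only [coeff_natDegree] at this h5
      simp; omega
  rcases hd with hd | rfl
  · rw [eval₂_eq_sum_range' _ hd]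
    refine Finset.sum_congr rfl fun j _ => ?_
    rw [hc j, ← Finset.sum_mul]
    congr 1
    exact ev2_digits B x W _ (hb1 j) (hb2 j)
  · simp

end Pool.Agent.Lib.MP_cbe5a6_an
end

-- part Pool.Agent.Lib.MP_cbe5a6_an.Sup
section

/-! Verified sup-norm bounds for `r(s) log|s| + q(s)` by Taylor models on subintervals. -/

set_option autoImplicit false

namespace Pool.Agent.Lib.MP_cbe5a6_an

open Polynomial

def lgA (F : ℕ) : ℕ → ℕ → List ℤ
  | 0, _ => []
  | k + 1, i => Int.ofNat (Nat.div F (i + 1)) :: lgA F k (i + 1)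

lemma ev_lgA (J : ℕ) (x : ℝ) : ∀ (k i : ℕ), i + k ≤ J →
    ev (lgA J.factorial k i) x
      = ∑ j ∈ Finset.range k, (J.factorial : ℝ) / ((i + j : ℕ) + 1) * x ^ j
  | 0, _, _ => by simp [lgA]
  | k + 1, i, h => by
    rw [lgA, ev_cons, ev_lgA J x k (i + 1) (by omega), Finset.sum_range_succ', Finset.mul_sum,
      add_comm]
    congr 1
    · refine Finset.sum_congr rfl fun j _ => ?_
      push_cast; ring
    · have hd : (i + 1) ∣ J.factorial := Nat.dvd_factorial (by omega) (by omega)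
      have : ((Int.ofNat (Nat.div J.factorial (i + 1)) : ℤ) : ℝ)
          = ((J.factorial / (i + 1) : ℕ) : ℝ) := by
        rw [Int.ofNat_eq_natCast, Int.cast_natCast]; rfl
      rw [this, Nat.cast_div hd (by positivity)]
      push_cast; ring

lemma length_lgA (F : ℕ) : ∀ k i, (lgA F k i).length = k
  | 0, _ => rfl
  | k + 1, i => by simp [lgA, length_lgA F k]

lemma length_palt : ∀ l : List ℤ, (palt l).length = l.length
  | [] => rfl
  | [_] => rfl
  | _ :: _ :: l => by simp [palt, length_palt l]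

lemma ev_lgP (J : ℕ) (x : ℝ) : ev (0 :: lgA J.factorial J 0) x
    = J.factorial * ∑ i ∈ Finset.range J, x ^ (i + 1) / (i + 1) := by
  rw [ev_cons, ev_lgA J x J 0 (by omega), Finset.mul_sum, Finset.mul_sum]
  simp only [Int.cast_zero, zero_add]
  refine Finset.sum_congr rfl fun j _ => ?_
  ring

def lgL (J : ℕ) : List ℤ := 0 :: palt (lgA J.factorial J 0)

lemma ev_lgL (J : ℕ) (x : ℝ) : ev (lgL J) x
    = -(J.factorial * ∑ i ∈ Finset.range J, (-x) ^ (i + 1) / (i + 1)) := by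
  rw [← ev_lgP, lgL, ev_cons, ev_cons, ev_palt]; simp

lemma hG_abs_le (X : ℝ) (X' Z : ℕ) (h : |X| ≤ X') : ∀ (d : ℕ) (l : List ℤ),
    |hG X (Z : ℝ) d l| ≤ (hN X' Z d l : ℕ)
  | _, [] => by simp [hG, hN]
  | 0, a :: _ => by simp [hG, hN]
  | d + 1, a :: l => by
    have ih := hG_abs_le X X' Z h d l
    simp only [hG, hN, Nat.add_eq, Nat.mul_eq, Nat.pow_eq]
    push_cast
    refine (abs_add_le _ _).trans (add_le_add (le_of_eq (abs_of_nonneg (by positivity))) ?_)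
    rw [abs_mul]
    exact mul_le_mul h ih (abs_nonneg _) (Nat.cast_nonneg _)

lemma hN_cast (X Z d : ℕ) (l : List ℤ) : ((hN X Z d l : ℕ) : ℝ) = hG (X : ℝ) (Z : ℝ) d l := by
  rw [hN_eq]; exact map_hG (Nat.castRingHom ℝ) X Z d l

lemma ev_abs_le (x : ℝ) (X' Z d : ℕ) (l : List ℤ) (hl : l.length ≤ d + 1) (h : |x * Z| ≤ X') :
    (Z : ℝ) ^ d * |ev l x| ≤ (hN X' Z d l : ℕ) + (hN X' Z d (psm (-1) l) : ℕ) := by
  have h1 := hG_sub x (Z : ℝ) d l hl
  have h2 := hG_abs_le _ X' Z h d l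
  have h3 := hG_abs_le _ X' Z h d (psm (-1) l)
  rw [← abs_of_nonneg (a := (Z : ℝ) ^ d) (by positivity), ← abs_mul, ← h1]
  exact (abs_sub _ _).trans (add_le_add h2 h3)

lemma hG_psm_zero (X Z : ℝ) : ∀ (d : ℕ) (l : List ℤ), (∀ a ∈ l, 0 ≤ a) →
    hG X Z d (psm (-1) l) = 0
  | _, [], _ => by simp [hG, psm]
  | 0, a :: l, h => by
    have := h a (by simp)
    simp only [hG, psm]; rw [Int.toNat_eq_zero.2 (by omega)]; simp
  | d + 1, a :: l, h => by
    have := h a (by simp)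
    simp only [hG, psm]
    rw [Int.toNat_eq_zero.2 (by omega), hG_psm_zero X Z d l fun b hb => h b (by simp [hb])]; simp

lemma lgA_nonneg (F : ℕ) : ∀ k i, ∀ a ∈ lgA F k i, 0 ≤ a
  | 0, _, _, h => by simp [lgA] at h
  | k + 1, i, a, h => by
    simp only [lgA, List.mem_cons] at h
    rcases h with rfl | h
    · exact Int.natCast_nonneg _
    · exact lgA_nonneg F k _ a h

def sNg (T J a b : ℕ) : ℕ :=
  (2 ^ T * hN a b J (0 :: lgA (Nat.factorial J) J 0)) / (Nat.factorial J * b ^ J)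

lemma sNg_floor (T J a b : ℕ) (hb : 0 < b) : sNg T J a b
    = ⌊(2 : ℝ) ^ T * ∑ i ∈ Finset.range J, ((a : ℝ) / b) ^ (i + 1) / ((i : ℝ) + 1)⌋₊ := by
  have hb' : (0 : ℝ) < b := by exact_mod_cast hb
  set S := ∑ i ∈ Finset.range J, ((a : ℝ) / b) ^ (i + 1) / ((i : ℝ) + 1)
  have hv : ((hN a b J (0 :: lgA (Nat.factorial J) J 0) : ℕ) : ℝ)
      = (b : ℝ) ^ J * ((Nat.factorial J : ℕ) * S) := by
    have h1 := hG_sub ((a : ℝ) / b) (b : ℝ) J (0 :: lgA (Nat.factorial J) J 0)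
      (by simp [length_lgA])
    rw [hG_psm_zero _ _ _ _ (by
      intro c hc
      rcases List.mem_cons.1 hc with rfl | hc
      · exact le_rfl
      · exact lgA_nonneg _ _ _ _ hc), sub_zero, ev_lgP] at h1
    rw [hN_cast, ← h1, div_mul_cancel₀ _ hb'.ne']
  have hD : (0 : ℝ) < (Nat.factorial J : ℕ) * (b : ℝ) ^ J := by positivity
  have e : (2 : ℝ) ^ T * S = ((2 ^ T * hN a b J (0 :: lgA (Nat.factorial J) J 0) : ℕ) : ℝ)
      / ((Nat.factorial J * b ^ J : ℕ) : ℝ) := by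
    rw [Nat.cast_mul, Nat.cast_mul, hv, Nat.cast_pow, Nat.cast_pow, eq_div_iff hD.ne']
    simp only [Nat.cast_ofNat]; ring
  rw [e, Nat.floor_div_eq_div, sNg]

/-- fixed-point value of `-log (1 - a/b)` with 192 bits -/
def sN (a b : ℕ) : ℕ := sNg 192 200 a b

lemma sNg_spec (T J a b : ℕ) (hT : T ≤ J) (hb : 0 < b) (h : 2 * a ≤ b) :
    |(2 : ℝ) ^ T * Real.log (1 - a / b) + sNg T J a b| ≤ 2 := by
  have hb' : (0 : ℝ) < b := by exact_mod_cast hb
  rw [sNg_floor _ _ _ _ hb]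
  set y : ℝ := a / b with hy
  have y0 : 0 ≤ y := by positivity
  have y1 : y ≤ 1 / 2 := by
    rw [hy, div_le_iff₀ hb']
    have : (2 : ℝ) * a ≤ b := by exact_mod_cast h
    linarith
  have hl := Real.abs_log_sub_add_sum_range_le (x := y) (by rw [abs_of_nonneg y0]; linarith) J
  rw [abs_of_nonneg y0] at hl
  have hS : 0 ≤ ∑ i ∈ Finset.range J, y ^ (i + 1) / ((i : ℝ) + 1) := by positivity
  set S := ∑ i ∈ Finset.range J, y ^ (i + 1) / ((i : ℝ) + 1)
  have ht : y ^ (J + 1) / (1 - y) ≤ (1 / 2) ^ T := by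
    rw [div_le_iff₀ (by linarith)]
    have : y ^ (J + 1) ≤ (1 / 2) ^ (J + 1) := pow_le_pow_left₀ y0 y1 _
    have h2 : (1 / 2 : ℝ) ^ (J + 1) ≤ (1 / 2) ^ (T + 1) :=
      pow_le_pow_of_le_one (by norm_num) (by norm_num) (by omega)
    have h3 : (1 / 2 : ℝ) ^ T * (1 / 2) ≤ (1 / 2) ^ T * (1 - y) :=
      mul_le_mul_of_nonneg_left (by linarith) (by positivity)
    rw [pow_succ (1 / 2 : ℝ) T] at h2
    linarith
  have hp : (0 : ℝ) < 2 ^ T := by positivity
  have f1 := Nat.floor_le (mul_nonneg hp.le hS)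
  have f2 := Nat.lt_floor_add_one ((2 : ℝ) ^ T * S)
  have h5 : |(2 : ℝ) ^ T * (S + Real.log (1 - y))| ≤ 1 := by
    rw [abs_mul, abs_of_pos hp]
    calc (2 : ℝ) ^ T * |S + Real.log (1 - y)| ≤ 2 ^ T * (1 / 2) ^ T :=
          mul_le_mul_of_nonneg_left (hl.trans ht) hp.le
      _ = 1 := by rw [← mul_pow]; norm_num
  rw [abs_le] at h5 ⊢
  constructor <;> nlinarith [h5.1, h5.2]

lemma sN_spec (a b : ℕ) (hb : 0 < b) (h : 2 * a ≤ b) :
    |(2 : ℝ) ^ 192 * Real.log (1 - a / b) + sN a b| ≤ 2 :=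
  sNg_spec 192 200 a b (by norm_num) hb h

/-- `log 2` with 192 bits -/
def l2 : ℕ := sN 1 2

lemma l2_spec : |(2 : ℝ) ^ 192 * Real.log 2 - l2| ≤ 2 := by
  have h := sN_spec 1 2 (by norm_num) (by norm_num)
  have e : Real.log (1 - ((1 : ℕ) : ℝ) / ((2 : ℕ) : ℝ)) = -Real.log 2 := by
    rw [← Real.log_inv]; norm_num
  rw [e] at h
  rw [← abs_neg]
  have e2 : -((2 : ℝ) ^ 192 * Real.log 2 - l2) = 2 ^ 192 * -Real.log 2 + (sN 1 2 : ℕ) := by
    unfold l2; ring
  rw [e2]; exact h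

structure Iv where
  C : ℕ
  H : ℕ
  J : ℕ
  e : ℕ
  b : ℕ
  k : ℕ

/-- one half of the scaled Taylor model -/
def tmG {R : Type*} [CommSemiring R] (q r r' g g' : List ℤ) (dq dr C H J Z Lam Zd la lb T : ℕ)
    (z : R) : R :=
  hG ((C : R) + H * z) Z dq q * Lam + Zd * (hG ((C : R) + H * z) Z dr r * (la + T * hG (H * z) C J g)
    + hG ((C : R) + H * z) Z dr r' * (lb + T * hG (H * z) C J g'))

def tmN (q r r' g g' : List ℤ) (dq dr C H J Z Lam Zd la lb T z : ℕ) : ℕ :=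
  Nat.add (Nat.mul (hN (Nat.add C (Nat.mul H z)) Z dq q) Lam)
    (Nat.mul Zd (Nat.add
      (Nat.mul (hN (Nat.add C (Nat.mul H z)) Z dr r) (Nat.add la (Nat.mul T (hN (Nat.mul H z) C J g))))
      (Nat.mul (hN (Nat.add C (Nat.mul H z)) Z dr r') (Nat.add lb (Nat.mul T (hN (Nat.mul H z) C J g'))))))

lemma tmN_eq (q r r' g g' : List ℤ) (dq dr C H J Z Lam Zd la lb T z : ℕ) :
    tmN q r r' g g' dq dr C H J Z Lam Zd la lb T z = tmG q r r' g g' dq dr C H J Z Lam Zd la lb T z := by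
  simp only [tmN, tmG, hN_eq, Nat.add_eq, Nat.mul_eq, Nat.cast_id]

lemma map_tmG {R S : Type*} [CommSemiring R] [CommSemiring S] (f : R →+* S)
    (q r r' g g' : List ℤ) (dq dr C H J Z Lam Zd la lb T : ℕ) (z : R) :
    f (tmG q r r' g g' dq dr C H J Z Lam Zd la lb T z)
      = tmG q r r' g g' dq dr C H J Z Lam Zd la lb T (f z) := by
  simp [tmG, map_hG]

def chkA (r q rn qn g gn : List ℤ) (dr dq η C H J b k Z CF Zd la lb er : ℕ) : Bool :=
  Nat.blt (tmN q r rn g gn dq dr C H J Z (CF * 2 ^ 192) Zd la lb (2 ^ 192) 1) (2 ^ b) &&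
  Nat.blt (tmN qn r rn gn g dq dr C H J Z (CF * 2 ^ 192) Zd lb la (2 ^ 192) 1) (2 ^ b) &&
  Nat.ble ((C - H) * (l1d b k (tmN q r rn g gn dq dr C H J Z (CF * 2 ^ 192) Zd la lb (2 ^ 192) (2 ^ b))
        (tmN qn r rn gn g dq dr C H J Z (CF * 2 ^ 192) Zd lb la (2 ^ 192) (2 ^ b))
      + Zd * (hN (C + H) Z dr r + hN (C + H) Z dr rn) * CF * er)
      + Zd * (hN (C + H) Z dr r + hN (C + H) Z dr rn) * 2 ^ 192 * J.factorial * H ^ (J + 1))
    ((C - H) * η * Z ^ dq * (CF * 2 ^ 192))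

def chkI (r q : List ℤ) (dr dq M η : ℕ) (I : Iv) : Bool :=
  Nat.blt I.H I.C && Nat.ble I.C (2 ^ I.e) && Nat.ble (2 ^ I.e) (2 * I.C) &&
  chkA r q (psm (-1) r) (psm (-1) q) (lgL I.J) (psm (-1) (lgL I.J)) dr dq η I.C I.H I.J I.b I.k
    (2 ^ M) (I.C ^ I.J * I.J.factorial) ((2 ^ M) ^ (dq - dr))
    (I.e * l2 * (I.C ^ I.J * I.J.factorial))
    ((sN (2 ^ I.e - I.C) (2 ^ I.e) + M * l2) * (I.C ^ I.J * I.J.factorial)) (2 * (I.e + M + 1))

lemma log_center (C e M : ℕ) (hC : 0 < C) (h1 : C ≤ 2 ^ e) (h2 : 2 ^ e ≤ 2 * C) :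
    |(2 : ℝ) ^ 192 * Real.log (C / 2 ^ M)
      - ((e * l2 : ℕ) - (sN (2 ^ e - C) (2 ^ e) + M * l2 : ℕ))| ≤ (2 * (e + M + 1) : ℕ) := by
  have h3 := sN_spec (2 ^ e - C) (2 ^ e) (by positivity) (by omega)
  have hC' : (0 : ℝ) < C := by exact_mod_cast hC
  have e1 : (1 : ℝ) - ((2 ^ e - C : ℕ) : ℝ) / ((2 ^ e : ℕ) : ℝ) = C / 2 ^ e := by
    rw [Nat.cast_sub h1]; push_cast; field_simp; ring
  rw [e1, Real.log_div hC'.ne' (by positivity), Real.log_pow] at h3
  rw [Real.log_div hC'.ne' (by positivity), Real.log_pow]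
  have h4 := l2_spec
  push_cast
  rw [abs_le] at h3 h4 ⊢
  have he : (0 : ℝ) ≤ e := Nat.cast_nonneg _
  have hM : (0 : ℝ) ≤ M := Nat.cast_nonneg _
  have a1 := mul_le_mul_of_nonneg_left h4.1 he
  have a2 := mul_le_mul_of_nonneg_left h4.2 he
  have a3 := mul_le_mul_of_nonneg_left h4.1 hM
  have a4 := mul_le_mul_of_nonneg_left h4.2 hM
  constructor <;> nlinarith [h3.1, h3.2]

lemma chkI_sound (r q : List ℤ) (dr dq M η : ℕ) (I : Iv) (hr : r.length ≤ dr + 1)
    (hq : q.length ≤ dq + 1) (hd : dr ≤ dq) (h : chkI r q dr dq M η I = true) (x : ℝ)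
    (hx1 : ((I.C - I.H : ℕ) : ℝ) ≤ x * 2 ^ M) (hx2 : x * 2 ^ M ≤ (I.C + I.H : ℕ)) :
    |ev r x * Real.log x + ev q x| ≤ η := by
  obtain ⟨C, H, J, e, b, k⟩ := I
  simp only [chkI, chkA, Bool.and_eq_true, Nat.blt_eq, Nat.ble_eq] at h hx1 hx2
  obtain ⟨⟨⟨hH, he1⟩, he2⟩, ⟨hp, hm⟩, hfin⟩ := h
  have hC : 0 < C := by omega
  have hC' : (0 : ℝ) < C := by exact_mod_cast hC
  have hCH : (0 : ℝ) < (C : ℝ) - H := by
    have : (H : ℝ) < C := by exact_mod_cast hH
    linarith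
  rw [Nat.cast_sub hH.le] at hx1
  push_cast at hx2
  obtain ⟨z, hz, hxz⟩ : ∃ z : ℝ, |z| ≤ 1 ∧ x * 2 ^ M = C + H * z := by
    rcases Nat.eq_zero_or_pos H with h0 | h0
    · subst h0; exact ⟨0, by simp, by simp at hx1 hx2 ⊢; linarith⟩
    · have h0' : (0 : ℝ) < H := by exact_mod_cast h0
      refine ⟨(x * 2 ^ M - C) / H, ?_, by field_simp; ring⟩
      rw [abs_div, abs_of_pos h0', div_le_one h0', abs_le]
      constructor <;> linarith
  set CF := C ^ J * J.factorial with hCF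
  set la := e * l2 * CF
  set lb := (sN (2 ^ e - C) (2 ^ e) + M * l2) * CF
  set Zd := (2 ^ M) ^ (dq - dr)
  simp only [tmN_eq] at hp hm hfin
  have k1 := l1d_bound b z hz k
    (tmG q r (psm (-1) r) (lgL J) (psm (-1) (lgL J)) dq dr C H J (2 ^ M) (CF * 2 ^ 192) Zd la lb
      (2 ^ 192) (X : ℕ[X]))
    (tmG (psm (-1) q) r (psm (-1) r) (psm (-1) (lgL J)) (lgL J) dq dr C H J (2 ^ M) (CF * 2 ^ 192)
      Zd lb la (2 ^ 192) (X : ℕ[X]))
  simp only [← coe_evalRingHom, ← coe_eval₂RingHom, map_tmG] at k1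
  simp only [coe_evalRingHom, coe_eval₂RingHom, eval_X, eval₂_X] at k1
  have k2 := k1 hp hm
  set L1 := l1d b k _ _
  have hZ : (((2 ^ M : ℕ) : ℝ)) = 2 ^ M := by push_cast; rfl
  have eq1 := hG_sub x (2 ^ M : ℝ) dq q hq
  have eq2 := hG_sub x (2 ^ M : ℝ) dr r hr
  have eq3 := hG_sub (H * z / C) (C : ℝ) J (lgL J) (by simp [lgL, length_palt, length_lgA])
  rw [hxz] at eq1 eq2
  rw [div_mul_cancel₀ _ hC'.ne', ev_lgL] at eq3
  set u : ℝ := H * z / C with hu
  have hu1 : |u| ≤ H / C := by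
    rw [hu, abs_div, abs_mul, abs_of_pos hC', Nat.abs_cast]
    exact div_le_div_of_nonneg_right (by nlinarith [Nat.cast_nonneg (α := ℝ) H]) hC'.le
  have hHC : (H : ℝ) / C < 1 := by rw [div_lt_one hC']; linarith
  have hl := Real.abs_log_sub_add_sum_range_le (x := -u) (by rw [abs_neg]; linarith) J
  rw [abs_neg, sub_neg_eq_add] at hl
  set S := ∑ i ∈ Finset.range J, (-u) ^ (i + 1) / ((i : ℝ) + 1)
  have ht : |u| ^ (J + 1) / (1 - |u|) ≤ (H : ℝ) ^ (J + 1) / (C ^ J * (C - H)) := by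
    calc |u| ^ (J + 1) / (1 - |u|) ≤ ((H : ℝ) / C) ^ (J + 1) / (1 - H / C) :=
          div_le_div₀ (by positivity) (pow_le_pow_left₀ (abs_nonneg _) hu1 _) (by linarith)
            (by linarith)
      _ = _ := by rw [div_pow]; field_simp; ring
  have hlog : Real.log x = Real.log (C / 2 ^ M) + Real.log (1 + u) := by
    have : 0 < 1 + u := by have := neg_abs_le u; linarith
    rw [← Real.log_mul (by positivity) this.ne']
    congr 1
    have : x = (C + H * z) / 2 ^ M := by rw [← hxz]; field_simp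
    rw [this, hu]; field_simp
  have hc := log_center C e M hC he1 he2
  have hR := ev_abs_le x (C + H) (2 ^ M) dr r hr (by
    rw [hZ, hxz]; push_cast
    refine (abs_add_le _ _).trans ?_
    rw [Nat.abs_cast, abs_mul, Nat.abs_cast]
    nlinarith [Nat.cast_nonneg (α := ℝ) H])
  rw [← Nat.cast_add, hZ] at hR
  set Rb := hN (C + H) (2 ^ M) dr r + hN (C + H) (2 ^ M) dr (psm (-1) r)
  have hZd : (Zd : ℝ) * (2 ^ M) ^ dr = (2 ^ M) ^ dq := by
    simp only [Zd]; push_cast; rw [← pow_add, Nat.sub_add_cancel hd]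
  have hCF' : (CF : ℝ) = C ^ J * J.factorial := by rw [hCF]; push_cast; ring
  set d1 := (2 : ℝ) ^ 192 * Real.log (C / 2 ^ M)
      - ((e * l2 : ℕ) - (sN (2 ^ e - C) (2 ^ e) + M * l2 : ℕ)) with hd1
  have key : (2 ^ M : ℝ) ^ dq * (CF * 2 ^ 192) * (ev r x * Real.log x + ev q x)
      = (tmG q r (psm (-1) r) (lgL J) (psm (-1) (lgL J)) dq dr C H J (2 ^ M) (CF * 2 ^ 192) Zd la lb
        (2 ^ 192) z - tmG (psm (-1) q) r (psm (-1) r) (psm (-1) (lgL J)) (lgL J) dq dr C H J (2 ^ M)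
        (CF * 2 ^ 192) Zd lb la (2 ^ 192) z)
        + Zd * ((2 ^ M) ^ dr * ev r x) * CF * (d1 + 2 ^ 192 * (S + Real.log (1 + u))) := by
    simp only [tmG, hZ, la, lb, hd1, hlog]
    push_cast
    set A1 := hG ((C : ℝ) + H * z) (2 ^ M) dq q
    set A2 := hG ((C : ℝ) + H * z) (2 ^ M) dq (psm (-1) q)
    set B1 := hG ((C : ℝ) + H * z) (2 ^ M) dr r
    set B2 := hG ((C : ℝ) + H * z) (2 ^ M) dr (psm (-1) r)
    set G1 := hG ((H : ℝ) * z) C J (lgL J)
    set G2 := hG ((H : ℝ) * z) C J (psm (-1) (lgL J))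
    have f1 : A1 = A2 + (2 ^ M) ^ dq * ev q x := by linarith
    have f2 : B1 = B2 + (2 ^ M) ^ dr * ev r x := by linarith
    have f3 : G1 = G2 - CF * S := by rw [hCF']; linarith
    rw [f1, f2, f3, ← hZd]; ring
  have hfin' : ((C : ℝ) - H) * (L1 + Zd * Rb * CF * (2 * (e + M + 1) : ℕ))
      + Zd * Rb * 2 ^ 192 * J.factorial * H ^ (J + 1)
      ≤ ((C : ℝ) - H) * η * (2 ^ M) ^ dq * (CF * 2 ^ 192) := by
    have := (Nat.cast_le (α := ℝ)).2 hfin
    simp only [Nat.cast_add, Nat.cast_mul, Nat.cast_pow, Nat.cast_ofNat, Nat.cast_sub hH.le,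
      Nat.cast_one] at this ⊢
    exact this
  have hpos : (0 : ℝ) < (2 ^ M : ℝ) ^ dq * (CF * 2 ^ 192) := by rw [hCF']; positivity
  have b1 : |d1 + 2 ^ 192 * (S + Real.log (1 + u))|
      ≤ (2 * (e + M + 1) : ℕ) + 2 ^ 192 * ((H : ℝ) ^ (J + 1) / (C ^ J * (C - H))) := by
    refine (abs_add_le _ _).trans (add_le_add hc ?_)
    rw [abs_mul, abs_of_pos (by positivity : (0 : ℝ) < 2 ^ 192)]
    exact mul_le_mul_of_nonneg_left (hl.trans ht) (by positivity)
  have b2 : |Zd * ((2 ^ M : ℝ) ^ dr * ev r x) * CF * (d1 + 2 ^ 192 * (S + Real.log (1 + u)))|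
      ≤ Zd * Rb * CF * ((2 * (e + M + 1) : ℕ)
        + 2 ^ 192 * ((H : ℝ) ^ (J + 1) / (C ^ J * (C - H)))) := by
    rw [abs_mul, abs_mul, abs_mul, abs_mul, Nat.abs_cast, Nat.abs_cast,
      abs_of_nonneg (by positivity : (0 : ℝ) ≤ (2 ^ M) ^ dr)]
    gcongr
  have b3 : (2 ^ M : ℝ) ^ dq * (CF * 2 ^ 192) * |ev r x * Real.log x + ev q x|
      ≤ L1 + Zd * Rb * CF * ((2 * (e + M + 1) : ℕ)
        + 2 ^ 192 * ((H : ℝ) ^ (J + 1) / (C ^ J * (C - H)))) := by
    rw [← abs_of_pos hpos, ← abs_mul, key]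
    exact (abs_add_le _ _).trans (add_le_add k2 b2)
  have b4 : ((C : ℝ) - H) * (L1 + Zd * Rb * CF * ((2 * (e + M + 1) : ℕ)
        + 2 ^ 192 * ((H : ℝ) ^ (J + 1) / (C ^ J * (C - H)))))
      = ((C : ℝ) - H) * (L1 + Zd * Rb * CF * (2 * (e + M + 1) : ℕ))
      + Zd * Rb * 2 ^ 192 * J.factorial * H ^ (J + 1) := by
    rw [hCF']; field_simp; ring
  have b5 := mul_le_mul_of_nonneg_left b3 hCH.le
  rw [b4] at b5
  have b6 : ((C : ℝ) - H) * ((2 ^ M : ℝ) ^ dq * (CF * 2 ^ 192)) * |ev r x * Real.log x + ev q x|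
      ≤ ((C : ℝ) - H) * ((2 ^ M : ℝ) ^ dq * (CF * 2 ^ 192)) * η := by linarith
  exact le_of_mul_le_mul_left b6 (by positivity)

def cover (r q : List ℤ) (dr dq M η : ℕ) : List Iv → ℕ → ℕ → Bool
  | [], lo, hi => Nat.ble hi lo
  | I :: t, lo, hi => Nat.ble (I.C - I.H) lo && chkI r q dr dq M η I &&
      cover r q dr dq M η t (I.C + I.H) hi

lemma cover_sound (r q : List ℤ) (dr dq M η : ℕ) (hr : r.length ≤ dr + 1)
    (hq : q.length ≤ dq + 1) (hd : dr ≤ dq) (hi : ℕ) (x : ℝ) (hx2 : x * 2 ^ M < hi) :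
    ∀ (l : List Iv) (lo : ℕ), cover r q dr dq M η l lo hi = true → (lo : ℝ) ≤ x * 2 ^ M →
      |ev r x * Real.log x + ev q x| ≤ η
  | [], lo, h, hx1 => by
    simp only [cover, Nat.ble_eq] at h
    have : (hi : ℝ) ≤ lo := by exact_mod_cast h
    linarith
  | I :: t, lo, h, hx1 => by
    simp only [cover, Bool.and_eq_true, Nat.ble_eq] at h
    obtain ⟨⟨h1, h2⟩, h3⟩ := h
    rcases le_total (x * 2 ^ M) ((I.C + I.H : ℕ) : ℝ) with hx | hx
    · refine chkI_sound r q dr dq M η I hr hq hd h2 x ?_ hx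
      have : ((I.C - I.H : ℕ) : ℝ) ≤ lo := by exact_mod_cast h1
      linarith
    · exact cover_sound r q dr dq M η hr hq hd hi x hx2 t _ h3 hx

def chk0 (r q : List ℤ) (dr dq j η : ℕ) : Bool :=
  (r.headD 0 == 0) && Nat.ble
    ((1 + j) * (hN 1 (2 ^ j) dr r.tail + hN 1 (2 ^ j) dr (psm (-1) r.tail)) * (2 ^ j) ^ dq
      + (hN 1 (2 ^ j) dq q + hN 1 (2 ^ j) dq (psm (-1) q)) * (2 ^ j) ^ (dr + 1))
    (η * (2 ^ j) ^ (dr + 1) * (2 ^ j) ^ dq)

lemma chk0_sound (r q : List ℤ) (dr dq j η : ℕ) (hr : r.length ≤ dr + 1)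
    (hq : q.length ≤ dq + 1) (h : chk0 r q dr dq j η = true) (x : ℝ) (hx0 : x ≠ 0)
    (hx : |x| * 2 ^ j ≤ 1) : |ev r x * Real.log |x| + ev q x| ≤ η := by
  simp only [chk0, Bool.and_eq_true, Nat.ble_eq, beq_iff_eq] at h
  obtain ⟨h0, h⟩ := h
  have hZ : (((2 ^ j : ℕ) : ℝ)) = 2 ^ j := by push_cast; rfl
  have hx' : |x * ((2 ^ j : ℕ) : ℝ)| ≤ (1 : ℕ) := by
    rw [hZ, abs_mul, abs_of_pos (by positivity : (0 : ℝ) < 2 ^ j)]; simpa using hx
  have h1 := ev_abs_le x 1 (2 ^ j) dr r.tail (by simp; omega) hx'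
  have h2 := ev_abs_le x 1 (2 ^ j) dq q hq hx'
  rw [← Nat.cast_add, hZ] at h1 h2
  have h3 := (Nat.cast_le (α := ℝ)).2 h
  rw [Nat.cast_add] at h3
  simp only [Nat.cast_mul, Nat.cast_pow, Nat.cast_ofNat] at h3
  set Rb := ((hN 1 (2 ^ j) dr r.tail + hN 1 (2 ^ j) dr (psm (-1) r.tail) : ℕ) : ℝ)
  set Qb := ((hN 1 (2 ^ j) dq q + hN 1 (2 ^ j) dq (psm (-1) q) : ℕ) : ℝ)
  set Z : ℝ := 2 ^ j with hZ'
  have hZp : 0 < Z := by positivity
  have hxp : 0 < |x| := abs_pos.2 hx0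
  have hl : |x| * Z * abs (Real.log |x|) ≤ (1 + j : ℕ) := by
    have a1 := Real.abs_log_mul_self_lt (|x| * Z) (by positivity) hx
    rw [abs_mul, abs_of_pos (by positivity : 0 < |x| * Z)] at a1
    have a2 : Real.log |x| = Real.log (|x| * Z) - j * Real.log 2 := by
      rw [Real.log_mul hxp.ne' hZp.ne', hZ', Real.log_pow]; ring
    have a3 : abs (Real.log |x|) ≤ abs (Real.log (|x| * Z)) + j := by
      rw [a2]
      refine (abs_sub _ _).trans (add_le_add le_rfl ?_)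
      have := Real.log_two_lt_d9
      have := Real.log_pos (x := 2) (by norm_num)
      rw [abs_of_nonneg (by positivity)]
      nlinarith [Nat.cast_nonneg (α := ℝ) j]
    push_cast
    have a4 : |x| * Z * (j : ℝ) ≤ 1 * j := mul_le_mul_of_nonneg_right hx (Nat.cast_nonneg _)
    have a5 := mul_le_mul_of_nonneg_left a3 (by positivity : 0 ≤ |x| * Z)
    nlinarith
  have b1 : Z ^ (dr + 1) * abs (ev r x * Real.log |x|) ≤ (1 + j : ℕ) * Rb := by
    rw [ev_tail r h0, abs_mul, abs_mul]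
    calc Z ^ (dr + 1) * (|x| * |ev r.tail x| * abs (Real.log |x|))
        = (|x| * Z * abs (Real.log |x|)) * (Z ^ dr * |ev r.tail x|) := by ring
      _ ≤ _ := mul_le_mul hl h1 (by positivity) (by positivity)
  have b2 : Z ^ (dr + 1) * Z ^ dq * |ev r x * Real.log |x| + ev q x|
      ≤ Z ^ (dr + 1) * Z ^ dq * η := by
    have c1 := mul_le_mul_of_nonneg_left (abs_add_le (ev r x * Real.log |x|) (ev q x))
      (by positivity : 0 ≤ Z ^ (dr + 1) * Z ^ dq)
    have c2 := mul_le_mul_of_nonneg_right b1 (by positivity : 0 ≤ Z ^ dq)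
    have c3 := mul_le_mul_of_nonneg_right h2 (by positivity : 0 ≤ Z ^ (dr + 1))
    nlinarith
  exact le_of_mul_le_mul_left b2 (by positivity)

/-- positive side -/
lemma sup_pos (r q : List ℤ) (dr dq j η : ℕ) (l : List Iv) (hr : r.length ≤ dr + 1)
    (hq : q.length ≤ dq + 1) (hd : dr ≤ dq) (hj : j ≤ 12) (h0 : chk0 r q dr dq j η = true)
    (h1 : cover r q dr dq 12 η l (2 ^ (12 - j)) (8 * 2 ^ 12) = true) (s : ℝ) (hs0 : 0 < s)
    (hs : s < 8) : |ev r s * Real.log |s| + ev q s| ≤ η := by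
  rcases le_total (|s| * 2 ^ j) 1 with h | h
  · exact chk0_sound r q dr dq j η hr hq h0 s hs0.ne' h
  · rw [abs_of_pos hs0] at h ⊢
    refine cover_sound r q dr dq 12 η hr hq hd _ s (by push_cast; linarith) l _ h1 ?_
    have : (2 : ℝ) ^ 12 = 2 ^ j * 2 ^ (12 - j) := by rw [← pow_add]; congr 1; omega
    rw [this]; push_cast
    nlinarith [(by positivity : (0 : ℝ) < 2 ^ (12 - j))]

/-- both sides -/
lemma sup_all (r q : List ℤ) (dr dq j η : ℕ) (l l' : List Iv) (hr : r.length ≤ dr + 1)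
    (hq : q.length ≤ dq + 1) (hd : dr ≤ dq) (hj : j ≤ 12) (h0 : chk0 r q dr dq j η = true)
    (h1 : cover r q dr dq 12 η l (2 ^ (12 - j)) (8 * 2 ^ 12) = true)
    (h2 : cover (palt r) (palt q) dr dq 12 η l' (2 ^ (12 - j)) (2 ^ 12) = true) (s : ℝ)
    (hs : s ∈ Set.Ioo (-1 : ℝ) 8) (hs0 : s ≠ 0) : |ev r s * Real.log |s| + ev q s| ≤ η := by
  rcases lt_or_gt_of_ne hs0 with hn | hp
  · rcases le_total (|s| * 2 ^ j) 1 with h | h
    · exact chk0_sound r q dr dq j η hr hq h0 s hs0 h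
    · rw [abs_of_neg hn] at h ⊢
      have := cover_sound (palt r) (palt q) dr dq 12 η (by rwa [length_palt])
        (by rwa [length_palt]) hd _ (-s) (by push_cast; linarith [hs.1]) l' _ h2 (by
          have : (2 : ℝ) ^ 12 = 2 ^ j * 2 ^ (12 - j) := by rw [← pow_add]; congr 1; omega
          rw [this]; push_cast
          nlinarith [(by positivity : (0 : ℝ) < 2 ^ (12 - j))])
      simpa only [ev_palt, neg_neg] using this
  · exact sup_pos r q dr dq j η l hr hq hd hj h0 h1 s hp hs.2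

end Pool.Agent.Lib.MP_cbe5a6_an
end

-- part Pool.Agent.Lib.MP_cbe5a6_an.AppG
section

/-! Approximate solutions given by list polynomials. -/

set_option autoImplicit false

namespace Pool.Agent.Lib.MP_cbe5a6_an

open Filter Topology Set

noncomputable section

def lp (r q : List ℤ) (D : ℝ) (s : ℝ) : ℝ := (ev r s * Real.log |s| + ev q s) / D
def vA (A p : List ℤ) (D : ℝ) (s : ℝ) : ℝ := (-ev A s * Real.log |s| + ev p s) / D
def vA1 (A p : List ℤ) (D : ℝ) (s : ℝ) : ℝ :=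
  (-ev (pder A) s * Real.log |s| + ev (pder p) s - ev A s / s) / D
def vA2 (A p : List ℤ) (D : ℝ) (s : ℝ) : ℝ :=
  (-ev (pder (pder A)) s * Real.log |s| + ev (pder (pder p)) s - 2 * ev (pder A) s / s
    + ev A s / s ^ 2) / D

end

def Dop (q c v : List ℤ) : List ℤ :=
  padd (padd (pmul [0, -8, -7, 1] (pder (pder v))) (pmul q (pder v))) (pmul c v)
def res0r (q c A : List ℤ) : List ℤ := psm (-1) (Dop q c A)
def res0q (q c q1 A p : List ℤ) : List ℤ :=
  padd (Dop q c p) (psm (-1) (padd (pmul [-16, -14, 2] (pder A)) (pmul q1 A)))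
def nxq (r q : List ℤ) : List ℤ := padd (pder q) r.tail
def tilr (As Am : List ℤ) : List ℤ :=
  padd (psm (-1) (pmul [2, 4, 2] Am)) (padd (pmul [-2, 1] As) (pmul [0, -8, 1] (pder As)))
def tilq (As ps pm : List ℤ) : List ℤ :=
  padd (pmul [2, 4, 2] pm) (padd (psm (-1) (pmul [-2, 1] ps))
    (padd (psm (-1) (pmul [0, -8, 1] (pder ps))) (pmul [-8, 1] As)))

lemma hasDerivAt_logabs (s : ℝ) (hs : s ≠ 0) : HasDerivAt (fun x => Real.log |x|) (1 / s) s := by
  simp only [Real.log_abs, one_div]; exact Real.hasDerivAt_log hs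

lemma continuous_mul_logabs : Continuous fun s : ℝ => s * Real.log |s| := by
  simp only [Real.log_abs]; exact Real.continuous_mul_log

lemma lp_deriv (r q : List ℤ) (D : ℝ) (h : r.headD 0 = 0) (s : ℝ) (hs : s ≠ 0) :
    HasDerivAt (lp r q D) (lp (pder r) (nxq r q) D s) s := by
  have h1 := (((hasDerivAt_ev r s).mul (hasDerivAt_logabs s hs)).add (hasDerivAt_ev q s)).div_const D
  have e : lp (pder r) (nxq r q) D s
      = (ev (pder r) s * Real.log |s| + ev r s * (1 / s) + ev (pder q) s) / D := by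
    rw [lp, nxq, ev_padd, ev_tail r h s]; congr 1; field_simp; ring
  rw [e]; exact h1

lemma lp_cont (r q : List ℤ) (D : ℝ) (h : r.headD 0 = 0) : Continuous (lp r q D) := by
  have e : lp r q D = fun s => (ev r.tail s * (s * Real.log |s|) + ev q s) / D := by
    funext s; rw [lp, ev_tail r h s]; ring
  rw [e]
  exact (((continuous_ev _).mul continuous_mul_logabs).add (continuous_ev _)).div_const D

lemma lp_bound (r q : List ℤ) (D η : ℝ) (k : ℕ) (hD : 0 < D) (hk : (k : ℝ) ≤ η * D) (s : ℝ)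
    (h : |ev r s * Real.log |s| + ev q s| ≤ k) : |lp r q D s| ≤ η := by
  rw [lp, abs_div, abs_of_pos hD, div_le_iff₀ hD]; linarith

lemma vA_deriv (A p : List ℤ) (D : ℝ) (s : ℝ) (hs : s ≠ 0) :
    HasDerivAt (vA A p D) (vA1 A p D s) s := by
  have h1 := (((hasDerivAt_ev A s).neg.mul (hasDerivAt_logabs s hs)).add
    (hasDerivAt_ev p s)).div_const D
  have e : vA1 A p D s
      = (-ev (pder A) s * Real.log |s| + -ev A s * (1 / s) + ev (pder p) s) / D := by
    rw [vA1]; ring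
  rw [e]; exact h1

lemma vA1_deriv (A p : List ℤ) (D : ℝ) (s : ℝ) (hs : s ≠ 0) :
    HasDerivAt (vA1 A p D) (vA2 A p D s) s := by
  have h1 := ((((hasDerivAt_ev (pder A) s).neg.mul (hasDerivAt_logabs s hs)).add
    (hasDerivAt_ev (pder p) s)).sub ((hasDerivAt_ev A s).div (hasDerivAt_id s) hs)).div_const D
  have e : vA2 A p D s
      = (-ev (pder (pder A)) s * Real.log |s| + -ev (pder A) s * (1 / s) + ev (pder (pder p)) s
        - (ev (pder A) s * s - ev A s * 1) / s ^ 2) / D := by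
    rw [vA2]; congr 1; field_simp; ring
  rw [e]; exact h1

lemma app_of_lists (a0 D : ℝ) (hD : 0 < D) (q c : ℝ → ℝ) (qL cL q1L A p r0 q0 r1 q1 r2 q2 : List ℤ)
    (η0 η1 η2 : ℝ) (hq : ∀ s, q s = ev qL s) (hc : ∀ s, c s = ev cL s)
    (hq1 : ∀ s : ℝ, q s = (s + 1) * (s - 8) + s * ev q1L s)
    (hA : ∀ s : ℝ, ev A s = a0 * D + s * ev A.tail s)
    (e0 : res0r qL cL A = r0) (e0' : res0q qL cL q1L A p = q0)
    (e1 : pder r0 = r1) (e1' : nxq r0 q0 = q1) (e2 : pder r1 = r2) (e2' : nxq r1 q1 = q2)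
    (z0 : r0.headD 0 = 0) (z1 : r1.headD 0 = 0)
    (b0 : ∀ s ∈ Ioo (-1 : ℝ) 8, s ≠ 0 → |lp r0 q0 D s| ≤ η0)
    (b1 : ∀ s ∈ Ioo (-1 : ℝ) 8, s ≠ 0 → |lp r1 q1 D s| ≤ η1)
    (b2 : ∀ s ∈ Ioo (-1 : ℝ) 8, s ≠ 0 → |lp r2 q2 D s| ≤ η2) :
    App a0 q c (vA A p D) (vA1 A p D) (vA2 A p D) (lp r0 q0 D) (lp r1 q1 D) (lp r2 q2 D)
      η0 η1 η2 where
  cv := by
    have e : (fun s => vA A p D s + a0 * Real.log |s|)
        = fun s => (-ev A.tail s * (s * Real.log |s|) + ev p s) / D := by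
      funext s; rw [vA, hA s]; field_simp; ring
    rw [e]
    exact (((continuous_ev _).neg.mul continuous_mul_logabs).add
      (continuous_ev _)).div_const D |>.continuousOn
  dv := vA_deriv A p D
  dv1 := vA1_deriv A p D
  fl := by
    have hc : Continuous fun s : ℝ =>
        (-ev (pder A) s * (s * Real.log |s|) + s * ev (pder p) s - ev A s) / D :=
      ((((continuous_ev _).neg.mul continuous_mul_logabs).add
        (continuous_id.mul (continuous_ev _))).sub (continuous_ev _)).div_const D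
    have h1 := (hc.tendsto 0).mono_left (nhdsWithin_le_nhds (s := {0}ᶜ))
    have e : (-ev (pder A) (0 : ℝ) * (0 * Real.log |(0 : ℝ)|) + 0 * ev (pder p) (0 : ℝ)
        - ev A (0 : ℝ)) / D = -a0 := by
      rw [hA 0]; field_simp; ring
    simp only [e] at h1
    refine h1.congr' ?_
    filter_upwards [self_mem_nhdsWithin] with s hs
    have hs' : s ≠ 0 := hs
    rw [vA1]; field_simp
  eqn := by
    intro s hs
    have h1 := hq1 s
    rw [hq] at h1
    rw [← e0, ← e0', lp, res0r, res0q, vA, vA1, vA2, hq, hc, PP]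
    simp only [Dop, ev_padd, ev_psm, ev_pmul, ev_cons, ev_nil]
    rw [h1]; push_cast; field_simp; ring
  dρ0 := fun s hs => by rw [← e1, ← e1']; exact lp_deriv _ _ _ z0 s hs
  dρ1 := fun s hs => by rw [← e2, ← e2']; exact lp_deriv _ _ _ z1 s hs
  cρ0 := lp_cont _ _ _ z0
  cρ1 := lp_cont _ _ _ z1
  b0 := b0
  b1 := b1
  b2 := b2

lemma til_eq (As ps Am pm : List ℤ) (D : ℝ) (s : ℝ) (hs : s ≠ 0) :
    2 * (s + 1) ^ 2 * vA Am pm D s - (s - 2) * vA As ps D s - s * (s - 8) * vA1 As ps D s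
      = lp (tilr As Am) (tilq As ps pm) D s := by
  simp only [vA, vA1, lp, tilr, tilq, ev_padd, ev_psm, ev_pmul, ev_cons, ev_nil]
  push_cast; field_simp; ring

end Pool.Agent.Lib.MP_cbe5a6_an
end

-- part Pool.Agent.Lib.MP_cbe5a6_an.Ser2
section

/-! Coefficient tables by Kronecker substitution and the series they generate. -/

set_option autoImplicit false

namespace Pool.Agent.Lib.MP_cbe5a6_an

open Polynomial Can

def tbG {R : Type*} [CommSemiring R] (pre : Bool) (a b : List ℤ) (d : ℕ) (x y : R) : R :=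
  cond pre ((1 + y) * (x + y)) 1 *
    (2 * (x * y) ^ 2 * hG ((1 + x) * (1 + y) * (x + y)) (x * y) d a
      + ((x + y + x * y) ^ 3 + x * y * (1 + x + y) ^ 3)
        * hG ((1 + x) * (1 + y) * (x + y)) (x * y) d b)

def tbN (pre : Bool) (a b : List ℤ) (d : ℕ) (x y : ℕ) : ℕ :=
  cond pre ((1 + y) * (x + y)) 1 *
    (2 * (x * y) ^ 2 * hN ((1 + x) * (1 + y) * (x + y)) (x * y) d a
      + ((x + y + x * y) ^ 3 + x * y * (1 + x + y) ^ 3)
        * hN ((1 + x) * (1 + y) * (x + y)) (x * y) d b)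

lemma tbN_eq (pre : Bool) (a b : List ℤ) (d x y : ℕ) : tbN pre a b d x y = tbG pre a b d x y := by
  simp only [tbN, tbG, hN_eq]

lemma map_tbG {R S : Type*} [CommSemiring R] [CommSemiring S] (f : R →+* S) (pre : Bool)
    (a b : List ℤ) (d : ℕ) (x y : R) : f (tbG pre a b d x y) = tbG pre a b d (f x) (f y) := by
  cases pre <;> simp [tbG, map_hG, map_ofNat]

def peel (b : ℕ) : ℕ → ℕ → List ℕ
  | 0, _ => []
  | k + 1, V => Nat.land V (Nat.pow 2 b - 1) :: peel b k (Nat.shiftRight V b)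

def dig (U b i : ℕ) : ℕ := Nat.land (Nat.shiftRight U (Nat.mul b i)) (Nat.pow 2 b - 1)

lemma dig_eq (U b i : ℕ) : dig U b i = U / (2 ^ b) ^ i % 2 ^ b := by
  rw [dig, land_eq, shr_eq, ← pow_mul]; rfl

lemma peel_getD (b : ℕ) : ∀ (k V i : ℕ), i < k → (peel b k V).getD i 0 = V / (2 ^ b) ^ i % 2 ^ b
  | 0, _, _, h => by omega
  | k + 1, V, 0, _ => by simp [peel]
  | k + 1, V, i + 1, h => by
    rw [peel, List.getD_cons_succ, peel_getD b k _ i (by omega), shr_eq, Nat.div_div_eq_div_mul,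
      pow_succ']

def rowsOf (pre : Bool) (a b : List ℤ) (d bb W : ℕ) : List ℕ :=
  peel (bb * W) W (tbN pre a b d (2 ^ bb) ((2 ^ bb) ^ W))

def tbOK (pre : Bool) (a b : List ℤ) (d bb W : ℕ) : Bool :=
  Nat.blt (tbN pre a b d 1 1) (2 ^ bb) && Nat.blt (tbN pre a b d (2 ^ bb) 1) ((2 ^ bb) ^ W) &&
    Nat.blt (tbN pre a b d (2 ^ bb) ((2 ^ bb) ^ W)) (((2 ^ bb) ^ W) ^ W)

lemma tb_spec (pre : Bool) (a b : List ℤ) (d bb W : ℕ) (h : tbOK pre a b d bb W = true)
    (x y : ℂ) : tbG pre a b d x y = ∑ j ∈ Finset.range W, ∑ i ∈ Finset.range W,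
      (dig ((rowsOf pre a b d bb W).getD j 0) bb i : ℂ) * x ^ i * y ^ j := by
  simp only [tbOK, Bool.and_eq_true, Nat.blt_eq, tbN_eq] at h
  have k := fun h1 h2 h3 => kron2 (tbG pre a b d (C X : ℕ[X][X]) X) (2 ^ bb) W W h1 h2 h3 x y
  simp only [← coe_eval₂RingHom, map_tbG] at k
  simp only [coe_eval₂RingHom, eval₂_C, eval₂_X, coe_evalRingHom, eval_X] at k
  have e : eval₂ (eval₂RingHom (Nat.castRingHom ℂ) x) y (tbG pre a b d (C X) X)
      = tbG pre a b d x y := by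
    refine (map_tbG (R := ℕ[X][X]) (S := ℂ)
      (eval₂RingHom (eval₂RingHom (Nat.castRingHom ℂ) x) y) pre a b d (C X) X).trans ?_
    simp
  rw [← e, k h.1.1 h.1.2 h.2]
  refine Finset.sum_congr rfl fun j hj => Finset.sum_congr rfl fun i _ => ?_
  rw [dig_eq, rowsOf, peel_getD _ _ _ _ (Finset.mem_range.1 hj), tbN_eq, pow_mul]

lemma st_eq (a b : ℝ) :
    (1 + ex a) * (1 + ex b) * (ex a + ex b) = (ss a b 0 : ℂ) * (ex a * ex b) := by
  have h1 := ex_mul_neg a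
  have h2 := ex_mul_neg b
  rw [ss, Complex.ofReal_sub, Complex.normSq_eq_conj_mul_self, ← yy_neg]
  simp only [yy, neg_zero, ex_zero, Complex.ofReal_one]
  linear_combination (-(ex b) * (ex a + ex b + 1)) * h1 + (-(ex a) * (ex a + ex b + 1)) * h2

lemma xt_eq (a b : ℝ) :
    (ex a + ex b + ex a * ex b) ^ 3 + ex a * ex b * (1 + ex a + ex b) ^ 3
      = 2 * (ex a * ex b) ^ 2 * (XX a b 0 : ℂ) := by
  have h1 := ex_mul_neg a
  have h2 := ex_mul_neg b
  rw [XX, Complex.re_eq_add_conj, map_mul, map_pow, Complex.conj_conj, ← yy_neg]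
  simp only [yy, pr, map_mul, ex_conj, neg_zero, ex_zero, mul_one]
  have e : ex a + ex b + ex a * ex b = ex a * ex b * (ex (-a) + ex (-b) + 1) := by
    linear_combination (-ex b) * h1 + (-ex a) * h2
  rw [e]
  have e2 : ex a * ex b * (ex (-a) * ex (-b)) = 1 := by linear_combination (ex b * ex (-b)) * h1 + h2
  linear_combination (-(ex a * ex b) * (ex a + ex b + 1) ^ 3) * e2

lemma ev_ofReal (l : List ℤ) (s : ℝ) : ev l (s : ℂ) = ((ev l s : ℝ) : ℂ) :=
  (map_ev Complex.ofRealHom l s).symm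

lemma tb_val (pre : Bool) (A B : List ℤ) (d : ℕ) (hA : A.length ≤ d + 1) (hB : B.length ≤ d + 1)
    (a b : ℝ) : tbG pre A (psm (-1) B) d (ex a) (ex b) - tbG pre (psm (-1) A) B d (ex a) (ex b)
      = cond pre ((1 + ex b) * (ex a + ex b)) 1 * (ex a * ex b) ^ (d + 2)
        * ((2 * (ev A (ss a b 0) - XX a b 0 * ev B (ss a b 0)) : ℝ) : ℂ) := by
  have h1 := hG_sub (ss a b 0 : ℂ) (ex a * ex b) d A hA
  have h2 := hG_sub (ss a b 0 : ℂ) (ex a * ex b) d B hB
  rw [ev_ofReal] at h1 h2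
  simp only [tbG, st_eq, xt_eq]
  push_cast
  linear_combination (cond pre ((1 + ex b) * (ex a + ex b)) 1 * 2 * (ex a * ex b) ^ 2) * h1
    - (cond pre ((1 + ex b) * (ex a + ex b)) 1 * 2 * (ex a * ex b) ^ 2 * (XX a b 0 : ℂ)) * h2

/-- signed table entry -/
def ent (rp rm : List ℕ) (bb i j : ℕ) : ℤ :=
  Int.subNatNat (dig (rp.getD j 0) bb i) (dig (rm.getD j 0) bb i)

lemma ent_sum (pre : Bool) (A B : List ℤ) (d bb W : ℕ) (hA : A.length ≤ d + 1)
    (hB : B.length ≤ d + 1) (h1 : tbOK pre A (psm (-1) B) d bb W = true)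
    (h2 : tbOK pre (psm (-1) A) B d bb W = true) (a b : ℝ) :
    ∑ j ∈ Finset.range W, ∑ i ∈ Finset.range W,
      (ent (rowsOf pre A (psm (-1) B) d bb W) (rowsOf pre (psm (-1) A) B d bb W) bb i j : ℂ)
        * ex a ^ i * ex b ^ j
      = cond pre ((1 + ex b) * (ex a + ex b)) 1 * (ex a * ex b) ^ (d + 2)
        * ((2 * (ev A (ss a b 0) - XX a b 0 * ev B (ss a b 0)) : ℝ) : ℂ) := by
  rw [← tb_val pre A B d hA hB, tb_spec _ _ _ _ _ _ h1, tb_spec _ _ _ _ _ _ h2,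
    ← Finset.sum_sub_distrib]
  refine Finset.sum_congr rfl fun j _ => ?_
  rw [← Finset.sum_sub_distrib]
  refine Finset.sum_congr rfl fun i _ => ?_
  rw [ent, Int.subNatNat_eq_coe]; push_cast; ring

lemma hsv {ι E : Type*} [AddCommMonoid E] [TopologicalSpace E] {f : ι → E} {a b : E}
    (h : HasSum f a) (e : a = b) : HasSum f b := e ▸ h

noncomputable section

/-- convolution of a table with a sequence in the first index -/
def cv (T : ℕ → ℕ → ℤ) (W sh : ℕ) (f : ℤ → ℝ) (P Q : ℤ) : ℝ :=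
  if 0 ≤ Q + sh ∧ Q + sh < W then
    ∑ i ∈ Finset.range W, (T i (Q + sh).toNat : ℝ) * f (P - ((i : ℤ) - sh)) else 0

lemma cv_hasSum (T : ℕ → ℕ → ℤ) (W sh : ℕ) (f : ℤ → ℝ) (a b : ℝ) (F : ℂ)
    (hf : HasSum (fun k : ℤ => (f k : ℂ) * ex (k * a)) F) :
    HasSum (fun k : ℤ × ℤ => (cv T W sh f k.1 k.2 : ℂ) * ex (k.1 * a + k.2 * b))
      (F * ex (-(sh * (a + b))) * ∑ j ∈ Finset.range W, ∑ i ∈ Finset.range W,
        (T i j : ℂ) * ex a ^ i * ex b ^ j) := by
  have h1 : ∀ j ∈ Finset.range W, ∀ i ∈ Finset.range W,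
      HasSum (fun k : ℤ × ℤ => if k.2 = (j : ℤ) - sh then
        (T i j : ℂ) * (f (k.1 - ((i : ℤ) - sh)) : ℂ) * ex (k.1 * a + k.2 * b) else 0)
        (F * ex (-(sh * (a + b))) * ((T i j : ℂ) * ex a ^ i * ex b ^ j)) := by
    intro j _ i _
    refine (Function.Injective.hasSum_iff
      (g := fun n : ℤ => ((n + ((i : ℤ) - sh), (j : ℤ) - sh) : ℤ × ℤ))
      (fun x y h => by simpa using h) (fun k hk => if_neg fun h =>
        hk ⟨k.1 - ((i : ℤ) - sh), Prod.ext (by simp) (by simp [h])⟩)).1 ?_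
    refine hsc (hsv (hf.mul_right (ex (-(sh * (a + b))) * ((T i j : ℂ) * ex a ^ i * ex b ^ j)))
      ?_) fun n => ?_
    · ring
    · simp only [Function.comp, if_true, add_sub_cancel_right]
      rw [← ex_nat, ← ex_nat]
      have : ex (((n + ((i : ℤ) - sh) : ℤ) : ℝ) * a + (((j : ℤ) - sh : ℤ) : ℝ) * b)
          = ex (n * a) * ex (-(sh * (a + b))) * ex (i * a) * ex (j * b) := by
        rw [← ex_add, ← ex_add, ← ex_add]; congr 1; push_cast; ring
      rw [this]; ring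
  have h2 := hasSum_sum fun j hj => hasSum_sum fun i hi => h1 j hj i hi
  simp only [← Finset.mul_sum] at h2
  refine hsc h2 fun k => ?_
  rw [cv]
  split_ifs with h
  · rw [Finset.sum_eq_single (k.2 + sh).toNat]
    · push_cast
      rw [Finset.sum_mul]
      exact Finset.sum_congr rfl fun i _ => if_pos (by omega)
    · intro j _ hj
      exact Finset.sum_eq_zero fun i _ => if_neg (by omega)
    · intro hj
      exact absurd (Finset.mem_range.2 (by omega)) hj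
  · rw [Complex.ofReal_zero, zero_mul]
    refine Finset.sum_eq_zero fun j hj => Finset.sum_eq_zero fun i _ => if_neg ?_
    have := Finset.mem_range.1 hj
    omega

def dl (k : ℤ) : ℝ := if k = 0 then 1 else 0

lemma hasSum_dl (a : ℝ) : HasSum (fun k : ℤ => (dl k : ℂ) * ex (k * a)) 1 := by
  have := hasSum_single (f := fun k : ℤ => (dl k : ℂ) * ex (k * a)) 0 (fun k hk => by simp [dl, hk])
  simpa [dl, ex_zero] using this

lemma log_split (a b : ℝ) : ss a b 0 * Real.log |ss a b 0| = ss a b 0 *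
    (Real.log ‖1 + ex a‖ + Real.log ‖1 + ex b‖ + Real.log ‖1 + ex (a - b)‖) := by
  by_cases h : ss a b 0 = 0
  · simp [h]
  · have h1 := congrArg norm (st_eq a b)
    have e : ex a + ex b = ex b * (1 + ex (a - b)) := by
      rw [mul_add, ← ex_add]; ring_nf
    rw [e] at h1
    simp only [norm_mul, ex_norm, Complex.norm_real, Real.norm_eq_abs, mul_one, one_mul] at h1
    have h2 : ‖1 + ex a‖ * ‖1 + ex b‖ * ‖1 + ex (a - b)‖ ≠ 0 := by rw [h1]; simpa using h
    rw [← h1, Real.log_mul (left_ne_zero_of_mul h2) (right_ne_zero_of_mul h2),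
      Real.log_mul (left_ne_zero_of_mul (left_ne_zero_of_mul h2))
        (right_ne_zero_of_mul (left_ne_zero_of_mul h2))]

/-- coefficients of the approximate kernel -/
def capp (T0 T1 : ℕ → ℕ → ℤ) (W0 s0 W1 s1 : ℕ) (g D : ℝ) (k : ℤ × ℤ) : ℝ :=
  (cv T0 W0 s0 dl k.1 k.2
    + g * (cv T1 W1 s1 lc k.1 k.2 + cv T1 W1 s1 lc k.2 k.1 + cv T1 W1 s1 lc k.1 (-k.1 - k.2)))
    / (2 * D)

lemma ex_pow_cancel (n : ℕ) (a b : ℝ) : ex (-(n * (a + b))) * (ex a * ex b) ^ n = 1 := by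
  rw [← ex_add, ← ex_nat, ← ex_add, neg_add_cancel, ex_zero]

theorem ser_app (As ps Am pm As' Am' : List ℤ) (g : ℤ) (D : ℝ) (T0 T1 : ℕ → ℕ → ℤ)
    (d0 W0 d1 W1 : ℕ) (hAs : psm g As' = As) (hAm : psm g Am' = Am)
    (h0 : ∀ a b : ℝ, ∑ j ∈ Finset.range W0, ∑ i ∈ Finset.range W0,
      (T0 i j : ℂ) * ex a ^ i * ex b ^ j = 1 * (ex a * ex b) ^ (d0 + 2) *
        ((2 * (ev (pmul [0, 64, -42, 29] ps) (ss a b 0)
          - XX a b 0 * ev (pmul [0, 0, -18, 27] pm) (ss a b 0)) : ℝ) : ℂ))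
    (h1 : ∀ a b : ℝ, ∑ j ∈ Finset.range W1, ∑ i ∈ Finset.range W1,
      (T1 i j : ℂ) * ex a ^ i * ex b ^ j = (1 + ex b) * (ex a + ex b) * (ex a * ex b) ^ (d1 + 2) *
        ((2 * (ev (pmul [-64, 42, -29] As') (ss a b 0)
          - XX a b 0 * ev (pmul [0, 18, -27] Am') (ss a b 0)) : ℝ) : ℂ)) :
    Ser (KK (vA As ps D) (vA Am pm D)) (capp T0 T1 W0 (d0 + 2) W1 (d1 + 3) g D) := by
  refine ser_of_hasSum _ _ (fun a b => ?_) (KK_sw _ _) (KK_neg _ _)
  set Tf : ℝ → ℝ → ℝ := fun a b => ss a b 0 * (2 * (ev (pmul [-64, 42, -29] As') (ss a b 0)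
          - XX a b 0 * ev (pmul [0, 18, -27] Am') (ss a b 0))) with hTf
  have hG : ∀ a b : ℝ, HasSum (fun k : ℤ × ℤ => (cv T1 W1 (d1 + 3) lc k.1 k.2 : ℂ)
      * ex (k.1 * a + k.2 * b)) ((Tf a b * Real.log ‖1 + ex a‖ : ℝ) : ℂ) := fun a b => by
    have := cv_hasSum T1 W1 (d1 + 3) lc a b _ (hasSum_lc a)
    rw [h1] at this
    have e1 := ex_pow_cancel (d1 + 3) a b
    have e2 := st_eq a b
    refine hsv this ?_
    simp only [hTf]
    rw [Complex.ofReal_mul (_ * _), Complex.ofReal_mul (ss a b 0)]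
    set u := ((2 * (ev (pmul [-64, 42, -29] As') (ss a b 0)
          - XX a b 0 * ev (pmul [0, 18, -27] Am') (ss a b 0)) : ℝ) : ℂ)
    linear_combination ((Real.log ‖1 + ex a‖ : ℝ) * u * ex (-(((d1 + 3 : ℕ) : ℝ) * (a + b)))
      * (ex a * ex b) ^ (d1 + 2)) * e2 + ((Real.log ‖1 + ex a‖ : ℝ) * u * (ss a b 0 : ℂ)) * e1
  have s0 := cv_hasSum T0 W0 (d0 + 2) dl a b _ (hasSum_dl a)
  rw [h0, one_mul, one_mul, ← mul_assoc, ex_pow_cancel, one_mul] at s0
  have s1 := hG a b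
  have s2 : HasSum (fun k : ℤ × ℤ => (cv T1 W1 (d1 + 3) lc k.2 k.1 : ℂ)
      * ex (k.1 * a + k.2 * b)) ((Tf a b * Real.log ‖1 + ex b‖ : ℝ) : ℂ) := by
    have := (Equiv.prodComm ℤ ℤ).hasSum_iff.2 (hG b a)
    have e : Tf b a = Tf a b := by simp only [hTf, ss_sw b a, XX_sw b a]
    rw [e] at this
    refine hsc this fun k => ?_
    simp [add_comm]
  have s3 : HasSum (fun k : ℤ × ℤ => (cv T1 W1 (d1 + 3) lc k.1 (-k.1 - k.2) : ℂ)
      * ex (k.1 * a + k.2 * b)) ((Tf a b * Real.log ‖1 + ex (a - b)‖ : ℝ) : ℂ) := by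
    let φ : ℤ × ℤ ≃ ℤ × ℤ := ⟨fun k => (k.1, -k.1 - k.2), fun k => (k.1, -k.1 - k.2),
      fun k => by simp, fun k => by simp⟩
    have := φ.hasSum_iff.2 (hG (a - b) (-b))
    have e1 : ss (a - b) (-b) 0 = ss a b 0 := by
      rw [ss_sw' a b 0, ← ss_shift a 0 b b]; simp
    have e2 : XX (a - b) (-b) 0 = XX a b 0 := by
      rw [XX_sw' a b 0, ← XX_shift a 0 b b]; simp
    have e : Tf (a - b) (-b) = Tf a b := by simp only [hTf, e1, e2]
    rw [e] at this
    refine hsc this fun k => ?_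
    simp only [Function.comp, φ, Equiv.coe_fn_mk]
    congr 2; push_cast; ring
  have s4 := (s0.add (((s1.add s2).add s3).mul_left ((g : ℝ) : ℂ))).div_const ((2 * D : ℝ) : ℂ)
  refine hsc (hsv s4 ?_) fun k => ?_
  · rw [← Complex.ofReal_add, ← Complex.ofReal_add, ← Complex.ofReal_mul, ← Complex.ofReal_add,
      ← Complex.ofReal_div]
    congr 1
    have hl := log_split a b
    simp only [KK, vA, al, be, hTf, ← hAs, ← hAm, ev_pmul, ev_psm, ev_cons, ev_nil]
    push_cast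
    by_cases hD : D = 0
    · simp [hD]
    field_simp
    set s := ss a b 0
    linear_combination ((g : ℝ) * ((-64 + s * (42 - s * 29)) * ev As' s
      - XX a b 0 * s * (18 - s * 27) * ev Am' s)) * hl.symm
  · rw [capp]; push_cast; ring

end

end Pool.Agent.Lib.MP_cbe5a6_an
end

-- part Pool.Agent.Lib.MP_cbe5a6_an.Tab
section

/-! The concrete tables and the integer matrices. -/

set_option autoImplicit false

namespace Pool.Agent.Lib.MP_cbe5a6_an

def gg : ℤ := 166153499473114484112975882535043072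
def dAs' : List ℤ := dAs.map (fun a => a / gg)
def dAm' : List ℤ := dAm.map (fun a => a / gg)
def a0L : List ℤ := pmul [0, 64, -42, 29] dps
def b0L : List ℤ := pmul [0, 0, -18, 27] dpm
def a1L : List ℤ := pmul [-64, 42, -29] dAs'
def b1L : List ℤ := pmul [0, 18, -27] dAm'
def rp0 : List ℕ := rowsOf false a0L (psm (-1) b0L) 73 455 151
def rn0 : List ℕ := rowsOf false (psm (-1) a0L) b0L 73 455 151
def rp1 : List ℕ := rowsOf true a1L (psm (-1) b1L) 33 560 73
def rn1 : List ℕ := rowsOf true (psm (-1) a1L) b1L 33 560 73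
def T0 (i j : ℕ) : ℤ := ent rp0 rn0 455 i j
def T1 (i j : ℕ) : ℤ := ent rp1 rn1 560 i j
def Lc : ℕ := 1499005802393654456533640963584237986585838254817085616534658848000

def lI (k : ℤ) : ℤ :=
  if (max k (1 - k)).toNat = 1 then Int.ofNat (Lc / 2)
  else if (max k (1 - k)).toNat % 2 = 0 then
    Int.ofNat (Lc / (2 * ((max k (1 - k)).toNat * ((max k (1 - k)).toNat - 1))))
  else -Int.ofNat (Lc / (2 * ((max k (1 - k)).toNat * ((max k (1 - k)).toNat - 1))))

def lcL : List ℤ := (List.range 311).map fun t => lI (Int.ofNat t - 155)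
def lcP : ℕ := hN (2 ^ 560) 1 310 lcL
def lcM : ℕ := hN (2 ^ 560) 1 310 (psm (-1) lcL)
def gmP : List ℕ := (List.range 73).map fun j =>
  Nat.add (Nat.mul (rp1.getD j 0) lcP) (Nat.mul (rn1.getD j 0) lcM)
def gmM : List ℕ := (List.range 73).map fun j =>
  Nat.add (Nat.mul (rp1.getD j 0) lcM) (Nat.mul (rn1.getD j 0) lcP)
def row1 (j : ℕ) : List ℤ := (List.range 73).map fun i => T1 i j
def rows1 : List (List ℤ) := (List.range 73).map row1

def dotI : List ℤ → List ℤ → ℤ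
  | a :: l, b :: k => Int.add (Int.mul a b) (dotI l k)
  | _, _ => 0

def sumL : List ℤ → ℤ
  | [] => 0
  | a :: l => Int.add a (sumL l)

def sumR (f : ℕ → ℤ) : ℕ → ℤ
  | 0 => 0
  | k + 1 => Int.add (sumR f k) (f k)

def t0I (P Q : ℤ) : ℤ :=
  if 0 ≤ Q + 75 ∧ Q + 75 < 151 then
    if 0 ≤ P + 75 ∧ P + 75 < 151 then T0 (P + 75).toNat (Q + 75).toNat else 0 else 0

def GI (P Q : ℤ) : ℤ :=
  if 0 ≤ Q + 36 ∧ Q + 36 < 73 then
    ent gmP gmM 560 (P + 191).toNat (Q + 36).toNat else 0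

def cI (p q : ℤ) : ℤ :=
  Int.ofNat Lc * t0I (2 * p) (2 * q)
    + gg * (GI (2 * p) (2 * q) + GI (2 * q) (2 * p) + GI (2 * p) (-(2 * p) - 2 * q))

def tauI (n : ℕ) : ℤ := if 2 * n + 36 < 73 then sumL (rows1.getD (2 * n + 36) []) else 0

def kI (n : ℕ) : ℤ :=
  Int.ofNat Lc * sumR (fun q => t0I (2 * Int.ofNat n) (2 * (Int.ofNat q - 37))) 75
    + 2 * gg * sumR (fun j => GI (2 * Int.ofNat n) (2 * (Int.ofNat j - 18))) 37

def T192 : ℤ := 6277101735386680763835789423207666416102355444464034512896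

def wI (n : ℕ) : ℤ :=
  if n < 2 then 0 else T192 * (4 * kI n + 4 * cI 0 (Int.ofNat n))
    + 4 * Int.ofNat Lc * gg * Int.ofNat l2 * tauI n

def wL : List ℤ := (List.range 60).map wI

def om (n : ℕ) : ℕ := if n < 8 then [1, 10, 13, 19, 56, 110, 130, 90].getD n 1 else 10 * n

/-- load part of the scaled matrix entry -/
def ldI (n m : ℕ) : ℤ :=
  (if n = m then 16 * T192 * cI 0 (Int.ofNat n) else 0)
    - (if m = n + 1 ∨ n = m + 1 then wL.getD n 0 + wL.getD m 0 else 0)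
    + (if n = 1 then wL.getD (m - 1) 0 - wL.getD (m + 1) 0 else 0)
    + (if m = 1 then wL.getD (n - 1) 0 - wL.getD (n + 1) 0 else 0)

def RI (s : ℤ) (n m : ℕ) : ℤ :=
  8 * T192 * (cI (Int.ofNat n) (-Int.ofNat m) + s * cI (Int.ofNat n) (Int.ofNat m)) + ldI n m

def pairAbs (u v l : ℤ) (o : ℕ) (lo2 : Bool) (acc : ℕ × ℕ) : ℕ × ℕ :=
  (Nat.add acc.1 (cond lo2 (Nat.mul (8 * T192 * (u + 1 * v) + l).natAbs o) 0),
    Nat.add acc.2 (Nat.mul (8 * T192 * (u + -1 * v) + l).natAbs o))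

/-- row sums over `m = 1..k`, `m ≠ n` -/
def rowS (n : ℕ) : ℕ → ℕ × ℕ
  | 0 => (0, 0)
  | k + 1 => if k + 1 = n then rowS n k else
      pairAbs (cI (Int.ofNat n) (-Int.ofNat (k + 1))) (cI (Int.ofNat n) (Int.ofNat (k + 1)))
        (ldI n (k + 1)) (om (k + 1)) (Nat.ble 1 k) (rowS n k)

def tl (n : ℕ) : ℕ := if n = 1 then 11000 else if n = 2 then 1000 else if n = 3 then 30 else 1

/-- `4 * Lc * 2 * 2^320 * 2^192` -/
def Sc4 : ℕ := 4 * (Lc * (2 * 2 ^ 320) * 2 ^ 192)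

def rowC (n : ℕ) (S : ℕ × ℕ) : Bool :=
  (decide (n = 1) || decide (Int.ofNat (n ^ 3 * (1000 * S.1 + tl n * Sc4))
      ≤ 1000 * (Int.ofNat (n ^ 3) * RI 1 n n - Int.ofNat (8 * Sc4)) * Int.ofNat (om n))) &&
  decide (Int.ofNat (n ^ 3 * (1000 * S.2 + tl n * Sc4))
      ≤ 1000 * (Int.ofNat (n ^ 3) * RI (-1) n n - Int.ofNat (8 * Sc4)) * Int.ofNat (om n))

def rowsOK (lo : ℕ) : ℕ → Bool
  | 0 => true
  | k + 1 => rowC (lo + k) (rowS (lo + k) 58) && rowsOK lo k

def ones : List ℤ := List.replicate 67 1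

def geoP {R : Type*} [CommSemiring R] (z : R) (i : ℕ) : R :=
  if 36 ≤ i then ((i - 36 : ℕ) : R) ^ 3 * hG (((i - 36 : ℕ) : R) * z) (80 : ℕ) 66 ones
  else ((36 - i : ℕ) : R) ^ 3 * hG (((36 - i : ℕ) : R) * z) (80 : ℕ) 66 (psm (-1) (palt ones))

def geoM {R : Type*} [CommSemiring R] (z : R) (i : ℕ) : R :=
  if 36 ≤ i then 0 else ((36 - i : ℕ) : R) ^ 3 * hG (((36 - i : ℕ) : R) * z) (80 : ℕ) 66 (palt ones)

def geoPN (z i : ℕ) : ℕ :=
  if 36 ≤ i then (i - 36) ^ 3 * hN ((i - 36) * z) 80 66 ones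
  else (36 - i) ^ 3 * hN ((36 - i) * z) 80 66 (psm (-1) (palt ones))

def geoMN (z i : ℕ) : ℕ :=
  if 36 ≤ i then 0 else (36 - i) ^ 3 * hN ((36 - i) * z) 80 66 (palt ones)

def dot2 : List ℤ → List ℕ → List ℕ → ℕ
  | a :: l, u :: p, v :: m =>
    Nat.add (Nat.add (Nat.mul a.toNat u) (Nat.mul (Int.neg a).toNat v)) (dot2 l p m)
  | _, _, _ => 0

def gPB : List ℕ := (List.range 74).map (geoPN (2 ^ 800))
def gMB : List ℕ := (List.range 74).map (geoMN (2 ^ 800))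
def gP1 : List ℕ := (List.range 74).map (geoPN 1)
def gM1 : List ℕ := (List.range 74).map (geoMN 1)
def xL1 : List ℤ := (List.range 74).map fun i => Int.ofNat i - 36
def xL2 : List ℤ := (List.range 74).map fun i => (Int.ofNat i - 36) * (Int.ofNat i - 36)
def x70 : List ℕ := (List.range 74).map fun i => (Int.ofNat i - 36).natAbs ^ 70

def gq (j : ℤ) : ℤ := if j = 0 then 70 else if j = 1 ∨ j = -1 then -76 else if j = 2 ∨ j = -2 then 9 else 0
def ddq (j : ℤ) : ℕ := if j = 0 then 20 else if j = 1 ∨ j = -1 then 370 else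
  if j = 2 ∨ j = -2 then 150 else if j = 3 ∨ j = -3 then 40 else if -18 ≤ j ∧ j ≤ 18 then 1 else 0

def mrg (l : List ℤ) : List ℤ := padd (0 :: palt l) (psm (-1) (palt l))

def tailC (j : ℤ) (L : List ℤ) : Bool :=
  decide (sumL L = 0) && decide (dotI L xL1 = 0) &&
  decide (gg * dotI L xL2 = 4 * gq j * Int.ofNat (2 ^ 320)) &&
  Nat.blt (dot2 L gP1 gM1) (2 ^ 800) && Nat.blt (dot2 L gM1 gP1) (2 ^ 800) &&
  Nat.ble (1000 * gg.toNat * (43 * l1d 800 67 (dot2 L gPB gMB) (dot2 L gMB gPB) + dot2 L x70 x70))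
    (ddq j * (32 * 2 ^ 320) * (43 * 80 ^ 67))

def tailOK : ℕ → Bool
  | 0 => true
  | k + 1 => tailC (Int.ofNat k - 18) (mrg (rows1.getD (2 * k) [])) && tailOK k

def tauOK : ℕ → Bool
  | 0 => true
  | k + 1 => Nat.ble (64 * k ^ 3 * gg.toNat * (tauI k).natAbs) (2 ^ 320 * 2 ^ 192) && tauOK k

def lcOK : ℕ → Bool
  | 0 => true
  | k + 1 => Nat.beq (Lc % (2 * ((k + 2) * (k + 1)))) 0 && lcOK k

end Pool.Agent.Lib.MP_cbe5a6_an
end
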